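import Pool.Agent.Lib.LargeAP.Spec

/-!
# LargeAP: ASM, one character
-/

set_option autoImplicit false

namespace Pool.Agent.Lib.LargeAP

open Complex MeasureTheory

namespace ASM

theorem split_integral (f : ℝ → ℂ) (hf : Integrable f) (T : ℝ) (hT : 0 ≤ T) :
    ∫ t, f t = (∫ t in {t : ℝ | T < |t|}, f t) + ∫ t in (-T)..T, f t := by
  have hS : MeasurableSet {t : ℝ | T < |t|} := measurableSet_lt measurable_const (measurable_id.abs)
  have hc : {t : ℝ | T < |t|}ᶜ = Set.Icc (-T) T := by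
    ext t
    simp only [Set.mem_compl_iff, Set.mem_setOf_eq, not_lt, Set.mem_Icc, abs_le]
  rw [← integral_add_compl hS hf, hc, intervalIntegral.integral_of_le (by linarith),
    integral_Icc_eq_integral_Ioc]

theorem IM_nonneg {q : ℕ} [NeZero q] (χ : DirichletCharacter ℂ q) (lam c B : ℝ) (hB : 0 ≤ B) :
    0 ≤ IM χ lam c B := by
  have h1 : 1 ≤ Real.exp B := Real.one_le_exp hB
  unfold IM
  exact intervalIntegral.integral_nonneg (by linarith) (fun t _ => by positivity)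

end ASM

open ASM in
theorem specASM (hEXP : LP.SpecEXP) (hSHG : SpecSHG) (hFAB : SpecFAB) (hTAI : SpecTAI)
    (hRCT : SpecRCT) : SpecASM := by
  intro lam c hlam hc hc1
  obtain ⟨CS, hCS, hS⟩ := hSHG lam 2 hlam
  obtain ⟨CF, hCF, hF⟩ := hFAB
  obtain ⟨CT, hCT, hT⟩ := hTAI lam hlam
  obtain ⟨CR, hCR, hR⟩ := hRCT lam c hlam hc hc1
  refine ⟨CS * CF + CT + CR, by positivity, ?_⟩
  intro q _ χ B u hχ hB hq hZ hu
  have hu0 : 0 < u := by linarith
  have hTb := hT q χ B u hB hu {t : ℝ | Real.exp B - 1 < |t|}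
    (measurableSet_lt measurable_const (measurable_id.abs)) (fun t ht => le_of_lt ht)
  have hRb := hR q χ B u hχ hB hq hZ hu
  have h1u : 0 < 1 / u := by positivity
  have h1u' : 1 / u ≤ 1 := by
    rw [div_le_one hu0]
    linarith
  obtain ⟨hint, hval⟩ := (hEXP lam hlam u).2 q χ (1 + 1 / u) (by linarith)
  obtain ⟨hdiff, hbd, hdec⟩ := hF q χ B hχ hB hq
  obtain ⟨hSi, hSb⟩ := hS (fA χ B) (CF * Real.exp (8 * B)) u (1 + 1 / u) (by positivity) hu0.le
    (by linarith) (by linarith) hdiff hbd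
  have hpt : ∀ t : ℝ, -(deriv χ.LFunction (((1 + 1 / u : ℝ) : ℂ) + t * Complex.I) /
      χ.LFunction (((1 + 1 / u : ℝ) : ℂ) + t * Complex.I)) *
      Complex.exp ((((1 + 1 / u : ℝ) : ℂ) + t * Complex.I) * u +
        (((1 + 1 / u : ℝ) : ℂ) + t * Complex.I) ^ 2 / (4 * lam)) =
      fA χ B (((1 + 1 / u : ℝ) : ℂ) + t * Complex.I) *
        KG lam u (((1 + 1 / u : ℝ) : ℂ) + t * Complex.I) +
      fB χ B (((1 + 1 / u : ℝ) : ℂ) + t * Complex.I) *
        KG lam u (((1 + 1 / u : ℝ) : ℂ) + t * Complex.I) := by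
    intro t
    have hre : (((1 + 1 / u : ℝ) : ℂ) + t * Complex.I).re = 1 + 1 / u := by simp
    have hL : DirichletCharacter.LFunction χ (((1 + 1 / u : ℝ) : ℂ) + t * Complex.I) ≠ 0 :=
      DirichletCharacter.LFunction_ne_zero_of_one_le_re χ (Or.inl hχ) (by rw [hre]; linarith)
    rw [← add_mul, ← hdec _ hL, ldL, KG, neg_div]
  have hBi : Integrable (fun t : ℝ => fB χ B (((1 + 1 / u : ℝ) : ℂ) + t * Complex.I) *
        KG lam u (((1 + 1 / u : ℝ) : ℂ) + t * Complex.I)) := by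
    have := hint.sub hSi
    refine this.congr (Filter.Eventually.of_forall fun t => ?_)
    simp only [Pi.sub_apply]
    rw [hpt t]
    ring
  have hsum : (2 * Real.pi : ℝ) * LP.F lam χ u =
      (∫ t : ℝ, fA χ B (((1 + 1 / u : ℝ) : ℂ) + t * Complex.I) *
        KG lam u (((1 + 1 / u : ℝ) : ℂ) + t * Complex.I)) +
      ((∫ t in {t : ℝ | Real.exp B - 1 < |t|}, fB χ B (((1 + 1 / u : ℝ) : ℂ) + t * Complex.I) *
        KG lam u (((1 + 1 / u : ℝ) : ℂ) + t * Complex.I)) +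
      ∫ t in (-(Real.exp B - 1))..(Real.exp B - 1),
        fB χ B (((1 + 1 / u : ℝ) : ℂ) + t * Complex.I) *
        KG lam u (((1 + 1 / u : ℝ) : ℂ) + t * Complex.I)) := by
    rw [hval, ← split_integral _ hBi (Real.exp B - 1)
      (by linarith [Real.one_le_exp (by linarith : (0 : ℝ) ≤ B)]), ← integral_add hSi hBi]
    exact integral_congr_ae (Filter.Eventually.of_forall hpt)
  have hIM := IM_nonneg χ lam c B (by linarith)
  have hnorm : 2 * Real.pi * ‖LP.F lam χ u‖ ≤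
      CS * (CF * Real.exp (8 * B)) * Real.exp (3 * u / 4) +
      (CT * (u ^ 3 * Real.exp (u - 4 * B)) +
        CR * (u ^ 3 * Real.exp (u - 4 * B) + B * Real.exp (u - c * u / (2 * B)) *
          IM χ lam c B)) := by
    have h1 : ‖((2 * Real.pi : ℝ) : ℂ) * LP.F lam χ u‖ = 2 * Real.pi * ‖LP.F lam χ u‖ := by
      rw [norm_mul, Complex.norm_real, Real.norm_of_nonneg (by positivity)]
    rw [← h1, hsum]
    exact (norm_add_le _ _).trans (add_le_add hSb ((norm_add_le _ _).trans (add_le_add hTb hRb)))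
  have h2 : ‖LP.F lam χ u‖ ≤ 2 * Real.pi * ‖LP.F lam χ u‖ := by
    have := Real.pi_gt_three
    nlinarith [norm_nonneg (LP.F lam χ u)]
  refine (h2.trans hnorm).trans ?_
  have e1 : Real.exp (8 * B + 3 * u / 4) = Real.exp (8 * B) * Real.exp (3 * u / 4) := Real.exp_add _ _
  rw [e1]
  have p1 : 0 ≤ Real.exp (8 * B) * Real.exp (3 * u / 4) := by positivity
  have p2 : 0 ≤ u ^ 3 * Real.exp (u - 4 * B) := by positivity
  have p3 : 0 ≤ B * Real.exp (u - c * u / (2 * B)) * IM χ lam c B := by positivity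
  nlinarith [mul_nonneg (mul_nonneg hCS.le hCF.le) p2, mul_nonneg (mul_nonneg hCS.le hCF.le) p3,
    mul_nonneg hCT.le p1, mul_nonneg hCT.le p3, mul_nonneg hCR.le p1]

end Pool.Agent.Lib.LargeAP
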