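import Pool.Agent.Lib.LargeAP.Spec

/-!
# LargeAP, module DAP: divisor sums in a residue class
-/

set_option autoImplicit false

namespace Pool.Agent.Lib.LargeAP

open Finset
open scoped Classical

namespace DAPM

theorem harm (W : ℕ) : ∑ j ∈ Icc 1 W, (1 : ℝ) / j ≤ 1 + Real.log W := by
  have h := harmonic_le_one_add_log W
  rw [harmonic_eq_sum_Icc] at h
  push_cast at h
  simpa [one_div] using h

theorem card_le (n : ℕ) :
    n.divisors.card ≤ 2 * (n.divisors.filter (fun m => m * m ≤ n)).card := by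
  have h1 := Finset.card_filter_add_card_filter_not (s := n.divisors) (fun m => m * m ≤ n)
  have h2 : (n.divisors.filter (fun m => ¬ m * m ≤ n)).card ≤
      (n.divisors.filter (fun m => m * m ≤ n)).card := by
    apply Finset.card_le_card_of_injOn (fun m => n / m)
    · intro m hm
      rw [Finset.mem_coe, Finset.mem_filter, Nat.mem_divisors] at hm
      obtain ⟨⟨⟨k, hk⟩, hn⟩, hm2⟩ := hm
      have hm0 : 0 < m := by
        rcases Nat.eq_zero_or_pos m with h | h
        · rw [h, zero_mul] at hk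
          exact absurd hk hn
        · exact h
      have e : n / m = k := by
        rw [hk]
        exact Nat.mul_div_cancel_left k hm0
      have hkm : k < m := by
        rw [hk, not_le] at hm2
        exact Nat.lt_of_mul_lt_mul_left hm2
      rw [Finset.mem_coe, Finset.mem_filter, Nat.mem_divisors]
      simp only [e]
      refine ⟨⟨⟨m, by rw [hk, mul_comm]⟩, hn⟩, ?_⟩
      rw [hk]
      exact Nat.mul_le_mul_right k hkm.le
    · intro m hm m' hm' h
      rw [Finset.mem_coe, Finset.mem_filter, Nat.mem_divisors] at hm hm'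
      obtain ⟨⟨⟨k, hk⟩, hn⟩, hm2⟩ := hm
      obtain ⟨⟨⟨k', hk'⟩, -⟩, hm2'⟩ := hm'
      have hm0 : 0 < m := by
        rcases Nat.eq_zero_or_pos m with h | h
        · rw [h, zero_mul] at hk
          exact absurd hk hn
        · exact h
      have hm0' : 0 < m' := by
        rcases Nat.eq_zero_or_pos m' with h | h
        · rw [h, zero_mul] at hk'
          exact absurd hk' hn
        · exact h
      have e : n / m = k := by
        rw [hk]
        exact Nat.mul_div_cancel_left k hm0
      have e' : n / m' = k' := by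
        rw [hk']
        exact Nat.mul_div_cancel_left k' hm0'
      have hkk : k = k' := by
        simp only at h
        rw [← e, h, e']
      have hk0 : 0 < k := by
        rcases Nat.eq_zero_or_pos k with h | h
        · rw [h, mul_zero] at hk
          exact absurd hk hn
        · exact h
      subst hkk
      exact Nat.eq_of_mul_eq_mul_right hk0 (hk.symm.trans hk')
  omega

theorem inner (q : ℕ) [NeZero q] (a : ZMod q) (Y W m : ℕ) (ha : IsUnit a)
    (hq : q ^ 3 ≤ Y) (hm : 1 ≤ m) :
    ∑ n ∈ ((Ioc Y W).filter (fun n : ℕ => (n : ZMod q) = a)).filter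
      (fun n => m ∣ n ∧ m * m ≤ n), (1 : ℝ) / n ≤ (1 + Real.log W) / q * (1 / m) := by
  set S := ((Ioc Y W).filter (fun n : ℕ => (n : ZMod q) = a)).filter
      (fun n => m ∣ n ∧ m * m ≤ n) with hS
  have hq0 : 0 < q := Nat.pos_of_ne_zero (NeZero.ne q)
  have hmq : 0 < m * q := Nat.mul_pos hm hq0
  have hmem : ∀ n ∈ S, Y < n ∧ n ≤ W ∧ (n : ZMod q) = a ∧ m ∣ n ∧ m * m ≤ n := by
    intro n hn
    rw [hS, Finset.mem_filter, Finset.mem_filter, Finset.mem_Ioc] at hn
    exact ⟨hn.1.1.1, hn.1.1.2, hn.1.2, hn.2.1, hn.2.2⟩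
  have hge : ∀ n ∈ S, m * q ≤ n := by
    intro n hn
    obtain ⟨h1, -, -, -, h5⟩ := hmem n hn
    by_contra hlt
    rw [not_le] at hlt
    have h6 : q * q ≤ n := by
      calc q * q ≤ q * q * q := Nat.le_mul_of_pos_right _ hq0
        _ = q ^ 3 := by ring
        _ ≤ n := by omega
    have h7 : (m * m) * (q * q) ≤ n * n := Nat.mul_le_mul h5 h6
    have h8 : n * n < (m * q) * (m * q) := Nat.mul_lt_mul'' hlt hlt
    have h9 : (m * m) * (q * q) = (m * q) * (m * q) := by ring
    omega
  have hinj : Set.InjOn (fun n => n / (m * q)) S := by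
    intro n hn n' hn' h
    obtain ⟨-, -, h3, h4, -⟩ := hmem n hn
    obtain ⟨-, -, h3', h4', -⟩ := hmem n' hn'
    have hcop : Nat.Coprime m q := by
      have h5 : Nat.Coprime n q := by
        rw [← ZMod.isUnit_iff_coprime, h3]
        exact ha
      exact Nat.Coprime.coprime_dvd_left h4 h5
    have hmod : n ≡ n' [MOD m * q] := by
      rw [← Nat.modEq_and_modEq_iff_modEq_mul hcop]
      constructor
      · exact ((Nat.modEq_zero_iff_dvd).2 h4).trans ((Nat.modEq_zero_iff_dvd).2 h4').symm
      · rw [← ZMod.natCast_eq_natCast_iff, h3, h3']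
    have h6 := Nat.div_add_mod n (m * q)
    have h7 := Nat.div_add_mod n' (m * q)
    have h8 : n % (m * q) = n' % (m * q) := hmod
    simp only at h
    rw [h, h8] at h6
    exact h6.symm.trans h7
  have hstep : ∀ n ∈ S, (1 : ℝ) / n ≤ 1 / (m * q * ((n / (m * q) : ℕ) : ℝ)) := by
    intro n hn
    have h1 : 0 < n / (m * q) := Nat.div_pos (hge n hn) hmq
    have h2 : m * q * (n / (m * q)) ≤ n := Nat.mul_div_le n (m * q)
    have h3 : ((m : ℝ) * q * ((n / (m * q) : ℕ) : ℝ)) ≤ n := by exact_mod_cast h2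
    have h4 : (0 : ℝ) < (m : ℝ) * q * ((n / (m * q) : ℕ) : ℝ) := by
      have : 0 < m * q * (n / (m * q)) := Nat.mul_pos hmq h1
      exact_mod_cast this
    exact one_div_le_one_div_of_le h4 h3
  calc ∑ n ∈ S, (1 : ℝ) / n ≤ ∑ n ∈ S, 1 / (m * q * ((n / (m * q) : ℕ) : ℝ)) :=
        Finset.sum_le_sum hstep
    _ = ∑ j ∈ S.image (fun n => n / (m * q)), (1 : ℝ) / (m * q * (j : ℝ)) := by
        rw [Finset.sum_image hinj]
    _ ≤ ∑ j ∈ Icc 1 W, (1 : ℝ) / (m * q * (j : ℝ)) := by
        apply Finset.sum_le_sum_of_subset_of_nonneg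
        · intro j hj
          rw [Finset.mem_image] at hj
          obtain ⟨n, hn, rfl⟩ := hj
          rw [Finset.mem_Icc]
          refine ⟨Nat.div_pos (hge n hn) hmq, ?_⟩
          exact (Nat.div_le_self _ _).trans (hmem n hn).2.1
        · intro j _ _
          positivity
    _ = (1 / q) * (1 / m) * ∑ j ∈ Icc 1 W, (1 : ℝ) / j := by
        rw [Finset.mul_sum]
        apply Finset.sum_congr rfl
        intro j _
        rw [one_div_mul_one_div, one_div_mul_one_div, mul_comm (q : ℝ) m]
    _ ≤ (1 / q) * (1 / m) * (1 + Real.log W) := by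
        apply mul_le_mul_of_nonneg_left (harm W)
        positivity
    _ = (1 + Real.log W) / q * (1 / m) := by ring

end DAPM

open DAPM in
/-- **Module DAP**: divisor sums in a residue class. -/
theorem specDAP : SpecDAP := by
  refine ⟨2, by norm_num, ?_⟩
  intro q _ a Y W ha hY hq hYW
  set F := (Ioc Y W).filter (fun n : ℕ => (n : ZMod q) = a) with hF
  have hW : 1 ≤ W := hY.trans hYW
  have hlog : 0 ≤ Real.log W := Real.log_natCast_nonneg W
  have h1 : ∀ n ∈ F, ((n.divisors.card : ℝ) / n) ≤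
      2 * ∑ m ∈ Icc 1 W, if m ∣ n ∧ m * m ≤ n then (1 : ℝ) / n else 0 := by
    intro n hn
    rw [hF, Finset.mem_filter, Finset.mem_Ioc] at hn
    have hn0 : n ≠ 0 := by omega
    have e1 : n.divisors.filter (fun m => m * m ≤ n) =
        (Icc 1 W).filter (fun m => m ∣ n ∧ m * m ≤ n) := by
      ext m
      rw [Finset.mem_filter, Finset.mem_filter, Nat.mem_divisors, Finset.mem_Icc]
      constructor
      · rintro ⟨⟨h3, -⟩, h4⟩
        refine ⟨⟨Nat.pos_of_dvd_of_pos h3 (Nat.pos_of_ne_zero hn0), ?_⟩, h3, h4⟩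
        exact (Nat.le_of_dvd (Nat.pos_of_ne_zero hn0) h3).trans hn.1.2
      · rintro ⟨-, h3, h4⟩
        exact ⟨⟨h3, hn0⟩, h4⟩
    have h2 : (n.divisors.card : ℝ) ≤
        2 * (((Icc 1 W).filter (fun m => m ∣ n ∧ m * m ≤ n)).card : ℝ) := by
      have := card_le n
      rw [e1] at this
      exact_mod_cast this
    rw [← Finset.sum_filter, Finset.sum_const, nsmul_eq_mul]
    have hnp : (0 : ℝ) ≤ 1 / n := by positivity
    calc (n.divisors.card : ℝ) / n = (n.divisors.card : ℝ) * (1 / n) := by ring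
      _ ≤ 2 * (((Icc 1 W).filter (fun m => m ∣ n ∧ m * m ≤ n)).card : ℝ) * (1 / n) :=
          mul_le_mul_of_nonneg_right h2 hnp
      _ = _ := by ring
  calc ∑ n ∈ F, ((n.divisors.card : ℝ) / n)
      ≤ ∑ n ∈ F, 2 * ∑ m ∈ Icc 1 W, (if m ∣ n ∧ m * m ≤ n then (1 : ℝ) / n else 0) :=
        Finset.sum_le_sum h1
    _ = 2 * ∑ m ∈ Icc 1 W, ∑ n ∈ F.filter (fun n => m ∣ n ∧ m * m ≤ n), (1 : ℝ) / n := by
        rw [← Finset.mul_sum, Finset.sum_comm]
        congr 1
        apply Finset.sum_congr rfl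
        intro m _
        exact (Finset.sum_filter _ _).symm
    _ ≤ 2 * ∑ m ∈ Icc 1 W, (1 + Real.log W) / q * (1 / m) := by
        apply mul_le_mul_of_nonneg_left _ (by norm_num)
        apply Finset.sum_le_sum
        intro m hm
        rw [Finset.mem_Icc] at hm
        exact inner q a Y W m ha hq hm.1
    _ = 2 * ((1 + Real.log W) / q) * ∑ m ∈ Icc 1 W, (1 : ℝ) / m := by
        rw [← Finset.mul_sum]
        ring
    _ ≤ 2 * ((1 + Real.log W) / q) * (1 + Real.log W) := by
        apply mul_le_mul_of_nonneg_left (harm W)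
        positivity
    _ = 2 * (1 + Real.log W) ^ 2 / q := by ring

end Pool.Agent.Lib.LargeAP
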