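import Pool.Agent.Lib.LargeAP.SpecH
import Pool.Agent.Lib.MP_926cc3_nt.TH.CNV
import Pool.Agent.Lib.MP_926cc3_nt.TH.All

/-!
# LargeAP, module DFW: windows with few rough numbers, Maier's constant
-/

set_option autoImplicit false

namespace Pool.Agent.Lib.LargeAP

open Finset Filter Topology
open scoped Classical

open Pool.Agent.Lib.MP_926cc3_nt.RS (V NoSmall)
open Pool.Agent.Lib.MP_926cc3_nt.TH (IsG r)

noncomputable section

namespace DFWM

lemma one_le_g {g : ℝ → ℝ} (hg : IsG g) (s : ℝ) : 1 ≤ g s := by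
  have h1 : g (min s 1) = 1 := hg.2.2.1 _ (min_le_right _ _)
  rw [← h1]
  exact hg.2.1 (min_le_left _ _)

/-- a point `t2 > t` with a small difference quotient -/
lemma exists_t2 {g : ℝ → ℝ} (hg : IsG g) {t lam : ℝ} (ht : 1 < t) (h : g (t - 1) / t < lam) :
    ∃ t2 : ℝ, t < t2 ∧ g t2 - g t < lam * (t2 - t) := by
  have h1 := hasDerivAt_iff_tendsto_slope.1 (hg.2.2.2 t ht)
  have h2 : Tendsto (slope g t) (𝓝[>] t) (𝓝 (g (t - 1) / t)) :=
    h1.mono_left (nhdsWithin_mono t (fun x hx => ne_of_gt hx))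
  have h3 := (h2.eventually_lt_const h).and self_mem_nhdsWithin
  obtain ⟨t2, h4, h5⟩ := h3.exists
  have h5' : t < t2 := h5
  refine ⟨t2, h5', ?_⟩
  rw [slope_def_field, div_lt_iff₀ (by linarith)] at h4
  exact h4

end DFWM

open DFWM in
theorem specDFW (hMER : SpecMER) : SpecDFW := by
  intro g t U kap hg ht hU hUt hkap
  have hcpos : 0 < Real.exp (-Real.eulerMascheroniConstant) := Real.exp_pos _
  obtain ⟨c, hc⟩ : ∃ c : ℝ, c = Real.exp (-Real.eulerMascheroniConstant) := ⟨_, rfl⟩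
  have hc0 : 0 < c := hc ▸ hcpos
  have hec : Real.exp Real.eulerMascheroniConstant * c = 1 := by
    rw [hc, ← Real.exp_add, add_neg_cancel, Real.exp_zero]
  have hg1 := one_le_g hg (t - 1)
  have ht0 : 0 < t := by linarith
  have hk0 : 0 < kap := lt_trans (by positivity) hkap
  have hder : g (t - 1) / t < kap * c := by
    have h1 := mul_lt_mul_of_pos_right hkap hc0
    have h2 : Real.exp Real.eulerMascheroniConstant * (g (t - 1) / t) * c = g (t - 1) / t := by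
      rw [mul_right_comm, hec, one_mul]
    rwa [h2] at h1
  obtain ⟨t2, h12, hlt⟩ := exists_t2 hg ht hder
  have ht2 : 0 ≤ t2 := by linarith
  have hV : Tendsto (fun z : ℕ => V z * Real.log z) atTop (𝓝 c) := by rw [hc]; exact hMER
  have hlog : Tendsto (fun n : ℕ => Real.log (n : ℝ)) atTop atTop :=
    Real.tendsto_log_atTop.comp tendsto_natCast_atTop_atTop
  have hV0 : Tendsto (fun z : ℕ => V z) atTop (𝓝 0) := by
    have h1 : Tendsto (fun z : ℕ => V z * Real.log z * (Real.log z)⁻¹) atTop (𝓝 (c * 0)) :=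
      hV.mul hlog.inv_tendsto_atTop
    rw [mul_zero] at h1
    refine h1.congr' ?_
    filter_upwards [hlog.eventually_gt_atTop 0] with z hz
    field_simp
  have hlim : Tendsto (fun z : ℕ => kap * ((V z * Real.log z) * (t2 - t) - V z * Real.log 3) -
      (Pool.Agent.Lib.MP_926cc3_nt.TH.G z t2 - Pool.Agent.Lib.MP_926cc3_nt.TH.G z t)) atTop
      (𝓝 (kap * (c * (t2 - t) - 0 * Real.log 3) - (g t2 - g t))) := by
    have h1 := Pool.Agent.Lib.MP_926cc3_nt.TH.All.hCNV g hg t ht0.le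
    have h2 := Pool.Agent.Lib.MP_926cc3_nt.TH.All.hCNV g hg t2 ht2
    exact (((hV.mul_const _).sub (hV0.mul_const _)).const_mul kap).sub (h2.sub h1)
  have hlim0 : 0 < kap * (c * (t2 - t) - 0 * Real.log 3) - (g t2 - g t) := by
    rw [zero_mul, sub_zero]
    have : kap * (c * (t2 - t)) = kap * c * (t2 - t) := by ring
    linarith
  have hpowlim : Tendsto (fun z : ℕ => ((z : ℝ)) ^ (t - U)) atTop atTop :=
    (tendsto_rpow_atTop (by linarith)).comp tendsto_natCast_atTop_atTop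
  obtain ⟨z1, hz1⟩ := eventually_atTop.1 ((hlim.eventually_const_lt hlim0).and
    (hpowlim.eventually_ge_atTop 4))
  obtain ⟨T, hT⟩ := exists_nat_ge t2
  refine ⟨T, max z1 2, ?_⟩
  intro z hz H hH1 hHU
  have hz2 : 2 ≤ z := (le_max_right _ _).trans hz
  obtain ⟨hφ, hz4⟩ := hz1 z ((le_max_left _ _).trans hz)
  have hzR : (2 : ℝ) ≤ z := by exact_mod_cast hz2
  have hz0 : (0 : ℝ) < z := by linarith
  have hL0 : 0 < Real.log z := Real.log_pos (by linarith)
  have hVp := Pool.Agent.Lib.MP_926cc3_nt.RS.Gra.V_pos z hz2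
  by_contra hcon
  push Not at hcon
  obtain ⟨X1, hX1⟩ : ∃ X1 : ℝ, X1 = Real.exp (t * Real.log z) := ⟨_, rfl⟩
  obtain ⟨X2, hX2⟩ : ∃ X2 : ℝ, X2 = Real.exp (t2 * Real.log z) := ⟨_, rfl⟩
  obtain ⟨x1, hx1⟩ : ∃ x1 : ℕ, x1 = ⌊X1⌋₊ := ⟨_, rfl⟩
  obtain ⟨x2, hx2⟩ : ∃ x2 : ℕ, x2 = ⌊X2⌋₊ := ⟨_, rfl⟩
  have hX1p : 0 < X1 := by rw [hX1]; exact Real.exp_pos _
  have hX2p : 0 < X2 := by rw [hX2]; exact Real.exp_pos _
  have hX12 : X1 ≤ X2 := by
    rw [hX1, hX2]
    exact Real.exp_le_exp.2 (mul_le_mul_of_nonneg_right h12.le hL0.le)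
  have hx12 : x1 ≤ x2 := by
    rw [hx1, hx2]
    exact Nat.floor_le_floor hX12
  have hpow : ∀ n : ℕ, Real.exp (n * Real.log z) = (z : ℝ) ^ n := by
    intro n
    rw [← Real.log_pow, Real.exp_log (by positivity)]
  have hrp : ∀ s : ℝ, (z : ℝ) ^ s = Real.exp (s * Real.log z) := by
    intro s
    rw [Real.rpow_def_of_pos hz0, mul_comm]
  have hzU : 1 ≤ (z : ℝ) ^ U := Real.one_le_rpow (by linarith) hU.le
  have hX1U : 4 * (z : ℝ) ^ U ≤ X1 := by
    have h1 : X1 = (z : ℝ) ^ (t - U) * (z : ℝ) ^ U := by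
      rw [← Real.rpow_add hz0, sub_add_cancel, hrp, hX1]
    rw [h1]
    exact mul_le_mul_of_nonneg_right hz4 (by linarith)
  have hH4 : 4 * (H : ℝ) ≤ X1 := by linarith
  have hX14 : 4 ≤ X1 := by linarith
  have hx1R0 : X1 < (x1 : ℝ) + 1 := by
    rw [hx1]
    exact Nat.lt_floor_add_one _
  have hHx1 : H < x1 := by
    have h1 : (H : ℝ) < x1 := by linarith
    exact_mod_cast h1
  have hx2T : x2 ≤ z ^ T := by
    have h1 : (x2 : ℝ) ≤ (z : ℝ) ^ T := by
      rw [hx2]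
      refine (Nat.floor_le hX2p.le).trans ?_
      rw [← hpow, hX2]
      apply Real.exp_le_exp.2
      exact mul_le_mul_of_nonneg_right hT hL0.le
    exact_mod_cast h1
  have hlam : 0 ≤ kap * V z := mul_nonneg hk0.le hVp.le
  have hW := (Pool.Agent.Lib.MP_926cc3_nt.TH.specWLG (r z) H x1 x2 (kap * V z)
    (fun n => Pool.Agent.Lib.MP_926cc3_nt.RS.Gra.r_nonneg z n) hlam hH1 hHx1 hx12).1
    (fun a _ ha => (hcon a (ha.trans hx2T)).le)
  have hsum : ∑ n ∈ Finset.Ioc x1 x2, r z n / n =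
      Pool.Agent.Lib.MP_926cc3_nt.TH.G z t2 - Pool.Agent.Lib.MP_926cc3_nt.TH.G z t := by
    unfold Pool.Agent.Lib.MP_926cc3_nt.TH.G
    rw [← hX1, ← hX2, ← hx1, ← hx2, eq_sub_iff_add_eq, add_comm]
    exact Finset.sum_Ioc_consecutive _ (Nat.zero_le _) hx12
  rw [hsum] at hW
  have hx1R : (x1 : ℝ) ≤ X1 := by
    rw [hx1]
    exact Nat.floor_le hX1p.le
  have hx2R : X2 < (x2 : ℝ) + 1 := by
    rw [hx2]
    exact Nat.lt_floor_add_one _
  have hx2h : X2 / 2 ≤ (x2 : ℝ) := by linarith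
  have hden : (x1 : ℝ) + H ≤ 3 / 2 * X1 := by linarith
  have hden0 : (0 : ℝ) < (x1 : ℝ) + H := by
    have : (1 : ℝ) ≤ H := by exact_mod_cast hH1
    have : (0 : ℝ) ≤ x1 := Nat.cast_nonneg _
    linarith
  have hratio : X2 / X1 / 3 ≤ (x2 : ℝ) / ((x1 : ℝ) + H) := by
    rw [le_div_iff₀ hden0]
    have h1 : X2 / X1 / 3 * ((x1 : ℝ) + H) ≤ X2 / X1 / 3 * (3 / 2 * X1) :=
      mul_le_mul_of_nonneg_left hden (by positivity)
    have h2 : X2 / X1 / 3 * (3 / 2 * X1) = X2 / 2 := by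
      field_simp
    linarith
  have hlogr : (t2 - t) * Real.log z - Real.log 3 ≤ Real.log ((x2 : ℝ) / ((x1 : ℝ) + H)) := by
    have h1 : Real.log (X2 / X1 / 3) = (t2 - t) * Real.log z - Real.log 3 := by
      rw [Real.log_div (by positivity) (by norm_num), Real.log_div hX2p.ne' hX1p.ne', hX1, hX2,
        Real.log_exp, Real.log_exp]
      ring
    rw [← h1]
    exact Real.log_le_log (by positivity) hratio
  have h5 := mul_le_mul_of_nonneg_left hlogr hlam
  have h6 : kap * V z * ((t2 - t) * Real.log z - Real.log 3) =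
      kap * ((V z * Real.log z) * (t2 - t) - V z * Real.log 3) := by ring
  rw [h6] at h5
  linarith

end

end Pool.Agent.Lib.LargeAP
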