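import Pool.Agent.Lib.LargeAP.Spec

/-!
# LargeAP, module DRP: one sided bounds for `Re (-L'/L)`
-/

set_option autoImplicit false

namespace Pool.Agent.Lib.LargeAP

open Finset Filter Topology Complex Metric
open scoped Classical ArithmeticFunction

noncomputable section

namespace DRPM

lemma re_sum (Z : Multiset ℂ) (s : ℂ) :
    ((Z.map (fun ρ => (s - ρ)⁻¹)).sum).re = (Z.map (fun ρ => ((s - ρ)⁻¹).re)).sum := by
  induction Z using Multiset.induction_on with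
  | empty => simp
  | cons a Z ih => simp only [Multiset.map_cons, Multiset.sum_cons, Complex.add_re, ih]

lemma sum_nonneg (Z : Multiset ℂ) (g : ℂ → ℝ) (h : ∀ ρ ∈ Z, 0 ≤ g ρ) : 0 ≤ (Z.map g).sum := by
  induction Z using Multiset.induction_on with
  | empty => simp
  | cons a Z ih =>
    rw [Multiset.map_cons, Multiset.sum_cons]
    exact add_nonneg (h a (Multiset.mem_cons_self a Z))
      (ih fun ρ hρ => h ρ (Multiset.mem_cons_of_mem hρ))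

lemma sum_one (Z : Multiset ℂ) (g : ℂ → ℝ) (h : ∀ ρ ∈ Z, 0 ≤ g ρ) (ρ : ℂ) (hρ : ρ ∈ Z) :
    g ρ ≤ (Z.map g).sum := by
  obtain ⟨Z', rfl⟩ := Multiset.exists_cons_of_mem hρ
  rw [Multiset.map_cons, Multiset.sum_cons]
  have := sum_nonneg Z' g fun x hx => h x (Multiset.mem_cons_of_mem hx)
  linarith

lemma sum_two (Z : Multiset ℂ) (g : ℂ → ℝ) (h : ∀ ρ ∈ Z, 0 ≤ g ρ) (ρ ρ' : ℂ) (hne : ρ ≠ ρ')
    (hρ : ρ ∈ Z) (hρ' : ρ' ∈ Z) : g ρ + g ρ' ≤ (Z.map g).sum := by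
  obtain ⟨Z', rfl⟩ := Multiset.exists_cons_of_mem hρ
  have h2 : ρ' ∈ Z' := by
    rcases Multiset.mem_cons.1 hρ' with h3 | h3
    · exact absurd h3.symm hne
    · exact h3
  rw [Multiset.map_cons, Multiset.sum_cons]
  have := sum_one Z' g (fun x hx => h x (Multiset.mem_cons_of_mem hx)) ρ' h2
  linarith

lemma mem_small (B : ℝ) (hB : 16 ≤ B) (s : ℂ) (h1 : 1 < s.re) (h2 : s.re ≤ 1 + 1 / 8) :
    s ∈ closedBall (⟨1 + 1 / B, s.im⟩ : ℂ) (1 / 8) := by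
  have hB0 : (0 : ℝ) < B := by linarith
  have hb : 1 / B ≤ 1 / 16 := one_div_le_one_div_of_le (by norm_num) hB
  have hb0 : 0 < 1 / B := by positivity
  rw [mem_closedBall, dist_eq_norm]
  have e : s - (⟨1 + 1 / B, s.im⟩ : ℂ) = ((s.re - (1 + 1 / B) : ℝ) : ℂ) := by
    apply Complex.ext <;> simp
  rw [e, Complex.norm_real, Real.norm_eq_abs, abs_le]
  constructor <;> linarith

lemma mem_big (B : ℝ) (hB : 16 ≤ B) (t : ℝ) (ρ : ℂ) (h1 : ρ.re < 1) (h2 : 7 / 8 ≤ ρ.re)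
    (h3 : |ρ.im - t| ≤ 1 / 8) : ρ ∈ closedBall (⟨1 + 1 / B, t⟩ : ℂ) (1 / 4) := by
  have hB0 : (0 : ℝ) < B := by linarith
  have hb : 1 / B ≤ 1 / 16 := one_div_le_one_div_of_le (by norm_num) hB
  have hb0 : 0 < 1 / B := by positivity
  rw [mem_closedBall, Complex.dist_eq_re_im]
  apply Real.sqrt_le_iff.2
  refine ⟨by norm_num, ?_⟩
  have h4 : |ρ.re - (1 + 1 / B)| ≤ 3 / 16 := by
    rw [abs_le]
    constructor <;> linarith
  have h5 : (ρ.re - (1 + 1 / B)) ^ 2 ≤ (3 / 16) ^ 2 := by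
    rw [← sq_abs]
    exact pow_le_pow_left₀ (abs_nonneg _) h4 2
  have h6 : (ρ.im - t) ^ 2 ≤ (1 / 8) ^ 2 := by
    rw [← sq_abs]
    exact pow_le_pow_left₀ (abs_nonneg _) h3 2
  have h7 : (ρ.re - (⟨1 + 1 / B, t⟩ : ℂ).re) ^ 2 + (ρ.im - (⟨1 + 1 / B, t⟩ : ℂ).im) ^ 2 ≤
      (3 / 16) ^ 2 + (1 / 8) ^ 2 := add_le_add h5 h6
  refine h7.trans ?_
  norm_num

end DRPM

theorem specDRP (hEXL : SpecEXL) : SpecDRP := by
  obtain ⟨C, hC, hE⟩ := hEXL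
  refine ⟨C, hC, ?_⟩
  intro q _ χ hχ B s hB hq ht h1 h2
  obtain ⟨Z, hZ1, hZ2, hZ3⟩ := hE q χ hχ B s.im hB hq ht
  have hLs : DirichletCharacter.LFunction χ s ≠ 0 :=
    DirichletCharacter.LFunction_ne_zero_of_one_le_re χ (Or.inl hχ) h1.le
  have hre : ∀ ρ : ℂ, DirichletCharacter.LFunction χ ρ = 0 → ρ.re < 1 := by
    intro ρ hρ
    by_contra hcon
    exact DirichletCharacter.LFunction_ne_zero_of_one_le_re χ (Or.inl hχ) (not_lt.1 hcon) hρ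
  have hmain := hZ3 s (DRPM.mem_small B hB s h1 h2) hLs
  have hkey : (ldL χ s).re + (Z.map (fun ρ => ((s - ρ)⁻¹).re)).sum ≤ C * B := by
    rw [← DRPM.re_sum, ← Complex.add_re]
    exact (Complex.re_le_norm _).trans hmain
  have hpos : ∀ ρ ∈ Z, 0 ≤ ((s - ρ)⁻¹).re := by
    intro ρ hρ
    rw [Complex.inv_re]
    apply div_nonneg _ (Complex.normSq_nonneg _)
    have := hre ρ (hZ1 ρ hρ).1
    rw [Complex.sub_re]
    linarith
  refine ⟨?_, ?_, ?_⟩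
  · have := DRPM.sum_nonneg Z (fun ρ => ((s - ρ)⁻¹).re) hpos
    linarith
  · intro ρ hρ h3 h4
    have hm := hZ2 ρ (DRPM.mem_big B hB s.im ρ (hre ρ hρ) h3 h4) hρ
    have := DRPM.sum_one Z (fun ρ => ((s - ρ)⁻¹).re) hpos ρ hm
    linarith
  · intro ρ ρ' hne hρ h3 h4 hρ' h3' h4'
    have hm := hZ2 ρ (DRPM.mem_big B hB s.im ρ (hre ρ hρ) h3 h4) hρ
    have hm' := hZ2 ρ' (DRPM.mem_big B hB s.im ρ' (hre ρ' hρ') h3' h4') hρ'
    have := DRPM.sum_two Z (fun ρ => ((s - ρ)⁻¹).re) hpos ρ ρ' hne hm hm'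
    linarith

end

end Pool.Agent.Lib.LargeAP
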