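import Pool.Agent.Lib.LargeAP.SpecH
import Pool.Agent.Lib.MP_391708_nt.QPA.Bt
import Pool.Agent.Lib.MP_391708_nt.QPA.Selb
import Pool.Agent.Lib.MP_926cc3_nt.PP.TOT

/-!
# LargeAP, module DRQ: dropping one prime from the sieve, windows of length `≥ z²`
-/

set_option autoImplicit false

namespace Pool.Agent.Lib.LargeAP

open Finset Filter Topology
open scoped Classical

open Pool.Agent.Lib.MP_926cc3_nt.RS (V NoSmall)
open Pool.Agent.Lib.MP_926cc3_nt.TH (IsG r)
open Pool.Agent.Lib.MP_926cc3_nt.PP (Mz)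

noncomputable section

namespace DRQM

/-- rough numbers in windows -/
lemma windows : ∃ C : ℝ, 0 < C ∧ ∀ z a Y : ℕ, 2 ≤ z → z ≤ Y →
    (((Ioc a (a + Y)).filter (fun j => NoSmall z j)).card : ℝ) ≤ C * Y / Real.log z := by
  obtain ⟨C, hC, hBT⟩ := Pool.Agent.Lib.MP391708.QPA.specBT Pool.Agent.Lib.MP391708.QPA.specSELB
  refine ⟨6 * C + 3, by positivity, fun z a Y hz hzY => ?_⟩
  have hz2 : (2 : ℝ) ≤ z := by exact_mod_cast hz
  have hzY' : (z : ℝ) ≤ Y := by exact_mod_cast hzY
  have hlog : 0 < Real.log z := Real.log_pos (by linarith)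
  have hY0 : (0 : ℝ) ≤ Y := Nat.cast_nonneg Y
  rcases lt_or_ge z 17 with h17 | h17
  · have h1 : (((Ioc a (a + Y)).filter (fun j => NoSmall z j)).card : ℝ) ≤ Y := by
      have := Finset.card_filter_le (Ioc a (a + Y)) (fun j => NoSmall z j)
      rw [Nat.card_Ioc, Nat.add_sub_cancel_left] at this
      exact_mod_cast this
    have h2 : Real.log z ≤ 3 := by
      have h3 : (z : ℝ) ≤ Real.exp 3 := by
        have h4 : (2.7 : ℝ) ≤ Real.exp 1 := by linarith [Real.exp_one_gt_d9]
        have h5 : Real.exp 3 = Real.exp 1 ^ 3 := by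
          rw [← Real.exp_nat_mul]; norm_num
        have h6 : (2.7 : ℝ) ^ 3 ≤ Real.exp 1 ^ 3 := pow_le_pow_left₀ (by norm_num) h4 3
        have h7 : (z : ℝ) ≤ 16 := by exact_mod_cast Nat.lt_succ_iff.1 h17
        rw [h5]
        norm_num at h6
        linarith
      exact (Real.log_le_iff_le_exp (by linarith)).2 h3
    refine h1.trans ?_
    rw [le_div_iff₀ hlog]
    nlinarith [mul_nonneg hC.le hY0, mul_le_mul_of_nonneg_left h2 hY0]
  · have h17' : (17 : ℝ) ≤ z := by exact_mod_cast h17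
    set y : ℝ := (z : ℝ) ^ ((1 : ℝ) / 4) with hy
    have hz0 : (0 : ℝ) < z := by linarith
    have hy2 : 2 ≤ y := by
      have h1 : ((2 : ℝ) ^ (4 : ℕ)) ^ ((1 : ℝ) / 4) ≤ (z : ℝ) ^ ((1 : ℝ) / 4) :=
        Real.rpow_le_rpow (by positivity) (by norm_num; linarith) (by norm_num)
      have h2 : ((2 : ℝ) ^ (4 : ℕ)) ^ ((1 : ℝ) / 4) = 2 := by
        rw [← Real.rpow_natCast, ← Real.rpow_mul (by norm_num)]
        norm_num
      rwa [h2] at h1
    have hyz : y < z := by
      have h1 : (z : ℝ) ^ ((1 : ℝ) / 4) < (z : ℝ) ^ (1 : ℝ) :=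
        Real.rpow_lt_rpow_of_exponent_lt (by linarith) (by norm_num)
      rwa [Real.rpow_one] at h1
    have hb := hBT y z 1 0 a Y hy2 hyz le_rfl
    have hly : Real.log y = Real.log z / 4 := by
      rw [hy, Real.log_rpow hz0]; ring
    have hy22 : y ^ 2 = √(z : ℝ) := by
      rw [hy, Real.sqrt_eq_rpow, ← Real.rpow_natCast, ← Real.rpow_mul hz0.le]
      norm_num
    have hsub : (Ioc a (a + Y)).filter (fun j => NoSmall z j) ⊆
        (Ioc a (a + Y)).filter (fun u => u % 1 = 0 ∧ Pool.Agent.Lib.MP391708.QPA.Rough z u) := by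
      intro j hj
      simp only [Finset.mem_filter, Finset.mem_Ioc] at hj ⊢
      exact ⟨hj.1, Nat.mod_one j, fun p hp hpj => by exact_mod_cast hj.2 p hp hpj⟩
    have hcard : (((Ioc a (a + Y)).filter (fun j => NoSmall z j)).card : ℝ) ≤
        C * Y / (((1 : ℕ).totient : ℝ) * Real.log y) + C * y ^ 2 :=
      le_trans (by exact_mod_cast Finset.card_le_card hsub) hb
    rw [Nat.totient_one, Nat.cast_one, one_mul, hly, hy22] at hcard
    have hsq : √(z : ℝ) ≤ 2 * Y / Real.log z := by
      rw [le_div_iff₀ hlog]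
      have h1 : Real.log z ≤ 2 * √(z : ℝ) := by
        have h2 := Real.log_sqrt hz0.le
        have h3 := Real.log_le_sub_one_of_pos (Real.sqrt_pos.2 hz0)
        linarith
      have h4 : √(z : ℝ) * √(z : ℝ) = z := Real.mul_self_sqrt hz0.le
      have h5 := mul_le_mul_of_nonneg_left h1 (Real.sqrt_nonneg (z : ℝ))
      nlinarith
    refine hcard.trans ?_
    have h6 : C * Y / (Real.log z / 4) = 4 * C * Y / Real.log z := by
      field_simp
    have h7 : C * √(z : ℝ) ≤ C * (2 * Y / Real.log z) := mul_le_mul_of_nonneg_left hsq hC.le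
    have h8 : (6 * C + 3) * Y / Real.log z = 4 * C * Y / Real.log z + C * (2 * Y / Real.log z) +
        3 * Y / Real.log z := by
      field_simp
      ring
    rw [h6, h8]
    have h9 : 0 ≤ 3 * (Y : ℝ) / Real.log z := by positivity
    linarith

/-- the integers coprime to the modulus in a window -/
def N (z p0 a L : ℕ) : Finset ℕ := (Ioc a (a + L)).filter (fun n => n.Coprime (Mz z p0))

/-- the rough numbers in a window -/
def Rg (z a L : ℕ) : Finset ℕ := (Ioc a (a + L)).filter (fun n => NoSmall z n)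

lemma coprime_iff {z p0 : ℕ} (hz : 2 ≤ z) (n : ℕ) :
    n.Coprime (Mz z p0) ↔ ∀ p : ℕ, p.Prime → p ∣ n → p ≠ p0 → z ≤ p := by
  have hT := (Pool.Agent.Lib.MP_926cc3_nt.PP.specTOT z p0 hz).1
  constructor
  · intro h p hp hpn hne
    by_contra hlt
    have h1 := (hT p hp).2 ⟨not_le.1 hlt, hne⟩
    have h2 := Nat.dvd_gcd hpn h1
    rw [h] at h2
    exact hp.one_lt.ne' (Nat.dvd_one.1 h2)
  · intro h
    rw [Nat.coprime_iff_gcd_eq_one] at *
    by_contra hne
    obtain ⟨p, hp, hpd⟩ := Nat.exists_prime_and_dvd hne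
    have h1 := (hT p hp).1 (hpd.trans (Nat.gcd_dvd_right _ _))
    have h2 := h p hp (hpd.trans (Nat.gcd_dvd_left _ _)) h1.2
    omega

lemma step {z p0 : ℕ} (hz : 2 ≤ z) (hp0 : p0.Prime) (a L : ℕ) :
    (N z p0 a L).card ≤ (Rg z a L).card +
      (N z p0 (a / p0) ((a + L) / p0 - a / p0)).card := by
  have hle : a / p0 ≤ (a + L) / p0 := Nat.div_le_div_right (Nat.le_add_right _ _)
  have hsub : N z p0 a L ⊆ Rg z a L ∪
      (N z p0 (a / p0) ((a + L) / p0 - a / p0)).image (fun m => p0 * m) := by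
    intro n hn
    simp only [N, mem_filter, mem_Ioc] at hn
    obtain ⟨⟨h1, h2⟩, h3⟩ := hn
    rw [mem_union]
    by_cases hd : p0 ∣ n
    · right
      obtain ⟨m, rfl⟩ := hd
      refine mem_image.2 ⟨m, ?_, rfl⟩
      simp only [N, mem_filter, mem_Ioc]
      refine ⟨⟨?_, ?_⟩, Nat.Coprime.coprime_dvd_left (Dvd.intro_left p0 rfl) h3⟩
      · rw [Nat.div_lt_iff_lt_mul hp0.pos]
        rw [Nat.mul_comm]; exact h1
      · rw [Nat.add_sub_cancel' hle, Nat.le_div_iff_mul_le hp0.pos, Nat.mul_comm]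
        exact h2
    · left
      simp only [Rg, mem_filter, mem_Ioc]
      refine ⟨⟨h1, h2⟩, fun p hp hpn => ?_⟩
      exact (coprime_iff hz n).1 h3 p hp hpn (fun h => hd (h ▸ hpn))
  refine (card_le_card hsub).trans ((card_union_le _ _).trans ?_)
  exact Nat.add_le_add_left card_image_le _

lemma len {p0 : ℕ} (hp0 : p0.Prime) (a L : ℕ) :
    (a + L) / p0 - a / p0 ≤ L / p0 + 1 := by
  have h1 := Nat.div_add_mod a p0
  have h2 := Nat.mod_lt a hp0.pos
  have h3 : (a + L) / p0 ≤ a / p0 + (L / p0 + 1) := by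
    have h5 := Nat.div_add_mod L p0
    have h6 := Nat.mod_lt L hp0.pos
    have h4 : a + L < (a / p0 + (L / p0 + 1) + 1) * p0 := by
      have h7 : (a / p0 + (L / p0 + 1) + 1) * p0 = p0 * (a / p0) + p0 * (L / p0) + p0 + p0 := by
        ring
      omega
    have h8 := (Nat.div_lt_iff_lt_mul hp0.pos).2 h4
    exact Nat.lt_succ_iff.1 h8
  exact Nat.sub_le_iff_le_add'.2 h3

lemma bound {z p0 : ℕ} {C : ℝ} (hz : 3 ≤ z) (hp0 : p0.Prime) (hC : 0 < C)
    (hW : ∀ a Y : ℕ, z ≤ Y →
      (((Ioc a (a + Y)).filter (fun j => NoSmall z j)).card : ℝ) ≤ C * Y / Real.log z) :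
    ∀ L a : ℕ, ((N z p0 a L).card : ℝ) ≤ 6 * C * L / Real.log z + z := by
  have hz3 : (3 : ℝ) ≤ z := by exact_mod_cast hz
  have hlog : 0 < Real.log z := Real.log_pos (by linarith)
  intro L
  induction L using Nat.strong_induction_on with
  | _ L ih =>
    intro a
    rcases lt_or_ge L z with hL | hL
    · have h1 : (N z p0 a L).card ≤ L := by
        have := card_filter_le (Ioc a (a + L)) (fun n => n.Coprime (Mz z p0))
        rw [Nat.card_Ioc, Nat.add_sub_cancel_left] at this
        exact this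
      have h2 : ((N z p0 a L).card : ℝ) ≤ z := by exact_mod_cast h1.trans hL.le
      have h3 : 0 ≤ 6 * C * L / Real.log z := by positivity
      linarith
    · have h1 := step (by omega : 2 ≤ z) hp0 a L
      have h2 := len hp0 a L
      have h3 : L / p0 ≤ L / 2 := Nat.div_le_div_left hp0.two_le (by norm_num)
      set L' := (a + L) / p0 - a / p0 with hL'
      have h4 : L' < L := by omega
      have h5 := ih L' h4 (a / p0)
      have h6 := hW a L hL
      have h7 : ((N z p0 a L).card : ℝ) ≤ ((Rg z a L).card : ℝ) +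
          ((N z p0 (a / p0) L').card : ℝ) := by exact_mod_cast h1
      have h8 : (L' : ℝ) ≤ L / 2 + 1 := by
        have h9 : L' ≤ L / 2 + 1 := by omega
        have h10 : ((L / 2 : ℕ) : ℝ) ≤ (L : ℝ) / 2 := Nat.cast_div_le
        have h11 : (L' : ℝ) ≤ ((L / 2 : ℕ) : ℝ) + 1 := by exact_mod_cast h9
        linarith
      have hL3 : (3 : ℝ) ≤ L := by exact_mod_cast (hz.trans hL)
      have h12 : C * L / Real.log z + 6 * C * L' / Real.log z ≤ 6 * C * L / Real.log z := by
        rw [← add_div]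
        apply div_le_div_of_nonneg_right _ hlog.le
        nlinarith [mul_le_mul_of_nonneg_left h8 hC.le, mul_le_mul_of_nonneg_left hL3 hC.le]
      have h13 : ((Rg z a L).card : ℝ) ≤ C * L / Real.log z := h6
      linarith

end DRQM

open DRQM in
theorem specDRQ : SpecDRQ := by
  obtain ⟨C, hC, hW⟩ := windows
  refine ⟨12 * C, by positivity, fun z p0 a L hz hp0 hL => ?_⟩
  have hz2 : (2 : ℝ) ≤ z := by exact_mod_cast hz
  have hlog : 0 < Real.log z := Real.log_pos (by linarith)
  have hp0' : (0 : ℝ) < p0 := by exact_mod_cast hp0.pos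
  have hsum : ∑ n ∈ Finset.Ioc a (a + L), r z n = ((Rg z a L).card : ℝ) := by
    simp only [Rg, Finset.card_filter, r, Pool.Agent.Lib.MP_926cc3_nt.RS.Gra.r]
    push_cast
    rfl
  rw [hsum]
  change ((N z p0 a L).card : ℝ) ≤ _
  have hpos : 0 ≤ 12 * C * L / (p0 * Real.log z) := by positivity
  rcases le_or_gt z p0 with hzp | hzp
  · have h1 : N z p0 a L ⊆ Rg z a L := by
      intro n hn
      simp only [N, mem_filter] at hn
      simp only [Rg, mem_filter]
      refine ⟨hn.1, fun p hp hpn => ?_⟩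
      by_cases hne : p = p0
      · rw [hne]; exact hzp
      · exact (coprime_iff hz n).1 hn.2 p hp hpn hne
    have h2 : ((N z p0 a L).card : ℝ) ≤ ((Rg z a L).card : ℝ) := by
      exact_mod_cast card_le_card h1
    linarith
  · have hz3 : 3 ≤ z := by
      have := hp0.two_le
      omega
    have h1 := step hz hp0 a L
    have h2 := len hp0 a L
    have h3 := bound (p0 := p0) hz3 hp0 hC (fun a Y hY => hW z a Y hz hY)
      ((a + L) / p0 - a / p0) (a / p0)
    set L' := (a + L) / p0 - a / p0 with hL'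
    have h4 : (L' : ℝ) ≤ 2 * (L / p0) := by
      have h5 : (L' : ℝ) ≤ ((L / p0 : ℕ) : ℝ) + 1 := by exact_mod_cast h2
      have h6 : ((L / p0 : ℕ) : ℝ) ≤ (L : ℝ) / p0 := Nat.cast_div_le
      have h7 : (1 : ℝ) ≤ L / p0 := by
        rw [le_div_iff₀ hp0', one_mul]
        have : p0 ≤ L := by nlinarith
        exact_mod_cast this
      linarith
    have h8 : ((N z p0 a L).card : ℝ) ≤ ((Rg z a L).card : ℝ) +
        ((N z p0 (a / p0) L').card : ℝ) := by exact_mod_cast h1
    have h9 : 6 * C * L' / Real.log z ≤ 12 * C * L / (p0 * Real.log z) := by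
      rw [div_le_div_iff₀ hlog (by positivity)]
      have h10 : 6 * C * L' * (p0 * Real.log z) ≤ 6 * C * (2 * (L / p0)) * (p0 * Real.log z) := by
        have : 0 ≤ p0 * Real.log z := by positivity
        apply mul_le_mul_of_nonneg_right _ this
        exact mul_le_mul_of_nonneg_left h4 (by positivity)
      refine h10.trans (le_of_eq ?_)
      field_simp
      ring
    linarith

end

end Pool.Agent.Lib.LargeAP
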