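import Mathlib

/-!
# LargeAP: definitions

The prime number theorem in arithmetic progressions for one large modulus
(`q ≤ exp ((log x)^θ)`, `θ < 1`), with at most one prime factor of `q` dropped.
-/

set_option autoImplicit false

namespace Pool.Agent.Lib.LargeAP

open Finset Filter Topology Complex
open scoped Classical ArithmeticFunction

noncomputable section

/-- `-L'/L(s, χ)`. -/
def ldL {q : ℕ} [NeZero q] (χ : DirichletCharacter ℂ q) (s : ℂ) : ℂ :=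
  -deriv (DirichletCharacter.LFunction χ) s / DirichletCharacter.LFunction χ s

/-- The mollifier `∑_{m ≤ Y} μ(m) χ(m) m^(-s)`. -/
def Mp {q : ℕ} (χ : DirichletCharacter ℂ q) (Y : ℕ) (s : ℂ) : ℂ :=
  ∑ m ∈ Icc 1 Y, (ArithmeticFunction.moebius m : ℂ) * χ (m : ZMod q) * (m : ℂ) ^ (-s)

/-- The partial sum `∑_{n ≤ Z} χ(n) n^(-s)`. -/
def Pp {q : ℕ} (χ : DirichletCharacter ℂ q) (Z : ℕ) (s : ℂ) : ℂ :=
  ∑ n ∈ Icc 1 Z, χ (n : ZMod q) * (n : ℂ) ^ (-s)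

/-- No zeros of `L(s, χ)` with `Re s > 1 - c/B`, `|Im s| ≤ exp B`. -/
def ZFree {q : ℕ} [NeZero q] (χ : DirichletCharacter ℂ q) (c B : ℝ) : Prop :=
  ∀ s : ℂ, 1 - c / B < s.re → |s.im| ≤ Real.exp B → DirichletCharacter.LFunction χ s ≠ 0

/-- The length of the mollifier, `⌊e^(3B)⌋`. -/
def YB (B : ℝ) : ℕ := ⌊Real.exp (3 * B)⌋₊

/-- The length of the partial sum, `⌊e^(10B)⌋`. -/
def ZB (B : ℝ) : ℕ := ⌊Real.exp (10 * B)⌋₊

/-- `-L' M (2 - L M)`. -/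
def fA {q : ℕ} [NeZero q] (χ : DirichletCharacter ℂ q) (B : ℝ) (s : ℂ) : ℂ :=
  -deriv (DirichletCharacter.LFunction χ) s * Mp χ (YB B) s *
    (2 - DirichletCharacter.LFunction χ s * Mp χ (YB B) s)

/-- `-L'/L (1 - L M)^2`. -/
def fB {q : ℕ} [NeZero q] (χ : DirichletCharacter ℂ q) (B : ℝ) (s : ℂ) : ℂ :=
  ldL χ s * (1 - DirichletCharacter.LFunction χ s * Mp χ (YB B) s) ^ 2

/-- The kernel `exp (s u + s^2/(4 lam))`. -/
def KG (lam u : ℝ) (s : ℂ) : ℂ := Complex.exp (s * u + s ^ 2 / (4 * lam))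

/-- The integral of `|1 - L M|^2` over the line `Re s = 1 - c/(2B)`, `|t| ≤ e^B - 1`. -/
def IM {q : ℕ} [NeZero q] (χ : DirichletCharacter ℂ q) (lam c B : ℝ) : ℝ :=
  ∫ t in (-(Real.exp B - 1))..(Real.exp B - 1),
    ‖1 - DirichletCharacter.LFunction χ ((1 - c / (2 * B) : ℝ) + t * Complex.I)
      * Mp χ (YB B) ((1 - c / (2 * B) : ℝ) + t * Complex.I)‖ ^ 2 * Real.exp (-(t ^ 2) / (4 * lam))

end

end Pool.Agent.Lib.LargeAP
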