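import Pool.Agent.Lib.LargeAP.SpecG

/-!
# LargeAP, module EUL: the Euler product of `ζ` near `1`
-/

set_option autoImplicit false

namespace Pool.Agent.Lib.LargeAP

open Finset Filter Topology

noncomputable section

namespace EULM

lemma term_eq (δ : ℝ) (hδ : 0 < δ) (p : Nat.Primes) :
    -Complex.log (1 - ((p : ℕ) : ℂ) ^ (-((1 + δ : ℝ) : ℂ))) =
      ((-Real.log (1 - ((p : ℕ) : ℝ) ^ (-(1 + δ))) : ℝ) : ℂ) := by
  have hp : (1 : ℝ) < ((p : ℕ) : ℝ) := by exact_mod_cast p.2.one_lt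
  have h1 : ((p : ℕ) : ℝ) ^ (-(1 + δ)) < 1 := Real.rpow_lt_one_of_one_lt_of_neg hp (by linarith)
  have h2 : ((p : ℕ) : ℂ) ^ (-((1 + δ : ℝ) : ℂ)) = ((((p : ℕ) : ℝ) ^ (-(1 + δ)) : ℝ) : ℂ) := by
    rw [Complex.ofReal_cpow (by linarith), Complex.ofReal_natCast, Complex.ofReal_neg]
  rw [h2, ← Complex.ofReal_one, ← Complex.ofReal_sub, ← Complex.ofReal_log (by linarith),
    Complex.ofReal_neg]

lemma tsum_eq (δ : ℝ) (hδ : 0 < δ) :
    (∑' p : Nat.Primes, -Real.log (1 - ((p : ℕ) : ℝ) ^ (-(1 + δ)))) =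
      Real.log (riemannZeta ((1 + δ : ℝ) : ℂ)).re := by
  have h1 := riemannZeta_eulerProduct_exp_log (s := ((1 + δ : ℝ) : ℂ)) (by simpa using hδ)
  have h2 : (∑' p : Nat.Primes, -Complex.log (1 - ((p : ℕ) : ℂ) ^ (-((1 + δ : ℝ) : ℂ)))) =
      ((∑' p : Nat.Primes, -Real.log (1 - ((p : ℕ) : ℝ) ^ (-(1 + δ))) : ℝ) : ℂ) := by
    rw [Complex.ofReal_tsum]
    exact tsum_congr fun p => term_eq δ hδ p
  rw [h2, ← Complex.ofReal_exp] at h1
  rw [← h1, Complex.ofReal_re, Real.log_exp]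

end EULM

theorem specEUL : SpecEUL := by
  have h1 := log_riemannZeta_add_log_sub_isLittleO_ofReal
  rw [Asymptotics.isLittleO_one_iff] at h1
  have h2 : Tendsto (fun δ : ℝ => 1 + δ) (𝓝[>] 0) (𝓝[>] 1) := by
    refine tendsto_nhdsWithin_iff.2 ⟨?_, ?_⟩
    · have h3 : Tendsto (fun δ : ℝ => 1 + δ) (𝓝 0) (𝓝 (1 + 0)) :=
        (continuous_const.add continuous_id).tendsto 0
      rw [add_zero] at h3
      exact h3.mono_left nhdsWithin_le_nhds
    · filter_upwards [self_mem_nhdsWithin] with δ hδ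
      have : (0 : ℝ) < δ := hδ
      show (1 : ℝ) < 1 + δ
      linarith
  have h4 := h1.comp h2
  refine h4.congr' ?_
  filter_upwards [self_mem_nhdsWithin] with δ hδ
  rw [EULM.tsum_eq δ hδ]
  show Real.log (riemannZeta ((1 + δ : ℝ) : ℂ)).re + Real.log (1 + δ - 1) = _
  rw [add_sub_cancel_left]

end

end Pool.Agent.Lib.LargeAP
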