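import Pool.Agent.Lib.LargeAP.Spec
import Pool.Agent.Lib.LP.EXC

/-!
# LargeAP, module EXD: one exceptional prime is dropped
-/

set_option autoImplicit false

namespace Pool.Agent.Lib.LargeAP

open DirichletCharacter

namespace EXDM

/-- a zero free region of a lift is one of the character -/
theorem zfree_of_lift {q Q : ℕ} [NeZero q] [NeZero Q] (hqQ : q ∣ Q) (χ : DirichletCharacter ℂ q)
    (hχ : χ ≠ 1) (c B : ℝ) (h : ZFree (changeLevel hqQ χ) c B) : ZFree χ c B := by
  intro s hs1 hs2 h0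
  apply h s hs1 hs2
  rw [LFunction_changeLevel hqQ χ (Or.inl hχ), h0, zero_mul]

/-- a real zero of a lift is one of the character -/
theorem zero_of_lift {q Q : ℕ} [NeZero q] [NeZero Q] (hqQ : q ∣ Q) (χ : DirichletCharacter ℂ q)
    (hχ : χ ≠ 1) (β : ℝ) (hβ : 0 < β) (h : LFunction (changeLevel hqQ χ) (β : ℂ) = 0) :
    LFunction χ (β : ℂ) = 0 := by
  rw [LFunction_changeLevel hqQ χ (Or.inl hχ)] at h
  rcases mul_eq_zero.mp h with h | h
  · exact h
  · exfalso
    rw [Finset.prod_eq_zero_iff] at h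
    obtain ⟨p, hp, hp0⟩ := h
    have hpp := Nat.prime_of_mem_primeFactors hp
    have h1 : χ (p : ZMod q) * (p : ℂ) ^ (-(β : ℂ)) = 1 := (sub_eq_zero.mp hp0).symm
    have h2 : ‖χ (p : ZMod q) * (p : ℂ) ^ (-(β : ℂ))‖ < 1 := by
      rw [norm_mul]
      have ha : ‖χ (p : ZMod q)‖ ≤ 1 := χ.norm_le_one _
      have hp1 : (1 : ℝ) < (p : ℝ) := by exact_mod_cast hpp.one_lt
      have hb : ‖(p : ℂ) ^ (-(β : ℂ))‖ < 1 := by
        rw [Complex.norm_natCast_cpow_of_pos hpp.pos]
        have : (-(β : ℂ)).re = -β := by simp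
        rw [this]
        exact Real.rpow_lt_one_of_one_lt_of_neg hp1 (by linarith)
      calc ‖χ (p : ZMod q)‖ * ‖(p : ℂ) ^ (-(β : ℂ))‖ ≤ 1 * ‖(p : ℂ) ^ (-(β : ℂ))‖ :=
            mul_le_mul_of_nonneg_right ha (norm_nonneg _)
        _ < 1 := by rw [one_mul]; exact hb
    rw [h1, norm_one] at h2
    exact lt_irrefl _ h2

theorem convex_seg (β : ℝ) : Convex ℝ {z : ℂ | β ≤ z.re ∧ z.re ≤ 1 ∧ z.im = 0} := by
  intro x hx y hy a b ha hb hab
  simp only [Set.mem_setOf_eq, Complex.add_re, Complex.add_im, Complex.real_smul, Complex.mul_re,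
    Complex.mul_im, Complex.ofReal_re, Complex.ofReal_im, zero_mul, sub_zero, add_zero] at hx hy ⊢
  obtain ⟨hx1, hx2, hx3⟩ := hx
  obtain ⟨hy1, hy2, hy3⟩ := hy
  refine ⟨?_, ?_, ?_⟩
  · nlinarith
  · nlinarith
  · rw [hx3, hy3]; ring

end EXDM

open EXDM in
theorem specEXD (hZF : SpecZF) (hDB : LP.SpecDB) (hFIN : LP.SpecFIN) : SpecEXD := by
  obtain ⟨c, hc0, hc8, hc⟩ := hZF
  refine ⟨c, hc0, hc8, ?_⟩
  intro P
  obtain ⟨c₁, hc1, hF⟩ := hFIN (primorial P)
  set T : ℝ := max 1000 (Real.log (primorial P)) with hTdef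
  have hT1000 : (1000 : ℝ) ≤ T := le_max_left _ _
  have hT0 : 0 < T := by linarith
  refine ⟨16 + 4 * T + T ^ 4 / c₁, ?_⟩
  intro B hB Q _ hQsq hQB
  have hTc : 0 < T ^ 4 / c₁ := by positivity
  have hB16 : 16 ≤ B := by linarith
  have hB0 : 0 < B := by linarith
  have hB4T : 4 * T ≤ B := by linarith
  have hBc : T ^ 4 / c₁ < B := by linarith
  have hQpos : (0 : ℝ) < (Q : ℝ) := by exact_mod_cast Nat.pos_of_ne_zero (NeZero.ne Q)
  have hQexp : (Q : ℝ) ≤ Real.exp B := (Real.log_le_iff_le_exp hQpos).mp hQB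
  obtain ⟨χe, hχe, hχ⟩ := hc Q B hB16 hQexp
  rcases hχe with hχe | ⟨hχe1, hχe2, β, hβ1, hβ0⟩
  · obtain ⟨p₀, hpB, hp₀⟩ := Nat.exists_infinite_primes (P + 1)
    refine ⟨p₀, hp₀, hpB, ?_⟩
    intro q _ hqQ _ χ hχ1
    have h1 : changeLevel hqQ χ ≠ 1 := fun h => hχ1 ((changeLevel_eq_one_iff hqQ).1 h)
    exact zfree_of_lift hqQ χ hχ1 c B (hχ _ h1 (by rw [hχe]; exact h1))
  · -- the conductor
    have hβlt : β < 1 := by
      by_contra hge
      refine LFunction_ne_zero_of_one_le_re χe (s := (β : ℂ)) (Or.inl hχe1) ?_ hβ0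
      rw [Complex.ofReal_re]
      exact not_lt.1 hge
    have hcB : c / B ≤ 1 / (4 * T) := by
      rw [div_le_div_iff₀ hB0 (by positivity)]
      nlinarith
    have hβT : 1 - 1 / (4 * T) ≤ β := by linarith
    have h4T : 1 / (4 * T) ≤ 1 / 4000 := by
      apply one_div_le_one_div_of_le (by norm_num)
      linarith
    have hβpos : 0 < β := by linarith
    have hclaim : ∃ p₀ : ℕ, p₀.Prime ∧ P < p₀ ∧ p₀ ∣ χe.conductor := by
      by_contra hno
      have hm0 : χe.conductor ≠ 0 := conductor_ne_zero χe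
      have hmQ : χe.conductor ∣ Q := conductor_dvd_level χe
      have hsm : ∀ p : ℕ, p.Prime → p ∣ χe.conductor → p ≤ P := by
        intro p hp hpm
        by_contra hlt
        exact hno ⟨p, hp, not_le.1 hlt, hpm⟩
      have hmsq : Squarefree χe.conductor := hQsq.squarefree_of_dvd hmQ
      have hmN : χe.conductor ≤ primorial P :=
        Nat.le_of_dvd (primorial_pos P) (LP.EXCM.dvd_primorial hmsq hsm)
      haveI : NeZero χe.conductor := ⟨hm0⟩
      have hprim := changeLevel_primitiveCharacter χe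
      have h01 : χe.primitiveCharacter ≠ 1 := by
        intro h
        apply hχe1
        rw [← hprim, h, map_one]
      have hA := hF χe.conductor hmN χe.primitiveCharacter h01
      have hz : LFunction χe.primitiveCharacter (β : ℂ) = 0 := by
        refine zero_of_lift hmQ χe.primitiveCharacter h01 β hβpos ?_
        rw [hprim]
        exact hβ0
      have hlog : Real.log (χe.conductor : ℝ) ≤ T := by
        refine le_trans (Real.log_le_log ?_ ?_) (le_max_right _ _)
        · exact_mod_cast Nat.pos_of_ne_zero hm0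
        · exact_mod_cast hmN
      have hmv : ‖LFunction χe.primitiveCharacter 1 - LFunction χe.primitiveCharacter (β : ℂ)‖ ≤
          T ^ 4 * ‖(1 : ℂ) - (β : ℂ)‖ := by
        refine Convex.norm_image_sub_le_of_norm_deriv_le (𝕜 := ℂ)
          (s := {z : ℂ | β ≤ z.re ∧ z.re ≤ 1 ∧ z.im = 0}) ?_ ?_ (convex_seg β) ?_ ?_
        · intro z _
          exact (differentiable_LFunction h01) z
        · intro z hz
          obtain ⟨hz1, hz2, hz3⟩ := hz
          refine (hDB T hT1000 χe.conductor χe.primitiveCharacter h01 hlog z ?_ ?_ ?_).2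
          · rw [hz3, abs_zero]; exact hT0.le
          · linarith
          · linarith
        · simp only [Set.mem_setOf_eq, Complex.ofReal_re, Complex.ofReal_im]
          exact ⟨le_rfl, hβlt.le, trivial⟩
        · simp only [Set.mem_setOf_eq, Complex.one_re, Complex.one_im]
          exact ⟨hβlt.le, le_rfl, trivial⟩
      have hn : ‖(1 : ℂ) - (β : ℂ)‖ = 1 - β := by
        have : (1 : ℂ) - (β : ℂ) = ((1 - β : ℝ) : ℂ) := by push_cast; ring
        rw [this, Complex.norm_real, Real.norm_eq_abs, abs_of_pos (by linarith)]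
      rw [hz, sub_zero, hn] at hmv
      have h1 : 1 - β < c / B := by linarith
      have hT4 : (0 : ℝ) < T ^ 4 := by positivity
      have h2 : T ^ 4 * (1 - β) < T ^ 4 * (c / B) := mul_lt_mul_of_pos_left h1 hT4
      have h3 : T ^ 4 * (c / B) < c₁ := by
        rw [← mul_div_assoc, div_lt_iff₀ hB0]
        have h4 : T ^ 4 < c₁ * B := by
          rw [div_lt_iff₀ hc1] at hBc
          linarith
        nlinarith
      linarith
    obtain ⟨p₀, hp₀, hPp, hpm⟩ := hclaim
    refine ⟨p₀, hp₀, hPp, ?_⟩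
    intro q _ hqQ hcop χ hχ1
    have h1 : changeLevel hqQ χ ≠ 1 := fun h => hχ1 ((changeLevel_eq_one_iff hqQ).1 h)
    refine zfree_of_lift hqQ χ hχ1 c B (hχ _ h1 ?_)
    intro hS
    have hcond : χ.conductor = χe.conductor := by
      rw [← conductor_changeLevel χ hqQ, hS]
    have hpq : p₀ ∣ q := by
      have : p₀ ∣ χ.conductor := by rw [hcond]; exact hpm
      exact this.trans (conductor_dvd_level χ)
    have h1' : p₀ ∣ Nat.gcd q p₀ := Nat.dvd_gcd hpq dvd_rfl
    rw [hcop] at h1'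
    exact hp₀.one_lt.ne' (Nat.dvd_one.1 h1')

end Pool.Agent.Lib.LargeAP
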