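import Pool.Agent.Lib.LargeAP.Spec

/-!
# LargeAP, module EXL: the expansion of `L'/L`
-/

set_option autoImplicit false

namespace Pool.Agent.Lib.LargeAP

open Finset Filter Topology Complex Metric
open scoped Classical ArithmeticFunction

noncomputable section

namespace EXLM

lemma numeric (C₁ B : ℝ) (hC : 1 ≤ C₁) (hB : 16 ≤ B) :
    12 * C₁ * B * Real.exp (2 * B) ≤ Real.exp ((C₁ + 4) * B) := by
  have h1 : C₁ ≤ Real.exp (C₁ * B) := by
    have h2 := Real.add_one_le_exp (C₁ * B)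
    have h3 : C₁ * 1 ≤ C₁ * B := mul_le_mul_of_nonneg_left (by linarith) (by linarith)
    linarith
  have h4 : B ≤ Real.exp B := by
    have := Real.add_one_le_exp B
    linarith
  have h5 : 12 ≤ Real.exp B := by linarith
  have h6 : Real.exp ((C₁ + 4) * B) =
      Real.exp B * Real.exp (C₁ * B) * Real.exp B * Real.exp (2 * B) := by
    rw [← Real.exp_add, ← Real.exp_add, ← Real.exp_add]
    congr 1
    ring
  rw [h6]
  refine mul_le_mul_of_nonneg_right ?_ (Real.exp_pos _).le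
  refine mul_le_mul ?_ h4 (by linarith) (by positivity)
  exact mul_le_mul h5 h1 (by linarith) (Real.exp_pos _).le

end EXLM

theorem specEXL (hLAN : SpecLAN) (hLBD : SpecLBD) (hINV : LP.SpecINV) : SpecEXL := by
  obtain ⟨C₀, hC₀, hLAN⟩ := hLAN
  obtain ⟨C₁, hC₁, hLBD⟩ := hLBD
  refine ⟨C₀ * (C₁ + 4), mul_pos hC₀ (by linarith), ?_⟩
  intro q _ χ hχ B t hB hq ht
  have hB0 : 0 < B := by linarith
  have hB1 : 1 / B ≤ 1 / 16 := one_div_le_one_div_of_le (by norm_num) hB
  have hB2 : 0 < 1 / B := by positivity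
  obtain ⟨s₀, hs₀⟩ : ∃ s₀ : ℂ, s₀ = (⟨1 + 1 / B, t⟩ : ℂ) := ⟨_, rfl⟩
  have hre : s₀.re = 1 + 1 / B := by rw [hs₀]
  have him : s₀.im = t := by rw [hs₀]
  have hexp1 : 1 ≤ Real.exp B := Real.one_le_exp hB0.le
  have hlow : 1 / B / 2 ≤ ‖DirichletCharacter.LFunction χ s₀‖ := by
    have h1 := hINV q χ (1 / B) t hB2 (by linarith)
    have h2 : (1 : ℂ) + ((1 / B : ℝ) : ℂ) + (t : ℂ) * Complex.I = s₀ := by
      apply Complex.ext
      · simp [hre]
      · simp [him]
    rwa [h2] at h1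
  have hpos : 0 < ‖DirichletCharacter.LFunction χ s₀‖ := lt_of_lt_of_le (by positivity) hlow
  have hne : DirichletCharacter.LFunction χ s₀ ≠ 0 := norm_pos_iff.1 hpos
  have hnorm : ‖s₀‖ ≤ 1 + 1 / B + 3 * Real.exp B := by
    refine (Complex.norm_le_abs_re_add_abs_im s₀).trans ?_
    rw [hre, him, abs_of_pos (by linarith)]
    linarith
  have hup : ∀ s ∈ closedBall s₀ (1 / 2),
      ‖DirichletCharacter.LFunction χ s‖ ≤
        Real.exp ((C₁ + 4) * B) * ‖DirichletCharacter.LFunction χ s₀‖ := by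
    intro s hs
    rw [mem_closedBall, dist_eq_norm] at hs
    have h1 : |(s - s₀).re| ≤ 1 / 2 := (Complex.abs_re_le_norm _).trans hs
    have h2 : 1 / 2 ≤ s.re := by
      have h3 := (abs_le.1 h1).1
      rw [Complex.sub_re, hre] at h3
      linarith
    have h4 : ‖s‖ ≤ 2 + 3 * Real.exp B := by
      have h5 : ‖s‖ ≤ ‖s - s₀‖ + ‖s₀‖ := by
        have := norm_add_le (s - s₀) s₀
        simpa using this
      linarith
    have h6 : 1 + ‖s‖ ≤ 6 * Real.exp B := by linarith
    refine ((hLBD q χ hχ s).1 h2).trans ?_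
    have h7 : C₁ * q * (1 + ‖s‖) ≤ C₁ * Real.exp B * (6 * Real.exp B) := by
      refine mul_le_mul ?_ h6 (by positivity) (by positivity)
      exact mul_le_mul_of_nonneg_left hq (by linarith)
    have h8 : C₁ * Real.exp B * (6 * Real.exp B) = 12 * C₁ * B * Real.exp (2 * B) * (1 / B / 2) := by
      have h9 : Real.exp (2 * B) = Real.exp B * Real.exp B := by
        rw [← Real.exp_add]
        congr 1
        ring
      rw [h9]
      field_simp
      ring
    rw [h8] at h7
    refine h7.trans ?_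
    exact mul_le_mul (EXLM.numeric C₁ B hC₁ hB) hlow (by positivity) (Real.exp_pos _).le
  have hM : 1 ≤ (C₁ + 4) * B := by nlinarith
  obtain ⟨Z, hZ1, hZ2, hZ3⟩ := hLAN (DirichletCharacter.LFunction χ) s₀ ((C₁ + 4) * B) hM
    (DirichletCharacter.differentiable_LFunction hχ) hne hup
  rw [← hs₀]
  refine ⟨Z, hZ1, hZ2, fun s hs hs2 => ?_⟩
  have h1 := hZ3 s hs hs2
  have h2 : ldL χ s + (Z.map (fun ρ => (s - ρ)⁻¹)).sum =
      -(deriv (DirichletCharacter.LFunction χ) s / DirichletCharacter.LFunction χ s -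
        (Z.map (fun ρ => (s - ρ)⁻¹)).sum) := by
    unfold ldL
    ring
  rw [h2, norm_neg]
  refine h1.trans (le_of_eq ?_)
  ring

end

end Pool.Agent.Lib.LargeAP
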