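import Pool.Agent.Lib.LargeAP.Spec

/-!
# LargeAP, module EXO: the principal character
-/

set_option autoImplicit false

namespace Pool.Agent.Lib.LargeAP

open Finset Filter Topology Complex Metric
open scoped Classical ArithmeticFunction

noncomputable section

namespace EXOM

variable {q : ℕ} [NeZero q]

theorem f_eq {s : ℂ} (hs : s ≠ 1) : DirichletCharacter.LFunctionTrivChar₁ q s =
    (s - 1) * DirichletCharacter.LFunction (1 : DirichletCharacter ℂ q) s := by
  rw [DirichletCharacter.LFunctionTrivChar₁, Function.update_of_ne hs]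

theorem f_ne {s : ℂ} (hs : 1 ≤ s.re) : DirichletCharacter.LFunctionTrivChar₁ q s ≠ 0 := by
  by_cases h : s = 1
  · rw [h]
    exact DirichletCharacter.LFunctionTrivChar₁_apply_one_ne_zero q
  · rw [f_eq h]
    exact mul_ne_zero (sub_ne_zero.2 h)
      (DirichletCharacter.LFunction_ne_zero_of_one_le_re _ (Or.inr h) hs)

theorem log_deriv {s : ℂ} (hs : 1 < s.re) :
    deriv (DirichletCharacter.LFunctionTrivChar₁ q) s / DirichletCharacter.LFunctionTrivChar₁ q s =
      (s - 1)⁻¹ - ldL (1 : DirichletCharacter ℂ q) s := by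
  have h : s ≠ 1 := fun h => by
    rw [h] at hs
    simp at hs
  have h1 : s - 1 ≠ 0 := sub_ne_zero.2 h
  have h2 : DirichletCharacter.LFunction (1 : DirichletCharacter ℂ q) s ≠ 0 :=
    DirichletCharacter.LFunction_ne_zero_of_one_le_re _ (Or.inr h) hs.le
  rw [DirichletCharacter.deriv_LFunctionTrivChar₁_apply_of_ne_one q h, f_eq h, ldL]
  change ((s - 1) * deriv (DirichletCharacter.LFunction (1 : DirichletCharacter ℂ q)) s +
    DirichletCharacter.LFunction (1 : DirichletCharacter ℂ q) s) / _ = _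
  field_simp
  ring

theorem re_inv_nonneg {z : ℂ} (h : 0 ≤ z.re) : 0 ≤ (z⁻¹).re := by
  rw [Complex.inv_re]
  exact div_nonneg h (Complex.normSq_nonneg z)

theorem sum_re_nonneg (Z : Multiset ℂ) (s : ℂ) (h : ∀ ρ ∈ Z, ρ.re < s.re) :
    0 ≤ ((Z.map (fun ρ => (s - ρ)⁻¹)).sum).re := by
  induction Z using Multiset.induction_on with
  | empty => simp
  | cons a Z ih =>
    rw [Multiset.map_cons, Multiset.sum_cons, Complex.add_re]
    refine add_nonneg (re_inv_nonneg ?_) (ih fun ρ hρ => h ρ (Multiset.mem_cons_of_mem hρ))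
    rw [Complex.sub_re]
    linarith [h a (Multiset.mem_cons_self a Z)]

end EXOM

open EXOM in
theorem specEXO (hLAN : SpecLAN) (hLBO : SpecLBO) (hINV : LP.SpecINV) : SpecEXO := by
  obtain ⟨C₁, hC₁, hL⟩ := hLAN
  obtain ⟨C₂, hC₂, hb⟩ := hLBO
  have hlog : 0 ≤ Real.log (36 * C₂) := Real.log_nonneg (by linarith)
  refine ⟨C₁ * (5 + Real.log (36 * C₂)), by positivity, ?_⟩
  intro q _ B s hB hq him hre1 hre2
  have hB0 : (0 : ℝ) < B := by linarith
  set M : ℝ := (5 + Real.log (36 * C₂)) * B with hM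
  set s₀ : ℂ := ⟨1 + 1 / B, s.im⟩ with hs₀
  have hx : 1 / B ≤ 1 / 16 := one_div_le_one_div_of_le (by norm_num) hB
  have hx0 : 0 < 1 / B := by positivity
  have hM1 : 1 ≤ M := by
    rw [hM]
    nlinarith
  have hdiff := DirichletCharacter.differentiable_LFunctionTrivChar₁ q
  have hs₀re : s₀.re = 1 + 1 / B := rfl
  have hs₀im : s₀.im = s.im := rfl
  -- lower bound at `s₀`
  have hlow : 1 / (2 * B ^ 2) ≤ ‖DirichletCharacter.LFunctionTrivChar₁ q s₀‖ := by
    have h1 : s₀ ≠ 1 := fun h => by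
      have := congrArg Complex.re h
      rw [hs₀re, Complex.one_re] at this
      linarith
    rw [f_eq h1, norm_mul]
    have h2 := hINV q (1 : DirichletCharacter ℂ q) (1 / B) s.im hx0 (by linarith)
    have h3 : (1 + ((1 / B : ℝ) : ℂ) + (s.im : ℂ) * Complex.I) = s₀ := by
      apply Complex.ext <;> simp [hs₀]
    rw [h3] at h2
    have h4 : 1 / B ≤ ‖s₀ - 1‖ := by
      have h5 := Complex.abs_re_le_norm (s₀ - 1)
      rw [Complex.sub_re, hs₀re, Complex.one_re, add_sub_cancel_left, abs_of_pos hx0] at h5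
      exact h5
    calc 1 / (2 * B ^ 2) = 1 / B * (1 / B / 2) := by field_simp
      _ ≤ _ := mul_le_mul h4 h2 (by positivity) (norm_nonneg _)
  have hpos : 0 < ‖DirichletCharacter.LFunctionTrivChar₁ q s₀‖ :=
    lt_of_lt_of_le (by positivity) hlow
  have hexpB : 1 ≤ Real.exp B := Real.one_le_exp hB0.le
  -- upper bound
  have hup : ∀ z ∈ closedBall s₀ (1 / 2), ‖DirichletCharacter.LFunctionTrivChar₁ q z‖ ≤
      Real.exp M * ‖DirichletCharacter.LFunctionTrivChar₁ q s₀‖ := by
    intro z hz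
    rw [mem_closedBall, dist_eq_norm] at hz
    have h1 : 1 / 2 ≤ z.re := by
      have h2 := Complex.abs_re_le_norm (z - s₀)
      rw [Complex.sub_re, hs₀re] at h2
      have h3 := (abs_le.1 (h2.trans hz)).1
      linarith
    have h2 : ‖z‖ ≤ 2 + 3 * Real.exp B := by
      have h3 : ‖z‖ ≤ ‖s₀‖ + 1 / 2 := by
        have := norm_le_norm_add_norm_sub' z s₀
        linarith
      have h4 : ‖s₀‖ ≤ |s₀.re| + |s₀.im| := Complex.norm_le_abs_re_add_abs_im s₀
      rw [hs₀re, hs₀im, abs_of_pos (by linarith : (0 : ℝ) < 1 + 1 / B)] at h4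
      linarith
    have h3 := hb q z h1
    have h4 : C₂ * q * (1 + ‖z‖) ^ 2 ≤ C₂ * Real.exp B * (6 * Real.exp B) ^ 2 := by
      have h5 : 1 + ‖z‖ ≤ 6 * Real.exp B := by linarith
      have h6 : (1 + ‖z‖) ^ 2 ≤ (6 * Real.exp B) ^ 2 :=
        pow_le_pow_left₀ (by positivity) h5 2
      exact mul_le_mul (mul_le_mul_of_nonneg_left hq (by linarith)) h6 (by positivity)
        (by positivity)
    have h5 : C₂ * Real.exp B * (6 * Real.exp B) ^ 2 = 36 * C₂ * Real.exp (3 * B) := by
      rw [show (3 : ℝ) * B = B + B + B by ring, Real.exp_add, Real.exp_add]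
      ring
    have h6 : 36 * C₂ ≤ Real.exp (Real.log (36 * C₂) * B) := by
      calc 36 * C₂ = Real.exp (Real.log (36 * C₂)) := (Real.exp_log (by linarith)).symm
        _ ≤ _ := Real.exp_le_exp.2 (by nlinarith)
    have h7 : 2 * B ^ 2 ≤ Real.exp (2 * B) := by
      have := Real.quadratic_le_exp_of_nonneg (x := 2 * B) (by positivity)
      nlinarith
    have h8 : Real.exp M = Real.exp (3 * B) * Real.exp (2 * B) *
        Real.exp (Real.log (36 * C₂) * B) := by
      rw [← Real.exp_add, ← Real.exp_add, hM]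
      congr 1
      ring
    calc _ ≤ 36 * C₂ * Real.exp (3 * B) := h3.trans (h4.trans h5.le)
      _ = (Real.exp (3 * B) * (2 * B ^ 2) * (36 * C₂)) * (1 / (2 * B ^ 2)) := by
          field_simp
      _ ≤ Real.exp M * ‖DirichletCharacter.LFunctionTrivChar₁ q s₀‖ := by
          refine mul_le_mul ?_ hlow (by positivity) (Real.exp_pos _).le
          rw [h8]
          refine mul_le_mul (mul_le_mul_of_nonneg_left h7 (Real.exp_pos _).le) h6 (by positivity)
            (by positivity)
  obtain ⟨Z, hZ, -, hsum⟩ := hL _ s₀ M hM1 hdiff (norm_pos_iff.1 hpos) hup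
  have hmem : s ∈ closedBall s₀ (1 / 8) := by
    rw [mem_closedBall, dist_eq_norm]
    have h1 : s - s₀ = ((s.re - (1 + 1 / B) : ℝ) : ℂ) := by
      apply Complex.ext <;> simp [hs₀]
    rw [h1, Complex.norm_real, Real.norm_eq_abs, abs_le]
    constructor <;> linarith
  have h1 := hsum s hmem (f_ne hre1.le)
  have h2 := sum_re_nonneg Z s fun ρ hρ => by
    by_contra h
    exact f_ne (q := q) (by linarith : 1 ≤ ρ.re) (hZ ρ hρ).1
  rw [log_deriv hre1] at h1
  have h3 := (Complex.abs_re_le_norm _).trans h1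
  rw [Complex.sub_re, Complex.sub_re] at h3
  have h4 := (abs_le.1 h3).1
  rw [hM] at h4
  linarith

end

end Pool.Agent.Lib.LargeAP
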