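import Pool.Agent.Lib.LargeAP.Spec

/-!
# LargeAP: module FAB (the entire part)
-/

set_option autoImplicit false

namespace Pool.Agent.Lib.LargeAP

open Finset Filter Topology Complex Metric

noncomputable section

namespace FABM

theorem norm_term_le {q : ℕ} (χ : DirichletCharacter ℂ q) {s : ℂ} (hs : 0 ≤ s.re) {m : ℕ}
    (hm : 1 ≤ m) :
    ‖(ArithmeticFunction.moebius m : ℂ) * χ (m : ZMod q) * (m : ℂ) ^ (-s)‖ ≤ 1 := by
  have hm0 : (0 : ℝ) < m := by exact_mod_cast hm
  have h1 : ‖(ArithmeticFunction.moebius m : ℂ)‖ ≤ 1 := by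
    rw [Complex.norm_intCast]
    exact_mod_cast ArithmeticFunction.abs_moebius_le_one
  have h2 : ‖χ (m : ZMod q)‖ ≤ 1 := χ.norm_le_one _
  have h3 : ‖(m : ℂ) ^ (-s)‖ ≤ 1 := by
    have := Complex.norm_cpow_eq_rpow_re_of_pos hm0 (-s)
    rw [Complex.ofReal_natCast] at this
    rw [this, Complex.neg_re]
    exact Real.rpow_le_one_of_one_le_of_nonpos (by exact_mod_cast hm) (by linarith)
  rw [norm_mul, norm_mul]
  exact (mul_le_mul (mul_le_mul h1 h2 (norm_nonneg _) zero_le_one) h3 (norm_nonneg _)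
    (by norm_num)).trans (by norm_num)

theorem norm_Mp_le {q : ℕ} (χ : DirichletCharacter ℂ q) (Y : ℕ) {s : ℂ} (hs : 0 ≤ s.re) :
    ‖Mp χ Y s‖ ≤ Y := by
  rw [Mp]
  refine (norm_sum_le _ _).trans ?_
  calc _ ≤ ∑ m ∈ Icc 1 Y, (1 : ℝ) :=
        Finset.sum_le_sum fun m hm => norm_term_le χ hs (Finset.mem_Icc.1 hm).1
    _ = Y := by simp

theorem norm_MpB_le {q : ℕ} (χ : DirichletCharacter ℂ q) (B : ℝ) {s : ℂ} (hs : 0 ≤ s.re) :
    ‖Mp χ (YB B) s‖ ≤ Real.exp (3 * B) :=
  (norm_Mp_le χ _ hs).trans (Nat.floor_le (Real.exp_pos _).le)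

theorem differentiable_Mp {q : ℕ} (χ : DirichletCharacter ℂ q) (Y : ℕ) :
    Differentiable ℂ (Mp χ Y) := by
  have : Mp χ Y = fun s => ∑ m ∈ Icc 1 Y,
      (ArithmeticFunction.moebius m : ℂ) * χ (m : ZMod q) * (m : ℂ) ^ (-s) := rfl
  rw [this]
  refine Differentiable.fun_sum fun m hm => ?_
  have hm1 := (Finset.mem_Icc.1 hm).1
  refine Differentiable.const_mul ?_ _
  intro s
  refine (differentiableAt_id.neg).const_cpow (Or.inl ?_)
  exact_mod_cast (by omega : m ≠ 0)

theorem differentiable_fA {q : ℕ} [NeZero q] (χ : DirichletCharacter ℂ q) (B : ℝ) (hχ : χ ≠ 1) :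
    Differentiable ℂ (fA χ B) := by
  have hL := DirichletCharacter.differentiable_LFunction hχ
  have hL' : Differentiable ℂ (deriv (DirichletCharacter.LFunction χ)) := by
    rw [← differentiableOn_univ]
    exact hL.differentiableOn.deriv isOpen_univ
  have hM := differentiable_Mp χ (YB B)
  exact (hL'.neg.mul hM).mul ((differentiable_const 2).sub (hL.mul hM))

end FABM

theorem specFAB (hLBD : SpecLBD) : SpecFAB := by
  obtain ⟨K, hK, h⟩ := hLBD
  refine ⟨3 * K ^ 2, by positivity, fun q _ χ B hχ hB hq => ⟨FABM.differentiable_fA χ B hχ, ?_, ?_⟩⟩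
  · intro s hs _
    have hL := (h q χ hχ s).1 (by linarith)
    have hL' := (h q χ hχ s).2 hs
    have hM := FABM.norm_MpB_le χ B (s := s) (by linarith)
    set A : ℝ := K * Real.exp B * (1 + ‖s‖) with hA
    have hn : 0 ≤ ‖s‖ := norm_nonneg s
    have hKq : K * q * (1 + ‖s‖) ≤ A := by
      rw [hA]; gcongr
    have hA0 : 0 < A := by positivity
    have hE : 1 ≤ Real.exp (3 * B) := Real.one_le_exp (by linarith)
    have hA1 : 1 ≤ A := by
      have h1 : 1 ≤ Real.exp B := Real.one_le_exp (by linarith)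
      have h2 : 1 ≤ K * Real.exp B := one_le_mul_of_one_le_of_one_le hK h1
      exact one_le_mul_of_one_le_of_one_le h2 (by linarith)
    have e8 : Real.exp (8 * B) = Real.exp B ^ 2 * Real.exp (3 * B) ^ 2 := by
      rw [← Real.exp_nat_mul, ← Real.exp_nat_mul, ← Real.exp_add]
      congr 1
      push_cast
      ring
    have h3 : 1 ≤ A * Real.exp (3 * B) := one_le_mul_of_one_le_of_one_le hA1 hE
    rw [fA, norm_mul, norm_mul, norm_neg]
    calc ‖deriv (DirichletCharacter.LFunction χ) s‖ * ‖Mp χ (YB B) s‖ *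
          ‖2 - DirichletCharacter.LFunction χ s * Mp χ (YB B) s‖
        ≤ A * Real.exp (3 * B) * (2 + A * Real.exp (3 * B)) := by
          refine mul_le_mul (mul_le_mul (hL'.trans hKq) hM (norm_nonneg _) hA0.le) ?_
            (norm_nonneg _) (by positivity)
          refine (norm_sub_le _ _).trans ?_
          rw [norm_mul]
          refine add_le_add (by simp) ?_
          exact mul_le_mul (hL.trans hKq) hM (norm_nonneg _) hA0.le
      _ ≤ A * Real.exp (3 * B) * (3 * (A * Real.exp (3 * B))) := by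
          refine mul_le_mul_of_nonneg_left ?_ (by positivity)
          linarith
      _ = 3 * K ^ 2 * Real.exp (8 * B) * (1 + ‖s‖) ^ 2 := by
          rw [e8, hA]; ring
  · intro s hs
    rw [ldL, fA, fB, ldL]
    field_simp
    ring

end

end Pool.Agent.Lib.LargeAP
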