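import Pool.Agent.Lib.LargeAP.SpecG

/-!
# LargeAP, module GLE: `∫ e^(-v) log v dv = -γ`
-/

set_option autoImplicit false

namespace Pool.Agent.Lib.LargeAP

open Finset Filter Topology MeasureTheory

noncomputable section

namespace GLEM

open Complex in
lemma mellin_pair :
    MellinConvergent (fun t : ℝ => Real.log t • ((Real.exp (-t) : ℝ) : ℂ)) 1 ∧
      HasDerivAt (mellin fun t : ℝ => ((Real.exp (-t) : ℝ) : ℂ))
        (mellin (fun t : ℝ => Real.log t • ((Real.exp (-t) : ℝ) : ℂ)) 1) 1 := by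
  refine mellin_hasDerivAt_of_isBigO_rpow (E := ℂ) (a := 2) (b := 0) ?_ ?_ ?_ ?_ ?_
  · refine (Continuous.continuousOn ?_).locallyIntegrableOn measurableSet_Ioi
    exact continuous_ofReal.comp (Real.continuous_exp.comp continuous_neg)
  · rw [← Asymptotics.isBigO_norm_left]
    simp_rw [norm_real, Asymptotics.isBigO_norm_left]
    simpa only [neg_one_mul] using (isLittleO_exp_neg_mul_rpow_atTop zero_lt_one _).isBigO
  · simp
  · simp_rw [neg_zero, Real.rpow_zero]
    refine Asymptotics.isBigO_const_of_tendsto (?_ : Tendsto _ _ (𝓝 (1 : ℂ))) one_ne_zero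
    rw [(by simp : (1 : ℂ) = ((Real.exp (-0) : ℝ) : ℂ))]
    exact (continuous_ofReal.comp (Real.continuous_exp.comp continuous_neg)).continuousWithinAt
  · simp

lemma integrand (t : ℝ) (ht : 0 < t) :
    ((t : ℂ) ^ ((1 : ℂ) - 1)) • (Real.log t • ((Real.exp (-t) : ℝ) : ℂ)) =
      ((Real.exp (-t) * Real.log t : ℝ) : ℂ) := by
  rw [sub_self, Complex.cpow_zero, one_smul, Complex.real_smul, Complex.ofReal_mul, mul_comm]

end GLEM

theorem specGLE : SpecGLE := by
  obtain ⟨h1, h2⟩ := GLEM.mellin_pair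
  have hint : IntegrableOn (fun t : ℝ => ((Real.exp (-t) * Real.log t : ℝ) : ℂ)) (Set.Ioi 0) := by
    refine IntegrableOn.congr_fun h1 (fun t ht => ?_) measurableSet_Ioi
    exact GLEM.integrand t ht
  have hint2 : IntegrableOn (fun t : ℝ => Real.exp (-t) * Real.log t) (Set.Ioi 0) := by
    have h3 := hint.re
    refine h3.congr ?_
    exact Eventually.of_forall fun t => Complex.ofReal_re _
  refine ⟨hint2, ?_⟩
  have h4 : HasDerivAt Complex.Gamma
      (mellin (fun t : ℝ => Real.log t • ((Real.exp (-t) : ℝ) : ℂ)) 1) 1 := by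
    refine h2.congr_of_eventuallyEq ?_
    have hopen : IsOpen {s : ℂ | 0 < s.re} := Complex.continuous_re.isOpen_preimage _ isOpen_Ioi
    filter_upwards [hopen.mem_nhds (by simp : (0 : ℝ) < (1 : ℂ).re)] with s hs
    rw [Complex.Gamma_eq_integral hs, Complex.GammaIntegral_eq_mellin]
  have h5 := h4.unique Complex.hasDerivAt_Gamma_one
  have h6 : mellin (fun t : ℝ => Real.log t • ((Real.exp (-t) : ℝ) : ℂ)) 1 =
      ((∫ t in Set.Ioi (0 : ℝ), Real.exp (-t) * Real.log t : ℝ) : ℂ) := by
    unfold mellin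
    rw [← integral_complex_ofReal]
    refine setIntegral_congr_fun measurableSet_Ioi fun t ht => ?_
    exact GLEM.integrand t ht
  rw [h6] at h5
  exact_mod_cast h5

end

end Pool.Agent.Lib.LargeAP
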