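import Pool.Agent.Lib.LargeAP.Defs
import Pool.Agent.Lib.LP.Spec

/-!
# Statements of the modules of the project LargeAP

Every module file `X.lean` proves `theorem specX (h₁ : SpecU) (h₂ : SpecV) ... : SpecX`
(hypotheses in the order of the docstring), auxiliary lemmas in the namespace
`Pool.Agent.Lib.LargeAP.X`.  `L = L(·, χ) = DirichletCharacter.LFunction χ`, `ldL = -L'/L`,
`χ ≠ 1` means: not principal.  `σ = Re s`, `t = Im s`.  `B` plays the role of `log Q`: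
`q ≤ exp B`, `|t| ≤ exp B` (or `3 exp B`).
-/

set_option autoImplicit false

namespace Pool.Agent.Lib.LargeAP

open Finset Filter Topology Complex Metric
open scoped Classical ArithmeticFunction

noncomputable section

/-! ## Group Z: zero free region -/

/-- LAN (no hypotheses): Landau's lemma. Proof. `f ≢ 0`, so `f` has finitely many zeros in
`closedBall s₀ (1/4)`; let `Z` be the multiset of these zeros with multiplicity, `f = g ∏_{ρ ∈ Z} (s - ρ)`, `g` entire,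
`g ≠ 0` on `closedBall s₀ (1/4)` (Mathlib: `MeromorphicOn.extract_zeros_poles`, or divide by one factor at a time,
`dslope`). For `|s - s₀| = 1/2`: `|s - ρ| ≥ 1/4 ≥ |s₀ - ρ|`, so
`|g(s)| ≤ e^M |g(s₀)|` there, hence on the ball by the maximum principle.  On `ball s₀ (1/4)` (convex, `g ≠ 0`) there is an
analytic `h` with `g = g(s₀) e^h`, `h(s₀) = 0`, `Re h ≤ M`.  `Complex.borelCaratheodory_zero` on radius `1/4`: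
`|h| ≤ 2M (3/16)/(1/16) = 6M` for `|s - s₀| ≤ 3/16`; Cauchy's estimate with radius `1/16`: `|h'| ≤ 96 M` on
`closedBall s₀ (1/8)`, and `h' = g'/g = f'/f - ∑ 1/(s - ρ)`. -/
def SpecLAN : Prop := ∃ C : ℝ, 0 < C ∧ ∀ (f : ℂ → ℂ) (s₀ : ℂ) (M : ℝ), 1 ≤ M → Differentiable ℂ f →
  f s₀ ≠ 0 → (∀ s ∈ closedBall s₀ (1 / 2), ‖f s‖ ≤ Real.exp M * ‖f s₀‖) →
  ∃ Z : Multiset ℂ, (∀ ρ ∈ Z, f ρ = 0 ∧ ρ ∈ closedBall s₀ (1 / 4)) ∧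
    (∀ ρ ∈ closedBall s₀ (1 / 4), f ρ = 0 → ρ ∈ Z) ∧
    ∀ s ∈ closedBall s₀ (1 / 8), f s ≠ 0 →
      ‖deriv f s / f s - (Z.map (fun ρ => (s - ρ)⁻¹)).sum‖ ≤ C * M

/-- LB (from LP.SpecPER, LP.SpecCON): `L(s,χ) - ∑_{n ≤ N} χ(n) n^(-s)` for `Re s ≥ 1/2`. Proof. `S(u) = ∑_{n ≤ u} χ(n)`,
`|S(u)| ≤ q` (PER). CON: `L(s) = s ∫_1^∞ S(u) u^(-s-1) du` for `Re s > 0`; Abel summation on `[1,N]`
(`sum_mul_eq_sub_integral_mul` type lemmas): `s ∫_1^N S(u) u^(-s-1) du = ∑_{n ≤ N} χ(n) n^(-s) - S(N) N^(-s)`. So the difference is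
`- S(N) N^(-s) + s ∫_N^∞ S(u) u^(-s-1) du`, at most `q N^(-σ) (1 + |s|/σ)`, `σ ≥ 1/2`. -/
def SpecLB : Prop := ∃ C : ℝ, 0 < C ∧ ∀ (q : ℕ) [NeZero q] (χ : DirichletCharacter ℂ q), χ ≠ 1 →
  ∀ (s : ℂ) (N : ℕ), 1 / 2 ≤ s.re → 1 ≤ N →
    ‖DirichletCharacter.LFunction χ s - Pp χ N s‖ ≤ C * q * (1 + ‖s‖) * (N : ℝ) ^ (-s.re)

/-- LBD (from LB): simple upper bounds for `L` and `L'`. Proof. LB with `N = 1` gives `|L(s)| ≤ 1 + C q (1 + |s|)` for `σ ≥ 1/2`;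
for `L'` at `σ ≥ 3/4` Cauchy's estimate on the circle of radius `1/4` (`Complex.norm_deriv_le_of_forall_mem_sphere_norm_le`). -/
def SpecLBD : Prop := ∃ C : ℝ, 1 ≤ C ∧ ∀ (q : ℕ) [NeZero q] (χ : DirichletCharacter ℂ q), χ ≠ 1 →
  ∀ s : ℂ, (1 / 2 ≤ s.re → ‖DirichletCharacter.LFunction χ s‖ ≤ C * q * (1 + ‖s‖)) ∧
    (3 / 4 ≤ s.re → ‖deriv (DirichletCharacter.LFunction χ) s‖ ≤ C * q * (1 + ‖s‖))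

/-- LBO (no hypotheses): bound for `(s-1) L(s, χ₀)`. Proof. For `s ≠ 1` Mathlib
(`LFunctionTrivChar_eq_mul_riemannZeta`) gives `(s-1) ζ(s) ∏_{p ∣ q} (1 - p^(-s))`, the product is at most `2^(ω(q)) ≤ q`
in norm (`q ≥ 1`, `σ ≥ 1/2 > 0`). `(s-1) ζ(s) = s - s (s-1) ∫_1^∞ {u} u^(-s-1) du` for `σ > 0`, `s ≠ 1`
(true for `σ > 1`, identity theorem as in LB).  The value at `s = 1` by continuity. -/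
def SpecLBO : Prop := ∃ C : ℝ, 1 ≤ C ∧ ∀ (q : ℕ) [NeZero q] (s : ℂ), 1 / 2 ≤ s.re →
  ‖DirichletCharacter.LFunctionTrivChar₁ q s‖ ≤ C * q * (1 + ‖s‖) ^ 2

/-- UP (no hypotheses): `|L'/L| ≤ 1/(σ-1) + C`, and `|L(s,χ)| ≤ 2/(σ-1)`. Proof. `-L'/L = ∑ χ(n) Λ(n) n^(-s)`
(`DirichletCharacter.LSeries_twist_vonMangoldt_eq`), norm `≤ ∑ Λ(n) n^(-σ) = -ζ'/ζ(σ)`, and `-ζ'/ζ(σ) - 1/(σ-1)` is bounded on
`(1,2]`: it is minus the logarithmic derivative of `LFunctionTrivChar₁ 1`, which is continuous on `[1,2]`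
(`continuousOn_neg_logDeriv_LFunctionTrivChar₁`).  `|L| ≤ ∑ n^(-σ) ≤ σ/(σ-1)`. -/
def SpecUP : Prop := ∃ C : ℝ, 0 < C ∧ ∀ (q : ℕ) [NeZero q] (χ : DirichletCharacter ℂ q) (s : ℂ),
  1 < s.re → s.re ≤ 2 →
    ‖ldL χ s‖ ≤ 1 / (s.re - 1) + C ∧ ‖DirichletCharacter.LFunction χ s‖ ≤ 2 / (s.re - 1)

/-- EXL (from LAN, LBD, LP.SpecINV): expansion of `L'/L`. Proof. `s₀ = 1 + 1/B + i t`. On `closedBall s₀ (1/2)`: `σ ≥ 1/2`,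
`|L| ≤ C e^B (1 + 2 + 3 e^B) ≤ e^(3B + C')`; `|L(s₀)| ≥ 1/(2B)` (INV, `1/B ≤ 1`). So `M = C'' B` is admissible in LAN
(`B ≥ 16`). `deriv f / f = - ldL`. -/
def SpecEXL : Prop := ∃ C : ℝ, 0 < C ∧ ∀ (q : ℕ) [NeZero q] (χ : DirichletCharacter ℂ q), χ ≠ 1 →
  ∀ (B t : ℝ), 16 ≤ B → (q : ℝ) ≤ Real.exp B → |t| ≤ 3 * Real.exp B →
  ∃ Z : Multiset ℂ,
    (∀ ρ ∈ Z, DirichletCharacter.LFunction χ ρ = 0 ∧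
      ρ ∈ closedBall (⟨1 + 1 / B, t⟩ : ℂ) (1 / 4)) ∧
    (∀ ρ ∈ closedBall (⟨1 + 1 / B, t⟩ : ℂ) (1 / 4), DirichletCharacter.LFunction χ ρ = 0 → ρ ∈ Z) ∧
    ∀ s ∈ closedBall (⟨1 + 1 / B, t⟩ : ℂ) (1 / 8), DirichletCharacter.LFunction χ s ≠ 0 →
      ‖ldL χ s + (Z.map (fun ρ => (s - ρ)⁻¹)).sum‖ ≤ C * B

/-- DRP (from EXL): one sided bounds. Proof. EXL at `t = Im s`; `s` is in the ball of radius `1/8` (`1 < σ ≤ 1 + 1/8`,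
`1/B ≤ 1/16`). All zeros have `Re ρ < 1` (`DirichletCharacter.LFunction_ne_zero_of_one_le_re`), so every term
`Re (1/(s-ρ)) = (σ - Re ρ)/|s-ρ|² > 0`: drop all or all but the given ones; `7/8 ≤ Re ρ`, `|Im ρ - t| ≤ 1/8` puts `ρ` into
`closedBall (1/4)`. -/
def SpecDRP : Prop := ∃ C : ℝ, 0 < C ∧ ∀ (q : ℕ) [NeZero q] (χ : DirichletCharacter ℂ q), χ ≠ 1 →
  ∀ (B : ℝ) (s : ℂ), 16 ≤ B → (q : ℝ) ≤ Real.exp B → |s.im| ≤ 3 * Real.exp B → 1 < s.re → s.re ≤ 1 + 1 / 8 →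
  (ldL χ s).re ≤ C * B ∧
  (∀ ρ : ℂ, DirichletCharacter.LFunction χ ρ = 0 → 7 / 8 ≤ ρ.re → |ρ.im - s.im| ≤ 1 / 8 →
    (ldL χ s).re ≤ C * B - ((s - ρ)⁻¹).re) ∧
  (∀ ρ ρ' : ℂ, ρ ≠ ρ' → DirichletCharacter.LFunction χ ρ = 0 → 7 / 8 ≤ ρ.re → |ρ.im - s.im| ≤ 1 / 8 →
    DirichletCharacter.LFunction χ ρ' = 0 → 7 / 8 ≤ ρ'.re → |ρ'.im - s.im| ≤ 1 / 8 →
    (ldL χ s).re ≤ C * B - ((s - ρ)⁻¹).re - ((s - ρ')⁻¹).re)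

/-- EXO (from LAN, LBO, LP.SpecINV): the principal character. Proof. `f = LFunctionTrivChar₁ q` (entire,
`= (s-1) L(s,χ₀)` for `s ≠ 1`), `s₀ = 1 + 1/B + i t`, `t = Im s`; `|f(s₀)| ≥ (1/B)(1/(2B))`, `|f| ≤ C e^B (3 + 3 e^B)²` on the
ball; `M = C'' B`. `f'/f = 1/(s-1) - ldL`; zeros of `f` have `Re ρ < 1` (`f(1) ≠ 0`, Mathlib
`LFunctionTrivChar₁_apply_one_ne_zero`, and nonvanishing on `Re s ≥ 1`). -/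
def SpecEXO : Prop := ∃ C : ℝ, 0 < C ∧ ∀ (q : ℕ) [NeZero q] (B : ℝ) (s : ℂ), 16 ≤ B →
  (q : ℝ) ≤ Real.exp B → |s.im| ≤ 3 * Real.exp B → 1 < s.re → s.re ≤ 1 + 1 / 8 →
  (ldL (1 : DirichletCharacter ℂ q) s).re ≤ ((s - 1)⁻¹).re + C * B

/-- TFO (no hypotheses): positivity. Proof. `ldL χ s = ∑ χ(n) Λ(n) n^(-s)` for `Re s > 1`
(`LSeries_twist_vonMangoldt_eq`, `LSeriesSummable_twist_vonMangoldt`, `LFunction_eq_LSeries` near `s`). Termwise: for `(n,q) = 1`,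
`w = χ(n) n^(-it)`, `|w| = 1`: `3 + 4 Re w + Re w² = 2 (1 + Re w)² ≥ 0`; real characters have values `0, 1, -1`:
`(1 + χ₁(n))(1 + χ₂(n)) ≥ 0`, `1 + χ(n) ≥ 0` for `(n,q) = 1`; all terms are `0` if `(n,q) > 1`. -/
def SpecTFO : Prop := ∀ (q : ℕ) [NeZero q] (σ : ℝ), 1 < σ →
  (∀ (χ : DirichletCharacter ℂ q) (t : ℝ),
    0 ≤ 3 * (ldL (1 : DirichletCharacter ℂ q) (σ : ℂ)).re + 4 * (ldL χ (⟨σ, t⟩ : ℂ)).re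
      + (ldL (χ ^ 2) (⟨σ, 2 * t⟩ : ℂ)).re) ∧
  (∀ χ : DirichletCharacter ℂ q, χ ^ 2 = 1 →
    0 ≤ (ldL (1 : DirichletCharacter ℂ q) (σ : ℂ)).re + (ldL χ (σ : ℂ)).re) ∧
  (∀ χ₁ χ₂ : DirichletCharacter ℂ q, χ₁ ^ 2 = 1 → χ₂ ^ 2 = 1 →
    0 ≤ (ldL (1 : DirichletCharacter ℂ q) (σ : ℂ)).re + (ldL χ₁ (σ : ℂ)).re
      + (ldL χ₂ (σ : ℂ)).re + (ldL (χ₁ * χ₂) (σ : ℂ)).re)

/-- ZC (from DRP, UP, TFO): complex characters. Proof. Let `ρ = β + i t` be a zero, `β > 1 - c/B`, `|t| ≤ e^B` (`β < 1` by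
Mathlib), `c ≤ 1/8`. With `σ = 1 + a/B` (`a ≤ 1` to be chosen): TFO, UP and DRP (b) at `σ + i t`, DRP (a) at `σ + 2 i t`
(`|2t| ≤ 3 e^B`) give `0 ≤ 3 (B/a + C) + 4 (C B - 1/(σ-β)) + C B`, `1/(σ-β) ≥ B/(a+c)`: so
`4/(a+c) ≤ 3/a + 8C` which fails for `a = 1/(40 C)`, `c = a/10` (`C ≥ 1` wlog): `4/(1.1 a) > 3.6/a ≥ 3/a + 8C + ...`. -/
def SpecZC : Prop := ∃ c : ℝ, 0 < c ∧ c ≤ 1 / 8 ∧ ∀ (q : ℕ) [NeZero q] (χ : DirichletCharacter ℂ q),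
  χ ^ 2 ≠ 1 → ∀ B : ℝ, 16 ≤ B → (q : ℝ) ≤ Real.exp B → ZFree χ c B

/-- ZR (from DRP, EXO, UP, TFO): real characters have no non-real zeros in the region. Proof. `χ² = 1`, zero `ρ = β + i γ`,
`0 < |γ| ≤ e^B`, `β > 1 - c/B`. Let `a = 1/(100 C)`, `c = a/100`.
Case `|γ| ≥ a/B`: `σ = 1 + a/B`; TFO with `χ² = 1`: `0 ≤ 3(B/a + C) + 4(C B - B/(a+c)) + Re(1/(σ-1+2iγ)) + C B`, and
`Re(1/(σ-1+2iγ)) ≤ (a/B)/((a/B)² + 4 (a/B)²) = B/(5a)`: `4/(a+c) ≤ 3.2/a + 8C`, false.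
Case `|γ| < a/B`: the conjugate of `ρ` is another zero (`L(conj s, χ) = conj L(s, χ)` for real `χ`: true for `Re s > 1`,
identity theorem); `σ = 1 + 2a/B`, TFO (real): `0 ≤ (B/(2a) + C) + C B - 2 (σ-β)/((σ-β)² + γ²)`, and
`2a ≤ B(σ-β) ≤ 2a + c`, `B|γ| ≤ a`: the last term is `≥ 2 B (2a)/((2a+c)² + a²) ≥ 0.78 B/a`, false. -/
def SpecZR : Prop := ∃ c : ℝ, 0 < c ∧ c ≤ 1 / 8 ∧ ∀ (q : ℕ) [NeZero q] (χ : DirichletCharacter ℂ q),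
  χ ≠ 1 → χ ^ 2 = 1 → ∀ B : ℝ, 16 ≤ B → (q : ℝ) ≤ Real.exp B →
  ∀ s : ℂ, 1 - c / B < s.re → |s.im| ≤ Real.exp B → s.im ≠ 0 → DirichletCharacter.LFunction χ s ≠ 0

/-- ZP (from DRP, UP, TFO): Landau-Page. Proof. Let `β₁, β₂ > 1 - c/B` be real zeros of `L(·,χ₁)`, `L(·,χ₂)`, `χ₁ ≠ χ₂` real, so
`χ₁χ₂ ≠ 1`. TFO (third part) at `σ = 1 + a/B`: `0 ≤ B/a + C + 2 (C B - B/(a+c)) + C B`, false for `a = 1/(100C)`,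
`c = a/10`. -/
def SpecZP : Prop := ∃ c : ℝ, 0 < c ∧ c ≤ 1 / 8 ∧ ∀ (q : ℕ) [NeZero q] (χ₁ χ₂ : DirichletCharacter ℂ q),
  χ₁ ≠ χ₂ → χ₁ ≠ 1 → χ₂ ≠ 1 → χ₁ ^ 2 = 1 → χ₂ ^ 2 = 1 → ∀ B : ℝ, 16 ≤ B → (q : ℝ) ≤ Real.exp B →
  ∀ β₁ β₂ : ℝ, 1 - c / B < β₁ → 1 - c / B < β₂ → DirichletCharacter.LFunction χ₁ (β₁ : ℂ) = 0 →
    DirichletCharacter.LFunction χ₂ (β₂ : ℂ) = 0 → False

/-- ZF (from ZC, ZR, ZP): one exceptional character. Proof. `c` = minimum of the three. If a real `χ ≠ 1` has a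
zero in the region it is real (ZR); by ZP there is at most one such `χ`: this is `χe` (else `χe = 1`). -/
def SpecZF : Prop := ∃ c : ℝ, 0 < c ∧ c ≤ 1 / 8 ∧ ∀ (q : ℕ) [NeZero q] (B : ℝ), 16 ≤ B →
  (q : ℝ) ≤ Real.exp B → ∃ χe : DirichletCharacter ℂ q,
    (χe = 1 ∨ (χe ≠ 1 ∧ χe ^ 2 = 1 ∧ ∃ β : ℝ, 1 - c / B < β ∧ DirichletCharacter.LFunction χe (β : ℂ) = 0)) ∧
    ∀ χ : DirichletCharacter ℂ q, χ ≠ 1 → χ ≠ χe → ZFree χ c B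

/-- EXD (from ZF, LP.SpecDB, LP.SpecFIN): drop one prime `p₀ > P`. Proof. `χe` mod `Q` from ZF. If `χe = 1`: any prime
`p₀ > P`. Otherwise let `m` be the conductor of `χe` (`≠ 1`, divides `Q`, so squarefree). CLAIM: a prime `p₀ > P` divides `m` if
`B ≥ B₀(P)`: otherwise `m ∣ primorial P =: N`, `χe = changeLevel χ₀`, `χ₀ ≠ 1` mod `m`, `m ≤ N`; by `LFunction_changeLevel` and
`1 - χ₀(p) p^(-β) ≠ 0` (`β > 0`) also `L(β, χ₀) = 0`; FIN: `|L(1,χ₀)| ≥ c₁(N)`, DB (with `T = T(N) ≥ 1000, log N`):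
`|L'| ≤ T⁴` on `[1 - 1/(4T), 1]`, so `1 - β ≥ min(1/(4T), c₁/T⁴)`, against `β > 1 - c/B` for large `B`. Now let `q ∣ Q` be
prime to `p₀`, `χ` mod `q`, `χ ≠ 1`, `χ' = changeLevel χ` (mod `Q`): `χ' ≠ 1` (`changeLevel_eq_one_iff`) and `χ' ≠ χe` (else `m ∣ q`:
`changeLevel_factorsThrough`, `conductor_dvd_of_mem_conductorSet`, so `p₀ ∣ q`). So `L(s,χ') ≠ 0` in the region and
`LFunction_changeLevel` (`L(s,χ') = L(s,χ) ∏ ...`, `χ ≠ 1`) gives `L(s,χ) ≠ 0`. -/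
def SpecEXD : Prop := ∃ c : ℝ, 0 < c ∧ c ≤ 1 / 8 ∧ ∀ P : ℕ, ∃ B₀ : ℝ, ∀ B : ℝ, B₀ ≤ B → ∀ (Q : ℕ) [NeZero Q],
  Squarefree Q → Real.log Q ≤ B → ∃ p₀ : ℕ, p₀.Prime ∧ P < p₀ ∧
    ∀ (q : ℕ) [NeZero q], q ∣ Q → q.Coprime p₀ → ∀ χ : DirichletCharacter ℂ q, χ ≠ 1 → ZFree χ c B

/-- LD (from EXL, UP): bound of `L'/L` to the left of `1`. Proof. For `σ ≥ 1 + 1/B`: UP (`B + C ≤ C' B`). Otherwise let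
`s₀ = 1 + 1/B + i t`; `s` and `s₀` are in the ball of radius `1/8`. Every `ρ ∈ Z` has `|Im ρ| ≤ |t| + 1/4 ≤ e^B`, so
`Re ρ ≤ 1 - c/B` by `ZFree`. EXL at `s₀` and UP: `∑ Re 1/(s₀-ρ) ≤ |ldL(s₀)| + C B ≤ C' B`. For each `ρ`:
`|1/(s-ρ) - 1/(s₀-ρ)| = |s-s₀|/(|s-ρ||s₀-ρ|)`, `|s-s₀| ≤ (1 + c/2)/B ≤ 2/B`, `|s-ρ| ≥ Re s - Re ρ ≥ c/(2B)` so
`|s₀-ρ| ≤ |s-ρ| + 2/B ≤ (1 + 4/c)|s-ρ|`; the difference is `≤ (2/B)(1+4/c)/|s₀-ρ|² ≤ 2(1+4/c) Re 1/(s₀-ρ)` since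
`Re 1/(s₀-ρ) = Re(s₀-ρ)/|s₀-ρ|² ≥ (1/B)/|s₀-ρ|²`. Sum up, EXL at `s` and at `s₀`. -/
def SpecLD : Prop := ∀ c : ℝ, 0 < c → c ≤ 1 → ∃ C : ℝ, 0 < C ∧
  ∀ (q : ℕ) [NeZero q] (χ : DirichletCharacter ℂ q) (B : ℝ), χ ≠ 1 → 16 ≤ B → (q : ℝ) ≤ Real.exp B →
    ZFree χ c B → ∀ s : ℂ, 1 - c / (2 * B) ≤ s.re → s.re ≤ 2 → |s.im| ≤ Real.exp B - 1 →
      ‖ldL χ s‖ ≤ C * B

/-! ## Group K: contour integrals (Gaussian weights as in the project LP) -/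

/-- SHG (no hypotheses): shift of a whole vertical line to `Re s = 3/4`. Proof. `F(s) = f(s) exp(s u + s²/(4λ))` is entire and
`|F(σ+it)| ≤ A (3+|t|)^k e^(σ u) e^(1/λ) e^(-t²/(4λ))` for `3/4 ≤ σ ≤ 2`; rectangles of height `T → ∞`
(`Complex.integral_boundary_rect_eq_zero_of_differentiableOn`), the horizontal sides tend to `0`, the vertical line
integrals converge absolutely; the one at `3/4` is `≤ A e^(3u/4) e^(1/λ) ∫ (3+|t|)^k e^(-t²/(4λ)) dt`. -/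
def SpecSHG : Prop := ∀ (lam : ℝ) (k : ℕ), 0 < lam → ∃ C : ℝ, 0 < C ∧ ∀ (f : ℂ → ℂ) (A u c : ℝ), 0 ≤ A → 0 ≤ u →
  1 < c → c ≤ 2 → Differentiable ℂ f →
  (∀ s : ℂ, 3 / 4 ≤ s.re → s.re ≤ 2 → ‖f s‖ ≤ A * (1 + ‖s‖) ^ k) →
  MeasureTheory.Integrable (fun t : ℝ => f (c + t * Complex.I) * KG lam u (c + t * Complex.I)) ∧
  ‖∫ t : ℝ, f (c + t * Complex.I) * KG lam u (c + t * Complex.I)‖ ≤ C * A * Real.exp (3 * u / 4)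

/-! ## Group M: mean value -/

/-- DAP (no hypotheses): divisor sums in a class. Proof. For `N ≥ q³` and `(a,q) = 1`: `d(n) ≤ 2 #{m ∣ n : m² ≤ n}`, so
`∑_{N < n ≤ 2N, n ≡ a} d(n) ≤ 2 ∑_{m ≤ √(2N), (m,q)=1} (N/(mq) + 1) ≤ C (N/q)(1 + log N)`, because
`√N ≤ N/q`. Dyadic blocks `N = Y 2^j`: `≤ 2 log W + 1` blocks, each divided by `N`. -/
def SpecDAP : Prop := ∃ C : ℝ, 0 < C ∧ ∀ (q : ℕ) [NeZero q] (a : ZMod q) (Y W : ℕ), IsUnit a → 1 ≤ Y →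
  q ^ 3 ≤ Y → Y ≤ W → ∑ n ∈ (Ioc Y W).filter (fun n : ℕ => (n : ZMod q) = a), ((n.divisors.card : ℝ) / n)
    ≤ C * (1 + Real.log W) ^ 2 / q

/-- HEA (no hypotheses): the product of the mollifier and a partial sum. Proof. `b(n) = ∑_{m ∣ n, m ≤ Y, n/m ≤ Z} μ(m)`;
`b(1) = 1`, and for `1 < n ≤ Y` (`≤ Z`) all divisors are admitted, so `b(n) = ∑_{m ∣ n} μ(m) = 0`. -/
def SpecHEA : Prop := ∀ Y Z : ℕ, 1 ≤ Y → Y ≤ Z → ∃ b : ℕ → ℝ, (∀ n : ℕ, |b n| ≤ n.divisors.card) ∧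
  ∀ (q : ℕ) [NeZero q] (χ : DirichletCharacter ℂ q) (s : ℂ),
    Pp χ Z s * Mp χ Y s = 1 + ∑ n ∈ Ioc Y (Y * Z), (b n : ℂ) * χ (n : ZMod q) * (n : ℂ) ^ (-s)

/-- MVA (from LB): approximation. `Y = YB B`, `Z = ZB B`, so `e^(10B)/2 ≤ Z`, `Z^(-σ) ≤ 2 e^10 e^(-10B)` for `σ ≥ 1 - 1/B`. LB:
`|L - Pp| ≤ C e^B (3 + e^B) 2 e^10 e^(-10B) ≤ C' e^(-8B)`, `|Mp| ≤ Y ≤ e^(3B)` (`|m^(-s)| ≤ 1`). -/
def SpecMVA : Prop := ∃ C : ℝ, 0 < C ∧ ∀ (q : ℕ) [NeZero q] (χ : DirichletCharacter ℂ q) (B : ℝ) (s : ℂ), χ ≠ 1 →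
  16 ≤ B → (q : ℝ) ≤ Real.exp B → 1 - 1 / B ≤ s.re → s.re ≤ 2 → |s.im| ≤ Real.exp B →
  ‖(DirichletCharacter.LFunction χ s - Pp χ (ZB B) s) * Mp χ (YB B) s‖ ≤ C * Real.exp (-5 * B)

/-- MVB (from DAP): mean square over all characters of a Dirichlet polynomial with divisor bounded coefficients. Proof.
Orthogonality (`DirichletCharacter.sum_char_inv_mul_char_eq`, Parseval on the units mod `q`):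
`∑_χ |∑_n b χ n^(-s)|² = φ(q) ∑_{a unit} |∑_{n ≡ a} b(n) n^(-s)|² ≤ φ(q) ∑_a (∑_{n ≡ a} d(n) n^(-σ))²`,
`n^(-σ) ≤ n^(-1) (YZ)^(1/B) ≤ e^13/n` for `n ≤ Y Z ≤ e^(13B)`; DAP (`q³ ≤ e^(3B)`, so `q³ ≤ Y`; `log(YZ) ≤ 13 B`) bounds each class by
`e^13 C (1+13B)²/q`; total `≤ (φ(q)/q)² (e^13 C (1+13B)²)²`. -/
def SpecMVB : Prop := ∃ C : ℝ, 0 < C ∧ ∀ (b : ℕ → ℝ), (∀ n : ℕ, |b n| ≤ n.divisors.card) →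
  ∀ (q : ℕ) [NeZero q] (B : ℝ) (s : ℂ), 16 ≤ B → (q : ℝ) ≤ Real.exp B → 1 - 1 / B ≤ s.re →
  ∑ χ : DirichletCharacter ℂ q,
    ‖∑ n ∈ Ioc (YB B) (YB B * ZB B), (b n : ℂ) * χ (n : ZMod q) * (n : ℂ) ^ (-s)‖ ^ 2 ≤ C * B ^ 4

/-- MV (from HEA, MVA, MVB): mean value of `|1 - L M|²` over all characters. Proof. By HEA
`1 - L M = - ∑_{Y < n ≤ YZ} b(n) χ(n) n^(-s) - (L - Pp) M`; `|x+y|² ≤ 2|x|² + 2|y|²`; MVB and `φ(q) ≤ e^B` times `C² e^(-10B)`. -/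
def SpecMV : Prop := ∃ C : ℝ, 0 < C ∧ ∀ (q : ℕ) [NeZero q] (B : ℝ) (s : ℂ), 16 ≤ B → (q : ℝ) ≤ Real.exp B →
  1 - 1 / B ≤ s.re → s.re ≤ 2 → |s.im| ≤ Real.exp B →
  ∑ χ ∈ (univ : Finset (DirichletCharacter ℂ q)).erase 1,
    ‖1 - DirichletCharacter.LFunction χ s * Mp χ (YB B) s‖ ^ 2 ≤ C * B ^ 4

/-! ## Group A: assembly -/

/-- FAB (from LBD): the entire part. Proof. `fA` is differentiable (`L`, `L'` entire for `χ ≠ 1`, `Mp` a finite sum of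
exponentials; `m ≥ 1`). `|M| ≤ Y ≤ e^(3B)` for `Re s ≥ 0`, LBD, `q ≤ e^B`:
`|fA| ≤ C e^(4B) (1+|s|) (2 + C e^(4B) (1+|s|)) ≤ C' e^(8B) (1+|s|)²`. Third clause: algebra, `ldL L = - L'`. -/
def SpecFAB : Prop := ∃ C : ℝ, 0 < C ∧ ∀ (q : ℕ) [NeZero q] (χ : DirichletCharacter ℂ q) (B : ℝ), χ ≠ 1 →
  16 ≤ B → (q : ℝ) ≤ Real.exp B → Differentiable ℂ (fA χ B) ∧
  (∀ s : ℂ, 3 / 4 ≤ s.re → s.re ≤ 2 → ‖fA χ B s‖ ≤ C * Real.exp (8 * B) * (1 + ‖s‖) ^ 2) ∧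
  (∀ s : ℂ, DirichletCharacter.LFunction χ s ≠ 0 → ldL χ s = fA χ B s + fB χ B s)

/-- TAI (from UP): the tail `|t| > e^B - 1` on the line `σ₁ = 1 + 1/u`. Proof. UP: `|ldL| ≤ u + C`, `|L| ≤ 2u`; `|M| ≤ e^(3B)`;
`|KG| ≤ e^(σ₁ u) e^(1/λ) e^(-t²/(4λ)) ≤ C e^u e^(-t²/(4λ))`;
`∫_{|t|>T} e^(-t²/(4λ)) ≤ 2 ∫_T^∞ e^(-T t/(4λ)) = (8λ/T) e^(-T²/(4λ)) ≤ C_λ e^(-10B)`, `T = e^B - 1 ≥ e^B/2`. Total
`≤ C (u+C) (1 + 2u e^(3B))² e^u e^(-10B)`. -/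
def SpecTAI : Prop := ∀ lam : ℝ, 0 < lam → ∃ C : ℝ, 0 < C ∧
  ∀ (q : ℕ) [NeZero q] (χ : DirichletCharacter ℂ q) (B u : ℝ), 16 ≤ B → 16 ≤ u →
  ∀ S : Set ℝ, MeasurableSet S → (∀ t ∈ S, Real.exp B - 1 ≤ |t|) →
    ‖∫ t in S, fB χ B ((1 + 1 / u : ℝ) + t * Complex.I) * KG lam u ((1 + 1 / u : ℝ) + t * Complex.I)‖
      ≤ C * (u ^ 3 * Real.exp (u - 4 * B))

/-- RCT (from LBD, LD, LP.SpecREC): the rectangle `σ₀ = 1 - c/(2B) ≤ σ ≤ σ₁ = 1 + 1/u`, `|t| ≤ T = e^B - 1`. Proof. LP.SpecREC for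
`fB KG`, differentiable there (`L ≠ 0` by `ZFree`, as `σ₀ > 1 - c/B`, `T ≤ e^B`). Horizontal sides: LD `|ldL| ≤ C B`, LBD
`|1 - L M|² ≤ C e^(10B)`, `|KG| ≤ e^(u+1) e^(1/λ) e^(-T²/(4λ))`, together `≤ C e^(u-4B)`. Left side: `|ldL| ≤ C B`,
`|KG| ≤ e^(σ₀ u) e^(1/λ) e^(-t²/(4λ))`, `σ₀ u = u - c u/(2B)`. -/
def SpecRCT : Prop := ∀ lam c : ℝ, 0 < lam → 0 < c → c ≤ 1 → ∃ C : ℝ, 0 < C ∧
  ∀ (q : ℕ) [NeZero q] (χ : DirichletCharacter ℂ q) (B u : ℝ), χ ≠ 1 → 16 ≤ B → (q : ℝ) ≤ Real.exp B →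
    ZFree χ c B → 16 ≤ u →
    ‖∫ t in (-(Real.exp B - 1))..(Real.exp B - 1),
        fB χ B ((1 + 1 / u : ℝ) + t * Complex.I) * KG lam u ((1 + 1 / u : ℝ) + t * Complex.I)‖
      ≤ C * (u ^ 3 * Real.exp (u - 4 * B) + B * Real.exp (u - c * u / (2 * B)) * IM χ lam c B)

/-- ASM (from LP.SpecEXP, SHG, FAB, TAI, RCT): one character. Proof. LP.EXP at `σ₁ = 1 + 1/u`: `2π F = ∫ ldL KG` (integrable).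
`ldL = fA + fB` on the line (`L ≠ 0` for `Re s > 1`). `∫ fA KG` by SHG with `k = 2`, `A = C e^(8B)`; `fB KG` is integrable (difference);
`∫ fB KG` = part `|t| > T` (TAI, `S = {t : T < |t|}`) + part `|t| ≤ T` (RCT). -/
def SpecASM : Prop := ∀ lam c : ℝ, 0 < lam → 0 < c → c ≤ 1 → ∃ C : ℝ, 0 < C ∧
  ∀ (q : ℕ) [NeZero q] (χ : DirichletCharacter ℂ q) (B u : ℝ), χ ≠ 1 → 16 ≤ B → (q : ℝ) ≤ Real.exp B →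
    ZFree χ c B → 16 ≤ u →
    ‖LP.F lam χ u‖ ≤ C * (Real.exp (8 * B + 3 * u / 4) + u ^ 3 * Real.exp (u - 4 * B)
      + B * Real.exp (u - c * u / (2 * B)) * IM χ lam c B)

/-- SUM (from ASM, MV): all characters. Proof. Sum ASM over `χ ∈ S`: `#S ≤ φ(q) ≤ q ≤ e^B`
(`DirichletCharacter.card_eq_totient_of_hasEnoughRootsOfUnity`); the sum of the integrals is `≤ C B⁴ ∫ e^(-t²/(4λ)) dt` by MV (the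
integrands are continuous). Total `≤ C [e^(9B + 3u/4) + u³ e^(u-3B) + B⁵ e^(u - c u/(2B))]`; with
`u^θ/2 ≤ B ≤ 2 u^θ`, `θ < 1`, every term is `o(e^u)`. -/
def SpecSUM : Prop := ∀ lam θ c ε : ℝ, 0 < lam → 0 < θ → θ < 1 → 0 < c → c ≤ 1 → 0 < ε → ∃ U₀ : ℝ, ∀ (u B : ℝ), U₀ ≤ u →
  u ^ θ / 2 ≤ B → B ≤ 2 * u ^ θ → ∀ (q : ℕ) [NeZero q], (q : ℝ) ≤ Real.exp B →
  ∀ S : Finset (DirichletCharacter ℂ q), (∀ χ ∈ S, χ ≠ 1 ∧ ZFree χ c B) →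
    ∑ χ ∈ S, ‖LP.F lam χ u‖ ≤ ε * Real.exp u

/-- ORT (from LP.SpecEXP, SUM): one class. Proof. As the module ORT of LP: `DirichletCharacter.sum_char_inv_mul_char_eq`:
`φ(q) SA = ∑_χ χ(a⁻¹) F_χ(u)` (finite sum of summable series, LP.EXP); the principal character gives at most `SU`, the others
by SUM. -/
def SpecORT : Prop := ∀ lam θ c ε : ℝ, 0 < lam → 0 < θ → θ < 1 → 0 < c → c ≤ 1 → 0 < ε → ∃ U₀ : ℝ, ∀ (u B : ℝ), U₀ ≤ u →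
  u ^ θ / 2 ≤ B → B ≤ 2 * u ^ θ → ∀ (q : ℕ) [NeZero q], (q : ℝ) ≤ Real.exp B →
  (∀ χ : DirichletCharacter ℂ q, χ ≠ 1 → ZFree χ c B) → ∀ a : ℕ, a.Coprime q →
    LP.SA lam q a u ≤ (LP.SU lam u + ε * Real.exp u) / q.totient

/-- LPT (from EXD, LP.SpecEXP, ORT, LP.SpecPNG, LP.SpecGMS): THE THEOREM. Proof. As the module LP of LP, with `B = (log x)^θ`:
we may assume `ε ≤ 1`. `κ > 0` with `2 e^κ - e^(-κ) ≤ 1 + ε/8`, `λ` with mass `≥ 1 - ε/8` in `[-κ, κ]` and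
`e^(1/(4λ)) ≤ 1 + ε/8`; PNG with `ε/8`, ORT with `ε/8`. For `x ≥ x₀` every `w ∈ [log x - κ, log (2x) + κ]` has
`w ≥ U₀`, `w^θ/2 ≤ (log x)^θ ≤ 2 w^θ`. EXD gives `p₀`. Let `q | Q`, `(q, p₀) = 1`, `(a, q) = 1`. For a prime `p`, `x < p ≤ 2x`:
`∫_(log x - κ)^(log 2x + κ) G(w - log p) dw ≥ ∫_(-κ)^κ G ≥ 1 - ε/8`. So
`(1 - ε/8) ∑_p log p ≤ ∫ (∑_p Λ(p) G(w - log p)) dw` (finite sum over the `p = a mod q` in `(x, 2x]`), for each `w` the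
finite sum is `≤ SA λ q a w ≤ ((1 + ε/8) e^(w + 1/(4λ)) + ε/8 e^w)/φ(q)` (nonnegative terms, summable by
EXP; ORT, PNG), and `∫_(log x - κ)^(log 2x + κ) e^w dw = x (2 e^κ - e^(-κ)) ≤ (1 + ε/8) x`. Total:
`(1 - ε/8)⁻¹ ((1 + ε/8)² + ε/8)(1 + ε/8) ≤ 1 + ε`. -/
def SpecLPT : Prop := ∀ θ ε : ℝ, 0 < θ → θ < 1 → 0 < ε → ∀ P : ℕ, ∃ x₀ : ℕ, ∀ x : ℕ, x₀ ≤ x → ∀ Q : ℕ, Squarefree Q →
  Real.log Q ≤ (Real.log x) ^ θ →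
  ∃ p₀ : ℕ, p₀.Prime ∧ P < p₀ ∧ ∀ q a : ℕ, q ∣ Q → q.Coprime p₀ → a.Coprime q →
    ∑ p ∈ (Finset.Ioc x (2 * x)).filter (fun p => p.Prime ∧ p ≡ a [MOD q]), Real.log p ≤
      (1 + ε) * x / q.totient

/-- LPY (from LPT). Proof. As LPZ of LP: `Q = ∏_{p < z} p = primorial (z - 1) ≤ 4^z` (`primorial_le_four_pow`),
squarefree, `log Q ≤ 2 z ≤ 2 (log x)^θ ≤ (log x)^((θ+1)/2)` for `x ≥ x₀`. `M | Q` and `M` is prime to `p₀` (product of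
primes `≠ p₀`). -/
def SpecLPY : Prop := ∀ θ ε : ℝ, 0 < θ → θ < 1 → 0 < ε → ∀ P : ℕ, ∃ x₀ : ℕ, ∀ x z : ℕ, x₀ ≤ x → 2 ≤ z →
  (z : ℝ) ≤ (Real.log x) ^ θ →
  ∃ p₀ : ℕ, p₀.Prime ∧ P < p₀ ∧
    ∀ M : ℕ, M = ∏ p ∈ (Finset.range z).filter (fun p => p.Prime ∧ p ≠ p₀), p →
    ∀ n : ℕ, n.Coprime M →
    ∑ p ∈ (Finset.Ioc x (2 * x)).filter (fun p => p.Prime ∧ p ≡ n [MOD M]), Real.log p ≤
      (1 + ε) * x / M.totient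

end

end Pool.Agent.Lib.LargeAP
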