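import Pool.Agent.Lib.LargeAP.SpecG
import Pool.Agent.Lib.LargeAP.Spec
import Pool.Agent.Lib.MP_926cc3_nt.PP.Spec

/-!
# LargeAP, module GRR: the interface with the project PP (MP_926cc3_nt)
-/

set_option autoImplicit false

namespace Pool.Agent.Lib.LargeAP

open Finset Filter Topology
open scoped Classical

open Pool.Agent.Lib.MP_926cc3_nt (PP.Rough PP.Mz PP.SpecPRL PP.NN)

noncomputable section

/-- GRR (from GRV, PP.SpecPRL). -/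
def SpecGRR : Prop := ∀ ε : ℝ, 0 < ε → ∃ θ a A : ℝ, 0 < θ ∧ θ < 1 ∧ a < 2 ∧ 2 < A ∧
  Pool.Agent.Lib.MP_926cc3_nt.PP.Rough θ a A (Real.exp Real.eulerMascheroniConstant / 2 + ε)

/-- NNT (from LPY). -/
def SpecNNT : Prop := ∀ θ : ℝ, 0 < θ → θ < 1 → Pool.Agent.Lib.MP_926cc3_nt.PP.NN θ

theorem specNNT (h : SpecLPY) : SpecNNT := by
  intro θ h0 h1 ε hε B
  obtain ⟨x₀, hx₀⟩ := h θ ε h0 h1 hε B
  refine ⟨x₀, fun x z hx hz hzx => ?_⟩
  obtain ⟨p₀, hp, hB, hM⟩ := hx₀ x z hx hz hzx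
  exact ⟨p₀, hp, hB, fun n hn => hM _ rfl n hn⟩

theorem specGRR (hG : SpecGRV) (hP : Pool.Agent.Lib.MP_926cc3_nt.PP.SpecPRL) : SpecGRR := by
  intro ε hε
  obtain ⟨δ₀, hδ₀, P, z₀, hG⟩ := hG ε hε
  obtain ⟨z₁, hz₁⟩ := hP 3
  obtain ⟨δ, hδ, hδ1, hδδ⟩ : ∃ δ : ℝ, 0 < δ ∧ δ ≤ 1 ∧ δ ≤ δ₀ :=
    ⟨min δ₀ 1, lt_min hδ₀ one_pos, min_le_right _ _, min_le_left _ _⟩
  have hd : 0 < 2 + δ := by linarith
  obtain ⟨θ, hθ⟩ : ∃ θ : ℝ, θ = (2 + δ / 2) / (2 + δ) := ⟨_, rfl⟩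
  obtain ⟨θ', hθ'⟩ : ∃ θ' : ℝ, θ' = (2 + δ / 4) / (2 + δ) := ⟨_, rfl⟩
  have hθ0 : 0 < θ := by rw [hθ]; positivity
  have hθ1 : θ < 1 := by rw [hθ, div_lt_one hd]; linarith
  have hθ'0 : 0 < θ' := by rw [hθ']; positivity
  have hθθ' : θ' < θ := by rw [hθ, hθ']; exact div_lt_div_of_pos_right (by linarith) hd
  have hA : θ' * (2 + δ) = 2 + δ / 4 := by rw [hθ']; field_simp
  refine ⟨θ, 2 * θ, 2 + δ / 4, hθ0, hθ1, by linarith, by linarith, P, 0, ?_⟩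
  -- size of z
  have hlog : Tendsto (fun x : ℕ => Real.log (x : ℝ)) atTop atTop :=
    Real.tendsto_log_atTop.comp tendsto_natCast_atTop_atTop
  have e1 : ∀ᶠ u : ℝ in atTop, u ^ θ' + 1 ≤ u ^ θ := by
    have h1 : Tendsto (fun u : ℝ => u ^ (θ - θ')) atTop atTop :=
      tendsto_rpow_atTop (by linarith)
    filter_upwards [h1.eventually_ge_atTop 2, eventually_ge_atTop (1 : ℝ)] with u hu hu1
    have h2 : u ^ θ = u ^ θ' * u ^ (θ - θ') := by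
      rw [← Real.rpow_add (by linarith)]; congr 1; ring
    have h3 : 1 ≤ u ^ θ' := Real.one_le_rpow hu1 hθ'0.le
    rw [h2]; nlinarith
  have e2 : ∀ᶠ u : ℝ in atTop, ((max (max z₀ z₁) 2 : ℕ) : ℝ) + 1 ≤ u ^ θ :=
    (tendsto_rpow_atTop hθ0).eventually_ge_atTop _
  filter_upwards [hlog.eventually e1, hlog.eventually e2, hlog.eventually (eventually_ge_atTop 1)]
    with x hx1 hx2 hx3
  have hz1 : ((⌊Real.log x ^ θ⌋₊ : ℕ) : ℝ) ≤ Real.log x ^ θ := Nat.floor_le (by positivity)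
  have hz2 : Real.log x ^ θ < (⌊Real.log x ^ θ⌋₊ : ℝ) + 1 := Nat.lt_floor_add_one _
  obtain ⟨z, hz⟩ : ∃ z : ℕ, z = ⌊Real.log x ^ θ⌋₊ := ⟨_, rfl⟩
  rw [← hz] at hz1 hz2
  have hz3 : Real.log x ^ θ' ≤ z := by linarith
  have hz4 : max (max z₀ z₁) 2 ≤ z := by
    have : ((max (max z₀ z₁) 2 : ℕ) : ℝ) < (z : ℝ) + 1 := by linarith
    have h5 : max (max z₀ z₁) 2 < z + 1 := by exact_mod_cast this
    omega
  have hz5 : z₀ ≤ z := le_trans (le_trans (le_max_left _ _) (le_max_left _ _)) hz4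
  have hz6 : z₁ ≤ z := le_trans (le_trans (le_max_right _ _) (le_max_left _ _)) hz4
  have hz7 : 2 ≤ z := le_trans (le_max_right _ _) hz4
  have hzr : (1 : ℝ) ≤ z := by exact_mod_cast (by omega : 1 ≤ z)
  refine ⟨z, hz7, hz1, fun p0 hp0 hB L hL1 hL2 => ?_⟩
  have hL1' : z ^ 2 ≤ L := by
    have h1 : ((z : ℝ)) ^ 2 ≤ L := by
      refine le_trans ?_ hL1
      have : (Real.log x) ^ (2 * θ) = ((Real.log x) ^ θ) ^ 2 := by
        rw [← Real.rpow_natCast, ← Real.rpow_mul (by linarith)]; congr 1; push_cast; ring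
      rw [this]
      exact pow_le_pow_left₀ (by positivity) hz1 2
    exact_mod_cast h1
  have hL2' : (L : ℝ) ≤ (z : ℝ) ^ (2 + δ) := by
    refine hL2.trans ?_
    rw [← hA, Real.rpow_mul (by linarith)]
    exact Real.rpow_le_rpow (by positivity) hz3 hd.le
  have hL2'' : (L : ℝ) ≤ (z : ℝ) ^ (2 + δ₀) :=
    hL2'.trans (Real.rpow_le_rpow_of_exponent_le hzr (by linarith))
  refine ⟨?_, 0, by simp, ?_⟩
  · refine le_trans ?_ (hz₁ z p0 hz6)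
    have h1 : (L : ℝ) ≤ (z : ℝ) ^ (3 : ℝ) :=
      hL2'.trans (Real.rpow_le_rpow_of_exponent_le hzr (by linarith))
    have h2 : (z : ℝ) ^ (3 : ℝ) = (z : ℝ) ^ (3 : ℕ) := by
      rw [← Real.rpow_natCast]; norm_num
    rw [h2] at h1
    exact_mod_cast h1
  · have h1 := hG z L p0 hz5 hp0 hB hL1' hL2'' (Pool.Agent.Lib.MP_926cc3_nt.PP.Mz z p0) rfl
    have h2 : (Finset.Ioc 0 (0 + L)) = Finset.Icc 1 L := by
      ext j; simp only [Finset.mem_Ioc, Finset.mem_Icc]; omega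
    rw [h2]
    refine le_trans (le_of_eq ?_) (h1.trans (le_of_eq (by ring)))
    congr 2

end

end Pool.Agent.Lib.LargeAP
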