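import Pool.Agent.Lib.LargeAP.SpecG

/-!
# LargeAP: GRV, Granville's constant
-/

set_option autoImplicit false

namespace Pool.Agent.Lib.LargeAP

open Finset Filter Topology
open scoped Classical

open Pool.Agent.Lib.MP_926cc3_nt.RS (V NoSmall)

namespace GRVM

/-- the primes below `z` different from `p₀` -/
noncomputable def PS (z p₀ : ℕ) : Finset ℕ := (Finset.range z).filter (fun p => p.Prime ∧ p ≠ p₀)

theorem coprime_iff (z p₀ j : ℕ) :
    j.Coprime (∏ p ∈ PS z p₀, p) → ∀ p : ℕ, p.Prime → p ∣ j → p ≠ p₀ → z ≤ p := by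
  intro h p hp hpj hne
  by_contra hlt
  have hmem : p ∈ PS z p₀ := by
    unfold PS
    rw [mem_filter, mem_range]
    exact ⟨by omega, hp, hne⟩
  have h1 : p ∣ ∏ p ∈ PS z p₀, p := Finset.dvd_prod_of_mem _ hmem
  exact hp.one_lt.ne' (Nat.dvd_one.1 (h ▸ Nat.dvd_gcd hpj h1))

theorem totient_div (s : Finset ℕ) (hs : ∀ p ∈ s, p.Prime) :
    ((∏ p ∈ s, p).totient : ℝ) / ((∏ p ∈ s, p : ℕ) : ℝ) = ∏ p ∈ s, (1 - 1 / (p : ℝ)) := by
  induction s using Finset.induction_on with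
  | empty => simp
  | insert a s ha ih =>
    have hpa : a.Prime := hs a (mem_insert_self _ _)
    have hcop : a.Coprime (∏ p ∈ s, p) := by
      apply Nat.Coprime.prod_right
      intro p hp
      rw [Nat.coprime_primes hpa (hs p (mem_insert_of_mem hp))]
      rintro rfl
      exact ha hp
    rw [prod_insert ha, prod_insert ha, Nat.totient_mul hcop, Nat.totient_prime hpa,
      ← ih fun p hp => hs p (mem_insert_of_mem hp)]
    have ha0 : (a : ℝ) ≠ 0 := by exact_mod_cast hpa.ne_zero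
    have h1 : ((∏ p ∈ s, p : ℕ) : ℝ) ≠ 0 := by
      have : (∏ p ∈ s, p) ≠ 0 := Finset.prod_ne_zero_iff.2 fun p hp =>
        (hs p (mem_insert_of_mem hp)).ne_zero
      exact_mod_cast this
    rw [Nat.cast_mul, Nat.cast_mul, Nat.cast_sub hpa.one_le, Nat.cast_one]
    field_simp

theorem V_le (z p₀ : ℕ) : V z ≤ ∏ p ∈ PS z p₀, (1 - 1 / (p : ℝ)) := by
  unfold V PS
  have hsub : (Finset.range z).filter (fun p => p.Prime ∧ p ≠ p₀) ⊆
      (Finset.range z).filter Nat.Prime := by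
    intro p hp
    rw [mem_filter] at hp ⊢
    exact ⟨hp.1, hp.2.1⟩
  have h01 : ∀ p ∈ (Finset.range z).filter Nat.Prime, 0 ≤ 1 - 1 / (p : ℝ) ∧ 1 - 1 / (p : ℝ) ≤ 1 := by
    intro p hp
    have h1 : (1 : ℝ) ≤ p := by exact_mod_cast (mem_filter.1 hp).2.one_le
    constructor
    · rw [sub_nonneg, div_le_one (by linarith)]
      exact h1
    · have : 0 ≤ 1 / (p : ℝ) := by positivity
      linarith
  rw [← Finset.prod_sdiff hsub]
  apply mul_le_of_le_one_left
  · exact Finset.prod_nonneg fun p hp => (h01 p (hsub hp)).1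
  · exact Finset.prod_le_one (fun p hp => (h01 p (Finset.sdiff_subset hp)).1)
      (fun p hp => (h01 p (Finset.sdiff_subset hp)).2)

end GRVM

open GRVM in
theorem specGRV (hMER : SpecMER) (hRGP : SpecRGP) : SpecGRV := by
  intro ε hε
  set g := Real.exp (-Real.eulerMascheroniConstant) with hg
  have hg0 : 0 < g := Real.exp_pos _
  have hgi : Real.exp Real.eulerMascheroniConstant = g⁻¹ := by
    rw [hg, Real.exp_neg, inv_inv]
  -- `(1/2 + ε') ≤ (g⁻¹/2 + ε) (g - η)` with `η = ε g² / 2 / (1 + ..)`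
  obtain ⟨η, hη, ε', hε', hηg, hkey⟩ : ∃ η : ℝ, 0 < η ∧ ∃ ε' : ℝ, 0 < ε' ∧ η < g ∧
      1 / 2 + ε' ≤ (g⁻¹ / 2 + ε) * (g - η) := by
    have hA : 0 < g⁻¹ / 2 + ε := by positivity
    refine ⟨min (g / 2) (ε * g / 2 / (g⁻¹ / 2 + ε)), by positivity, ε * g / 2, by positivity,
      (min_le_left _ _).trans_lt (by linarith), ?_⟩
    have h1 : (g⁻¹ / 2 + ε) * min (g / 2) (ε * g / 2 / (g⁻¹ / 2 + ε)) ≤ ε * g / 2 := by
      calc (g⁻¹ / 2 + ε) * min (g / 2) (ε * g / 2 / (g⁻¹ / 2 + ε))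
          ≤ (g⁻¹ / 2 + ε) * (ε * g / 2 / (g⁻¹ / 2 + ε)) :=
            mul_le_mul_of_nonneg_left (min_le_right _ _) hA.le
        _ = ε * g / 2 := by field_simp
    have h2 : (g⁻¹ / 2 + ε) * g = 1 / 2 + ε * g := by
      field_simp
    rw [mul_sub, h2]
    linarith
  obtain ⟨δ, hδ, P, z₀, hR⟩ := hRGP ε' hε'
  have hev : ∀ᶠ z : ℕ in atTop, g - η < V z * Real.log z :=
    hMER.eventually (lt_mem_nhds (by linarith))
  obtain ⟨z₁, hz₁⟩ := eventually_atTop.1 hev
  refine ⟨δ, hδ, P, max z₀ (max z₁ 2), ?_⟩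
  intro z L p₀ hz hp hP hzL hLz M hM
  have hz0 : z₀ ≤ z := (le_max_left _ _).trans hz
  have hz1 : z₁ ≤ z := ((le_max_left _ _).trans (le_max_right _ _)).trans hz
  have hz2 : 2 ≤ z := ((le_max_right _ _).trans (le_max_right _ _)).trans hz
  have hzr : (2 : ℝ) ≤ z := by exact_mod_cast hz2
  have hlog : 0 < Real.log z := Real.log_pos (by linarith)
  have h1 := hR z L p₀ hz0 hp hP hzL hLz
  have h2 := hz₁ z hz1
  have hMe : M = ∏ p ∈ PS z p₀, p := hM
  have h3 : ((M.totient : ℝ) / M) = ∏ p ∈ PS z p₀, (1 - 1 / (p : ℝ)) := by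
    rw [hMe]
    exact totient_div _ fun p hp => (mem_filter.1 hp).2.1
  have h4 := V_le z p₀
  have h5 : g - η < ((M.totient : ℝ) / M) * Real.log z := by
    rw [h3]
    exact h2.trans_le (mul_le_mul_of_nonneg_right h4 hlog.le)
  have hcard : (((Icc 1 L).filter (fun j => j.Coprime M)).card : ℝ) ≤
      (((Icc 1 L).filter (fun j => ∀ p : ℕ, p.Prime → p ∣ j → p ≠ p₀ → z ≤ p)).card : ℝ) := by
    have : ((Icc 1 L).filter (fun j => j.Coprime M)).card ≤
        ((Icc 1 L).filter (fun j => ∀ p : ℕ, p.Prime → p ∣ j → p ≠ p₀ → z ≤ p)).card := by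
      apply card_le_card
      intro j hj
      rw [mem_filter] at hj ⊢
      refine ⟨hj.1, coprime_iff z p₀ j ?_⟩
      rw [← hMe]
      exact hj.2
    exact_mod_cast this
  refine hcard.trans (h1.trans ?_)
  rw [hgi, div_le_iff₀ hlog]
  have hL : (0 : ℝ) ≤ L := Nat.cast_nonneg L
  calc (1 / 2 + ε') * L ≤ ((g⁻¹ / 2 + ε) * (g - η)) * L := mul_le_mul_of_nonneg_right hkey hL
    _ ≤ ((g⁻¹ / 2 + ε) * (((M.totient : ℝ) / M) * Real.log z)) * L := by
        apply mul_le_mul_of_nonneg_right _ hL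
        apply mul_le_mul_of_nonneg_left h5.le
        positivity
    _ = (g⁻¹ / 2 + ε) * L * ((M.totient : ℝ) / M) * Real.log z := by ring

end Pool.Agent.Lib.LargeAP
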