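import Pool.Agent.Lib.LargeAP.Spec

/-!
# LargeAP, module HEA: the product of the mollifier and a partial sum
-/

set_option autoImplicit false

namespace Pool.Agent.Lib.LargeAP

open Finset Filter Topology Complex Metric
open scoped Classical ArithmeticFunction

noncomputable section

namespace HEAM

/-- the coefficients, as integers -/
def bz (Y Z n : ℕ) : ℤ :=
  ∑ d ∈ n.divisors, if d ≤ Y ∧ n / d ≤ Z then ArithmeticFunction.moebius d else 0

lemma abs_bz (Y Z n : ℕ) : |((bz Y Z n : ℤ) : ℝ)| ≤ n.divisors.card := by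
  have h1 : |bz Y Z n| ≤ (n.divisors.card : ℤ) := by
    unfold bz
    refine (Finset.abs_sum_le_sum_abs _ _).trans ?_
    have h2 : ∑ d ∈ n.divisors, |if d ≤ Y ∧ n / d ≤ Z then ArithmeticFunction.moebius d else 0|
        ≤ ∑ d ∈ n.divisors, (1 : ℤ) := by
      apply Finset.sum_le_sum
      intro d _
      split_ifs
      · exact ArithmeticFunction.abs_moebius_le_one
      · simp
    refine h2.trans ?_
    simp
  have h3 : ((|bz Y Z n| : ℤ) : ℝ) ≤ ((n.divisors.card : ℤ) : ℝ) := by exact_mod_cast h1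
  rw [Int.cast_abs] at h3
  simpa using h3

lemma bz_of_le {Y Z n : ℕ} (_hn1 : 1 ≤ n) (hY : n ≤ Y) (hZ : n ≤ Z) :
    bz Y Z n = if n = 1 then 1 else 0 := by
  unfold bz
  have h1 : ∑ d ∈ n.divisors, (if d ≤ Y ∧ n / d ≤ Z then ArithmeticFunction.moebius d else 0)
      = ∑ d ∈ n.divisors, ArithmeticFunction.moebius d := by
    apply Finset.sum_congr rfl
    intro d hd
    rw [if_pos]
    constructor
    · exact (Nat.divisor_le hd).trans hY
    · exact (Nat.div_le_self _ _).trans hZ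
  rw [h1]
  rw [← ArithmeticFunction.coe_mul_zeta_apply, ArithmeticFunction.moebius_mul_coe_zeta,
    ArithmeticFunction.one_apply]

/-- one fibre -/
lemma fibre {q : ℕ} (χ : DirichletCharacter ℂ q) (s : ℂ) (Y Z n : ℕ) (hn : 1 ≤ n) :
    ∑ p ∈ (Icc 1 Z ×ˢ Icc 1 Y).filter (fun p : ℕ × ℕ => p.1 * p.2 = n),
      (χ (p.1 : ZMod q) * (p.1 : ℂ) ^ (-s)) *
        ((ArithmeticFunction.moebius p.2 : ℂ) * χ (p.2 : ZMod q) * (p.2 : ℂ) ^ (-s))
      = ((bz Y Z n : ℝ) : ℂ) * χ (n : ZMod q) * (n : ℂ) ^ (-s) := by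
  have h1 : ((bz Y Z n : ℝ) : ℂ) * χ (n : ZMod q) * (n : ℂ) ^ (-s)
      = ∑ d ∈ n.divisors.filter (fun d => d ≤ Y ∧ n / d ≤ Z),
        (ArithmeticFunction.moebius d : ℂ) * χ (n : ZMod q) * (n : ℂ) ^ (-s) := by
    unfold bz
    rw [← Finset.sum_filter]
    push_cast
    rw [Finset.sum_mul, Finset.sum_mul]
  rw [h1]
  apply Finset.sum_nbij' (i := fun p : ℕ × ℕ => p.2) (j := fun d : ℕ => (n / d, d))
  · intro p hp
    simp only [mem_filter, mem_product, mem_Icc] at hp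
    obtain ⟨⟨⟨h1, h2⟩, h3, h4⟩, h5⟩ := hp
    simp only [mem_filter, Nat.mem_divisors]
    refine ⟨⟨⟨p.1, by rw [← h5]; ring⟩, by omega⟩, h4, ?_⟩
    rw [← h5, Nat.mul_div_cancel _ (by omega)]
    exact h2
  · intro d hd
    simp only [mem_filter, Nat.mem_divisors] at hd
    obtain ⟨⟨h1, h2⟩, h3, h4⟩ := hd
    have hd0 : 0 < d := Nat.pos_of_dvd_of_pos h1 (by omega)
    have hnd : 0 < n / d := Nat.div_pos (Nat.le_of_dvd (by omega) h1) hd0
    simp only [mem_filter, mem_product, mem_Icc]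
    exact ⟨⟨⟨hnd, h4⟩, hd0, h3⟩, Nat.div_mul_cancel h1⟩
  · intro p hp
    simp only [mem_filter, mem_product, mem_Icc] at hp
    obtain ⟨⟨⟨h1, h2⟩, h3, h4⟩, h5⟩ := hp
    apply Prod.ext
    · simp only
      rw [← h5, Nat.mul_div_cancel _ (by omega)]
    · rfl
  · intro d hd
    rfl
  · intro p hp
    simp only [mem_filter, mem_product, mem_Icc] at hp
    obtain ⟨⟨⟨h1, h2⟩, h3, h4⟩, h5⟩ := hp
    rw [← h5]
    push_cast
    rw [map_mul, natCast_mul_natCast_cpow]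
    ring

end HEAM

/-- module HEA -/
theorem specHEA : SpecHEA := by
  intro Y Z hY hYZ
  refine ⟨fun n => (HEAM.bz Y Z n : ℝ), HEAM.abs_bz Y Z, ?_⟩
  intro q _ χ s
  have h1 : Pp χ Z s * Mp χ Y s = ∑ n ∈ Icc 1 (Y * Z),
      ((HEAM.bz Y Z n : ℝ) : ℂ) * χ (n : ZMod q) * (n : ℂ) ^ (-s) := by
    unfold Pp Mp
    rw [Finset.sum_mul_sum, ← Finset.sum_product',
      ← Finset.sum_fiberwise_of_maps_to (s := Icc 1 Z ×ˢ Icc 1 Y) (t := Icc 1 (Y * Z))
        (g := fun p : ℕ × ℕ => p.1 * p.2)]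
    · apply Finset.sum_congr rfl
      intro n hn
      rw [mem_Icc] at hn
      exact HEAM.fibre χ s Y Z n hn.1
    · intro p hp
      rw [mem_product, mem_Icc, mem_Icc] at hp
      rw [mem_Icc]
      constructor
      · exact Nat.one_le_iff_ne_zero.mpr (Nat.mul_ne_zero (by omega) (by omega))
      · rw [mul_comm Y Z]
        exact Nat.mul_le_mul hp.1.2 hp.2.2
  rw [h1]
  have hYYZ : Y ≤ Y * Z := Nat.le_mul_of_pos_right Y (by omega)
  have h2 : Icc 1 (Y * Z) = Icc 1 Y ∪ Ioc Y (Y * Z) := by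
    ext n
    simp only [mem_union, mem_Icc, mem_Ioc]
    omega
  have h3 : Disjoint (Icc 1 Y) (Ioc Y (Y * Z)) := by
    rw [Finset.disjoint_left]
    intro n hn hn'
    simp only [mem_Icc, mem_Ioc] at hn hn'
    omega
  rw [h2, Finset.sum_union h3]
  congr 1
  rw [Finset.sum_eq_single_of_mem 1]
  · rw [HEAM.bz_of_le le_rfl hY (hY.trans hYZ)]
    simp
  · rw [mem_Icc]
    exact ⟨le_rfl, hY⟩
  · intro n hn hn1
    rw [mem_Icc] at hn
    rw [HEAM.bz_of_le hn.1 hn.2 (hn.2.trans hYZ), if_neg hn1]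
    simp

end

end Pool.Agent.Lib.LargeAP
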