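import Pool.Agent.Lib.LargeAP.Spec

/-!
# LargeAP: Landau's lemma
-/

set_option autoImplicit false

noncomputable section

namespace Pool.Agent.Lib.LargeAP

open Metric Complex

namespace LANM

/-- the product over the zeros -/
def PZ (Z : Multiset ℂ) (s : ℂ) : ℂ := (Z.map (fun ρ => s - ρ)).prod

theorem PZ_cons (ρ : ℂ) (Z : Multiset ℂ) (s : ℂ) : PZ (ρ ::ₘ Z) s = (s - ρ) * PZ Z s := by
  unfold PZ
  rw [Multiset.map_cons, Multiset.prod_cons]

theorem PZ_zero (s : ℂ) : PZ 0 s = 1 := by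
  unfold PZ
  rw [Multiset.map_zero, Multiset.prod_zero]

/-- lower bound far from the zeros -/
theorem PZ_ge {s : ℂ} {r : ℝ} (hr : 0 ≤ r) (Z : Multiset ℂ)
    (hZ : ∀ ρ ∈ Z, r ≤ ‖s - ρ‖) : r ^ (Multiset.card Z) ≤ ‖PZ Z s‖ := by
  induction Z using Multiset.induction_on with
  | empty => rw [PZ_zero]; simp
  | cons ρ Z ih =>
    rw [PZ_cons, Multiset.card_cons, pow_succ, norm_mul, mul_comm]
    exact mul_le_mul (hZ ρ (Multiset.mem_cons_self ρ Z))
      (ih fun ρ' h => hZ ρ' (Multiset.mem_cons_of_mem h)) (pow_nonneg hr _) (norm_nonneg _)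

/-- upper bound near the zeros -/
theorem PZ_le {s : ℂ} {r : ℝ} (Z : Multiset ℂ)
    (hZ : ∀ ρ ∈ Z, ‖s - ρ‖ ≤ r) : ‖PZ Z s‖ ≤ r ^ (Multiset.card Z) := by
  induction Z using Multiset.induction_on with
  | empty => rw [PZ_zero]; simp
  | cons ρ Z ih =>
    have h0 : 0 ≤ r := (norm_nonneg _).trans (hZ ρ (Multiset.mem_cons_self ρ Z))
    rw [PZ_cons, Multiset.card_cons, pow_succ, norm_mul, mul_comm]
    exact mul_le_mul (ih fun ρ' h => hZ ρ' (Multiset.mem_cons_of_mem h))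
      (hZ ρ (Multiset.mem_cons_self ρ Z)) (norm_nonneg _) (pow_nonneg h0 _)

/-- the logarithmic derivative of the product -/
theorem PZ_deriv (Z : Multiset ℂ) (s : ℂ) (h : PZ Z s ≠ 0) :
    HasDerivAt (PZ Z) (PZ Z s * (Z.map (fun ρ => (s - ρ)⁻¹)).sum) s := by
  induction Z using Multiset.induction_on with
  | empty =>
    have h1 : PZ 0 = fun _ => (1 : ℂ) := funext fun s => PZ_zero s
    rw [h1]
    simpa using hasDerivAt_const s (1 : ℂ)
  | cons ρ Z ih =>
    have h1 : PZ (ρ ::ₘ Z) = fun s => (s - ρ) * PZ Z s := funext fun s => PZ_cons ρ Z s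
    rw [PZ_cons] at h
    have h2 : s - ρ ≠ 0 := left_ne_zero_of_mul h
    have h3 := ih (right_ne_zero_of_mul h)
    have h4 : HasDerivAt (fun s : ℂ => s - ρ) 1 s := (hasDerivAt_id s).sub_const ρ
    have h5 := h4.mul h3
    rw [PZ_cons, Multiset.map_cons, Multiset.sum_cons, h1]
    have h6 : (s - ρ) * PZ Z s * ((s - ρ)⁻¹ + (Z.map (fun ρ => (s - ρ)⁻¹)).sum) =
        1 * PZ Z s + (s - ρ) * (PZ Z s * (Z.map (fun ρ => (s - ρ)⁻¹)).sum) := by
      field_simp
    rw [h6]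
    exact h5

/-- maximum principle on a ball -/
theorem maxp {g : ℂ → ℂ} (hg : Differentiable ℂ g) {s₀ s : ℂ} {R C : ℝ} (hR : 0 < R)
    (hC : ∀ z ∈ sphere s₀ R, ‖g z‖ ≤ C) (hs : s ∈ closedBall s₀ R) : ‖g s‖ ≤ C := by
  refine Complex.norm_le_of_forall_mem_frontier_norm_le (U := ball s₀ R) isBounded_ball
    hg.diffContOnCl ?_ ?_
  · rw [frontier_ball s₀ hR.ne']
    exact hC
  · rw [closure_ball s₀ hR.ne']
    exact hs

/-- bound for the cofactor -/
theorem cof {f g : ℂ → ℂ} (hg : Differentiable ℂ g) {s₀ s : ℂ} {R A : ℝ} (hR : 1 / 2 ≤ R)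
    (Z : Multiset ℂ) (hZ : ∀ ρ ∈ Z, ρ ∈ closedBall s₀ (1 / 4)) (hfg : ∀ s, f s = PZ Z s * g s)
    (hA : ∀ z ∈ sphere s₀ R, ‖f z‖ ≤ A) (hs : s ∈ closedBall s₀ R) :
    ‖g s‖ ≤ A / (R - 1 / 4) ^ (Multiset.card Z) := by
  refine maxp hg (by linarith) (fun z hz => ?_) hs
  rw [le_div_iff₀ (pow_pos (by linarith) _), mul_comm]
  refine le_trans ?_ (hA z hz)
  rw [hfg z, norm_mul]
  refine mul_le_mul_of_nonneg_right (PZ_ge (by linarith) Z fun ρ hρ => ?_) (norm_nonneg _)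
  have h1 : dist z s₀ = R := hz
  have h2 : dist ρ s₀ ≤ 1 / 4 := hZ ρ hρ
  have h3 : dist z s₀ ≤ dist z ρ + dist ρ s₀ := dist_triangle _ _ _
  rw [← dist_eq_norm]
  linarith

/-- the factorisation -/
theorem fac {f : ℂ → ℂ} (hf : Differentiable ℂ f) {s₀ : ℂ} (h0 : f s₀ ≠ 0) :
    ∃ (Z : Multiset ℂ) (g : ℂ → ℂ), Differentiable ℂ g ∧ (∀ ρ ∈ Z, ρ ∈ closedBall s₀ (1 / 4)) ∧
      (∀ s, f s = PZ Z s * g s) ∧ ∀ s ∈ closedBall s₀ (1 / 4), g s ≠ 0 := by
  classical
  let P : ℕ → Prop := fun n => ∃ (Z : Multiset ℂ) (g : ℂ → ℂ), Multiset.card Z = n ∧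
    Differentiable ℂ g ∧ (∀ ρ ∈ Z, ρ ∈ closedBall s₀ (1 / 4)) ∧ (∀ s, f s = PZ Z s * g s)
  have hP0 : P 0 := ⟨0, f, rfl, hf, by simp, fun s => by rw [PZ_zero, one_mul]⟩
  -- a bound for `n`
  obtain ⟨A, hA⟩ : ∃ A : ℝ, ∀ z ∈ sphere s₀ (2 : ℝ), ‖f z‖ ≤ A :=
    (isCompact_sphere s₀ 2).exists_bound_of_continuousOn hf.continuous.continuousOn
  have hbd : ∀ n, P n → ‖f s₀‖ * 7 ^ n ≤ A := by
    rintro n ⟨Z, g, hn, hg, hZ, hfg⟩
    have h1 := cof hg (R := 2) (by norm_num) Z hZ hfg hA (s := s₀) (mem_closedBall_self (by norm_num))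
    have h2 : ‖PZ Z s₀‖ ≤ (1 / 4) ^ (Multiset.card Z) := PZ_le Z fun ρ hρ => by
      have := hZ ρ hρ
      rw [← dist_eq_norm, dist_comm]
      exact this
    rw [hn] at h1 h2
    have h3 : ‖f s₀‖ ≤ (1 / 4) ^ n * (A / (2 - 1 / 4) ^ n) := by
      rw [hfg s₀, norm_mul]
      exact mul_le_mul h2 h1 (norm_nonneg _) (by positivity)
    have h4 : (1 / 4 : ℝ) ^ n * (A / (2 - 1 / 4) ^ n) * 7 ^ n = A := by
      have h5 : (7 : ℝ) ^ n = 4 ^ n * (7 / 4) ^ n := by rw [← mul_pow]; norm_num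
      rw [h5, show (2 - 1 / 4 : ℝ) = 7 / 4 by norm_num, one_div, inv_pow]
      field_simp
    calc ‖f s₀‖ * 7 ^ n ≤ (1 / 4 : ℝ) ^ n * (A / (2 - 1 / 4) ^ n) * 7 ^ n :=
          mul_le_mul_of_nonneg_right h3 (by positivity)
      _ = A := h4
  have hex : ∃ n, ¬ P n := by
    obtain ⟨n, hn⟩ := pow_unbounded_of_one_lt (A / ‖f s₀‖) (by norm_num : (1 : ℝ) < 7)
    refine ⟨n, fun h => ?_⟩
    have h1 := hbd n h
    rw [div_lt_iff₀ (norm_pos_iff.2 h0), mul_comm] at hn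
    linarith
  obtain ⟨n, hn1, hn2⟩ : ∃ n, P n ∧ ¬ P (n + 1) := by
    by_contra hcon
    push Not at hcon
    obtain ⟨n, hn⟩ := hex
    exact hn (Nat.rec hP0 (fun k hk => hcon k hk) n)
  obtain ⟨Z, g, hn, hg, hZ, hfg⟩ := hn1
  refine ⟨Z, g, hg, hZ, hfg, fun ρ hρ hgρ => hn2 ⟨ρ ::ₘ Z, dslope g ρ, ?_, ?_, ?_, ?_⟩⟩
  · rw [Multiset.card_cons, hn]
  · rw [← differentiableOn_univ, Complex.differentiableOn_dslope Filter.univ_mem]
    exact hg.differentiableOn
  · intro ρ' h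
    rcases Multiset.mem_cons.1 h with h | h
    · rw [h]; exact hρ
    · exact hZ ρ' h
  · intro s
    have h1 := sub_smul_dslope g ρ s
    rw [hgρ, sub_zero, smul_eq_mul] at h1
    rw [PZ_cons, hfg s, ← h1]
    ring

/-- the logarithm of a function without zeros on a ball -/
theorem logar {g : ℂ → ℂ} (hg : Differentiable ℂ g) {s₀ : ℂ} {r : ℝ} (hr : 0 < r)
    (h0 : ∀ s ∈ ball s₀ r, g s ≠ 0) :
    ∃ h : ℂ → ℂ, h s₀ = 0 ∧ (∀ s ∈ ball s₀ r, HasDerivAt h (deriv g s / g s) s) ∧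
      ∀ s ∈ ball s₀ r, g s = g s₀ * Complex.exp (h s) := by
  have h1 : DifferentiableOn ℂ (fun s => deriv g s / g s) (ball s₀ r) := by
    refine DifferentiableOn.div ?_ hg.differentiableOn h0
    exact (hg.differentiableOn (s := Set.univ)).deriv isOpen_univ |>.mono (Set.subset_univ _)
  obtain ⟨F, hF⟩ := h1.isExactOn_ball
  refine ⟨fun s => F s - F s₀, by simp, fun s hs => (hF s hs).sub_const _, ?_⟩
  have h2 : ∀ s ∈ ball s₀ r, HasDerivAt (fun s => g s * Complex.exp (-(F s - F s₀))) 0 s := by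
    intro s hs
    have h3 : HasDerivAt (fun s => g s * Complex.exp (-(F s - F s₀)))
        (deriv g s * Complex.exp (-(F s - F s₀)) + g s *
        (Complex.exp (-(F s - F s₀)) * -(deriv g s / g s))) s :=
      (hg s).hasDerivAt.mul (((hF s hs).sub_const (F s₀)).neg.cexp)
    have h4 : deriv g s * Complex.exp (-(F s - F s₀)) + g s *
        (Complex.exp (-(F s - F s₀)) * -(deriv g s / g s)) = 0 := by
      have := h0 s hs
      field_simp
      ring
    rw [h4] at h3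
    exact h3
  intro s hs
  have h5 : g s * Complex.exp (-(F s - F s₀)) = g s₀ * Complex.exp (-(F s₀ - F s₀)) := by
    refine (convex_ball s₀ r).is_const_of_fderivWithin_eq_zero (𝕜 := ℂ)
      (f := fun s => g s * Complex.exp (-(F s - F s₀))) ?_ ?_ hs (mem_ball_self hr)
    · exact fun z hz => (h2 z hz).differentiableAt.differentiableWithinAt
    · intro z hz
      rw [fderivWithin_of_isOpen isOpen_ball hz]
      have := (h2 z hz).hasFDerivAt.fderiv
      rw [this]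
      ext
      simp
  rw [sub_self, neg_zero, Complex.exp_zero, mul_one] at h5
  rw [← h5, mul_assoc, ← Complex.exp_add, neg_add_cancel, Complex.exp_zero, mul_one]

end LANM

open LANM in
theorem specLAN : SpecLAN := by
  refine ⟨96, by norm_num, fun f s₀ M hM hf h0 hbound => ?_⟩
  obtain ⟨Z, g, hg, hZ, hfg, hgne⟩ := fac hf h0
  have hgs₀ : g s₀ ≠ 0 := hgne s₀ (mem_closedBall_self (by norm_num))
  refine ⟨Z, fun ρ hρ => ⟨?_, hZ ρ hρ⟩, fun ρ hρ hfρ => ?_, fun s hs hfs => ?_⟩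
  · have h1 : PZ Z ρ = 0 := Multiset.prod_eq_zero (Multiset.mem_map.2 ⟨ρ, hρ, sub_self ρ⟩)
    rw [hfg ρ, h1, zero_mul]
  · have h1 : PZ Z ρ = 0 := by
      have h2 := hfg ρ
      rw [hfρ] at h2
      rcases mul_eq_zero.1 h2.symm with h3 | h3
      · exact h3
      · exact absurd h3 (hgne ρ hρ)
    obtain ⟨ρ', h3, h4⟩ := Multiset.mem_map.1 (Multiset.prod_eq_zero_iff.1 h1)
    rw [sub_eq_zero.1 h4]
    exact h3
  · have hball : ∀ s ∈ ball s₀ (1 / 4 : ℝ), g s ≠ 0 := fun s hs =>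
      hgne s (ball_subset_closedBall hs)
    obtain ⟨h, hh0, hh1, hh2⟩ := logar hg (by norm_num : (0 : ℝ) < 1 / 4) hball
    -- the bound for the cofactor
    have hgb : ∀ s ∈ ball s₀ (1 / 4 : ℝ), (h s).re ≤ M := by
      intro s hs
      have h1 := cof hg (R := 1 / 2) le_rfl Z hZ hfg (A := Real.exp M * ‖f s₀‖)
        (fun z hz => hbound z (sphere_subset_closedBall hz)) (s := s)
        (closedBall_subset_closedBall (by norm_num) (ball_subset_closedBall hs))
      have h2 : ‖PZ Z s₀‖ ≤ (1 / 4) ^ (Multiset.card Z) := PZ_le Z fun ρ hρ => by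
        have := hZ ρ hρ
        rw [← dist_eq_norm, dist_comm]
        exact this
      have h3 : ‖g s‖ ≤ Real.exp M * ‖g s₀‖ := by
        refine h1.trans ?_
        rw [div_le_iff₀ (by positivity), hfg s₀, norm_mul,
          show (1 / 2 - 1 / 4 : ℝ) = 1 / 4 by norm_num]
        calc Real.exp M * (‖PZ Z s₀‖ * ‖g s₀‖) ≤
            Real.exp M * ((1 / 4) ^ (Multiset.card Z) * ‖g s₀‖) := by gcongr
          _ = Real.exp M * ‖g s₀‖ * (1 / 4) ^ (Multiset.card Z) := by ring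
      rw [hh2 s hs, norm_mul, Complex.norm_exp, mul_comm] at h3
      exact Real.exp_le_exp.1 (le_of_mul_le_mul_right h3 (norm_pos_iff.2 hgs₀))
    -- Borel-Caratheodory
    have hbc : ∀ z ∈ ball s₀ (1 / 4 : ℝ), ‖h z‖ ≤ 2 * M * ‖z - s₀‖ / (1 / 4 - ‖z - s₀‖) := by
      intro z hz
      have hz' : z - s₀ ∈ ball (0 : ℂ) (1 / 4) := by
        rw [mem_ball_zero_iff, ← dist_eq_norm]; exact hz
      have hmap : ∀ w ∈ ball (0 : ℂ) (1 / 4), w + s₀ ∈ ball s₀ (1 / 4) := by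
        intro w hw
        rw [mem_ball_zero_iff] at hw
        rw [mem_ball, dist_eq_norm, add_sub_cancel_right]
        exact hw
      have h1 := Complex.borelCaratheodory_zero (f := fun w => h (w + s₀)) (M := M) (R := 1 / 4)
        (z := z - s₀) (by linarith) ?_ ?_ (by norm_num) hz' (by simpa using hh0)
      · simpa using h1
      · intro w hw
        have h2 : HasDerivAt (fun w => h (w + s₀)) _ w := (hh1 _ (hmap w hw)).comp_add_const w s₀
        exact h2.differentiableAt.differentiableWithinAt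
      · intro w hw
        exact hgb _ (hmap w hw)
    have hb6 : ∀ z, ‖z - s₀‖ ≤ 3 / 16 → ‖h z‖ ≤ 6 * M := by
      intro z hz
      have hz' : z ∈ ball s₀ (1 / 4 : ℝ) := by
        rw [mem_ball, dist_eq_norm]; linarith
      refine (hbc z hz').trans ?_
      rw [div_le_iff₀ (by linarith)]
      nlinarith
    have hs' : ‖s - s₀‖ ≤ 1 / 8 := by rw [← dist_eq_norm]; exact hs
    have hsb : s ∈ ball s₀ (1 / 4 : ℝ) := by
      rw [mem_ball, dist_eq_norm]; linarith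
    have hder : ‖deriv h s‖ ≤ 6 * M / (1 / 16) := by
      have hsub : ∀ z ∈ closedBall s (1 / 16 : ℝ), ‖z - s₀‖ ≤ 3 / 16 := by
        intro z hz
        have h1 : ‖z - s‖ ≤ 1 / 16 := by rw [← dist_eq_norm]; exact hz
        have h2 : ‖z - s₀‖ ≤ ‖z - s‖ + ‖s - s₀‖ := norm_sub_le_norm_sub_add_norm_sub _ _ _
        linarith
      refine Complex.norm_deriv_le_of_forall_mem_sphere_norm_le (by norm_num) ?_ fun z hz =>
        hb6 z (hsub z (sphere_subset_closedBall hz))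
      refine DifferentiableOn.diffContOnCl ?_
      rw [closure_ball s (by norm_num)]
      intro z hz
      have h1 := hsub z hz
      exact (hh1 z (by rw [mem_ball, dist_eq_norm]; linarith)).differentiableAt.differentiableWithinAt
    have hPs : PZ Z s ≠ 0 := by
      intro h1
      rw [hfg s, h1, zero_mul] at hfs
      exact hfs rfl
    have hgs : g s ≠ 0 := hball s hsb
    have hfd : deriv f s / f s - (Z.map (fun ρ => (s - ρ)⁻¹)).sum = deriv h s := by
      have h1 : f = fun s => PZ Z s * g s := funext hfg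
      have h2 := (PZ_deriv Z s hPs).mul (hg s).hasDerivAt
      have h3 : deriv f s = PZ Z s * (Z.map (fun ρ => (s - ρ)⁻¹)).sum * g s + PZ Z s * deriv g s := by
        rw [h1]
        exact h2.deriv
      rw [h3, hfg s, (hh1 s hsb).deriv]
      field_simp
      ring
    rw [hfd]
    refine hder.trans (le_of_eq ?_)
    ring

end Pool.Agent.Lib.LargeAP
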