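import Pool.Agent.Lib.LargeAP.Spec

/-!
# LargeAP, module LB: the partial sums of `L(s, χ)` for `Re s ≥ 1/2`
-/

set_option autoImplicit false

namespace Pool.Agent.Lib.LargeAP

open Finset Filter Topology Complex Metric MeasureTheory
open scoped Classical ArithmeticFunction

noncomputable section

namespace LBM

/-- the partial sums of `χ` -/
def S {q : ℕ} (χ : DirichletCharacter ℂ q) (u : ℝ) : ℂ :=
  ∑ k ∈ Icc 1 ⌊u⌋₊, χ (k : ZMod q)

/-- the coefficients, with value `0` at `0` -/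
def c {q : ℕ} (χ : DirichletCharacter ℂ q) (k : ℕ) : ℂ :=
  if k = 0 then 0 else χ (k : ZMod q)

lemma measurable_S {q : ℕ} (χ : DirichletCharacter ℂ q) : Measurable (S χ) :=
  (measurable_from_nat (f := fun n : ℕ => ∑ k ∈ Icc 1 n, χ (k : ZMod q))).comp
    Nat.measurable_floor

lemma sum_icc_zero (g : ℕ → ℂ) (h : g 0 = 0) (n : ℕ) :
    ∑ k ∈ Icc 0 n, g k = ∑ k ∈ Icc 1 n, g k := by
  symm
  refine Finset.sum_subset (fun k hk => ?_) (fun k hk hk2 => ?_)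
  · rw [Finset.mem_Icc] at hk ⊢
    omega
  · rw [Finset.mem_Icc] at hk hk2
    have : k = 0 := by omega
    rw [this, h]

lemma sum_c {q : ℕ} (χ : DirichletCharacter ℂ q) (n : ℕ) :
    ∑ k ∈ Icc 0 n, c χ k = ∑ k ∈ Icc 1 n, χ (k : ZMod q) := by
  rw [sum_icc_zero _ (by simp [c])]
  refine Finset.sum_congr rfl (fun k hk => ?_)
  rw [Finset.mem_Icc] at hk
  rw [c, if_neg (by omega)]

lemma sum_mul_c {q : ℕ} (χ : DirichletCharacter ℂ q) (f : ℕ → ℂ) (n : ℕ) :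
    ∑ k ∈ Icc 0 n, f k * c χ k = ∑ k ∈ Icc 1 n, χ (k : ZMod q) * f k := by
  rw [sum_icc_zero (fun k => f k * c χ k) (by simp [c])]
  refine Finset.sum_congr rfl (fun k hk => ?_)
  rw [Finset.mem_Icc] at hk
  rw [c, if_neg (by omega), mul_comm]

lemma hasDeriv (s : ℂ) (t : ℝ) (ht : 0 < t) :
    HasDerivAt (fun u : ℝ => (u : ℂ) ^ (-s)) (-s * (t : ℂ) ^ (-(s + 1))) t := by
  have h := (hasDerivAt_id (t : ℂ)).cpow_const (c := -s)
    (by simp only [id_eq]; exact Or.inl (by simpa using ht))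
  have h2 := h.comp_ofReal
  simp only [id_eq, mul_one] at h2
  have e : -s - 1 = -(s + 1) := by ring
  rw [e] at h2
  exact h2

lemma norm_cpow (s : ℂ) (t : ℝ) (ht : 0 < t) : ‖(t : ℂ) ^ (-(s + 1))‖ = t ^ (-s.re - 1) := by
  rw [Complex.norm_cpow_eq_rpow_re_of_pos ht]
  congr 1
  simp
  ring

lemma cont_cpow (s : ℂ) : ContinuousOn (fun t : ℝ => (t : ℂ) ^ (-(s + 1))) (Set.Ioi 0) := by
  intro t ht
  refine ContinuousAt.continuousWithinAt ?_
  exact (Complex.continuousAt_ofReal_cpow_const t _ (Or.inr (ne_of_gt ht)))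

lemma int_rpow (σ : ℝ) (hσ : 0 < σ) (a : ℝ) (ha : 0 < a) :
    IntegrableOn (fun t : ℝ => t ^ (-σ - 1)) (Set.Ioi a) :=
  integrableOn_Ioi_rpow_of_lt (by linarith) ha

lemma integrable (hPER : LP.SpecPER) {q : ℕ} [NeZero q] (χ : DirichletCharacter ℂ q)
    (hχ : χ ≠ 1) (s : ℂ) (hs : 0 < s.re) (a : ℝ) (ha : 0 < a) :
    IntegrableOn (fun u : ℝ => S χ u * (u : ℂ) ^ (-(s + 1))) (Set.Ioi a) := by
  refine Integrable.mono' (g := fun u : ℝ => (q : ℝ) * u ^ (-s.re - 1))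
    ((int_rpow s.re hs a ha).const_mul _) ?_ ?_
  · refine AEStronglyMeasurable.mul (measurable_S χ).aestronglyMeasurable ?_
    refine ContinuousOn.aestronglyMeasurable ?_ measurableSet_Ioi
    exact (cont_cpow s).mono (fun t ht => lt_trans ha ht)
  · refine (ae_restrict_iff' measurableSet_Ioi).2 (Eventually.of_forall (fun t ht => ?_))
    have ht0 : 0 < t := lt_trans ha ht
    rw [norm_mul, norm_cpow s t ht0]
    exact mul_le_mul_of_nonneg_right (hPER q χ hχ _) (Real.rpow_nonneg ht0.le _)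

lemma tail (hPER : LP.SpecPER) {q : ℕ} [NeZero q] (χ : DirichletCharacter ℂ q)
    (hχ : χ ≠ 1) (s : ℂ) (hs : 0 < s.re) (a : ℝ) (ha : 0 < a) :
    ‖∫ u in Set.Ioi a, S χ u * (u : ℂ) ^ (-(s + 1))‖ ≤ q * (a ^ (-s.re) / s.re) := by
  have h1 : ‖∫ u in Set.Ioi a, S χ u * (u : ℂ) ^ (-(s + 1))‖ ≤
      ∫ u in Set.Ioi a, (q : ℝ) * u ^ (-s.re - 1) := by
    refine norm_integral_le_of_norm_le ((int_rpow s.re hs a ha).const_mul _) ?_
    refine (ae_restrict_iff' measurableSet_Ioi).2 (Eventually.of_forall (fun t ht => ?_))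
    have ht0 : 0 < t := lt_trans ha ht
    rw [norm_mul, norm_cpow s t ht0]
    exact mul_le_mul_of_nonneg_right (hPER q χ hχ _) (Real.rpow_nonneg ht0.le _)
  refine h1.trans (le_of_eq ?_)
  rw [integral_const_mul, integral_Ioi_rpow_of_lt (by linarith) ha]
  have e : -s.re - 1 + 1 = -s.re := by ring
  rw [e]
  congr 1
  rw [neg_div_neg_eq]

lemma abel {q : ℕ} (χ : DirichletCharacter ℂ q) (s : ℂ) (N : ℕ) :
    Pp χ N s = ((N : ℝ) : ℂ) ^ (-s) * S χ N +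
      s * ∫ u in Set.Ioc (1 : ℝ) N, S χ u * (u : ℂ) ^ (-(s + 1)) := by
  have hd : ∀ t : ℝ, 0 < t → deriv (fun u : ℝ => (u : ℂ) ^ (-s)) t = -s * (t : ℂ) ^ (-(s + 1)) :=
    fun t ht => (hasDeriv s t ht).deriv
  have h := sum_mul_eq_sub_integral_mul₀' (c := c χ) (f := fun u : ℝ => (u : ℂ) ^ (-s))
    (by simp [c]) N
    (fun t ht => (hasDeriv s t (lt_of_lt_of_le one_pos ht.1)).differentiableAt)
    (by
      have hc : ContinuousOn (deriv (fun u : ℝ => (u : ℂ) ^ (-s))) (Set.Icc (1 : ℝ) N) := by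
        refine ContinuousOn.congr (f := fun t : ℝ => -s * (t : ℂ) ^ (-(s + 1))) ?_ ?_
        · exact continuousOn_const.mul
            ((cont_cpow s).mono (fun t ht => lt_of_lt_of_le one_pos ht.1))
        · exact fun t ht => hd t (lt_of_lt_of_le one_pos ht.1)
      exact hc.integrableOn_compact isCompact_Icc)
  have h1 : Pp χ N s = ∑ k ∈ Icc 0 N, (((k : ℝ) : ℂ) ^ (-s)) * c χ k := by
    rw [sum_mul_c χ (fun k : ℕ => ((k : ℝ) : ℂ) ^ (-s))]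
    unfold Pp
    refine Finset.sum_congr rfl (fun k _ => ?_)
    rw [Complex.ofReal_natCast]
  rw [h1, h]
  have hS : ∀ n : ℕ, ∑ k ∈ Icc 0 n, c χ k = S χ n := by
    intro n
    rw [sum_c, S, Nat.floor_natCast]
  rw [hS]
  have h2 : ∫ t in Set.Ioc (1 : ℝ) N, deriv (fun u : ℝ => (u : ℂ) ^ (-s)) t *
      ∑ k ∈ Icc 0 ⌊t⌋₊, c χ k =
      ∫ t in Set.Ioc (1 : ℝ) N, (-s) * (S χ t * (t : ℂ) ^ (-(s + 1))) := by
    refine setIntegral_congr_fun measurableSet_Ioc (fun t ht => ?_)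
    have ht0 : (0 : ℝ) < t := lt_trans one_pos ht.1
    rw [hd t ht0, sum_c, S]
    ring
  rw [h2, integral_const_mul]
  ring

end LBM

open LBM in
theorem specLB (h1 : LP.SpecPER) (h2 : LP.SpecCON) : SpecLB := by
  refine ⟨2, by norm_num, ?_⟩
  intro q _ χ hχ s N hs hN
  have hs0 : 0 < s.re := by linarith
  have hN0 : (0 : ℝ) < N := by exact_mod_cast hN
  have hN1 : (1 : ℝ) ≤ N := by exact_mod_cast hN
  have hsplit : ∫ u in Set.Ioi (1 : ℝ), S χ u * (u : ℂ) ^ (-(s + 1)) =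
      (∫ u in Set.Ioc (1 : ℝ) N, S χ u * (u : ℂ) ^ (-(s + 1))) +
        ∫ u in Set.Ioi (N : ℝ), S χ u * (u : ℂ) ^ (-(s + 1)) := by
    rw [← Set.Ioc_union_Ioi_eq_Ioi hN1]
    refine setIntegral_union ?_ measurableSet_Ioi ?_ ?_
    · exact Set.Ioc_disjoint_Ioi le_rfl
    · exact (integrable h1 χ hχ s hs0 1 one_pos).mono_set Set.Ioc_subset_Ioi_self
    · exact integrable h1 χ hχ s hs0 N hN0
  have hL : DirichletCharacter.LFunction χ s = s * ∫ u in Set.Ioi (1 : ℝ),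
      S χ u * (u : ℂ) ^ (-(s + 1)) := h2 q χ hχ s hs0
  have hdiff : DirichletCharacter.LFunction χ s - Pp χ N s =
      s * (∫ u in Set.Ioi (N : ℝ), S χ u * (u : ℂ) ^ (-(s + 1))) -
        ((N : ℝ) : ℂ) ^ (-s) * S χ N := by
    rw [hL, hsplit, abel]
    ring
  rw [hdiff]
  have hq : (0 : ℝ) ≤ q := Nat.cast_nonneg q
  have hp : (0 : ℝ) ≤ (N : ℝ) ^ (-s.re) := Real.rpow_nonneg hN0.le _
  have hb1 : ‖s * (∫ u in Set.Ioi (N : ℝ), S χ u * (u : ℂ) ^ (-(s + 1)))‖ ≤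
      ‖s‖ * (q * ((N : ℝ) ^ (-s.re) * 2)) := by
    rw [norm_mul]
    refine mul_le_mul_of_nonneg_left ((tail h1 χ hχ s hs0 N hN0).trans ?_) (norm_nonneg _)
    refine mul_le_mul_of_nonneg_left ?_ hq
    rw [div_eq_mul_inv]
    refine mul_le_mul_of_nonneg_left ?_ hp
    rw [inv_le_comm₀ hs0 (by norm_num)]
    linarith
  have hb2 : ‖((N : ℝ) : ℂ) ^ (-s) * S χ N‖ ≤ (N : ℝ) ^ (-s.re) * q := by
    rw [norm_mul, Complex.norm_cpow_eq_rpow_re_of_pos hN0]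
    exact mul_le_mul_of_nonneg_left (h1 q χ hχ _) hp
  calc ‖s * (∫ u in Set.Ioi (N : ℝ), S χ u * (u : ℂ) ^ (-(s + 1))) -
        ((N : ℝ) : ℂ) ^ (-s) * S χ N‖
      ≤ ‖s * (∫ u in Set.Ioi (N : ℝ), S χ u * (u : ℂ) ^ (-(s + 1)))‖ +
        ‖((N : ℝ) : ℂ) ^ (-s) * S χ N‖ := norm_sub_le _ _
    _ ≤ ‖s‖ * (q * ((N : ℝ) ^ (-s.re) * 2)) + (N : ℝ) ^ (-s.re) * q := add_le_add hb1 hb2
    _ ≤ 2 * q * (1 + ‖s‖) * (N : ℝ) ^ (-s.re) := by
        have h3 : 0 ≤ q * (N : ℝ) ^ (-s.re) := mul_nonneg hq hp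
        nlinarith [norm_nonneg s]

end

end Pool.Agent.Lib.LargeAP
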