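import Pool.Agent.Lib.LargeAP.Spec

/-!
# LargeAP: module LBD (simple upper bounds for `L` and `L'`)
-/

set_option autoImplicit false

namespace Pool.Agent.Lib.LargeAP

open Finset Filter Topology Complex Metric

noncomputable section

namespace LBDM

theorem Pp_one {q : ℕ} (χ : DirichletCharacter ℂ q) (s : ℂ) : Pp χ 1 s = 1 := by
  simp [Pp]

theorem one_le_q (q : ℕ) [NeZero q] : (1 : ℝ) ≤ q := by
  exact_mod_cast Nat.one_le_iff_ne_zero.2 (NeZero.ne q)

end LBDM

theorem specLBD (hLB : SpecLB) : SpecLBD := by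
  obtain ⟨C, hC, h⟩ := hLB
  refine ⟨5 * (1 + C), by linarith, fun q _ χ hχ s => ?_⟩
  have hq := LBDM.one_le_q q
  have key : ∀ z : ℂ, 1 / 2 ≤ z.re →
      ‖DirichletCharacter.LFunction χ z‖ ≤ (1 + C) * q * (1 + ‖z‖) := by
    intro z hz
    have h1 := h q χ hχ z 1 hz le_rfl
    rw [LBDM.Pp_one, Nat.cast_one, Real.one_rpow, mul_one] at h1
    have h2 : ‖DirichletCharacter.LFunction χ z‖ ≤
        ‖DirichletCharacter.LFunction χ z - 1‖ + ‖(1 : ℂ)‖ := by
      simpa using norm_add_le (DirichletCharacter.LFunction χ z - 1) 1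
    rw [norm_one] at h2
    have h3 : (1 : ℝ) ≤ q * (1 + ‖z‖) :=
      one_le_mul_of_one_le_of_one_le hq (by linarith [norm_nonneg z])
    calc ‖DirichletCharacter.LFunction χ z‖ ≤ C * q * (1 + ‖z‖) + 1 := by linarith
      _ ≤ C * q * (1 + ‖z‖) + q * (1 + ‖z‖) := by linarith
      _ = (1 + C) * q * (1 + ‖z‖) := by ring
  refine ⟨fun hs => ?_, fun hs => ?_⟩
  · refine (key s hs).trans ?_
    have h4 : 0 ≤ (1 + C) * q * (1 + ‖s‖) := by positivity
    calc (1 + C) * q * (1 + ‖s‖) ≤ 5 * ((1 + C) * q * (1 + ‖s‖)) := by linarith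
      _ = 5 * (1 + C) * q * (1 + ‖s‖) := by ring
  · have h5 : ∀ z ∈ sphere s (1 / 4),
        ‖DirichletCharacter.LFunction χ z‖ ≤ 5 / 4 * ((1 + C) * q * (1 + ‖s‖)) := by
      intro z hz
      rw [mem_sphere, dist_eq_norm] at hz
      have h6 : 1 / 2 ≤ z.re := by
        have h7 : |(z - s).re| ≤ ‖z - s‖ := Complex.abs_re_le_norm _
        rw [hz, Complex.sub_re] at h7
        have := (abs_le.1 h7).1
        linarith
      have h8 : ‖z‖ ≤ ‖s‖ + 1 / 4 := by
        have := norm_add_le (z - s) s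
        rw [sub_add_cancel, hz] at this
        linarith
      refine (key z h6).trans ?_
      have h9 : 0 ≤ (1 + C) * q := by positivity
      calc (1 + C) * q * (1 + ‖z‖) ≤ (1 + C) * q * (5 / 4 * (1 + ‖s‖)) :=
            mul_le_mul_of_nonneg_left (by linarith [norm_nonneg s]) h9
        _ = 5 / 4 * ((1 + C) * q * (1 + ‖s‖)) := by ring
    have h10 := Complex.norm_deriv_le_of_forall_mem_sphere_norm_le (c := s) (R := 1 / 4)
      (f := DirichletCharacter.LFunction χ) (by norm_num)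
      ((DirichletCharacter.differentiable_LFunction hχ).diffContOnCl) h5
    refine h10.trans (le_of_eq ?_)
    ring

end

end Pool.Agent.Lib.LargeAP
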