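import Pool.Agent.Lib.LargeAP.Spec
import Pool.Agent.Lib.LP.ZB

/-!
# LargeAP, module LBO: a bound for `(s - 1) L(s, χ₀)`
-/

set_option autoImplicit false

noncomputable section

namespace Pool.Agent.Lib.LargeAP

open DirichletCharacter MeasureTheory Filter Asymptotics Topology

namespace LBOM

/-- the fractional part, cut off at `1` -/
def g : ℝ → ℂ := (Set.Ioi (1 : ℝ)).indicator (fun u => ((u - ⌊u⌋₊ : ℝ) : ℂ))

lemma measurable_fr : Measurable (fun u : ℝ => ((u - ⌊u⌋₊ : ℝ) : ℂ)) :=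
  Complex.measurable_ofReal.comp (measurable_id.sub
    ((measurable_from_nat (f := fun n : ℕ => (n : ℝ))).comp Nat.measurable_floor))

lemma fr_bound {u : ℝ} (hu : 1 < u) : ‖((u - ⌊u⌋₊ : ℝ) : ℂ)‖ ≤ 1 := by
  rw [Complex.norm_real, Real.norm_of_nonneg (sub_nonneg.2 (Nat.floor_le (by linarith)))]
  have := Nat.lt_floor_add_one u
  linarith

lemma g_bound (u : ℝ) : ‖g u‖ ≤ 1 := by
  unfold g
  rw [norm_indicator_eq_indicator_norm]
  by_cases hu : u ∈ Set.Ioi (1 : ℝ)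
  · rw [Set.indicator_of_mem hu]
    exact fr_bound hu
  · rw [Set.indicator_of_notMem hu]
    exact zero_le_one

lemma g_loc : LocallyIntegrableOn g (Set.Ioi 0) := by
  refine LocallyIntegrable.locallyIntegrableOn ?_ _
  refine (locallyIntegrable_const (1 : ℝ)).mono
    (measurable_fr.indicator measurableSet_Ioi).aestronglyMeasurable ?_
  refine Eventually.of_forall (fun u => ?_)
  rw [norm_one]
  exact g_bound u

lemma mellin_g (s : ℂ) :
    mellin g (-s) = ∫ u in Set.Ioi (1 : ℝ), ((u - ⌊u⌋₊ : ℝ) : ℂ) * (u : ℂ) ^ (-(s + 1)) := by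
  unfold mellin
  have h1 : ∀ t : ℝ, (t : ℂ) ^ (-s - 1) • g t = (Set.Ioi (1 : ℝ)).indicator
      (fun u : ℝ => ((u - ⌊u⌋₊ : ℝ) : ℂ) * (u : ℂ) ^ (-(s + 1))) t := by
    intro t
    unfold g
    by_cases ht : t ∈ Set.Ioi (1 : ℝ)
    · rw [Set.indicator_of_mem ht, Set.indicator_of_mem ht, smul_eq_mul, mul_comm]
      congr 2
      ring
    · rw [Set.indicator_of_notMem ht, Set.indicator_of_notMem ht, smul_zero]
  simp_rw [h1]
  rw [setIntegral_indicator measurableSet_Ioi]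
  congr 2
  ext t
  simp only [Set.mem_inter_iff, Set.mem_Ioi]
  constructor
  · exact fun h => h.2
  · exact fun h => ⟨by linarith, h⟩

lemma mellin_diff (s : ℂ) (hs : s.re < 0) : DifferentiableAt ℂ (mellin g) s := by
  refine mellin_differentiableAt_of_isBigO_rpow (a := 0) (b := s.re - 1) g_loc ?_ hs ?_
    (by linarith)
  · refine IsBigO.of_bound (1 : ℝ) (Eventually.of_forall (fun u => ?_))
    rw [neg_zero, Real.rpow_zero, norm_one, mul_one]
    exact g_bound u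
  · refine (EventuallyEq.trans_isBigO (f₂ := fun _ => (0 : ℂ)) ?_ (isBigO_zero _ _))
    have h : Set.Iio (1 : ℝ) ∈ 𝓝[>] (0 : ℝ) := mem_nhdsWithin_of_mem_nhds (Iio_mem_nhds one_pos)
    filter_upwards [h] with u hu
    unfold g
    rw [Set.indicator_of_notMem]
    intro h2
    have h3 : (1 : ℝ) < u := h2
    have h4 : u < 1 := hu
    linarith

lemma mellin_norm {s : ℂ} (hs : 0 < s.re) : ‖mellin g (-s)‖ ≤ 1 / s.re := by
  rw [mellin_g]
  have hI2 : IntegrableOn (fun t : ℝ => t ^ (-(s.re + 1))) (Set.Ioi 1) :=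
    integrableOn_Ioi_rpow_of_lt (by linarith) one_pos
  have hbd : ∀ᵐ t ∂(volume.restrict (Set.Ioi (1 : ℝ))),
      ‖((t - ⌊t⌋₊ : ℝ) : ℂ) * (t : ℂ) ^ (-(s + 1))‖ ≤ t ^ (-(s.re + 1)) := by
    filter_upwards [self_mem_ae_restrict measurableSet_Ioi] with t ht
    have ht1 : (1 : ℝ) < t := ht
    have ht0 : (0 : ℝ) < t := by linarith
    rw [norm_mul, LP.ZBM.norm_cpow_eq ht0]
    calc ‖((t - ⌊t⌋₊ : ℝ) : ℂ)‖ * t ^ (-(s + 1)).re ≤ 1 * t ^ (-(s + 1)).re :=
          mul_le_mul_of_nonneg_right (fr_bound ht1) (Real.rpow_nonneg ht0.le _)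
      _ = t ^ (-(s.re + 1)) := by rw [one_mul]; simp
  refine (norm_integral_le_of_norm_le hI2 hbd).trans ?_
  rw [integral_Ioi_rpow_of_lt (by linarith) one_pos, Real.one_rpow,
    show -(s.re + 1) + 1 = -s.re by ring, neg_div_neg_eq]

lemma zeta_of_one_lt {s : ℂ} (hs : 1 < s.re) :
    riemannZeta s = s * ((s - 1)⁻¹ - mellin g (-s)) := by
  rw [LP.ZBM.zeta_eq hs, mellin_g]
  congr 1
  have hs1 : s - 1 ≠ 0 := by
    intro h
    have := congrArg Complex.re h
    simp at this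
    linarith
  have hbd : ∀ᵐ t ∂(volume.restrict (Set.Ioi (1 : ℝ))),
      ‖((t - ⌊t⌋₊ : ℝ) : ℂ) * (t : ℂ) ^ (-(s + 1))‖ ≤ t ^ (-(s.re + 1)) := by
    filter_upwards [self_mem_ae_restrict measurableSet_Ioi] with t ht
    have ht1 : (1 : ℝ) < t := ht
    have ht0 : (0 : ℝ) < t := by linarith
    rw [norm_mul, LP.ZBM.norm_cpow_eq ht0]
    calc ‖((t - ⌊t⌋₊ : ℝ) : ℂ)‖ * t ^ (-(s + 1)).re ≤ 1 * t ^ (-(s + 1)).re :=
          mul_le_mul_of_nonneg_right (fr_bound ht1) (Real.rpow_nonneg ht0.le _)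
      _ = t ^ (-(s.re + 1)) := by rw [one_mul]; simp
  have hI2 : IntegrableOn (fun t : ℝ => t ^ (-(s.re + 1))) (Set.Ioi 1) :=
    integrableOn_Ioi_rpow_of_lt (by linarith) one_pos
  have hJint : IntegrableOn (fun t : ℝ => ((t - ⌊t⌋₊ : ℝ) : ℂ) * (t : ℂ) ^ (-(s + 1)))
      (Set.Ioi 1) := by
    refine Integrable.mono' hI2 (LP.ZBM.meas s).aestronglyMeasurable hbd
  have hI1 : IntegrableOn (fun t : ℝ => (t : ℂ) ^ (-s)) (Set.Ioi 1) :=
    integrableOn_Ioi_cpow_of_lt (by simpa using hs) one_pos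
  have hv : ∫ t in Set.Ioi (1 : ℝ), (t : ℂ) ^ (-s) = (s - 1)⁻¹ := by
    rw [integral_Ioi_cpow_of_lt (by simpa using hs) one_pos, Complex.ofReal_one, Complex.one_cpow,
      show -s + 1 = -(s - 1) by ring, neg_div_neg_eq, one_div]
  rw [← hv, ← integral_sub hI1 hJint]
  refine setIntegral_congr_fun measurableSet_Ioi fun t ht => ?_
  have ht1 : (1 : ℝ) < t := ht
  have ht0 : (t : ℂ) ≠ 0 := by
    exact_mod_cast (by linarith : (t : ℝ) ≠ 0)
  have h2 : (t : ℂ) ^ (-s) = t * (t : ℂ) ^ (-(s + 1)) := by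
    rw [show -s = -(s + 1) + 1 by ring, Complex.cpow_add _ _ ht0, Complex.cpow_one, mul_comm]
  rw [h2]
  push_cast
  ring

lemma triv_one {s : ℂ} (hs : s ≠ 1) : LFunctionTrivChar₁ 1 s = (s - 1) * riemannZeta s := by
  rw [LFunctionTrivChar₁, Function.update_of_ne hs, LFunctionTrivChar_eq_mul_riemannZeta hs]
  simp

lemma triv_one_eq {s : ℂ} (hs : 0 < s.re) :
    LFunctionTrivChar₁ 1 s = s - s * (s - 1) * mellin g (-s) := by
  have hopen : IsOpen {z : ℂ | 0 < z.re} := isOpen_lt continuous_const Complex.continuous_re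
  have h1 : AnalyticOnNhd ℂ (LFunctionTrivChar₁ 1) {z : ℂ | 0 < z.re} :=
    (differentiable_LFunctionTrivChar₁ 1).differentiableOn.analyticOnNhd hopen
  have h2 : AnalyticOnNhd ℂ (fun z => z - z * (z - 1) * mellin g (-z)) {z : ℂ | 0 < z.re} := by
    refine DifferentiableOn.analyticOnNhd (fun z hz => ?_) hopen
    have hz' : (-z).re < 0 := by
      have : 0 < z.re := hz
      simpa using this
    refine DifferentiableAt.differentiableWithinAt ?_
    refine differentiableAt_id.sub ((differentiableAt_id.mul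
      (differentiableAt_id.sub_const 1)).mul ?_)
    exact (mellin_diff (-z) hz').comp z differentiableAt_id.neg
  have hconv : Convex ℝ {z : ℂ | 0 < z.re} := convex_halfSpace_re_gt 0
  refine h1.eqOn_of_preconnected_of_eventuallyEq h2 hconv.isPreconnected (z₀ := 2) (by simp) ?_ hs
  have h3 : {z : ℂ | 1 < z.re} ∈ 𝓝 (2 : ℂ) :=
    (isOpen_lt continuous_const Complex.continuous_re).mem_nhds (by simp)
  filter_upwards [h3] with z hz
  have hz1 : z ≠ 1 := by
    rintro rfl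
    simp at hz
  rw [triv_one hz1, zeta_of_one_lt hz]
  have hz2 : z - 1 ≠ 0 := sub_ne_zero.2 hz1
  field_simp

lemma prod_bound (q : ℕ) [NeZero q] {s : ℂ} (hs : 0 ≤ s.re) :
    ‖∏ p ∈ q.primeFactors, (1 - (p : ℂ) ^ (-s))‖ ≤ q := by
  have h1 : ‖∏ p ∈ q.primeFactors, (1 - (p : ℂ) ^ (-s))‖ ≤ ∏ p ∈ q.primeFactors, (p : ℝ) := by
    rw [norm_prod]
    refine Finset.prod_le_prod (fun p _ => norm_nonneg _) fun p hp => ?_
    have hp2 : (2 : ℝ) ≤ p := by exact_mod_cast (Nat.prime_of_mem_primeFactors hp).two_le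
    refine (norm_sub_le _ _).trans ?_
    rw [norm_one]
    have h8 : ‖(p : ℂ) ^ (-s)‖ = (p : ℝ) ^ (-s).re := by
      have := LP.ZBM.norm_cpow_eq (s := -s) (t := (p : ℝ)) (by linarith)
      simpa using this
    rw [h8]
    have h9 : (p : ℝ) ^ (-s).re ≤ 1 :=
      Real.rpow_le_one_of_one_le_of_nonpos (by linarith) (by simpa using hs)
    linarith
  refine h1.trans ?_
  have h2 : (∏ p ∈ q.primeFactors, (p : ℝ)) = ((∏ p ∈ q.primeFactors, p : ℕ) : ℝ) := by
    rw [Nat.cast_prod]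
  rw [h2]
  exact_mod_cast Nat.le_of_dvd (Nat.pos_of_ne_zero (NeZero.ne q)) (Nat.prod_primeFactors_dvd q)

end LBOM

theorem specLBO : SpecLBO := by
  refine ⟨2, by norm_num, fun q _ s hs => ?_⟩
  have hq : (1 : ℝ) ≤ q := by exact_mod_cast Nat.one_le_iff_ne_zero.2 (NeZero.ne q)
  have hn : 0 ≤ ‖s‖ := norm_nonneg s
  by_cases h1 : s = 1
  · subst h1
    rw [LFunctionTrivChar₁, Function.update_self]
    have h2 := LBOM.prod_bound q (s := 1) (by simp)
    have h3 : ∏ p ∈ q.primeFactors, (1 - (p : ℂ)⁻¹) =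
        ∏ p ∈ q.primeFactors, (1 - (p : ℂ) ^ (-1 : ℂ)) := by
      refine Finset.prod_congr rfl fun p _ => ?_
      rw [Complex.cpow_neg_one]
    rw [h3]
    refine h2.trans ?_
    rw [norm_one]
    linarith
  · have h2 : LFunctionTrivChar₁ q s =
        LFunctionTrivChar₁ 1 s * ∏ p ∈ q.primeFactors, (1 - (p : ℂ) ^ (-s)) := by
      rw [LBOM.triv_one h1, LFunctionTrivChar₁, Function.update_of_ne h1,
        LFunctionTrivChar_eq_mul_riemannZeta h1]
      ring
    have hs0 : 0 < s.re := by linarith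
    rw [h2, norm_mul]
    have h3 : ‖LFunctionTrivChar₁ 1 s‖ ≤ 2 * (1 + ‖s‖) ^ 2 := by
      rw [LBOM.triv_one_eq hs0]
      have h4 := LBOM.mellin_norm hs0
      have h5 : 1 / s.re ≤ 2 := by
        rw [div_le_iff₀ hs0]
        linarith
      have h6 : ‖s - 1‖ ≤ ‖s‖ + 1 := by
        refine (norm_sub_le _ _).trans ?_
        rw [norm_one]
      calc ‖s - s * (s - 1) * mellin LBOM.g (-s)‖
          ≤ ‖s‖ + ‖s‖ * ‖s - 1‖ * ‖mellin LBOM.g (-s)‖ := by
            refine (norm_sub_le _ _).trans ?_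
            rw [norm_mul, norm_mul]
        _ ≤ ‖s‖ + ‖s‖ * (‖s‖ + 1) * 2 := by
            gcongr
            exact h4.trans h5
        _ ≤ 2 * (1 + ‖s‖) ^ 2 := by nlinarith
    calc ‖LFunctionTrivChar₁ 1 s‖ * ‖∏ p ∈ q.primeFactors, (1 - (p : ℂ) ^ (-s))‖
        ≤ (2 * (1 + ‖s‖) ^ 2) * q :=
          mul_le_mul h3 (LBOM.prod_bound q hs0.le) (norm_nonneg _) (by positivity)
      _ = 2 * q * (1 + ‖s‖) ^ 2 := by ring

end Pool.Agent.Lib.LargeAP
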