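import Pool.Agent.Lib.LargeAP.Spec

/-!
# LargeAP, module LD: bound of `L'/L` to the left of `1`
-/

set_option autoImplicit false

namespace Pool.Agent.Lib.LargeAP

open Finset Filter Topology Complex Metric
open scoped Classical ArithmeticFunction

noncomputable section

namespace LDM

/-- one term -/
lemma term {w w₀ : ℂ} {B c : ℝ} (hB : 0 < B) (hc : 0 < c) (h0 : 1 / B ≤ w₀.re)
    (hw : c / (2 * B) ≤ w.re) (hd : ‖w₀ - w‖ ≤ 2 / B) :
    ‖w⁻¹ - w₀⁻¹‖ ≤ 2 * (1 + 4 / c) * (w₀⁻¹).re := by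
  have hBi : 0 < 1 / B := by positivity
  have hcB : 0 < c / (2 * B) := by positivity
  have hw0 : w₀ ≠ 0 := by
    rintro rfl
    simp only [Complex.zero_re] at h0
    linarith
  have hwne : w ≠ 0 := by
    rintro rfl
    simp only [Complex.zero_re] at hw
    linarith
  have hn0 : 0 < ‖w₀‖ := norm_pos_iff.mpr hw0
  have hn : 0 < ‖w‖ := norm_pos_iff.mpr hwne
  have hwn : c / (2 * B) ≤ ‖w‖ := hw.trans (Complex.re_le_norm w)
  have h1 : ‖w₀‖ ≤ (1 + 4 / c) * ‖w‖ := by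
    have h2 : ‖w₀‖ ≤ ‖w‖ + ‖w₀ - w‖ := by
      have := norm_add_le w (w₀ - w)
      simpa using this
    have h3 : 2 / B = (4 / c) * (c / (2 * B)) := by
      field_simp
      ring
    have h4 : (4 / c) * (c / (2 * B)) ≤ (4 / c) * ‖w‖ :=
      mul_le_mul_of_nonneg_left hwn (by positivity)
    calc ‖w₀‖ ≤ ‖w‖ + ‖w₀ - w‖ := h2
      _ ≤ ‖w‖ + 2 / B := by linarith
      _ ≤ ‖w‖ + (4 / c) * ‖w‖ := by rw [h3]; linarith
      _ = (1 + 4 / c) * ‖w‖ := by ring
  have h5 : w⁻¹ - w₀⁻¹ = (w₀ - w) / (w * w₀) := by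
    field_simp
  have h6 : (w₀⁻¹).re = w₀.re / ‖w₀‖ ^ 2 := by
    rw [Complex.inv_re, Complex.normSq_eq_norm_sq]
  rw [h5, norm_div, norm_mul, h6]
  have h7 : ‖w₀ - w‖ / (‖w‖ * ‖w₀‖) ≤ (2 / B) / (‖w‖ * ‖w₀‖) :=
    div_le_div_of_nonneg_right hd (by positivity)
  refine h7.trans ?_
  rw [← mul_div_assoc, div_le_div_iff₀ (by positivity) (by positivity)]
  have h8 : (2 : ℝ) / B ≤ 2 * w₀.re := by
    have : (2 : ℝ) / B = 2 * (1 / B) := by ring
    rw [this]
    linarith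
  have hre : 0 < w₀.re := lt_of_lt_of_le hBi h0
  calc 2 / B * ‖w₀‖ ^ 2 ≤ 2 * w₀.re * ‖w₀‖ ^ 2 := by gcongr
    _ = 2 * w₀.re * ‖w₀‖ * ‖w₀‖ := by ring
    _ ≤ 2 * w₀.re * ‖w₀‖ * ((1 + 4 / c) * ‖w‖) := by gcongr
    _ = 2 * (1 + 4 / c) * w₀.re * (‖w‖ * ‖w₀‖) := by ring

/-- the sum over a multiset -/
lemma sum_bound {f g : ℂ → ℂ} {K : ℝ} (Z : Multiset ℂ)
    (h : ∀ ρ ∈ Z, ‖f ρ - g ρ‖ ≤ K * (g ρ).re) :
    ‖(Z.map f).sum - (Z.map g).sum‖ ≤ K * ((Z.map g).sum).re := by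
  induction Z using Multiset.induction_on with
  | empty => simp
  | cons a Z ih =>
    have h1 := ih (fun ρ hρ => h ρ (Multiset.mem_cons_of_mem hρ))
    have h2 := h a (Multiset.mem_cons_self a Z)
    rw [Multiset.map_cons, Multiset.map_cons, Multiset.sum_cons, Multiset.sum_cons]
    have h3 : f a + (Z.map f).sum - (g a + (Z.map g).sum)
        = (f a - g a) + ((Z.map f).sum - (Z.map g).sum) := by ring
    rw [h3, Complex.add_re, mul_add]
    exact (norm_add_le _ _).trans (add_le_add h2 h1)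

end LDM

/-- module LD -/
theorem specLD (h₁ : SpecEXL) (h₂ : SpecUP) : SpecLD := by
  obtain ⟨C₁, hC₁, hE⟩ := h₁
  obtain ⟨C₂, hC₂, hU⟩ := h₂
  intro c hc hc1
  have hK : 0 < 2 * (1 + 4 / c) := by positivity
  refine ⟨(1 + 2 * (1 + 4 / c)) * (1 + C₂ + C₁) + C₁ + (1 + C₂), by positivity, ?_⟩
  intro q _ χ B hχ hB hq hZF s hs1 hs2 hsi
  have hBpos : 0 < B := by linarith
  have hB1 : 1 ≤ B := by linarith
  have hUB : ∀ z : ℂ, 1 + 1 / B ≤ z.re → z.re ≤ 2 → ‖ldL χ z‖ ≤ (1 + C₂) * B := by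
    intro z hz1 hz2
    have hBi : 0 < 1 / B := by positivity
    have h1 := (hU q χ z (by linarith) hz2).1
    have h2 : 1 / (z.re - 1) ≤ B := by
      rw [div_le_iff₀ (by linarith)]
      have : 1 = B * (1 / B) := by field_simp
      calc (1 : ℝ) = B * (1 / B) := this
        _ ≤ B * (z.re - 1) := by gcongr; linarith
    have h3 : C₂ ≤ C₂ * B := by nlinarith
    linarith
  rcases le_or_gt (1 + 1 / B) s.re with hcase | hcase
  · have := hUB s hcase hs2
    have h4 : 0 ≤ ((1 + 2 * (1 + 4 / c)) * (1 + C₂ + C₁) + C₁) * B := by positivity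
    nlinarith
  · -- the near case
    have hexp : 1 ≤ Real.exp B := Real.one_le_exp (by linarith)
    obtain ⟨Z, hZ1, -, hZ3⟩ := hE q χ hχ B s.im hB hq (by
      have : |s.im| ≤ Real.exp B - 1 := hsi
      linarith)
    set s₀ : ℂ := ⟨1 + 1 / B, s.im⟩ with hs₀
    have hs₀re : s₀.re = 1 + 1 / B := rfl
    have hs₀im : s₀.im = s.im := rfl
    have hBi16 : 1 / B ≤ 1 / 16 := by
      apply one_div_le_one_div_of_le (by norm_num) hB
    have hBi : 0 < 1 / B := by positivity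
    have hc2B : c / (2 * B) = c / 2 * (1 / B) := by field_simp
    have hcB : c / B = c * (1 / B) := by field_simp
    have hdist : ‖s₀ - s‖ ≤ 2 / B := by
      have h1 : s₀ - s = ((1 + 1 / B - s.re : ℝ) : ℂ) := by
        apply Complex.ext
        · simp [hs₀re]
        · simp [hs₀im]
      rw [h1, Complex.norm_real, Real.norm_eq_abs, abs_of_nonneg (by linarith)]
      have h2 : (2 : ℝ) / B = 2 * (1 / B) := by ring
      rw [h2]
      rw [hc2B] at hs1
      nlinarith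
    have hdist8 : ‖s - s₀‖ ≤ 1 / 8 := by
      rw [norm_sub_rev]
      refine hdist.trans ?_
      have h2 : (2 : ℝ) / B = 2 * (1 / B) := by ring
      rw [h2]
      linarith
    have hsball : s ∈ closedBall s₀ (1 / 8) := by
      rw [mem_closedBall, dist_eq_norm]
      exact hdist8
    have hs0ball : s₀ ∈ closedBall s₀ (1 / 8) := by
      rw [mem_closedBall, dist_self]
      norm_num
    have hLs : DirichletCharacter.LFunction χ s ≠ 0 := by
      apply hZF s
      · rw [hcB]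
        rw [hc2B] at hs1
        nlinarith
      · linarith
    have hLs0 : DirichletCharacter.LFunction χ s₀ ≠ 0 := by
      apply hZF s₀
      · rw [hs₀re, hcB]
        nlinarith
      · rw [hs₀im]
        linarith
    have hZS := hZ3 s hsball hLs
    have hZS0 := hZ3 s₀ hs0ball hLs0
    have hterm : ∀ ρ ∈ Z, ‖(s - ρ)⁻¹ - (s₀ - ρ)⁻¹‖ ≤ 2 * (1 + 4 / c) * ((s₀ - ρ)⁻¹).re := by
      intro ρ hρ
      obtain ⟨hρ0, hρb⟩ := hZ1 ρ hρ
      have him : |ρ.im| ≤ Real.exp B := by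
        rw [mem_closedBall, dist_eq_norm] at hρb
        have h1 : |(ρ - s₀).im| ≤ 1 / 4 := (Complex.abs_im_le_norm _).trans hρb
        rw [Complex.sub_im, hs₀im] at h1
        have h2 := abs_le.mp h1
        have h3 := abs_le.mp hsi
        rw [abs_le]
        constructor <;> linarith [h2.1, h2.2, h3.1, h3.2]
      have hre : ρ.re ≤ 1 - c / B := by
        by_contra hcon
        exact hZF ρ (not_le.mp hcon) him hρ0
      rw [hcB] at hre
      have hcp : 0 < c * (1 / B) := by positivity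
      apply LDM.term hBpos hc
      · rw [Complex.sub_re, hs₀re]
        linarith
      · rw [Complex.sub_re, hc2B]
        rw [hc2B] at hs1
        linarith
      · have : s₀ - ρ - (s - ρ) = s₀ - s := by ring
        rw [this]
        exact hdist
    have hsum := LDM.sum_bound Z hterm
    set S := (Z.map (fun ρ => (s - ρ)⁻¹)).sum with hS
    set S0 := (Z.map (fun ρ => (s₀ - ρ)⁻¹)).sum with hS0
    have hS0n : ‖S0‖ ≤ (1 + C₂ + C₁) * B := by
      have h1 : ‖ldL χ s₀‖ ≤ (1 + C₂) * B := by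
        apply hUB
        · rw [hs₀re]
        · rw [hs₀re]; linarith
      have h2 : S0 = (ldL χ s₀ + S0) - ldL χ s₀ := by ring
      rw [h2]
      refine (norm_sub_le _ _).trans ?_
      linarith
    have hSn : ‖S‖ ≤ (1 + 2 * (1 + 4 / c)) * ‖S0‖ := by
      have h2 : S = (S - S0) + S0 := by ring
      rw [h2]
      refine (norm_add_le _ _).trans ?_
      have h3 : 2 * (1 + 4 / c) * S0.re ≤ 2 * (1 + 4 / c) * ‖S0‖ :=
        mul_le_mul_of_nonneg_left (Complex.re_le_norm _) hK.le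
      linarith
    have hfin : ‖ldL χ s‖ ≤ ‖S‖ + C₁ * B := by
      have h2 : ldL χ s = (ldL χ s + S) - S := by ring
      rw [h2]
      refine (norm_sub_le _ _).trans ?_
      linarith
    have h5 : (1 + 2 * (1 + 4 / c)) * ‖S0‖ ≤ (1 + 2 * (1 + 4 / c)) * ((1 + C₂ + C₁) * B) :=
      mul_le_mul_of_nonneg_left hS0n (by linarith)
    have h6 : 0 ≤ (1 + C₂) * B := by positivity
    calc ‖ldL χ s‖ ≤ ‖S‖ + C₁ * B := hfin
      _ ≤ (1 + 2 * (1 + 4 / c)) * ((1 + C₂ + C₁) * B) + C₁ * B := by linarith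
      _ ≤ ((1 + 2 * (1 + 4 / c)) * (1 + C₂ + C₁) + C₁ + (1 + C₂)) * B := by nlinarith

end

end Pool.Agent.Lib.LargeAP
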