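import Pool.Agent.Lib.LargeAP.Spec
import Pool.Agent.Lib.LP.LP

/-!
# LargeAP: the theorem for one interval `(x, 2x]`
-/

set_option autoImplicit false

noncomputable section

namespace Pool.Agent.Lib.LargeAP

open Finset Filter Topology Complex
open scoped Classical ArithmeticFunction

namespace LPTM

theorem rp {a b θ : ℝ} (ha : 0 ≤ a) (hab : a ≤ 2 * b) (hθ0 : 0 < θ) (hθ1 : θ ≤ 1) :
    a ^ θ ≤ 2 * b ^ θ := by
  have hb : 0 ≤ b := by linarith
  calc a ^ θ ≤ (2 * b) ^ θ := Real.rpow_le_rpow ha hab hθ0.le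
    _ = 2 ^ θ * b ^ θ := Real.mul_rpow (by norm_num) hb
    _ ≤ 2 * b ^ θ := by
        refine mul_le_mul_of_nonneg_right ?_ (Real.rpow_nonneg hb _)
        calc (2 : ℝ) ^ θ ≤ 2 ^ (1 : ℝ) := Real.rpow_le_rpow_of_exponent_le (by norm_num) hθ1
          _ = 2 := Real.rpow_one 2

end LPTM

open LP LP.LPM in
theorem specLPT (hEXD : SpecEXD) (hEXP : LP.SpecEXP) (hORT : SpecORT) (hPNG : LP.SpecPNG)
    (hGMS : LP.SpecGMS) : SpecLPT := by
  intro θ ε hθ0 hθ1 hε P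
  set η : ℝ := min ε 1 / 8 with hη
  have hη0 : 0 < η := by rw [hη]; positivity
  have hη1 : η ≤ 1 / 8 := by
    rw [hη]
    have := min_le_right ε 1
    linarith
  have hη2 : 8 * η ≤ ε := by
    rw [hη]
    have := min_le_left ε 1
    linarith
  set κ : ℝ := η / 8 with hκ
  have hκ0 : 0 < κ := by rw [hκ]; positivity
  have hκ1 : κ ≤ 1 / 2 := by rw [hκ]; linarith
  have hκ2 : 2 * Real.exp κ - Real.exp (-κ) ≤ 1 + η := by
    have h1 := exp_le hκ0.le hκ1
    have h2 := Real.add_one_le_exp (-κ)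
    have h3 : 8 * κ = η := by rw [hκ]; ring
    linarith
  obtain ⟨lam₀, hlam₀⟩ := hGMS κ η hκ0 hη0
  set lam : ℝ := max lam₀ (1 / η) with hlam
  have hlam1 : 1 / η ≤ lam := le_max_right _ _
  have hlam2 : 0 < lam := lt_of_lt_of_le (by positivity) hlam1
  have hle : Real.exp (1 / (4 * lam)) ≤ 1 + η := by
    have h1 : 1 / (4 * lam) ≤ η / 4 := by
      rw [div_le_div_iff₀ (by positivity) (by norm_num)]
      have h2 : 1 ≤ η * lam := by
        rw [div_le_iff₀ hη0] at hlam1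
        linarith
      nlinarith
    have h3 := exp_le (t := 1 / (4 * lam)) (by positivity) (by linarith)
    linarith
  obtain ⟨u₀, hu₀⟩ := hPNG lam η hlam2 hη0
  obtain ⟨c, hc0, hc1, hEXD'⟩ := hEXD
  obtain ⟨B₀, hB₀⟩ := hEXD' P
  obtain ⟨U₀, hU₀⟩ := hORT lam θ c η hlam2 hθ0 hθ1 hc0 (by linarith) hη0
  set Lm : ℝ := max (max ((max B₀ 1) ^ (1 / θ)) 4) (max (u₀ + 1) (U₀ + 1)) with hLm
  have hLm1 : (max B₀ 1) ^ (1 / θ) ≤ Lm := (le_max_left _ _).trans (le_max_left _ _)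
  have hLm2 : 4 ≤ Lm := (le_max_right _ _).trans (le_max_left _ _)
  have hLm3 : u₀ + 1 ≤ Lm := (le_max_left _ _).trans (le_max_right _ _)
  have hLm4 : U₀ + 1 ≤ Lm := (le_max_right _ _).trans (le_max_right _ _)
  refine ⟨⌈Real.exp Lm⌉₊, fun x hx Q hQ hQT => ?_⟩
  have hx1 : Real.exp Lm ≤ x := (Nat.le_ceil _).trans (by exact_mod_cast hx)
  have hx0 : (0 : ℝ) < x := lt_of_lt_of_le (Real.exp_pos _) hx1
  have hlx : Lm ≤ Real.log x := (Real.le_log_iff_exp_le hx0).2 hx1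
  have hlx0 : 0 ≤ Real.log x := by linarith
  set B : ℝ := (Real.log x) ^ θ with hB
  have hBB : B₀ ≤ B := by
    have h1 : (0 : ℝ) ≤ max B₀ 1 := le_trans zero_le_one (le_max_right _ _)
    have h2 : ((max B₀ 1) ^ (1 / θ)) ^ θ ≤ B := by
      rw [hB]
      exact Real.rpow_le_rpow (Real.rpow_nonneg h1 _) (hLm1.trans hlx) hθ0.le
    rw [← Real.rpow_mul h1, one_div_mul_cancel hθ0.ne', Real.rpow_one] at h2
    exact (le_max_left _ _).trans h2
  have hQ0 : Q ≠ 0 := hQ.ne_zero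
  have : NeZero Q := ⟨hQ0⟩
  obtain ⟨p₀, hp₀, hBp, hgood⟩ := hB₀ B hBB Q hQ hQT
  refine ⟨p₀, hp₀, hBp, fun q a hqQ hqp haq => ?_⟩
  have hq0 : q ≠ 0 := fun h => hQ0 (by rw [h] at hqQ; exact Nat.eq_zero_of_zero_dvd hqQ)
  have : NeZero q := ⟨hq0⟩
  have hqr : (0 : ℝ) < q := by exact_mod_cast Nat.pos_of_ne_zero hq0
  have hlq : Real.log q ≤ B := by
    refine le_trans (Real.log_le_log hqr ?_) hQT
    exact_mod_cast Nat.le_of_dvd (Nat.pos_of_ne_zero hQ0) hqQ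
  have hqB : (q : ℝ) ≤ Real.exp B := (Real.log_le_iff_le_exp hqr).1 hlq
  have hg := hgood q hqQ hqp
  have hexpT : Real.exp (-(-Real.log η)) ≤ η := by
    rw [neg_neg, Real.exp_log hη0]
  have hlog2x : Real.log (2 * x) ≤ Real.log x + 1 := by
    rw [Real.log_mul (by norm_num) hx0.ne']
    have := Real.log_two_lt_d9
    linarith
  have hwl : ∀ w : ℝ, Real.log x - κ ≤ w → w ≤ Real.log (2 * x) + κ →
      u₀ ≤ w ∧ U₀ ≤ w ∧ w ^ θ / 2 ≤ B ∧ B ≤ 2 * w ^ θ := by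
    intro w hw1 hw2
    refine ⟨by linarith, by linarith, ?_, ?_⟩
    · have h1 := LPTM.rp (a := w) (b := Real.log x) (by linarith) (by linarith) hθ0 hθ1.le
      rw [← hB] at h1
      linarith
    · exact LPTM.rp (a := Real.log x) (b := w) hlx0 (by linarith) hθ0 hθ1.le
  have key := LP.LPM.main (lam := lam) (κ := κ) (η := η) (T := -Real.log η) (x := x) hlam2 hκ0.le
    (hlam₀ lam (le_max_left _ _)) hη0 hx0 hκ2 hle hexpT q a
    (Nat.totient_pos.2 (Nat.pos_of_ne_zero hq0))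
    ((Finset.Ioc x (2 * x)).filter (fun p => p.Prime ∧ p ≡ a [MOD q]))
    (fun p hp => by
      rw [Finset.mem_filter, Finset.mem_Ioc] at hp
      refine ⟨hp.2.1, hp.2.2, by exact_mod_cast hp.1.1, by exact_mod_cast hp.1.2⟩)
    (fun w => (hEXP lam hlam2 w).1)
    (fun w hw1 hw2 => hu₀ w (hwl w hw1 hw2).1)
    (fun w hw1 hw2 => by
      obtain ⟨-, h2, h3, h4⟩ := hwl w hw1 hw2
      have h5 := hU₀ w B h2 h3 h4 q hqB hg a haq
      have h6 : Real.exp (w - -Real.log η) = η * Real.exp w := by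
        rw [sub_neg_eq_add, Real.exp_add, Real.exp_log hη0, mul_comm]
      rw [h6]
      exact h5)
  have hfin := LP.LPM.numerics hη0 hη1 (Y := (x : ℝ) / q.totient) (by positivity) key
  refine hfin.trans ?_
  rw [mul_div_assoc]
  exact mul_le_mul_of_nonneg_right (by linarith) (by positivity)

end Pool.Agent.Lib.LargeAP
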