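import Pool.Agent.Lib.LargeAP.Spec
import Pool.Agent.Lib.LP.LPZ

/-!
# LargeAP, module LPY: the moduli dividing a product of small primes
-/

set_option autoImplicit false

noncomputable section

namespace Pool.Agent.Lib.LargeAP

open ArithmeticFunction DirichletCharacter MeasureTheory Filter

namespace LPYM

theorem rpow_half {θ l : ℝ} (hl : 0 < l) (h : (2 : ℝ) ≤ l ^ ((1 - θ) / 2)) :
    2 * l ^ θ ≤ l ^ ((θ + 1) / 2) := by
  have h1 : l ^ ((θ + 1) / 2) = l ^ ((1 - θ) / 2) * l ^ θ := by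
    rw [← Real.rpow_add hl]
    congr 1
    ring
  rw [h1]
  exact mul_le_mul_of_nonneg_right h (Real.rpow_nonneg hl.le _)

theorem large {θ : ℝ} (hθ : θ < 1) : ∃ x₁ : ℕ, ∀ x : ℕ, x₁ ≤ x →
    0 < Real.log x ∧ (2 : ℝ) ≤ (Real.log x) ^ ((1 - θ) / 2) := by
  have h1 : Tendsto (fun x : ℕ => Real.log (x : ℝ)) atTop atTop :=
    Real.tendsto_log_atTop.comp tendsto_natCast_atTop_atTop
  have h2 : Tendsto (fun x : ℕ => (Real.log (x : ℝ)) ^ ((1 - θ) / 2)) atTop atTop :=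
    (tendsto_rpow_atTop (by linarith)).comp h1
  have h3 := (h1.eventually_gt_atTop 0).and (h2.eventually_ge_atTop 2)
  exact eventually_atTop.1 h3

end LPYM

open LPYM in
theorem specLPY (hLPT : SpecLPT) : SpecLPY := by
  intro θ ε hθ0 hθ1 hε P
  obtain ⟨x₀, hx₀⟩ := hLPT ((θ + 1) / 2) ε (by linarith) (by linarith) hε P
  obtain ⟨x₁, hx₁⟩ := large hθ1
  refine ⟨max x₀ x₁, fun x z hx hz2 hz => ?_⟩
  obtain ⟨hlog, h2⟩ := hx₁ x ((le_max_right _ _).trans hx)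
  have hQ : Real.log (primorial (z - 1)) ≤ (Real.log x) ^ ((θ + 1) / 2) := by
    have h3 := LP.LPZM.log_primorial_le (z - 1)
    have h4 : ((z - 1 : ℕ) : ℝ) ≤ z := by exact_mod_cast Nat.sub_le z 1
    have h5 := rpow_half hlog h2
    linarith
  obtain ⟨p₀, hp₀, hBp, hmain⟩ := hx₀ x ((le_max_left _ _).trans hx) (primorial (z - 1))
    (squarefree_primorial _) hQ
  refine ⟨p₀, hp₀, hBp, fun M hM n hn => ?_⟩
  refine hmain M n ?_ ?_ hn
  · rw [hM]; exact LP.LPZM.prod_dvd_primorial z (by omega) p₀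
  · rw [hM]; exact LP.LPZM.prod_coprime z p₀ hp₀

end Pool.Agent.Lib.LargeAP
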