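import Pool.Agent.Lib.LargeAP.SpecG

/-!
# LargeAP: module MEA
-/

set_option autoImplicit false

namespace Pool.Agent.Lib.LargeAP

open Finset Filter Topology
open scoped Classical

noncomputable section

namespace MEAM

theorem log_bounds {t : ℝ} (h0 : 0 ≤ t) (h1 : t ≤ 1 / 2) :
    t ≤ -Real.log (1 - t) ∧ -Real.log (1 - t) ≤ t + 2 * t ^ 2 := by
  have hpos : 0 < 1 - t := by linarith
  constructor
  · have := Real.log_le_sub_one_of_pos hpos
    linarith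
  · have h2 := Real.one_sub_inv_le_log_of_pos hpos
    have h3 : (1 - t)⁻¹ ≤ 1 + t + 2 * t ^ 2 := by
      rw [inv_le_iff_one_le_mul₀ hpos]
      nlinarith [sq_nonneg t, mul_nonneg (sq_nonneg t) (by linarith : (0 : ℝ) ≤ 1 - 2 * t)]
    linarith

/-- the term. -/
def F (δ : ℝ) (p : Nat.Primes) : ℝ :=
  -Real.log (1 - ((p : ℕ) : ℝ) ^ (-(1 + δ))) -
    -Real.log (1 - 1 / ((p : ℕ) : ℝ)) * ((p : ℕ) : ℝ) ^ (-δ)

theorem two_le (p : Nat.Primes) : (2 : ℝ) ≤ ((p : ℕ) : ℝ) := by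
  exact_mod_cast p.2.two_le

theorem inv_bd (p : Nat.Primes) : 0 ≤ 1 / ((p : ℕ) : ℝ) ∧ 1 / ((p : ℕ) : ℝ) ≤ 1 / 2 := by
  have h := two_le p
  exact ⟨by positivity, one_div_le_one_div_of_le (by norm_num) h⟩

theorem rpow_bd (p : Nat.Primes) {δ : ℝ} (hδ : 0 < δ) : 0 ≤ ((p : ℕ) : ℝ) ^ (-δ) ∧
    ((p : ℕ) : ℝ) ^ (-δ) ≤ 1 := by
  have h := two_le p
  refine ⟨by positivity, Real.rpow_le_one_of_one_le_of_nonpos (by linarith) (by linarith)⟩

theorem rpow_eq (p : Nat.Primes) (δ : ℝ) : ((p : ℕ) : ℝ) ^ (-(1 + δ)) =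
    1 / ((p : ℕ) : ℝ) * ((p : ℕ) : ℝ) ^ (-δ) := by
  have h := two_le p
  rw [neg_add, Real.rpow_add (by linarith), Real.rpow_neg_one, one_div]

theorem F_bd (p : Nat.Primes) {δ : ℝ} (hδ : 0 < δ) : ‖F δ p‖ ≤ 2 * (1 / ((p : ℕ) : ℝ) ^ 2) := by
  obtain ⟨hx0, hx1⟩ := inv_bd p
  obtain ⟨hy0, hy1⟩ := rpow_bd p hδ
  rw [F, rpow_eq]
  rw [show 2 * (1 / ((p : ℕ) : ℝ) ^ 2) = 2 * (1 / ((p : ℕ) : ℝ)) ^ 2 by rw [one_div_pow]]
  generalize 1 / ((p : ℕ) : ℝ) = x at *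
  generalize ((p : ℕ) : ℝ) ^ (-δ) = y at *
  have hxy0 : 0 ≤ x * y := mul_nonneg hx0 hy0
  have hxy1 : x * y ≤ x := mul_le_of_le_one_right hx0 hy1
  obtain ⟨h1, h2⟩ := log_bounds hxy0 (hxy1.trans hx1)
  obtain ⟨h3, h4⟩ := log_bounds hx0 hx1
  have h5 : x * y ≤ -Real.log (1 - x) * y := mul_le_mul_of_nonneg_right h3 hy0
  have h6 : -Real.log (1 - x) * y ≤ (x + 2 * x ^ 2) * y := mul_le_mul_of_nonneg_right h4 hy0
  have h7 : (x * y) ^ 2 ≤ x ^ 2 := pow_le_pow_left₀ hxy0 hxy1 2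
  have h8 : x ^ 2 * y ≤ x ^ 2 := mul_le_of_le_one_right (sq_nonneg x) hy1
  rw [Real.norm_eq_abs, abs_le]
  constructor
  · nlinarith
  · nlinarith

theorem summable_bd : Summable (fun p : Nat.Primes => 2 * (1 / ((p : ℕ) : ℝ) ^ 2)) := by
  have h : Summable (fun n : ℕ => 1 / (n : ℝ) ^ 2) := Real.summable_one_div_nat_pow.2 (by norm_num)
  exact (h.comp_injective (i := fun p : Nat.Primes => (p : ℕ)) Subtype.val_injective).mul_left 2

theorem F_lim (p : Nat.Primes) : Tendsto (fun δ : ℝ => F δ p) (𝓝[>] 0) (𝓝 0) := by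
  have hp := two_le p
  have hp0 : ((p : ℕ) : ℝ) ≠ 0 := by linarith
  obtain ⟨hx0, hx1⟩ := inv_bd p
  have h1 : Continuous (fun δ : ℝ => ((p : ℕ) : ℝ) ^ (-(1 + δ))) :=
    (Real.continuous_const_rpow hp0).comp (by fun_prop)
  have h2 : Continuous (fun δ : ℝ => ((p : ℕ) : ℝ) ^ (-δ)) :=
    (Real.continuous_const_rpow hp0).comp (by fun_prop)
  have h3 : ContinuousAt (fun δ : ℝ => F δ p) 0 := by
    unfold F
    refine ContinuousAt.sub (ContinuousAt.neg (ContinuousAt.log ?_ ?_)) ?_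
    · exact (continuous_const.sub h1).continuousAt
    · rw [rpow_eq, neg_zero, Real.rpow_zero, mul_one]
      linarith
    · exact (continuous_const.mul h2).continuousAt
  have h4 : F 0 p = 0 := by
    rw [F, rpow_eq, neg_zero, Real.rpow_zero, mul_one, mul_one, sub_self]
  have h5 : Tendsto (fun δ : ℝ => F δ p) (𝓝 0) (𝓝 (F 0 p)) := h3
  rw [h4] at h5
  exact h5.mono_left nhdsWithin_le_nhds

theorem summable_one {δ : ℝ} (hδ : 0 < δ) : Summable (fun p : Nat.Primes =>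
    -Real.log (1 - 1 / ((p : ℕ) : ℝ)) * ((p : ℕ) : ℝ) ^ (-δ)) := by
  have h : Summable (fun p : Nat.Primes => ((p : ℕ) : ℝ) ^ (-(1 + δ))) :=
    Nat.Primes.summable_rpow.2 (by linarith)
  refine Summable.of_nonneg_of_le (fun p => ?_) (fun p => ?_) (h.mul_left 2)
  · obtain ⟨hx0, hx1⟩ := inv_bd p
    exact mul_nonneg (hx0.trans (log_bounds hx0 hx1).1) (rpow_bd p hδ).1
  · obtain ⟨hx0, hx1⟩ := inv_bd p
    rw [rpow_eq, ← mul_assoc]
    refine mul_le_mul_of_nonneg_right ?_ (rpow_bd p hδ).1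
    have := (log_bounds hx0 hx1).2
    nlinarith

end MEAM

open MEAM

theorem specMEA : SpecMEA := by
  have h1 : Tendsto (fun δ : ℝ => ∑' p : Nat.Primes, F δ p) (𝓝[>] 0)
      (𝓝 (∑' _ : Nat.Primes, (0 : ℝ))) := by
    refine tendsto_tsum_of_dominated_convergence summable_bd F_lim ?_
    filter_upwards [self_mem_nhdsWithin] with δ hδ p
    exact F_bd p hδ
  rw [tsum_zero] at h1
  refine h1.congr' ?_
  filter_upwards [self_mem_nhdsWithin] with δ hδ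
  have hδ' : 0 < δ := hδ
  have hs : Summable (fun p : Nat.Primes => F δ p) :=
    Summable.of_norm_bounded summable_bd (fun p => F_bd p hδ')
  have hs2 : Summable (fun p : Nat.Primes => -Real.log (1 - ((p : ℕ) : ℝ) ^ (-(1 + δ)))) := by
    have := hs.add (summable_one hδ')
    refine this.congr (fun p => ?_)
    simp only [F]
    ring
  rw [← hs2.tsum_sub (summable_one hδ')]
  rfl

end

end Pool.Agent.Lib.LargeAP
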