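import Pool.Agent.Lib.LargeAP.SpecG

/-!
# LargeAP, module MEB: the sum over the primes with weight `p^(-δ)`
-/

set_option autoImplicit false

namespace Pool.Agent.Lib.LargeAP

open Finset Filter Topology MeasureTheory
open scoped Classical

open Pool.Agent.Lib.MP_926cc3_nt.RS (V NoSmall)

noncomputable section

namespace MEBM

/-! ### The weights -/

/-- the weights -/
def W (n : ℕ) : ℝ := if n.Prime then -Real.log (1 - 1 / (n : ℝ)) else 0

theorem inv_le_half {p : ℕ} (hp : p.Prime) : 1 / (p : ℝ) ≤ 1 / 2 :=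
  one_div_le_one_div_of_le (by norm_num) (by exact_mod_cast hp.two_le)

theorem factor_pos {p : ℕ} (hp : p.Prime) : 0 < 1 - 1 / (p : ℝ) := by
  linarith [inv_le_half hp]

theorem W_nonneg (n : ℕ) : 0 ≤ W n := by
  unfold W
  split_ifs with h
  · have h1 : 0 ≤ 1 / (n : ℝ) := by positivity
    have := Real.log_nonpos (factor_pos h).le (by linarith)
    linarith
  · exact le_rfl

theorem W_le (n : ℕ) : W n ≤ 2 / n := by
  unfold W
  split_ifs with h
  · have h1 := Real.one_sub_inv_le_log_of_pos (factor_pos h)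
    have h2 := inv_le_half h
    have h3 := factor_pos h
    have h0 : 0 ≤ 1 / (n : ℝ) := by positivity
    have h4 : (1 - 1 / (n : ℝ))⁻¹ ≤ 1 + 2 * (1 / (n : ℝ)) := by
      rw [inv_le_comm₀ h3 (by positivity), inv_eq_one_div, div_le_iff₀ (by positivity)]
      nlinarith
    have h5 : (2 : ℝ) / n = 2 * (1 / n) := by ring
    rw [h5]
    linarith
  · positivity

theorem sum_W (z : ℕ) : ∑ n ∈ range z, W n = -Real.log (V z) := by
  unfold V
  rw [Real.log_prod fun p hp => (factor_pos (Finset.mem_filter.1 hp).2).ne', ← Finset.sum_neg_distrib,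
    Finset.sum_filter]
  rfl

/-- the sum of the weights of the primes `p ≤ e^u` -/
def A (u : ℝ) : ℝ := ∑ n ∈ range (⌊Real.exp u⌋₊ + 1), W n

theorem A_mono : Monotone A := by
  intro u v h
  refine Finset.sum_le_sum_of_subset_of_nonneg ?_ fun n _ _ => W_nonneg n
  refine Finset.range_subset_range.2 (Nat.add_le_add_right (Nat.floor_mono (Real.exp_le_exp.2 h)) 1)

theorem A_nonneg (u : ℝ) : 0 ≤ A u := Finset.sum_nonneg fun n _ => W_nonneg n

theorem A_meas : Measurable A := A_mono.measurable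

/-! ### The limit -/

theorem floor_tendsto : Tendsto (fun u : ℝ => ⌊Real.exp u⌋₊ + 1) atTop atTop :=
  (tendsto_add_atTop_nat 1).comp (tendsto_nat_floor_atTop.comp Real.tendsto_exp_atTop)

theorem log_z {u : ℝ} (hu : 0 ≤ u) : u ≤ Real.log ((⌊Real.exp u⌋₊ + 1 : ℕ) : ℝ) ∧
    Real.log ((⌊Real.exp u⌋₊ + 1 : ℕ) : ℝ) ≤ u + 1 := by
  have h1 : Real.exp u < ((⌊Real.exp u⌋₊ + 1 : ℕ) : ℝ) := by
    push_cast
    exact Nat.lt_floor_add_one _
  have h2 : ((⌊Real.exp u⌋₊ + 1 : ℕ) : ℝ) ≤ Real.exp (u + 1) := by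
    push_cast
    have h3 := Nat.floor_le (Real.exp_pos u).le
    rw [Real.exp_add]
    have h4 : 1 ≤ Real.exp u := Real.one_le_exp hu
    have h5 : (2 : ℝ) ≤ Real.exp 1 := by
      have := Real.add_one_le_exp (1 : ℝ)
      linarith
    nlinarith
  constructor
  · calc u = Real.log (Real.exp u) := (Real.log_exp u).symm
      _ ≤ _ := Real.log_le_log (Real.exp_pos u) h1.le
  · calc Real.log ((⌊Real.exp u⌋₊ + 1 : ℕ) : ℝ) ≤ Real.log (Real.exp (u + 1)) :=
        Real.log_le_log ((Real.exp_pos u).trans h1) h2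
      _ = u + 1 := Real.log_exp _

theorem A_lim {c : ℝ} (hc : 0 < c) (h : Tendsto (fun z : ℕ => V z * Real.log z) atTop (𝓝 c)) :
    Tendsto (fun u => A u - Real.log u) atTop (𝓝 (-Real.log c)) := by
  have h1 : Tendsto (fun u : ℝ => Real.log (V (⌊Real.exp u⌋₊ + 1) *
      Real.log ((⌊Real.exp u⌋₊ + 1 : ℕ) : ℝ))) atTop (𝓝 (Real.log c)) :=
    (Real.continuousAt_log hc.ne').tendsto.comp (h.comp floor_tendsto)
  have h2 : Tendsto (fun u : ℝ => Real.log ((⌊Real.exp u⌋₊ + 1 : ℕ) : ℝ) / u) atTop (𝓝 1) := by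
    have h3' : Tendsto (fun u : ℝ => 1 / u) atTop (𝓝 0) := by
      simp only [one_div]
      exact tendsto_inv_atTop_zero
    have h3 : Tendsto (fun u : ℝ => 1 + 1 / u) atTop (𝓝 (1 + 0)) :=
      tendsto_const_nhds.add h3'
    rw [add_zero] at h3
    refine tendsto_of_tendsto_of_tendsto_of_le_of_le' tendsto_const_nhds h3 ?_ ?_
    · filter_upwards [eventually_gt_atTop 0] with u hu
      rw [le_div_iff₀ hu, one_mul]
      exact (log_z hu.le).1
    · filter_upwards [eventually_gt_atTop 0] with u hu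
      rw [div_le_iff₀ hu, add_mul, one_mul, one_div, inv_mul_cancel₀ hu.ne']
      exact (log_z hu.le).2
  have h4 : Tendsto (fun u : ℝ => Real.log (Real.log ((⌊Real.exp u⌋₊ + 1 : ℕ) : ℝ) / u)) atTop
      (𝓝 0) := by
    have := (Real.continuousAt_log one_ne_zero).tendsto.comp h2
    rwa [Real.log_one] at this
  have h5 := (h1.neg).add h4
  rw [add_zero] at h5
  refine h5.congr' ?_
  filter_upwards [eventually_gt_atTop 0] with u hu
  have h6 : 0 < Real.log ((⌊Real.exp u⌋₊ + 1 : ℕ) : ℝ) := lt_of_lt_of_le hu (log_z hu.le).1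
  have h7 : 0 < V (⌊Real.exp u⌋₊ + 1) :=
    Finset.prod_pos fun p hp => factor_pos (Finset.mem_filter.1 hp).2
  rw [Real.log_mul h7.ne' h6.ne', Real.log_div h6.ne' hu.ne', A, sum_W]
  ring

theorem A_bound {c : ℝ} (hc : 0 < c) (h : Tendsto (fun z : ℕ => V z * Real.log z) atTop (𝓝 c)) :
    ∃ C : ℝ, 0 ≤ C ∧ ∀ u, 0 ≤ u → |A u - Real.log (1 + u)| ≤ C := by
  have h1 := A_lim hc h
  have h2 : ∀ᶠ u : ℝ in atTop, |A u - Real.log u - -Real.log c| < 1 := by
    have := h1.eventually (Metric.ball_mem_nhds (-Real.log c) one_pos)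
    filter_upwards [this] with u hu
    rwa [Real.dist_eq] at hu
  obtain ⟨u₀, hu₀⟩ := eventually_atTop.1 (h2.and (eventually_ge_atTop 1))
  have hu1 : 1 ≤ u₀ := (hu₀ u₀ le_rfl).2
  refine ⟨max (1 + |Real.log c| + 1) (A u₀ + Real.log (1 + u₀)), ?_, fun u hu => ?_⟩
  · exact le_max_of_le_left (by positivity)
  by_cases hu' : u₀ ≤ u
  · refine le_max_of_le_left ?_
    obtain ⟨h3, h4⟩ := hu₀ u hu'
    have h5 : |Real.log u - Real.log (1 + u)| ≤ 1 := by
      have h6 : Real.log u ≤ Real.log (1 + u) := Real.log_le_log (by linarith) (by linarith)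
      have h7 : Real.log (1 + u) ≤ Real.log u + 1 := by
        have h8 : Real.log (1 + u) ≤ Real.log (2 * u) := Real.log_le_log (by linarith) (by linarith)
        rw [Real.log_mul (by norm_num) (by linarith)] at h8
        have h9 : Real.log 2 ≤ 1 := by linarith [Real.log_two_lt_d9]
        linarith
      rw [abs_le]
      constructor <;> linarith
    have h6 : A u - Real.log (1 + u) = (A u - Real.log u - -Real.log c) + -Real.log c +
      (Real.log u - Real.log (1 + u)) := by ring
    rw [h6]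
    refine (abs_add_three _ _ _).trans ?_
    rw [abs_neg]
    linarith
  · refine le_max_of_le_right ?_
    push Not at hu'
    have h3 := A_mono hu'.le
    have h4 := A_nonneg u
    have h5 : 0 ≤ Real.log (1 + u) := Real.log_nonneg (by linarith)
    have h6 : Real.log (1 + u) ≤ Real.log (1 + u₀) := Real.log_le_log (by linarith) (by linarith)
    rw [abs_le]
    constructor <;> linarith [A_nonneg u₀]

/-! ### The integral -/

/-- the summand -/
def F (δ : ℝ) (n : ℕ) (v : ℝ) : ℝ :=
  (Set.Ici (δ * Real.log n)).indicator (fun v => W n * Real.exp (-v)) v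

theorem integrable_exp (a : ℝ) : IntegrableOn (fun v : ℝ => Real.exp (-v)) (Set.Ioi a) := by
  have := exp_neg_integrableOn_Ioi a one_pos
  simpa using this

theorem W_zero {n : ℕ} (h : ¬ n.Prime) : W n = 0 := if_neg h

theorem F_int (δ : ℝ) (n : ℕ) : Integrable (F δ n) (volume.restrict (Set.Ioi 0)) := by
  have h := ((integrable_exp 0).const_mul (W n))
  exact Integrable.indicator h measurableSet_Ici

theorem F_nonneg (δ : ℝ) (n : ℕ) (v : ℝ) : 0 ≤ F δ n v := by
  unfold F
  exact Set.indicator_nonneg (fun v _ => mul_nonneg (W_nonneg n) (Real.exp_pos _).le) v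

theorem F_integral {δ : ℝ} (hδ : 0 < δ) (n : ℕ) :
    ∫ v in Set.Ioi (0 : ℝ), F δ n v = W n * (n : ℝ) ^ (-δ) := by
  unfold F
  by_cases hn : n.Prime
  · have h1 : (1 : ℝ) < n := by exact_mod_cast hn.one_lt
    have h0 : 0 < δ * Real.log n := mul_pos hδ (Real.log_pos h1)
    rw [setIntegral_indicator measurableSet_Ici,
      Set.inter_eq_right.2 (Set.Ici_subset_Ioi.2 h0), integral_Ici_eq_integral_Ioi,
      integral_const_mul, integral_exp_neg_Ioi, Real.rpow_def_of_pos (by linarith)]
    congr 2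
    ring
  · rw [W_zero hn]
    simp

theorem F_summable {δ : ℝ} (hδ : 0 < δ) :
    Summable (fun n : ℕ => ∫ v in Set.Ioi (0 : ℝ), ‖F δ n v‖) := by
  have h1 : ∀ n : ℕ, ∫ v in Set.Ioi (0 : ℝ), ‖F δ n v‖ = W n * (n : ℝ) ^ (-δ) := by
    intro n
    rw [← F_integral hδ]
    congr 1
    funext v
    exact Real.norm_of_nonneg (F_nonneg δ n v)
  simp only [h1]
  have h2 : Summable (fun n : ℕ => 2 * (n : ℝ) ^ (-(1 + δ))) :=
    (Real.summable_nat_rpow.2 (by linarith)).mul_left 2
  refine Summable.of_nonneg_of_le (fun n => mul_nonneg (W_nonneg n) (by positivity)) (fun n => ?_) h2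
  rcases Nat.eq_zero_or_pos n with h | h
  · subst h
    rw [W_zero (by norm_num), zero_mul]
    positivity
  · have h3 : (0 : ℝ) < n := by exact_mod_cast h
    have h4 : (n : ℝ) ^ (-(1 + δ)) = (n : ℝ)⁻¹ * (n : ℝ) ^ (-δ) := by
      rw [neg_add, Real.rpow_add h3, Real.rpow_neg_one]
    rw [h4, ← mul_assoc]
    refine mul_le_mul_of_nonneg_right ?_ (by positivity)
    exact (W_le n).trans_eq (div_eq_mul_inv _ _)

theorem F_tsum {δ : ℝ} (hδ : 0 < δ) (v : ℝ) : ∑' n, F δ n v = A (v / δ) * Real.exp (-v) := by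
  have hiff : ∀ n : ℕ, 0 < n → (δ * Real.log n ≤ v ↔ n < ⌊Real.exp (v / δ)⌋₊ + 1) := by
    intro n hn
    have h3 : (0 : ℝ) < n := by exact_mod_cast hn
    rw [Nat.lt_succ_iff, Nat.le_floor_iff (Real.exp_pos _).le, ← Real.log_le_iff_le_exp h3,
      le_div_iff₀' hδ]
  rw [tsum_eq_sum (s := range (⌊Real.exp (v / δ)⌋₊ + 1))]
  · rw [A, Finset.sum_mul]
    refine Finset.sum_congr rfl fun n hn => ?_
    unfold F
    by_cases hp : n.Prime
    · rw [Set.indicator_of_mem]
      exact (hiff n hp.pos).2 (Finset.mem_range.1 hn)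
    · rw [W_zero hp]
      simp
  · intro n hn
    unfold F
    by_cases hp : n.Prime
    · rw [Set.indicator_of_notMem]
      intro h
      exact hn (Finset.mem_range.2 ((hiff n hp.pos).1 h))
    · rw [W_zero hp]
      simp

theorem sum_eq {δ : ℝ} (hδ : 0 < δ) :
    (∑' p : Nat.Primes, -Real.log (1 - 1 / ((p : ℕ) : ℝ)) * ((p : ℕ) : ℝ) ^ (-δ)) =
      ∫ v in Set.Ioi (0 : ℝ), A (v / δ) * Real.exp (-v) := by
  have h1 : (∑' p : Nat.Primes, -Real.log (1 - 1 / ((p : ℕ) : ℝ)) * ((p : ℕ) : ℝ) ^ (-δ)) =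
      ∑' n : ℕ, W n * (n : ℝ) ^ (-δ) := by
    have h2 := tsum_subtype {p : ℕ | p.Prime}
      (fun n : ℕ => -Real.log (1 - 1 / (n : ℝ)) * (n : ℝ) ^ (-δ))
    refine Eq.trans h2 (tsum_congr fun n => ?_)
    unfold W
    by_cases hn : n.Prime
    · rw [Set.indicator_of_mem (by exact hn), if_pos hn]
    · rw [Set.indicator_of_notMem (by exact hn), if_neg hn, zero_mul]
  rw [h1, ← tsum_congr fun n => F_integral hδ n,
    (hasSum_integral_of_summable_integral_norm (fun n => F_int δ n) (F_summable hδ)).tsum_eq]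
  congr 1
  funext v
  exact F_tsum hδ v

/-! ### Dominated convergence -/

theorem log_abs_le {v : ℝ} (hv : 0 < v) : |Real.log v| ≤ 2 * v ^ (-(1 / 2) : ℝ) + v := by
  rcases le_total 1 v with h | h
  · rw [abs_of_nonneg (Real.log_nonneg h)]
    have h1 := Real.log_le_sub_one_of_pos hv
    have h2 : 0 ≤ v ^ (-(1 / 2) : ℝ) := by positivity
    linarith
  · rw [abs_of_nonpos (Real.log_nonpos hv.le h), ← Real.log_inv]
    have h1 := Real.log_le_rpow_div (inv_nonneg.2 hv.le) (by norm_num : (0 : ℝ) < 1 / 2)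
    rw [Real.inv_rpow hv.le, ← Real.rpow_neg hv.le] at h1
    linarith

/-- the dominating function -/
def G (C v : ℝ) : ℝ := (C + 2 * v ^ (-(1 / 2) : ℝ) + 2 * v) * Real.exp (-v)

theorem G_int (C : ℝ) : Integrable (G C) (volume.restrict (Set.Ioi 0)) := by
  have h1 := (integrable_exp 0).const_mul C
  have h2 := (Real.GammaIntegral_convergent (by norm_num : (0 : ℝ) < 1 / 2)).const_mul 2
  have h3 := (Real.GammaIntegral_convergent (by norm_num : (0 : ℝ) < 2)).const_mul 2
  have h4 := (h1.add h2).add h3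
  refine h4.congr ?_
  filter_upwards [ae_restrict_mem measurableSet_Ioi] with v hv
  have e1 : (1 / 2 - 1 : ℝ) = -(1 / 2) := by norm_num
  have e2 : v ^ ((2 : ℝ) - 1) = v := by
    rw [show (2 : ℝ) - 1 = 1 by norm_num, Real.rpow_one]
  simp only [Pi.add_apply, G]
  rw [e1, e2]
  ring

theorem log_int : Integrable (fun v : ℝ => Real.exp (-v) * Real.log v)
    (volume.restrict (Set.Ioi 0)) := by
  refine (G_int 0).mono' ?_ ?_
  · exact ((Real.measurable_exp.comp measurable_neg).mul Real.measurable_log).aestronglyMeasurable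
  · filter_upwards [ae_restrict_mem measurableSet_Ioi] with v hv
    have h1 := log_abs_le (Set.mem_Ioi.1 hv)
    have hv' : 0 < v := hv
    rw [norm_mul, Real.norm_of_nonneg (Real.exp_pos _).le, Real.norm_eq_abs, G, mul_comm]
    refine mul_le_mul_of_nonneg_right ?_ (Real.exp_pos _).le
    linarith

end MEBM

open MEBM in
theorem specMEB : SpecMEB := by
  intro c hc h
  obtain ⟨C, hC, hb⟩ := A_bound hc h
  have hlim := A_lim hc h
  -- the bound
  have hdom : ∀ δ : ℝ, 0 < δ → δ ≤ 1 → ∀ v : ℝ, 0 < v →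
      ‖(A (v / δ) + Real.log δ) * Real.exp (-v)‖ ≤ G C v := by
    intro δ hδ hδ1 v hv
    rw [norm_mul, Real.norm_of_nonneg (Real.exp_pos _).le, Real.norm_eq_abs, G]
    refine mul_le_mul_of_nonneg_right ?_ (Real.exp_pos _).le
    have h1 := hb (v / δ) (by positivity)
    have h2 : Real.log (1 + v / δ) + Real.log δ = Real.log (δ + v) := by
      rw [← Real.log_mul (by positivity) hδ.ne']
      congr 1
      field_simp
    have h3 : |Real.log (δ + v)| ≤ |Real.log v| + v := by
      have h4 : Real.log v ≤ Real.log (δ + v) := Real.log_le_log hv (by linarith)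
      have h5 : Real.log (δ + v) ≤ v := by
        have := Real.log_le_sub_one_of_pos (by linarith : 0 < δ + v)
        linarith
      have h6 := neg_abs_le (Real.log v)
      rw [abs_le]
      constructor
      · linarith
      · linarith [abs_nonneg (Real.log v)]
    have h4 : A (v / δ) + Real.log δ = (A (v / δ) - Real.log (1 + v / δ)) + Real.log (δ + v) := by
      rw [← h2]
      ring
    rw [h4]
    have h5 := log_abs_le hv
    calc _ ≤ |A (v / δ) - Real.log (1 + v / δ)| + |Real.log (δ + v)| := abs_add_le _ _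
      _ ≤ C + (|Real.log v| + v) := add_le_add h1 h3
      _ ≤ _ := by linarith
  have hmeas : ∀ δ : ℝ, AEStronglyMeasurable (fun v => (A (v / δ) + Real.log δ) * Real.exp (-v))
      (volume.restrict (Set.Ioi 0)) := fun δ =>
    (((A_meas.comp (measurable_id.div_const δ)).add measurable_const).mul
      (Real.measurable_exp.comp measurable_neg)).aestronglyMeasurable
  have hev : ∀ᶠ δ : ℝ in 𝓝[>] 0, 0 < δ ∧ δ ≤ 1 := by
    filter_upwards [Ioc_mem_nhdsGT (one_pos (α := ℝ))] with δ hδ
    exact ⟨hδ.1, hδ.2⟩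
  have key := tendsto_integral_filter_of_dominated_convergence
    (μ := volume.restrict (Set.Ioi (0 : ℝ))) (l := 𝓝[>] (0 : ℝ))
    (F := fun δ v => (A (v / δ) + Real.log δ) * Real.exp (-v))
    (f := fun v => (-Real.log c + Real.log v) * Real.exp (-v)) (G C)
    (Eventually.of_forall hmeas)
    (by
      filter_upwards [hev] with δ hδ
      filter_upwards [ae_restrict_mem measurableSet_Ioi] with v hv
      exact hdom δ hδ.1 hδ.2 v hv)
    (G_int C)
    (by
      filter_upwards [ae_restrict_mem measurableSet_Ioi] with v hv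
      refine Tendsto.mul_const _ ?_
      have hv' : 0 < v := hv
      have h1 : Tendsto (fun δ : ℝ => v / δ) (𝓝[>] 0) atTop := by
        simp only [div_eq_mul_inv]
        exact tendsto_inv_nhdsGT_zero.const_mul_atTop hv'
      have h2 := (hlim.comp h1).add_const (Real.log v)
      refine h2.congr' ?_
      filter_upwards [hev] with δ hδ
      change A (v / δ) - Real.log (v / δ) + Real.log v = _
      rw [Real.log_div hv'.ne' hδ.1.ne']
      ring)
  have hexp : ∫ v in Set.Ioi (0 : ℝ), Real.exp (-v) = 1 := by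
    rw [integral_exp_neg_Ioi, neg_zero, Real.exp_zero]
  have hright : ∫ v in Set.Ioi (0 : ℝ), (-Real.log c + Real.log v) * Real.exp (-v) =
      -Real.log c + ∫ v in Set.Ioi (0 : ℝ), Real.exp (-v) * Real.log v := by
    have h1 : ∀ v : ℝ, (-Real.log c + Real.log v) * Real.exp (-v) =
        -Real.log c * Real.exp (-v) + Real.exp (-v) * Real.log v := fun v => by ring
    simp only [h1]
    rw [integral_add ((integrable_exp 0).const_mul _) log_int, integral_const_mul, hexp, mul_one]
  rw [← hright]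
  refine key.congr' ?_
  filter_upwards [hev] with δ hδ
  rw [sum_eq hδ.1]
  have h1 : Integrable (fun v => (A (v / δ) + Real.log δ) * Real.exp (-v))
      (volume.restrict (Set.Ioi 0)) :=
    (G_int C).mono' (hmeas δ) (by
      filter_upwards [ae_restrict_mem measurableSet_Ioi] with v hv
      exact hdom δ hδ.1 hδ.2 v hv)
  have h2 : Integrable (fun v => A (v / δ) * Real.exp (-v)) (volume.restrict (Set.Ioi 0)) := by
    have h3 := h1.sub ((integrable_exp 0).const_mul (Real.log δ))
    refine h3.congr (Eventually.of_forall fun v => ?_)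
    simp only [Pi.sub_apply]
    ring
  have h3 : ∀ v : ℝ, (A (v / δ) + Real.log δ) * Real.exp (-v) =
      A (v / δ) * Real.exp (-v) + Real.log δ * Real.exp (-v) := fun v => by ring
  simp only [h3]
  rw [integral_add h2 ((integrable_exp 0).const_mul _), integral_const_mul, hexp, mul_one]

end

end Pool.Agent.Lib.LargeAP
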