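import Pool.Agent.Lib.LargeAP.SpecG
import Pool.Agent.Lib.MP_926cc3_nt.TH.All

/-!
# LargeAP: module MER (Mertens' third theorem)
-/

set_option autoImplicit false

namespace Pool.Agent.Lib.LargeAP

open Finset Filter Topology
open scoped Classical

open Pool.Agent.Lib.MP_926cc3_nt.RS (V NoSmall)

noncomputable section

theorem specMER (hGLE : SpecGLE) (hEUL : SpecEUL) (hMEA : SpecMEA) (hMEB : SpecMEB) :
    SpecMER := by
  obtain ⟨g, hg⟩ := Pool.Agent.Lib.MP_926cc3_nt.TH.specDDE
  obtain ⟨c, hc, hlim, -⟩ := Pool.Agent.Lib.MP_926cc3_nt.TH.All.hLIM g hg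
  have h1 := hMEB c hc hlim
  rw [hGLE.2] at h1
  have h2 := hEUL.sub hMEA
  rw [sub_zero] at h2
  have h3 : -Real.log c + -Real.eulerMascheroniConstant = 0 := by
    refine tendsto_nhds_unique h1 (h2.congr (fun δ => ?_))
    ring
  have h4 : c = Real.exp (-Real.eulerMascheroniConstant) := by
    rw [← Real.exp_log hc]
    congr 1
    linarith
  rw [SpecMER, ← h4]
  exact hlim

end

end Pool.Agent.Lib.LargeAP
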