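import Pool.Agent.Lib.LargeAP.Spec

/-!
# LargeAP, module MV: mean value of `|1 - L M|²` over all characters
-/

set_option autoImplicit false

namespace Pool.Agent.Lib.LargeAP

open Finset Filter Topology Complex Metric
open scoped Classical ArithmeticFunction

namespace MVM

lemma YB_pos (B : ℝ) (hB : 16 ≤ B) : 1 ≤ YB B := by
  unfold YB
  rw [Nat.one_le_floor_iff]
  exact Real.one_le_exp (by linarith)

lemma YB_le (B : ℝ) (hB : 16 ≤ B) : YB B ≤ ZB B := by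
  unfold YB ZB
  exact Nat.floor_mono (Real.exp_le_exp.2 (by linarith))

lemma card_chars (q : ℕ) [NeZero q] :
    ((univ : Finset (DirichletCharacter ℂ q)).card : ℝ) ≤ q := by
  have h : Nat.card (DirichletCharacter ℂ q) = q.totient :=
    DirichletCharacter.card_eq_totient_of_hasEnoughRootsOfUnity ℂ q
  rw [Finset.card_univ, ← Nat.card_eq_fintype_card, h]
  exact_mod_cast Nat.totient_le q

lemma norm_sq_le (x y : ℂ) : ‖-x - y‖ ^ 2 ≤ 2 * ‖x‖ ^ 2 + 2 * ‖y‖ ^ 2 := by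
  have h1 : ‖-x - y‖ ≤ ‖x‖ + ‖y‖ := by
    have := norm_sub_le (-x) y
    rwa [norm_neg] at this
  have h2 : ‖-x - y‖ ^ 2 ≤ (‖x‖ + ‖y‖) ^ 2 := by
    gcongr
  nlinarith [sq_nonneg (‖x‖ - ‖y‖)]

end MVM

open MVM in
theorem specMV (hHEA : SpecHEA) (hMVA : SpecMVA) (hMVB : SpecMVB) : SpecMV := by
  obtain ⟨C₁, hC₁, h1⟩ := hMVA
  obtain ⟨C₂, hC₂, h2⟩ := hMVB
  refine ⟨2 * C₂ + 2 * C₁ ^ 2, by positivity, ?_⟩
  intro q _ B s hB hq hs1 hs2 hs3
  obtain ⟨b, hb1, hb2⟩ := hHEA (YB B) (ZB B) (YB_pos B hB) (YB_le B hB)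
  have hkey : ∀ χ ∈ (univ : Finset (DirichletCharacter ℂ q)).erase 1,
      ‖1 - DirichletCharacter.LFunction χ s * Mp χ (YB B) s‖ ^ 2 ≤
        2 * ‖∑ n ∈ Ioc (YB B) (YB B * ZB B), (b n : ℂ) * χ (n : ZMod q) * (n : ℂ) ^ (-s)‖ ^ 2
          + 2 * (C₁ * Real.exp (-5 * B)) ^ 2 := by
    intro χ hχ
    have hχ1 : χ ≠ 1 := (Finset.mem_erase.1 hχ).1
    have e1 := hb2 q χ s
    have e2 : 1 - DirichletCharacter.LFunction χ s * Mp χ (YB B) s =
        -(∑ n ∈ Ioc (YB B) (YB B * ZB B), (b n : ℂ) * χ (n : ZMod q) * (n : ℂ) ^ (-s)) -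
          (DirichletCharacter.LFunction χ s - Pp χ (ZB B) s) * Mp χ (YB B) s := by
      linear_combination (-1 : ℂ) * e1
    rw [e2]
    refine (norm_sq_le _ _).trans ?_
    have e3 := h1 q χ B s hχ1 hB hq hs1 hs2 hs3
    gcongr
  refine (Finset.sum_le_sum hkey).trans ?_
  have e4 := h2 b hb1 q B s hB hq hs1
  rw [Finset.sum_add_distrib, ← Finset.mul_sum, Finset.sum_const, nsmul_eq_mul]
  have e5 : ∑ χ ∈ (univ : Finset (DirichletCharacter ℂ q)).erase 1,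
      ‖∑ n ∈ Ioc (YB B) (YB B * ZB B), (b n : ℂ) * χ (n : ZMod q) * (n : ℂ) ^ (-s)‖ ^ 2 ≤
      C₂ * B ^ 4 := by
    refine le_trans ?_ e4
    exact Finset.sum_le_sum_of_subset_of_nonneg (Finset.erase_subset _ _)
      (fun _ _ _ => by positivity)
  have e6 : (((univ : Finset (DirichletCharacter ℂ q)).erase 1).card : ℝ) ≤ Real.exp B := by
    refine le_trans ?_ ((card_chars q).trans hq)
    exact_mod_cast Finset.card_le_card (Finset.erase_subset _ _)
  have e7 : Real.exp B * (2 * (C₁ * Real.exp (-5 * B)) ^ 2) ≤ 2 * C₁ ^ 2 * B ^ 4 := by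
    have h3 : Real.exp B * (2 * (C₁ * Real.exp (-5 * B)) ^ 2) =
        2 * C₁ ^ 2 * Real.exp (-9 * B) := by
      have h4 : Real.exp (-9 * B) = Real.exp B * (Real.exp (-5 * B)) ^ 2 := by
        rw [← Real.exp_nat_mul, ← Real.exp_add]
        congr 1
        push_cast
        ring
      rw [h4]; ring
    rw [h3]
    have h5 : Real.exp (-9 * B) ≤ 1 := by
      rw [Real.exp_le_one_iff]; linarith
    have h6 : (1 : ℝ) ≤ B ^ 4 := one_le_pow₀ (by linarith)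
    have h7 : Real.exp (-9 * B) ≤ B ^ 4 := h5.trans h6
    exact mul_le_mul_of_nonneg_left h7 (by positivity)
  have e8 : (((univ : Finset (DirichletCharacter ℂ q)).erase 1).card : ℝ) *
      (2 * (C₁ * Real.exp (-5 * B)) ^ 2) ≤ Real.exp B * (2 * (C₁ * Real.exp (-5 * B)) ^ 2) :=
    mul_le_mul_of_nonneg_right e6 (by positivity)
  linarith

end Pool.Agent.Lib.LargeAP
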