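import Pool.Agent.Lib.LargeAP.Spec

/-!
# LargeAP, module MVA (helper53): approximation
-/

set_option autoImplicit false

namespace Pool.Agent.Lib.LargeAP

open Finset Filter Topology Complex Metric
open scoped Classical ArithmeticFunction

noncomputable section

namespace MVAM

theorem Mp_le {q : ℕ} (χ : DirichletCharacter ℂ q) (Y : ℕ) (s : ℂ) (hs : 0 ≤ s.re) :
    ‖Mp χ Y s‖ ≤ Y := by
  unfold Mp
  refine (norm_sum_le _ _).trans ?_
  have h1 : ∀ m ∈ Icc 1 Y, ‖(ArithmeticFunction.moebius m : ℂ) * χ (m : ZMod q) * (m : ℂ) ^ (-s)‖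
      ≤ 1 := by
    intro m hm
    rw [mem_Icc] at hm
    have e1 : ‖((ArithmeticFunction.moebius m : ℤ) : ℂ)‖ ≤ 1 := by
      rw [Complex.norm_intCast]
      exact_mod_cast ArithmeticFunction.abs_moebius_le_one
    have e2 : ‖χ (m : ZMod q)‖ ≤ 1 := DirichletCharacter.norm_le_one χ _
    have e3 : ‖(m : ℂ) ^ (-s)‖ ≤ 1 := by
      rw [Complex.norm_natCast_cpow_of_pos (by omega)]
      apply Real.rpow_le_one_of_one_le_of_nonpos
      · exact_mod_cast hm.1
      · rw [Complex.neg_re]; linarith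
    rw [norm_mul, norm_mul]
    exact mul_le_one₀ (mul_le_one₀ e1 (norm_nonneg _) e2) (norm_nonneg _) e3
  refine (sum_le_sum h1).trans ?_
  simp

theorem YB_le (B : ℝ) : (YB B : ℝ) ≤ Real.exp (3 * B) := Nat.floor_le (Real.exp_pos _).le

theorem ZB_ge (B : ℝ) (hB : 16 ≤ B) : Real.exp (10 * B) / 2 ≤ (ZB B : ℝ) := by
  have h1 := Nat.lt_floor_add_one (Real.exp (10 * B))
  have h2 : 10 * B + 1 ≤ Real.exp (10 * B) := Real.add_one_le_exp _
  unfold ZB
  linarith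

theorem ZB_one (B : ℝ) (hB : 16 ≤ B) : 1 ≤ ZB B := by
  have h1 := ZB_ge B hB
  have h2 : 10 * B + 1 ≤ Real.exp (10 * B) := Real.add_one_le_exp _
  have h3 : (1 : ℝ) ≤ (ZB B : ℝ) := by linarith
  exact_mod_cast h3

theorem ZB_pow (B σ : ℝ) (hB : 16 ≤ B) (hσ : 1 - 1 / B ≤ σ) :
    ((ZB B : ℕ) : ℝ) ^ (-σ) ≤ 2 * Real.exp 10 * Real.exp (-10 * B) := by
  have hB0 : (0 : ℝ) < B := by linarith
  have h1 : (1 : ℝ) ≤ (ZB B : ℝ) := by exact_mod_cast ZB_one B hB
  have h2 : ((ZB B : ℕ) : ℝ) ^ (-σ) ≤ ((ZB B : ℕ) : ℝ) ^ (-(1 - 1 / B)) :=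
    Real.rpow_le_rpow_of_exponent_le h1 (by linarith)
  refine h2.trans ?_
  have h0 : 0 ≤ 1 - 1 / B := by
    rw [sub_nonneg, div_le_one hB0]; linarith
  have hp : (0 : ℝ) < Real.exp (10 * B) / 2 := by positivity
  have h3 : ((ZB B : ℕ) : ℝ) ^ (-(1 - 1 / B)) ≤ (Real.exp (10 * B) / 2) ^ (-(1 - 1 / B)) :=
    Real.rpow_le_rpow_of_nonpos hp (ZB_ge B hB) (by linarith)
  refine h3.trans ?_
  rw [div_eq_mul_inv, Real.mul_rpow (Real.exp_pos _).le (by norm_num), ← Real.exp_mul]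
  have h4 : (2⁻¹ : ℝ) ^ (-(1 - 1 / B)) ≤ 2 := by
    rw [Real.inv_rpow (by norm_num), ← Real.rpow_neg (by norm_num), neg_neg]
    calc (2 : ℝ) ^ (1 - 1 / B) ≤ 2 ^ (1 : ℝ) :=
          Real.rpow_le_rpow_of_exponent_le (by norm_num) (by
            have : 0 < 1 / B := by positivity
            linarith)
      _ = 2 := Real.rpow_one _
  have h5 : 10 * B * (-(1 - 1 / B)) = 10 + -10 * B := by
    field_simp
    ring
  rw [h5, Real.exp_add]
  have h6 : 0 ≤ Real.exp 10 * Real.exp (-10 * B) := by positivity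
  calc Real.exp 10 * Real.exp (-10 * B) * (2⁻¹ : ℝ) ^ (-(1 - 1 / B))
      ≤ Real.exp 10 * Real.exp (-10 * B) * 2 := mul_le_mul_of_nonneg_left h4 h6
    _ = _ := by ring

end MVAM

open MVAM in
/-- **Module MVA**: approximation. -/
theorem specMVA (hLB : SpecLB) : SpecMVA := by
  obtain ⟨C, hC, hLB⟩ := hLB
  refine ⟨8 * C * Real.exp 10, by positivity, ?_⟩
  intro q _ χ B s hχ hB hq hσ hσ2 ht
  have hB0 : (0 : ℝ) < B := by linarith
  have h16 : 1 / B ≤ 1 / 16 := one_div_le_one_div_of_le (by norm_num) hB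
  have hσ1 : 1 / 2 ≤ s.re := by linarith
  have h1 := hLB q χ hχ s (ZB B) hσ1 (ZB_one B hB)
  have h2 := ZB_pow B s.re hB hσ
  have h3 := (Mp_le χ (YB B) s (by linarith)).trans (YB_le B)
  have hE : 1 ≤ Real.exp B := Real.one_le_exp hB0.le
  have h4 : 1 + ‖s‖ ≤ 4 * Real.exp B := by
    have h5 := Complex.norm_le_abs_re_add_abs_im s
    rw [abs_of_nonneg (by linarith : 0 ≤ s.re)] at h5
    linarith
  rw [norm_mul]
  have hq0 : (0 : ℝ) ≤ q := Nat.cast_nonneg q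
  have h5 : ‖DirichletCharacter.LFunction χ s - Pp χ (ZB B) s‖ ≤
      C * Real.exp B * (4 * Real.exp B) * (2 * Real.exp 10 * Real.exp (-10 * B)) := by
    refine h1.trans ?_
    have hs0 : 0 ≤ 1 + ‖s‖ := by positivity
    have a1 : C * q ≤ C * Real.exp B := mul_le_mul_of_nonneg_left hq hC.le
    have a2 : C * q * (1 + ‖s‖) ≤ C * Real.exp B * (4 * Real.exp B) :=
      mul_le_mul a1 h4 hs0 (by positivity)
    exact mul_le_mul a2 h2 (Real.rpow_nonneg (Nat.cast_nonneg _) _) (by positivity)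
  have h6 := mul_le_mul h5 h3 (norm_nonneg _) (by positivity)
  refine h6.trans (le_of_eq ?_)
  have e1 : Real.exp (-5 * B) = Real.exp B * Real.exp B * Real.exp (-10 * B) * Real.exp (3 * B) := by
    rw [← Real.exp_add, ← Real.exp_add, ← Real.exp_add]
    congr 1
    ring
  rw [e1]
  ring

end

end Pool.Agent.Lib.LargeAP
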