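import Pool.Agent.Lib.LargeAP.Spec

/-!
# LargeAP: MVB, mean square over all characters of a Dirichlet polynomial
-/

set_option autoImplicit false

namespace Pool.Agent.Lib.LargeAP

open Finset Filter Topology Complex Metric
open scoped Classical ArithmeticFunction

namespace MVB

variable {q : ℕ} [NeZero q]

theorem conj_char (χ : DirichletCharacter ℂ q) {l : ZMod q} (hl : IsUnit l) :
    (starRingEnd ℂ) (χ l) = χ l⁻¹ := by
  obtain ⟨u, rfl⟩ := hl
  have h1 : χ (u : ZMod q) * χ ((u : ZMod q)⁻¹) = 1 := by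
    rw [← map_mul, ZMod.mul_inv_of_unit _ u.isUnit, map_one]
  have h2 : χ (u : ZMod q) * (starRingEnd ℂ) (χ (u : ZMod q)) = 1 := by
    rw [Complex.mul_conj', χ.unit_norm_eq_one]
    norm_num
  have h3 : χ (u : ZMod q) ≠ 0 := by
    intro h
    rw [h, zero_mul] at h1
    exact zero_ne_one h1
  exact mul_left_cancel₀ h3 (h2.trans h1.symm)

/-- Parseval for the multiplicative characters -/
theorem orth (f : ZMod q → ℂ) :
    ∑ χ : DirichletCharacter ℂ q, ‖∑ k, χ k * f k‖ ^ 2 =
      (q.totient : ℝ) * ∑ k ∈ univ.filter (fun k : ZMod q => IsUnit k), ‖f k‖ ^ 2 := by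
  have h0 : ∀ χ : DirichletCharacter ℂ q, ∑ k, χ k * f k =
      ∑ k ∈ univ.filter (fun k : ZMod q => IsUnit k), χ k * f k := by
    intro χ
    rw [Finset.sum_filter]
    apply Finset.sum_congr rfl
    intro k _
    split_ifs with hk
    · rfl
    · rw [χ.map_nonunit hk, zero_mul]
  set U := univ.filter (fun k : ZMod q => IsUnit k) with hU
  have key : (∑ χ : DirichletCharacter ℂ q, ((‖∑ k, χ k * f k‖ : ℂ)) ^ 2) =
      (q.totient : ℂ) * ∑ k ∈ U, ((‖f k‖ : ℂ)) ^ 2 := by
    have h1 : ∀ χ : DirichletCharacter ℂ q, ((‖∑ k, χ k * f k‖ : ℂ)) ^ 2 =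
        ∑ l ∈ U, ∑ k ∈ U, (χ l⁻¹ * χ k) * (f k * (starRingEnd ℂ) (f l)) := by
      intro χ
      rw [h0, ← Complex.mul_conj', map_sum, Finset.mul_sum]
      apply Finset.sum_congr rfl
      intro l hl
      rw [Finset.sum_mul]
      apply Finset.sum_congr rfl
      intro k _
      rw [map_mul, conj_char χ (Finset.mem_filter.mp hl).2]
      ring
    simp_rw [h1]
    rw [Finset.sum_comm, Finset.mul_sum]
    apply Finset.sum_congr rfl
    intro l hl
    rw [Finset.sum_comm]
    have h2 : ∀ k ∈ U, ∑ χ : DirichletCharacter ℂ q,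
        (χ l⁻¹ * χ k) * (f k * (starRingEnd ℂ) (f l)) =
        if l = k then (q.totient : ℂ) * (f k * (starRingEnd ℂ) (f l)) else 0 := by
      intro k _
      rw [← Finset.sum_mul, DirichletCharacter.sum_char_inv_mul_char_eq ℂ
        (Finset.mem_filter.mp hl).2 k]
      split_ifs with h
      · rfl
      · rw [zero_mul]
    rw [Finset.sum_congr rfl h2, Finset.sum_ite_eq U l, if_pos hl, Complex.mul_conj']
  exact_mod_cast key

theorem class_eq (χ : DirichletCharacter ℂ q) (S : Finset ℕ) (g : ℕ → ℂ) :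
    ∑ n ∈ S, g n * χ (n : ZMod q) =
      ∑ k : ZMod q, χ k * ∑ n ∈ S.filter (fun n : ℕ => (n : ZMod q) = k), g n := by
  rw [← Finset.sum_fiberwise S (fun n : ℕ => (n : ZMod q))]
  refine Finset.sum_congr rfl fun k _ => ?_
  rw [Finset.mul_sum]
  refine Finset.sum_congr rfl fun n hn => ?_
  rw [(Finset.mem_filter.1 hn).2, mul_comm]

/-- the size of one term -/
theorem term_le (b : ℕ → ℝ) (hb : ∀ n : ℕ, |b n| ≤ n.divisors.card) (B : ℝ) (hB : 16 ≤ B)
    (s : ℂ) (hs : 1 - 1 / B ≤ s.re) (n : ℕ) (hn : 1 ≤ n) (hn2 : (n : ℝ) ≤ Real.exp (13 * B)) :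
    ‖(b n : ℂ) * (n : ℂ) ^ (-s)‖ ≤ Real.exp 13 * ((n.divisors.card : ℝ) / n) := by
  have hB0 : 0 < B := by linarith
  have hn0 : (0 : ℝ) < n := by exact_mod_cast hn
  have hn1 : (1 : ℝ) ≤ n := by exact_mod_cast hn
  rw [norm_mul, Complex.norm_real, Real.norm_eq_abs, Complex.norm_natCast_cpow_of_pos (by omega)]
  have h1 : (n : ℝ) ^ (-s).re ≤ Real.exp 13 / n := by
    have h2 : (n : ℝ) ^ (-s).re = (n : ℝ) ^ (1 - s.re) / n := by
      rw [Complex.neg_re, show (1 - s.re) = -s.re + 1 by ring, Real.rpow_add_one hn0.ne']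
      field_simp
    rw [h2]
    refine div_le_div_of_nonneg_right ?_ hn0.le
    calc (n : ℝ) ^ (1 - s.re) ≤ (n : ℝ) ^ (1 / B) :=
          Real.rpow_le_rpow_of_exponent_le hn1 (by linarith)
      _ ≤ (Real.exp (13 * B)) ^ (1 / B) := Real.rpow_le_rpow hn0.le hn2 (by positivity)
      _ = Real.exp 13 := by
          rw [← Real.exp_mul]
          congr 1
          field_simp
  calc |b n| * (n : ℝ) ^ (-s).re ≤ (n.divisors.card : ℝ) * (Real.exp 13 / n) :=
        mul_le_mul (hb n) h1 (by positivity) (by positivity)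
    _ = Real.exp 13 * ((n.divisors.card : ℝ) / n) := by ring

end MVB

open MVB in
theorem specMVB (hDAP : SpecDAP) : SpecMVB := by
  obtain ⟨C, hC, hD⟩ := hDAP
  refine ⟨(Real.exp 13 * C) ^ 2 * 14 ^ 4, by positivity, ?_⟩
  intro b hb q _ B s hB hq hs
  have hB0 : 0 < B := by linarith
  have hq0 : (0 : ℝ) < q := by exact_mod_cast Nat.pos_of_ne_zero (NeZero.ne q)
  set Y := YB B with hY
  set W := YB B * ZB B with hW
  have hY1 : 1 ≤ Y := by
    rw [hY, YB]
    exact Nat.le_floor (by exact_mod_cast Real.one_le_exp (by linarith))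
  have hZ1 : 1 ≤ ZB B := by
    rw [ZB]
    exact Nat.le_floor (by exact_mod_cast Real.one_le_exp (by linarith))
  have hqY : q ^ 3 ≤ Y := by
    rw [hY, YB]
    refine Nat.le_floor ?_
    push_cast
    calc (q : ℝ) ^ 3 ≤ (Real.exp B) ^ 3 := by gcongr
      _ = Real.exp (3 * B) := by rw [← Real.exp_nat_mul]; norm_num
  have hYW : Y ≤ W := by
    rw [hW]
    exact Nat.le_mul_of_pos_right _ hZ1
  have hWle : (W : ℝ) ≤ Real.exp (13 * B) := by
    rw [hW]
    push_cast
    have h1 : (YB B : ℝ) ≤ Real.exp (3 * B) := Nat.floor_le (Real.exp_pos _).le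
    have h2 : (ZB B : ℝ) ≤ Real.exp (10 * B) := Nat.floor_le (Real.exp_pos _).le
    calc (YB B : ℝ) * ZB B ≤ Real.exp (3 * B) * Real.exp (10 * B) :=
          mul_le_mul h1 h2 (by positivity) (by positivity)
      _ = Real.exp (13 * B) := by rw [← Real.exp_add]; ring_nf
  have hW1 : 1 ≤ W := hY1.trans hYW
  have hlogW : Real.log W ≤ 13 * B := by
    have hW0 : (0 : ℝ) < W := by exact_mod_cast hW1
    rw [← Real.log_exp (13 * B)]
    exact Real.log_le_log hW0 hWle
  have hlogW0 : 0 ≤ Real.log W := Real.log_nonneg (by exact_mod_cast hW1)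
  set K : ℝ := Real.exp 13 * C * (14 * B) ^ 2 with hK
  have hK0 : 0 ≤ K := by positivity
  -- the bound of one class
  have hcls : ∀ a : ZMod q, IsUnit a →
      ‖∑ n ∈ (Ioc Y W).filter (fun n : ℕ => (n : ZMod q) = a), (b n : ℂ) * (n : ℂ) ^ (-s)‖ ≤
        K / q := by
    intro a ha
    calc ‖∑ n ∈ (Ioc Y W).filter (fun n : ℕ => (n : ZMod q) = a), (b n : ℂ) * (n : ℂ) ^ (-s)‖
        ≤ ∑ n ∈ (Ioc Y W).filter (fun n : ℕ => (n : ZMod q) = a),
            Real.exp 13 * ((n.divisors.card : ℝ) / n) := by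
          refine norm_sum_le_of_le _ fun n hn => ?_
          have hn' := Finset.mem_Ioc.1 (Finset.mem_filter.1 hn).1
          refine term_le b hb B hB s hs n (by omega) ?_
          exact le_trans (by exact_mod_cast hn'.2) hWle
      _ = Real.exp 13 * ∑ n ∈ (Ioc Y W).filter (fun n : ℕ => (n : ZMod q) = a),
            ((n.divisors.card : ℝ) / n) := by rw [Finset.mul_sum]
      _ ≤ Real.exp 13 * (C * (1 + Real.log W) ^ 2 / q) := by
          gcongr
          exact hD q a Y W ha hY1 hqY hYW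
      _ ≤ K / q := by
          rw [hK]
          have h3 : (1 + Real.log W) ^ 2 ≤ (14 * B) ^ 2 := by
            apply pow_le_pow_left₀ (by positivity)
            linarith
          have h4 : Real.exp 13 * (C * (1 + Real.log W) ^ 2 / q) =
              Real.exp 13 * C * (1 + Real.log W) ^ 2 / q := by ring
          rw [h4]
          gcongr
  have hmain : ∀ χ : DirichletCharacter ℂ q,
      ∑ n ∈ Ioc Y W, (b n : ℂ) * χ (n : ZMod q) * (n : ℂ) ^ (-s) =
      ∑ k : ZMod q, χ k * ∑ n ∈ (Ioc Y W).filter (fun n : ℕ => (n : ZMod q) = k),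
        (b n : ℂ) * (n : ℂ) ^ (-s) := by
    intro χ
    rw [← class_eq χ (Ioc Y W) (fun n => (b n : ℂ) * (n : ℂ) ^ (-s))]
    refine Finset.sum_congr rfl fun n _ => ?_
    ring
  calc ∑ χ : DirichletCharacter ℂ q,
        ‖∑ n ∈ Ioc Y W, (b n : ℂ) * χ (n : ZMod q) * (n : ℂ) ^ (-s)‖ ^ 2
      = (q.totient : ℝ) * ∑ k ∈ univ.filter (fun k : ZMod q => IsUnit k),
          ‖∑ n ∈ (Ioc Y W).filter (fun n : ℕ => (n : ZMod q) = k),
            (b n : ℂ) * (n : ℂ) ^ (-s)‖ ^ 2 := by
        rw [← orth]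
        refine Finset.sum_congr rfl fun χ _ => ?_
        rw [hmain]
    _ ≤ (q.totient : ℝ) * ∑ k ∈ univ.filter (fun k : ZMod q => IsUnit k), (K / q) ^ 2 := by
        gcongr with k hk
        exact hcls k (Finset.mem_filter.1 hk).2
    _ ≤ (q : ℝ) * (q * (K / q) ^ 2) := by
        rw [Finset.sum_const, nsmul_eq_mul]
        have h5 : (q.totient : ℝ) ≤ q := by exact_mod_cast Nat.totient_le q
        have h6 : ((univ.filter (fun k : ZMod q => IsUnit k)).card : ℝ) ≤ q := by
          have := Finset.card_filter_le (univ : Finset (ZMod q)) (fun k : ZMod q => IsUnit k)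
          rw [Finset.card_univ, ZMod.card] at this
          exact_mod_cast this
        gcongr
    _ = K ^ 2 := by
        field_simp
    _ = (Real.exp 13 * C) ^ 2 * 14 ^ 4 * B ^ 4 := by
        rw [hK]
        ring

end Pool.Agent.Lib.LargeAP
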