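import Pool.Agent.Lib.LargeAP.SpecH

/-!
# LargeAP, module RGG: deficient windows with Maier's constants
-/

set_option autoImplicit false

namespace Pool.Agent.Lib.LargeAP

open Finset Filter Topology
open scoped Classical

open Pool.Agent.Lib.MP_926cc3_nt.RS (V NoSmall)
open Pool.Agent.Lib.MP_926cc3_nt.TH (IsG r)
open Pool.Agent.Lib.MP_926cc3_nt (PP.Rough PP.Mz PP.SpecPRL PP.SpecTOT)

noncomputable section

namespace RGGM

/-- eventual size of `z` -/
theorem logz_small (d : ℝ) (hd : 0 < d) : ∀ᶠ z : ℕ in atTop, Real.log z ≤ d * z := by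
  have h := Real.isLittleO_log_id_atTop.def hd
  have h2 := tendsto_natCast_atTop_atTop (R := ℝ) |>.eventually h
  filter_upwards [h2, eventually_ge_atTop 1] with z hz hz1
  have hz1' : (1 : ℝ) ≤ z := by exact_mod_cast hz1
  rw [Real.norm_of_nonneg (Real.log_nonneg hz1'), id, Real.norm_of_nonneg (by linarith)] at hz
  exact hz

end RGGM

theorem specRGG (hD : SpecDFW) (hQ : SpecDRQ) (hM : SpecMER)
    (hP : Pool.Agent.Lib.MP_926cc3_nt.PP.SpecPRL) (hT : Pool.Agent.Lib.MP_926cc3_nt.PP.SpecTOT) :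
    SpecRGG := by
  intro g t A kap hg hA hAt hkap
  obtain ⟨kap0, hk0, hk1⟩ := exists_between hkap
  obtain ⟨U, hAU, hUt⟩ := exists_between hAt
  have hU0 : 0 < U := by linarith
  obtain ⟨θ', hθ'⟩ : ∃ θ' : ℝ, θ' = A / U := ⟨_, rfl⟩
  have hθ'0 : 0 < θ' := by rw [hθ']; exact div_pos (by linarith) hU0
  have hθ'1 : θ' < 1 := by rw [hθ', div_lt_one hU0]; exact hAU
  obtain ⟨θ, hθθ', hθ1⟩ := exists_between hθ'1
  have hθ0 : 0 < θ := hθ'0.trans hθθ'
  have hA' : θ' * U = A := by rw [hθ']; field_simp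
  obtain ⟨T, z₀, hD⟩ := hD g t U kap0 hg (by linarith) hU0 hUt hk0
  obtain ⟨C, hC0, hQ⟩ := hQ
  obtain ⟨c, hc⟩ : ∃ c : ℝ, c = Real.exp (-Real.eulerMascheroniConstant) := ⟨_, rfl⟩
  have hc0 : 0 < c := by rw [hc]; exact Real.exp_pos _
  have hV : ∀ᶠ z : ℕ in atTop, c / 2 ≤ V z * Real.log z := by
    have := hM
    unfold SpecMER at this
    rw [← hc] at this
    exact this.eventually (eventually_ge_nhds (by linarith))
  obtain ⟨δ, hδ⟩ : ∃ δ : ℝ, δ = (kap - kap0) / 2 := ⟨_, rfl⟩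
  have hδ0 : 0 < δ := by rw [hδ]; linarith
  have hS := RGGM.logz_small (δ * c / 4) (by positivity)
  obtain ⟨z₂, hz₂⟩ := eventually_atTop.1 (hV.and hS)
  obtain ⟨z₁, hz₁⟩ := hP ⌈U⌉₊
  obtain ⟨B, hB⟩ := exists_nat_gt (2 * C / (c * δ))
  refine ⟨θ, 2 * θ, hθ0, hθ1, by linarith, B, T, ?_⟩
  have hlog : Tendsto (fun x : ℕ => Real.log (x : ℝ)) atTop atTop :=
    Real.tendsto_log_atTop.comp tendsto_natCast_atTop_atTop
  have e1 : ∀ᶠ u : ℝ in atTop, u ^ θ' + 1 ≤ u ^ θ := by
    have h1 : Tendsto (fun u : ℝ => u ^ (θ - θ')) atTop atTop :=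
      tendsto_rpow_atTop (by linarith)
    filter_upwards [h1.eventually_ge_atTop 2, eventually_ge_atTop (1 : ℝ)] with u hu hu1
    have h2 : u ^ θ = u ^ θ' * u ^ (θ - θ') := by
      rw [← Real.rpow_add (by linarith)]; congr 1; ring
    have h3 : 1 ≤ u ^ θ' := Real.one_le_rpow hu1 hθ'0.le
    rw [h2]; nlinarith
  have e2 : ∀ᶠ u : ℝ in atTop, ((max (max z₀ z₁) (max z₂ 2) : ℕ) : ℝ) + 1 ≤ u ^ θ :=
    (tendsto_rpow_atTop hθ0).eventually_ge_atTop _
  filter_upwards [hlog.eventually e1, hlog.eventually e2, hlog.eventually (eventually_ge_atTop 1)]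
    with x hx1 hx2 hx3
  have hz1 : ((⌊Real.log x ^ θ⌋₊ : ℕ) : ℝ) ≤ Real.log x ^ θ := Nat.floor_le (by positivity)
  have hz2 : Real.log x ^ θ < (⌊Real.log x ^ θ⌋₊ : ℝ) + 1 := Nat.lt_floor_add_one _
  obtain ⟨z, hz⟩ : ∃ z : ℕ, z = ⌊Real.log x ^ θ⌋₊ := ⟨_, rfl⟩
  rw [← hz] at hz1 hz2
  have hz3 : Real.log x ^ θ' ≤ z := by linarith
  have hz4 : max (max z₀ z₁) (max z₂ 2) ≤ z := by
    have : ((max (max z₀ z₁) (max z₂ 2) : ℕ) : ℝ) < (z : ℝ) + 1 := by linarith
    have h5 : max (max z₀ z₁) (max z₂ 2) < z + 1 := by exact_mod_cast this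
    omega
  have hz5 : z₀ ≤ z := le_trans (le_trans (le_max_left _ _) (le_max_left _ _)) hz4
  have hz6 : z₁ ≤ z := le_trans (le_trans (le_max_right _ _) (le_max_left _ _)) hz4
  have hz7 : 2 ≤ z := le_trans (le_trans (le_max_right _ _) (le_max_right _ _)) hz4
  have hz8 : z₂ ≤ z := le_trans (le_trans (le_max_left _ _) (le_max_right _ _)) hz4
  have hzr : (1 : ℝ) ≤ z := by exact_mod_cast (by omega : 1 ≤ z)
  have hzr2 : (2 : ℝ) ≤ z := by exact_mod_cast hz7
  refine ⟨z, hz7, hz1, fun p0 hp0 hB' L hL1 hL2 => ?_⟩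
  have hL1r : (z : ℝ) ^ 2 ≤ L := by
    refine le_trans ?_ hL1
    have : (Real.log x) ^ (2 * θ) = ((Real.log x) ^ θ) ^ 2 := by
      rw [← Real.rpow_natCast, ← Real.rpow_mul (by linarith)]; congr 1; push_cast; ring
    rw [this]
    exact pow_le_pow_left₀ (by positivity) hz1 2
  have hL1' : z ^ 2 ≤ L := by exact_mod_cast hL1r
  have hL2' : (L : ℝ) ≤ (z : ℝ) ^ U := by
    refine hL2.trans ?_
    rw [← hA', Real.rpow_mul (by linarith)]
    exact Real.rpow_le_rpow (by positivity) hz3 hU0.le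
  have hL0 : 1 ≤ L := le_trans (Nat.one_le_pow _ _ (by omega)) hL1'
  refine ⟨?_, ?_⟩
  · refine le_trans ?_ (hz₁ z p0 hz6)
    have h1 : (L : ℝ) ≤ (z : ℝ) ^ ((⌈U⌉₊ : ℕ) : ℝ) :=
      hL2'.trans (Real.rpow_le_rpow_of_exponent_le hzr (Nat.le_ceil _))
    rw [Real.rpow_natCast] at h1
    exact_mod_cast h1
  · obtain ⟨a, ha1, ha2⟩ := hD z hz5 L hL0 hL2'
    refine ⟨a, ?_, ?_⟩
    · have h1 : (a : ℝ) ≤ (z : ℝ) ^ T := by exact_mod_cast ha1
      refine h1.trans ?_
      refine pow_le_pow_left₀ (by linarith) (hz1.trans ?_) T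
      calc Real.log x ^ θ ≤ Real.log x ^ (1 : ℝ) :=
            Real.rpow_le_rpow_of_exponent_le hx3 hθ1.le
        _ = Real.log x := Real.rpow_one _
    · obtain ⟨hV1, hS1⟩ := hz₂ z hz8
      have hq := hQ z p0 a L hz7 hp0 hL1'
      have hlz : 0 < Real.log z := Real.log_pos (by linarith)
      have hVpos : 0 < V z := by
        by_contra hneg
        push Not at hneg
        have : V z * Real.log z ≤ 0 := mul_nonpos_of_nonpos_of_nonneg hneg hlz.le
        linarith
      have hLpos : (0 : ℝ) < L := by exact_mod_cast (by omega : 0 < L)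
      have hp0' : (0 : ℝ) < p0 := by exact_mod_cast hp0.pos
      have hinv : 1 / Real.log z ≤ 2 / c * V z := by
        rw [div_le_iff₀ hlz]
        have : 2 / c * V z * Real.log z = 2 / c * (V z * Real.log z) := by ring
        rw [this]
        calc (1 : ℝ) = 2 / c * (c / 2) := by field_simp
          _ ≤ _ := mul_le_mul_of_nonneg_left hV1 (by positivity)
      -- first error term
      have hBp : 2 * C / (c * δ) ≤ p0 := by
        have : (B : ℝ) < p0 := by exact_mod_cast hB'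
        linarith
      have h1 : C * L / (p0 * Real.log z) ≤ δ * V z * L := by
        have e1 : C * L / (p0 * Real.log z) = C * L / p0 * (1 / Real.log z) := by
          field_simp
        rw [e1]
        have e2 : C * L / p0 * (1 / Real.log z) ≤ C * L / p0 * (2 / c * V z) :=
          mul_le_mul_of_nonneg_left hinv (by positivity)
        refine e2.trans ?_
        have e3 : 2 * C ≤ p0 * (c * δ) := by
          rwa [div_le_iff₀ (by positivity)] at hBp
        have e4 : C * L / p0 * (2 / c * V z) = (2 * C) * (L * V z / (p0 * c)) := by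
          field_simp
        rw [e4]
        calc (2 * C) * (L * V z / (p0 * c)) ≤ (p0 * (c * δ)) * (L * V z / (p0 * c)) :=
              mul_le_mul_of_nonneg_right e3 (by positivity)
          _ = δ * V z * L := by field_simp
      -- second error term
      have h2 : 2 * (z : ℝ) ≤ δ * V z * L := by
        have e1 : δ * (V z * Real.log z) * L ≤ δ * V z * L * Real.log z := le_of_eq (by ring)
        have e2 : δ * (c / 2) * (z : ℝ) ^ 2 ≤ δ * (V z * Real.log z) * L :=
          mul_le_mul (mul_le_mul_of_nonneg_left hV1 hδ0.le) hL1r (by positivity)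
            (by positivity)
        have e3 : 2 * (z : ℝ) * Real.log z ≤ δ * (c / 2) * (z : ℝ) ^ 2 := by
          have := mul_le_mul_of_nonneg_left hS1 (by positivity : (0 : ℝ) ≤ 2 * z)
          calc 2 * (z : ℝ) * Real.log z ≤ 2 * z * (δ * c / 4 * z) := this
            _ = δ * (c / 2) * (z : ℝ) ^ 2 := by ring
        have e4 : 2 * (z : ℝ) * Real.log z ≤ δ * V z * L * Real.log z :=
          (e3.trans e2).trans e1
        exact le_of_mul_le_mul_right e4 hlz
      have h3 : (((Finset.Ioc a (a + L)).filter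
          (fun n => n.Coprime (Pool.Agent.Lib.MP_926cc3_nt.PP.Mz z p0))).card : ℝ) ≤
          kap * (V z * L) := by
        have e1 : kap * (V z * L) = kap0 * V z * L + δ * V z * L + δ * V z * L := by
          rw [hδ]; ring
        rw [e1]
        linarith
      have hkap0 : 0 ≤ kap := by
        have e1 : 0 ≤ kap * (V z * L) := le_trans (Nat.cast_nonneg _) h3
        exact nonneg_of_mul_nonneg_left e1 (by positivity)
      have hTot := (hT z p0 hz7).2.1
      refine h3.trans ?_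
      have e5 : kap * L * (Nat.totient (Pool.Agent.Lib.MP_926cc3_nt.PP.Mz z p0) : ℝ) /
          Pool.Agent.Lib.MP_926cc3_nt.PP.Mz z p0 =
          kap * L * ((Nat.totient (Pool.Agent.Lib.MP_926cc3_nt.PP.Mz z p0) : ℝ) /
          Pool.Agent.Lib.MP_926cc3_nt.PP.Mz z p0) := by ring
      rw [e5]
      calc kap * (V z * L) = kap * L * V z := by ring
        _ ≤ _ := mul_le_mul_of_nonneg_left hTot (by positivity)

end

end Pool.Agent.Lib.LargeAP
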