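import Pool.Agent.Lib.LargeAP.Main
import Pool.Agent.Lib.LargeAP.DFW
import Pool.Agent.Lib.LargeAP.DRQ
import Pool.Agent.Lib.LargeAP.RGG
import Pool.Agent.Lib.MP_926cc3_nt.PP.PRL
import Pool.Agent.Lib.MP_926cc3_nt.PP.TOT

/-!
# LargeAP: the windows of Maier, without hypotheses

`thRGG`: for `g` with `IsG g` (`ω(t) = g(t-1)/t` is Buchstab's function), `1 < A < t` and `kap > e^γ ω(t)` there are `θ < 1`
and `a < 2` with `PP.Rough θ a A kap`.
-/

set_option autoImplicit false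

namespace Pool.Agent.Lib.LargeAP

theorem thDFW : SpecDFW := specDFW thMER
theorem thDRQ : SpecDRQ := specDRQ
theorem thRGG : SpecRGG := specRGG thDFW thDRQ thMER Pool.Agent.Lib.MP_926cc3_nt.PP.specPRL
  Pool.Agent.Lib.MP_926cc3_nt.PP.specTOT
theorem thGRR : SpecGRR := specGRR thGRV Pool.Agent.Lib.MP_926cc3_nt.PP.specPRL

end Pool.Agent.Lib.LargeAP
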