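import Pool.Agent.Lib.LargeAP.Spec
import Pool.Agent.Lib.LP.ORT

/-!
# LargeAP, module ORT: orthogonality of the characters
-/

set_option autoImplicit false

noncomputable section

namespace Pool.Agent.Lib.LargeAP

open LP

theorem specORT (hE : LP.SpecEXP) (hS : SpecSUM) : SpecORT := by
  intro lam θ c ε hlam hθ hθ1 hc hc1 hε
  obtain ⟨U₀, hU₀⟩ := hS lam θ c ε hlam hθ hθ1 hc hc1 hε
  refine ⟨U₀, ?_⟩
  intro u B hu hB1 hB2 q _ hq hgood a ha
  have hs : Summable (LP.ORTM.w lam u) := (hE lam hlam u).1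
  have hφ : (0 : ℝ) < q.totient := by
    exact_mod_cast Nat.totient_pos.2 (Nat.pos_of_ne_zero (NeZero.ne q))
  rw [le_div_iff₀ hφ]
  have hSA0 : 0 ≤ LP.SA lam q a u := by
    unfold LP.SA
    refine tsum_nonneg fun n => ?_
    split_ifs
    · exact LP.ORTM.w_nonneg lam u n
    · exact le_rfl
  have h1 := LP.ORTM.orth hs ha
  have h2 : (q.totient : ℝ) * LP.SA lam q a u =
      ‖∑ χ : DirichletCharacter ℂ q, χ ((a : ZMod q)⁻¹) * LP.F lam χ u‖ := by
    rw [h1, Complex.norm_real, Real.norm_eq_abs, abs_of_nonneg (mul_nonneg hφ.le hSA0)]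
  have h3 : ∀ χ : DirichletCharacter ℂ q, ‖χ ((a : ZMod q)⁻¹) * LP.F lam χ u‖ ≤ ‖LP.F lam χ u‖ := by
    intro χ
    rw [norm_mul]
    exact mul_le_of_le_one_left (norm_nonneg _) (DirichletCharacter.norm_le_one χ _)
  have h4 := hU₀ u B hu hB1 hB2 q hq
    (Finset.univ.erase (1 : DirichletCharacter ℂ q))
    (fun χ hχ => ⟨Finset.ne_of_mem_erase hχ, hgood χ (Finset.ne_of_mem_erase hχ)⟩)
  calc LP.SA lam q a u * q.totient = (q.totient : ℝ) * LP.SA lam q a u := mul_comm _ _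
    _ = ‖∑ χ : DirichletCharacter ℂ q, χ ((a : ZMod q)⁻¹) * LP.F lam χ u‖ := h2
    _ ≤ ∑ χ : DirichletCharacter ℂ q, ‖χ ((a : ZMod q)⁻¹) * LP.F lam χ u‖ := norm_sum_le _ _
    _ ≤ ∑ χ : DirichletCharacter ℂ q, ‖LP.F lam χ u‖ := Finset.sum_le_sum fun χ _ => h3 χ
    _ = ‖LP.F lam (1 : DirichletCharacter ℂ q) u‖ +
          ∑ χ ∈ Finset.univ.erase (1 : DirichletCharacter ℂ q), ‖LP.F lam χ u‖ :=
        (Finset.add_sum_erase _ _ (Finset.mem_univ _)).symm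
    _ ≤ LP.SU lam u + ε * Real.exp u :=
        add_le_add (LP.ORTM.norm_F_le hs _) h4

end Pool.Agent.Lib.LargeAP
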