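import Pool.Agent.Lib.LargeAP.Spec

/-!
# LargeAP: the module RCT (the rectangle)
-/

set_option autoImplicit false

noncomputable section

namespace Pool.Agent.Lib.LargeAP

open MeasureTheory

namespace RCTM

theorem norm_KG {lam : ℝ} (hlam : 0 < lam) (u σ t : ℝ) (h0 : 0 ≤ σ) (h2 : σ ≤ 2) :
    ‖KG lam u (σ + t * Complex.I)‖ ≤
      Real.exp (1 / lam) * Real.exp (σ * u) * Real.exp (-(t ^ 2) / (4 * lam)) := by
  have h : ((σ + t * Complex.I) * u + (σ + t * Complex.I) ^ 2 / (4 * lam) : ℂ) =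
      ((σ * u + (σ ^ 2 - t ^ 2) / (4 * lam) : ℝ) : ℂ) +
        ((t * u + 2 * σ * t / (4 * lam) : ℝ) : ℂ) * Complex.I := by
    push_cast
    linear_combination ((t : ℂ) ^ 2 / (4 * lam)) * Complex.I_sq
  unfold KG
  rw [h, Complex.norm_exp, ← Real.exp_add, ← Real.exp_add]
  refine Real.exp_le_exp.2 ?_
  have h3 : (((σ * u + (σ ^ 2 - t ^ 2) / (4 * lam) : ℝ) : ℂ) +
        ((t * u + 2 * σ * t / (4 * lam) : ℝ) : ℂ) * Complex.I).re =
      σ * u + (σ ^ 2 - t ^ 2) / (4 * lam) := by
    rw [Complex.add_re, Complex.ofReal_re, Complex.re_ofReal_mul, Complex.I_re, mul_zero,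
      add_zero]
  rw [h3, sub_div]
  have h4 : σ ^ 2 / (4 * lam) ≤ 1 / lam := by
    rw [div_le_div_iff₀ (by positivity) hlam]
    have h5 : σ ^ 2 ≤ 4 := by nlinarith
    have h6 := mul_le_mul_of_nonneg_right h5 hlam.le
    linarith
  have h7 : -(t ^ 2) / (4 * lam) = -(t ^ 2 / (4 * lam)) := neg_div _ _
  linarith

theorem differentiable_Mp {q : ℕ} (χ : DirichletCharacter ℂ q) (Y : ℕ) :
    Differentiable ℂ (Mp χ Y) := by
  have h : Mp χ Y = fun s : ℂ => ∑ m ∈ Finset.Icc 1 Y,
      (ArithmeticFunction.moebius m : ℂ) * χ (m : ZMod q) * (m : ℂ) ^ (-s) := rfl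
  rw [h]
  refine Differentiable.fun_sum fun m hm => ?_
  have hm0 : (m : ℂ) ≠ 0 := by
    rw [Finset.mem_Icc] at hm
    exact Nat.cast_ne_zero.2 (by omega)
  refine Differentiable.const_mul ?_ _
  exact differentiable_neg.const_cpow (Or.inl hm0)

theorem norm_Mp_le {q : ℕ} (χ : DirichletCharacter ℂ q) (Y : ℕ) (s : ℂ) (hs : 0 ≤ s.re) :
    ‖Mp χ Y s‖ ≤ Y := by
  unfold Mp
  have h : ∀ m ∈ Finset.Icc 1 Y,
      ‖(ArithmeticFunction.moebius m : ℂ) * χ (m : ZMod q) * (m : ℂ) ^ (-s)‖ ≤ (1 : ℝ) := by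
    intro m hm
    rw [Finset.mem_Icc] at hm
    have hm0 : 0 < m := by omega
    rw [norm_mul, norm_mul]
    have h1 : ‖(ArithmeticFunction.moebius m : ℂ)‖ ≤ 1 := by
      rw [Complex.norm_intCast]
      have := ArithmeticFunction.abs_moebius_le_one (n := m)
      exact_mod_cast this
    have h2 : ‖χ (m : ZMod q)‖ ≤ 1 := DirichletCharacter.norm_le_one χ _
    have h3 : ‖(m : ℂ) ^ (-s)‖ ≤ 1 := by
      rw [Complex.norm_natCast_cpow_of_pos hm0, Complex.neg_re]
      refine Real.rpow_le_one_of_one_le_of_nonpos ?_ (by linarith)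
      exact_mod_cast hm.1
    calc _ ≤ (1 : ℝ) * 1 * 1 := by gcongr
      _ = 1 := by norm_num
  refine (norm_sum_le_of_le _ h).trans ?_
  simp

theorem gauss_small {b y : ℝ} (hb : 0 < b) :
    y ^ 16 * Real.exp (-(b * y ^ 2)) ≤ (Nat.factorial 8 : ℝ) / b ^ 8 := by
  have h := Real.pow_div_factorial_le_exp (b * y ^ 2) (by positivity) 8
  have hf : (0 : ℝ) < (Nat.factorial 8 : ℝ) := by positivity
  rw [div_le_iff₀ hf] at h
  rw [le_div_iff₀ (by positivity), Real.exp_neg]
  have he := Real.exp_pos (b * y ^ 2)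
  have e : y ^ 16 * (Real.exp (b * y ^ 2))⁻¹ * b ^ 8 = (b * y ^ 2) ^ 8 / Real.exp (b * y ^ 2) := by
    rw [div_eq_mul_inv]
    ring
  rw [e, div_le_iff₀ he]
  linarith

end RCTM

open RCTM in
theorem specRCT (hLBD : SpecLBD) (hLD : SpecLD) (hREC : LP.SpecREC) : SpecRCT := by
  intro lam c hlam hc hc1
  obtain ⟨C1, hC1, hLD1⟩ := hLD c hc hc1
  obtain ⟨C2, hC2, hLBD2⟩ := hLBD
  set E : ℝ := Real.exp (1 / lam) with hE
  have hE0 : 0 < E := Real.exp_pos _
  set G : ℝ := (Nat.factorial 8 : ℝ) / (1 / (16 * lam)) ^ 8 with hG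
  have hG0 : 0 < G := by positivity
  refine ⟨C1 * E + 36 * C1 * C2 ^ 2 * E * Real.exp 1 * G, by positivity, ?_⟩
  intro q _ χ B u hχ hB hq hZ hu
  set y : ℝ := Real.exp B with hy
  have hyB : B + 1 ≤ y := Real.add_one_le_exp B
  have hy0 : 0 < y := Real.exp_pos _
  set T : ℝ := y - 1 with hT
  have hT0 : 0 < T := by linarith
  have hTy : y / 2 ≤ T := by linarith
  have hB0 : 0 < B := by linarith
  have hu0 : 0 < u := by linarith
  set σ₀ : ℝ := 1 - c / (2 * B) with hσ₀
  set σ₁ : ℝ := 1 + 1 / u with hσ₁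
  have hcB : 0 < c / (2 * B) := by positivity
  have hcB1 : c / (2 * B) ≤ 1 / 4 := by
    rw [div_le_iff₀ (by positivity)]
    linarith
  have h1u : 0 < 1 / u := by positivity
  have h1u1 : 1 / u ≤ 1 := by
    rw [div_le_one hu0]
    linarith
  have h01 : σ₀ ≤ σ₁ := by linarith
  have hcB2 : c / (2 * B) < c / B := by
    rw [div_lt_div_iff_of_pos_left hc (by positivity) hB0]
    linarith
  have hne : ∀ σ t : ℝ, σ₀ ≤ σ → |t| ≤ T → χ.LFunction (σ + t * Complex.I) ≠ 0 := by
    intro σ t h1 h2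
    refine hZ _ ?_ ?_
    · have hre : ((σ : ℂ) + t * Complex.I).re = σ := by simp
      rw [hre]
      linarith
    · have him : ((σ : ℂ) + t * Complex.I).im = t := by simp
      rw [him]
      linarith
  have hld : ∀ σ t : ℝ, σ₀ ≤ σ → σ ≤ σ₁ → |t| ≤ T → ‖ldL χ (σ + t * Complex.I)‖ ≤ C1 * B := by
    intro σ t h1 h1' h2
    have hre : ((σ : ℂ) + t * Complex.I).re = σ := by simp
    have him : ((σ : ℂ) + t * Complex.I).im = t := by simp
    refine hLD1 q χ B hχ hB hq hZ _ ?_ ?_ ?_
    · rw [hre]; exact h1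
    · rw [hre]; linarith
    · rw [him]; exact h2
  have hdL : Differentiable ℂ χ.LFunction := DirichletCharacter.differentiable_LFunction hχ
  have hdM := differentiable_Mp χ (YB B)
  -- the rectangle
  have hshift := hREC (fun s => fB χ B s * KG lam u s) σ₀ σ₁ T h01 hT0.le (by
    intro σ t h1 h2 h3
    have hn := hne σ t h1 h3
    have hd1 : DifferentiableAt ℂ (ldL χ) (σ + t * Complex.I) := by
      unfold ldL
      refine DifferentiableAt.div ?_ (hdL _) hn
      exact (hdL.analyticAt _).deriv.differentiableAt.neg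
    have hd2 : DifferentiableAt ℂ (fun s => (1 - χ.LFunction s * Mp χ (YB B) s) ^ 2)
        (σ + t * Complex.I) :=
      (((differentiable_const 1).sub (hdL.mul hdM)).pow 2) _
    have hd3 : DifferentiableAt ℂ (KG lam u) (σ + t * Complex.I) := by
      unfold KG
      refine DifferentiableAt.cexp ?_
      fun_prop
    exact (hd1.mul hd2).mul hd3)
  -- the left side
  have hleft : ‖∫ t in (-T)..T, fB χ B (σ₀ + t * Complex.I) * KG lam u (σ₀ + t * Complex.I)‖ ≤
      C1 * E * (B * Real.exp (u - c * u / (2 * B)) * IM χ lam c B) := by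
    have e1 : ∀ t : ℝ, t ∈ Set.Ioc (-T) T →
        ‖fB χ B (σ₀ + t * Complex.I) * KG lam u (σ₀ + t * Complex.I)‖ ≤
        (C1 * E * (B * Real.exp (u - c * u / (2 * B)))) *
          (‖1 - χ.LFunction (σ₀ + t * Complex.I) * Mp χ (YB B) (σ₀ + t * Complex.I)‖ ^ 2 *
            Real.exp (-(t ^ 2) / (4 * lam))) := by
      intro t ht
      have ht' : |t| ≤ T := abs_le.2 ⟨ht.1.le, ht.2⟩
      have e2 := hld σ₀ t le_rfl h01 ht'
      have e3 := norm_KG hlam u σ₀ t (by linarith) (by linarith)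
      have e4 : σ₀ * u = u - c * u / (2 * B) := by
        rw [hσ₀]
        ring
      rw [e4] at e3
      unfold fB
      rw [norm_mul, norm_mul, norm_pow]
      calc _ ≤ (C1 * B * ‖1 - χ.LFunction (σ₀ + t * Complex.I) *
            Mp χ (YB B) (σ₀ + t * Complex.I)‖ ^ 2) *
            (E * Real.exp (u - c * u / (2 * B)) * Real.exp (-(t ^ 2) / (4 * lam))) := by
            gcongr
        _ = _ := by ring
    have hcont : Continuous fun t : ℝ =>
        (C1 * E * (B * Real.exp (u - c * u / (2 * B)))) *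
          (‖1 - χ.LFunction (σ₀ + t * Complex.I) * Mp χ (YB B) (σ₀ + t * Complex.I)‖ ^ 2 *
            Real.exp (-(t ^ 2) / (4 * lam))) := by
      have hl : Continuous fun t : ℝ => (σ₀ : ℂ) + t * Complex.I := by fun_prop
      have hc1 := hdL.continuous.comp hl
      have hc2 := hdM.continuous.comp hl
      refine continuous_const.mul (Continuous.mul ?_ ?_)
      · exact ((continuous_const.sub (hc1.mul hc2)).norm).pow 2
      · fun_prop
    refine (intervalIntegral.norm_integral_le_of_norm_le (by linarith)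
      (Filter.Eventually.of_forall e1) (hcont.intervalIntegrable _ _)).trans ?_
    rw [intervalIntegral.integral_const_mul]
    refine le_of_eq ?_
    unfold IM
    ring
  -- the horizontal sides
  have hM : ∀ σ t : ℝ, 0 ≤ σ → ‖Mp χ (YB B) (σ + t * Complex.I)‖ ≤ y ^ 3 := by
    intro σ t h
    have hre : ((σ : ℂ) + t * Complex.I).re = σ := by simp
    refine (norm_Mp_le χ (YB B) _ (by rw [hre]; exact h)).trans ?_
    unfold YB
    refine (Nat.floor_le (Real.exp_pos _).le).trans (le_of_eq ?_)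
    rw [hy, ← Real.exp_nat_mul]
    norm_num
  have hhor : ∀ t : ℝ, |t| = T →
      ‖∫ σ in σ₀..σ₁, fB χ B (σ + t * Complex.I) * KG lam u (σ + t * Complex.I)‖ ≤
        18 * C1 * C2 ^ 2 * E * Real.exp 1 * G * Real.exp (u - 4 * B) := by
    intro t ht
    have ht2 : t ^ 2 = T ^ 2 := by rw [← sq_abs, ht]
    have e1 : ‖∫ σ in σ₀..σ₁, fB χ B (σ + t * Complex.I) * KG lam u (σ + t * Complex.I)‖ ≤
        (C1 * B * (9 * C2 ^ 2 * y ^ 10) *
          (E * Real.exp (u + 1) * Real.exp (-(T ^ 2) / (4 * lam)))) * |σ₁ - σ₀| := by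
      refine intervalIntegral.norm_integral_le_of_norm_le_const fun σ hσ => ?_
      rw [Set.uIoc_of_le h01] at hσ
      have e2 := hld σ t hσ.1.le hσ.2 ht.le
      have e3 := norm_KG hlam u σ t (by linarith [hσ.1]) (by linarith [hσ.2])
      have e4 : Real.exp (σ * u) ≤ Real.exp (u + 1) := by
        refine Real.exp_le_exp.2 ?_
        have : σ₁ * u = u + 1 := by
          rw [hσ₁]
          field_simp
        rw [← this]
        exact mul_le_mul_of_nonneg_right hσ.2 hu0.le
      rw [ht2] at e3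
      have e5 : ‖χ.LFunction (σ + t * Complex.I)‖ ≤ C2 * (2 * y ^ 2) := by
        have hre : ((σ : ℂ) + t * Complex.I).re = σ := by simp
        have e6 := (hLBD2 q χ hχ (σ + t * Complex.I)).1 (by rw [hre]; linarith [hσ.1])
        have e7 : ‖(σ : ℂ) + t * Complex.I‖ ≤ 2 + T := by
          refine (norm_add_le _ _).trans ?_
          rw [norm_mul, Complex.norm_I, mul_one, Complex.norm_real, Complex.norm_real,
            Real.norm_eq_abs, Real.norm_eq_abs, ht, abs_of_nonneg (by linarith [hσ.1])]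
          linarith [hσ.2]
        refine e6.trans ?_
        calc C2 * q * (1 + ‖(σ : ℂ) + t * Complex.I‖) ≤ C2 * y * (2 * y) := by
              gcongr
              linarith
          _ = _ := by ring
      have e8 : ‖(1 - χ.LFunction (σ + t * Complex.I) * Mp χ (YB B) (σ + t * Complex.I)) ^ 2‖ ≤
          9 * C2 ^ 2 * y ^ 10 := by
        rw [norm_pow]
        have e9 : ‖1 - χ.LFunction (σ + t * Complex.I) * Mp χ (YB B) (σ + t * Complex.I)‖ ≤
            3 * C2 * y ^ 5 := by
          refine (norm_sub_le _ _).trans ?_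
          rw [norm_one, norm_mul]
          have e10 := hM σ t (by linarith [hσ.1])
          have e11 : ‖χ.LFunction (σ + t * Complex.I)‖ * ‖Mp χ (YB B) (σ + t * Complex.I)‖ ≤
              C2 * (2 * y ^ 2) * y ^ 3 := by gcongr
          have e12 : (1 : ℝ) ≤ C2 * y ^ 5 := by
            have : (1 : ℝ) ≤ y ^ 5 := one_le_pow₀ (by linarith)
            nlinarith
          calc _ ≤ C2 * y ^ 5 + C2 * (2 * y ^ 2) * y ^ 3 := add_le_add e12 e11
            _ = _ := by ring
        calc _ ≤ (3 * C2 * y ^ 5) ^ 2 := by gcongr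
          _ = _ := by ring
      unfold fB
      rw [norm_mul, norm_mul]
      gcongr
      refine e3.trans ?_
      gcongr
    refine e1.trans ?_
    have e13 : |σ₁ - σ₀| ≤ 2 := by
      rw [abs_of_nonneg (by linarith)]
      linarith
    have e14 : B * y ^ 14 * Real.exp (-(T ^ 2) / (4 * lam)) ≤ G := by
      have e15 := gauss_small (b := 1 / (16 * lam)) (y := y) (by positivity)
      have e16 : Real.exp (-(T ^ 2) / (4 * lam)) ≤ Real.exp (-(1 / (16 * lam) * y ^ 2)) := by
        refine Real.exp_le_exp.2 ?_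
        have e17 : (y / 2) ^ 2 ≤ T ^ 2 := by gcongr
        have e18 : 1 / (16 * lam) * y ^ 2 = (y / 2) ^ 2 / (4 * lam) := by
          field_simp
          ring
        rw [e18, neg_div]
        have : (y / 2) ^ 2 / (4 * lam) ≤ T ^ 2 / (4 * lam) := by gcongr
        linarith
      have e19 : B * y ^ 14 ≤ y ^ 16 := by
        have : B ≤ y ^ 2 := by nlinarith
        calc B * y ^ 14 ≤ y ^ 2 * y ^ 14 := by gcongr
          _ = _ := by ring
      calc _ ≤ y ^ 16 * Real.exp (-(1 / (16 * lam) * y ^ 2)) := by gcongr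
        _ ≤ G := e15
    have e20 : Real.exp (u - 4 * B) * y ^ 4 = Real.exp u := by
      rw [hy, ← Real.exp_nat_mul, ← Real.exp_add]
      congr 1
      push_cast
      ring
    have e21 : Real.exp (u + 1) = Real.exp u * Real.exp 1 := Real.exp_add _ _
    calc _ ≤ (C1 * B * (9 * C2 ^ 2 * y ^ 10) *
          (E * Real.exp (u + 1) * Real.exp (-(T ^ 2) / (4 * lam)))) * 2 := by gcongr
      _ = 18 * C1 * C2 ^ 2 * E * Real.exp 1 *
            (B * y ^ 14 * Real.exp (-(T ^ 2) / (4 * lam))) * Real.exp (u - 4 * B) := by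
          rw [e21, ← e20]
          ring
      _ ≤ _ := by gcongr
  have hh1 := hhor T (abs_of_pos hT0)
  have hh2 := hhor (-T) (by rw [abs_neg, abs_of_pos hT0])
  have hIM : 0 ≤ IM χ lam c B := by
    unfold IM
    refine intervalIntegral.integral_nonneg (by linarith) fun t _ => ?_
    positivity
  have hfin : ‖∫ t in (-T)..T, fB χ B (σ₁ + t * Complex.I) * KG lam u (σ₁ + t * Complex.I)‖ ≤
      C1 * E * (B * Real.exp (u - c * u / (2 * B)) * IM χ lam c B) +
      36 * C1 * C2 ^ 2 * E * Real.exp 1 * G * Real.exp (u - 4 * B) := by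
    refine hshift.trans ?_
    have := add_le_add (add_le_add hleft hh1) hh2
    refine this.trans (le_of_eq ?_)
    ring
  refine hfin.trans ?_
  have hu3 : (1 : ℝ) ≤ u ^ 3 := one_le_pow₀ (by linarith)
  have hX : 0 ≤ B * Real.exp (u - c * u / (2 * B)) * IM χ lam c B := by positivity
  have hV : Real.exp (u - 4 * B) ≤ u ^ 3 * Real.exp (u - 4 * B) := by
    have := (Real.exp_pos (u - 4 * B)).le
    nlinarith
  have hK : 0 ≤ 36 * C1 * C2 ^ 2 * E * Real.exp 1 * G := by positivity
  have hL : 0 ≤ C1 * E := by positivity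
  have hV0 : 0 ≤ u ^ 3 * Real.exp (u - 4 * B) := by positivity
  nlinarith [mul_le_mul_of_nonneg_left hV hK, mul_nonneg hK hX, mul_nonneg hL hV0]

end Pool.Agent.Lib.LargeAP
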