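import Pool.Agent.Lib.LargeAP.SpecG
import Pool.Agent.Lib.MP_391708_nt.QPA.PNT
import Pool.Agent.Lib.MP_391708_nt.QPA.PNTAP

/-!
# LargeAP, module RGC: rough numbers up to `z^(2+δ)`
-/

set_option autoImplicit false

namespace Pool.Agent.Lib.LargeAP

open Finset Filter Topology
open scoped Classical

open Pool.Agent.Lib.MP_926cc3_nt.RS (V NoSmall)

noncomputable section

namespace RGCM

/-- number of primes up to `n` -/
def pr (n : ℕ) : ℕ := ((Icc 1 n).filter Nat.Prime).card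

theorem pnt (κ : ℝ) (hκ : 0 < κ) : ∃ X₀ : ℝ, ∀ x : ℝ, X₀ ≤ x →
    ((pr ⌊x⌋₊ : ℕ) : ℝ) ≤ (1 + κ) * x / Real.log x := by
  obtain ⟨X₀, h⟩ := Pool.Agent.Lib.MP391708.QPA.specPNT Pool.Agent.Lib.MP391708.QPA.specPNTAP κ hκ
  refine ⟨X₀, fun x hx => ?_⟩
  have h2 := (abs_le.mp (h x hx)).2
  unfold pr
  have e : (1 + κ) * x / Real.log x = x / Real.log x + κ * x / Real.log x := by ring
  rw [e]
  linarith

theorem cover (z L : ℕ) (hL : L < z ^ 3) :
    (Icc 1 L).filter (fun j => NoSmall z j) ⊆ ({1} ∪ ((Icc 1 L).filter Nat.Prime)) ∪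
      (((Icc z (Nat.sqrt L)).filter Nat.Prime).biUnion
        fun p => ((Icc 1 (L / p)).filter Nat.Prime).image (fun q => p * q)) := by
  intro j hj
  rw [mem_filter, mem_Icc] at hj
  obtain ⟨⟨h1, h2⟩, h3⟩ := hj
  rw [mem_union, mem_union, mem_singleton, mem_filter, mem_Icc, mem_biUnion]
  by_cases hj1 : j = 1
  · exact Or.inl (Or.inl hj1)
  have hp := Nat.minFac_prime hj1
  have hpd := Nat.minFac_dvd j
  have hzp : z ≤ j.minFac := h3 _ hp hpd
  obtain ⟨m, hm⟩ := hpd
  by_cases hm1 : m = 1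
  · left; right
    refine ⟨⟨h1, h2⟩, ?_⟩
    rw [hm1, mul_one] at hm
    rw [hm]; exact hp
  have hq := Nat.minFac_prime hm1
  have hqd := Nat.minFac_dvd m
  have hqj : m.minFac ∣ j := by
    rw [hm]; exact dvd_mul_of_dvd_right hqd _
  have hzq : z ≤ m.minFac := h3 _ hq hqj
  have hpq : j.minFac ≤ m.minFac := Nat.minFac_le_of_dvd hq.two_le hqj
  obtain ⟨r, hr⟩ := hqd
  by_cases hr1 : r = 1
  · right
    rw [hr1, mul_one] at hr
    refine ⟨j.minFac, ?_, ?_⟩
    · rw [mem_filter, mem_Icc]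
      refine ⟨⟨hzp, ?_⟩, hp⟩
      rw [Nat.le_sqrt]
      calc j.minFac * j.minFac ≤ j.minFac * m.minFac := Nat.mul_le_mul_left _ hpq
        _ = j := by rw [← hr]; exact hm.symm
        _ ≤ L := h2
    · rw [mem_image]
      refine ⟨m, ?_, hm.symm⟩
      rw [mem_filter, mem_Icc]
      refine ⟨⟨?_, ?_⟩, ?_⟩
      · rw [hr]; exact hq.one_le
      · rw [Nat.le_div_iff_mul_le hp.pos, mul_comm, ← hm]; exact h2
      · rw [hr]; exact hq
  · exfalso
    have hs := Nat.minFac_prime hr1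
    have hsd := Nat.minFac_dvd r
    have hsj : r.minFac ∣ j := by
      rw [hm, hr]
      exact dvd_mul_of_dvd_right (dvd_mul_of_dvd_right hsd _) _
    have hzs : z ≤ r.minFac := h3 _ hs hsj
    have hr0 : 0 < r := by
      rcases Nat.eq_zero_or_pos r with h0 | h0
      · rw [h0, mul_zero] at hr
        rw [hr, mul_zero] at hm
        omega
      · exact h0
    have hzr : z ≤ r := hzs.trans (Nat.le_of_dvd hr0 hsd)
    have : z ^ 3 ≤ j := by
      calc z ^ 3 = z * (z * z) := by ring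
        _ ≤ j.minFac * (m.minFac * r) := Nat.mul_le_mul hzp (Nat.mul_le_mul hzq hzr)
        _ = j := by rw [← hr]; exact hm.symm
    omega

theorem card_cover (z L : ℕ) (hL : L < z ^ 3) :
    ((Icc 1 L).filter (fun j => NoSmall z j)).card ≤
      1 + pr L + ∑ p ∈ (Icc z (Nat.sqrt L)).filter Nat.Prime, pr (L / p) := by
  refine (card_le_card (cover z L hL)).trans ?_
  refine (card_union_le _ _).trans ?_
  refine Nat.add_le_add ?_ ?_
  · refine (card_union_le _ _).trans ?_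
    rw [card_singleton]
    exact le_rfl
  · refine card_biUnion_le.trans ?_
    refine sum_le_sum fun p _ => ?_
    exact card_image_le

/-- dyadic sum of reciprocals of primes in `[z, s]` -/
theorem recip (z s : ℕ) (c : ℝ) (hz : 1 ≤ z) (hzs : z ≤ s)
    (hc : ∀ k : ℕ, ((pr (2 ^ (k + 1) * z) : ℕ) : ℝ) ≤ c * (2 ^ (k + 1) * z)) :
    ∑ p ∈ (Icc z s).filter Nat.Prime, (1 : ℝ) / p ≤ (Nat.log 2 (s / z) + 1 : ℕ) * (2 * c) := by
  have hmap : ∀ p ∈ (Icc z s).filter Nat.Prime, Nat.log 2 (p / z) ∈ range (Nat.log 2 (s / z) + 1) := by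
    intro p hp
    rw [mem_filter, mem_Icc] at hp
    rw [mem_range]
    have := Nat.log_mono_right (b := 2) (Nat.div_le_div_right (c := z) hp.1.2)
    omega
  rw [← sum_fiberwise_of_maps_to hmap]
  have key : ∀ k ∈ range (Nat.log 2 (s / z) + 1),
      ∑ p ∈ ((Icc z s).filter Nat.Prime).filter (fun p => Nat.log 2 (p / z) = k), (1 : ℝ) / p ≤ 2 * c := by
    intro k _
    have hz' : (0 : ℝ) < z := by exact_mod_cast hz
    have hkz : (0 : ℝ) < 2 ^ k * z := by positivity
    have h1 : ∀ p ∈ ((Icc z s).filter Nat.Prime).filter (fun p => Nat.log 2 (p / z) = k),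
        (1 : ℝ) / p ≤ 1 / (2 ^ k * z) := by
      intro p hp
      rw [mem_filter, mem_filter, mem_Icc] at hp
      obtain ⟨⟨⟨hp1, hp2⟩, hp3⟩, hp4⟩ := hp
      have hne : p / z ≠ 0 := by
        have : 1 ≤ p / z := (Nat.le_div_iff_mul_le (by omega)).2 (by omega)
        omega
      have h2 : 2 ^ k ≤ p / z := by
        rw [← hp4]; exact Nat.pow_log_le_self 2 hne
      have h3 : 2 ^ k * z ≤ p := (Nat.le_div_iff_mul_le (by omega)).1 h2
      have h4 : (2 : ℝ) ^ k * z ≤ p := by exact_mod_cast h3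
      exact one_div_le_one_div_of_le hkz h4
    refine (sum_le_sum h1).trans ?_
    rw [sum_const, nsmul_eq_mul]
    have h2 : (((Icc z s).filter Nat.Prime).filter (fun p => Nat.log 2 (p / z) = k)).card
        ≤ pr (2 ^ (k + 1) * z) := by
      unfold pr
      refine card_le_card ?_
      intro p hp
      rw [mem_filter, mem_filter, mem_Icc] at hp
      obtain ⟨⟨⟨hp1, hp2⟩, hp3⟩, hp4⟩ := hp
      rw [mem_filter, mem_Icc]
      refine ⟨⟨by omega, ?_⟩, hp3⟩
      have h5 : p / z < 2 ^ (k + 1) := by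
        rw [← hp4]; exact Nat.lt_pow_succ_log_self (by norm_num) _
      exact ((Nat.div_lt_iff_lt_mul (by omega)).1 h5).le
    have h3 : ((((Icc z s).filter Nat.Prime).filter (fun p => Nat.log 2 (p / z) = k)).card : ℝ)
        ≤ c * (2 ^ (k + 1) * z) := le_trans (by exact_mod_cast h2) (hc k)
    calc _ ≤ c * (2 ^ (k + 1) * z) * (1 / (2 ^ k * z)) :=
          mul_le_mul_of_nonneg_right h3 (by positivity)
      _ = 2 * c := by
          rw [pow_succ]; field_simp
  refine (sum_le_sum key).trans ?_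
  rw [sum_const, card_range, nsmul_eq_mul]

end RGCM

theorem specRGC : SpecRGC := by
  intro ε hε
  obtain ⟨X₁, hX₁⟩ := RGCM.pnt (ε / 2) (by positivity)
  obtain ⟨X₂, hX₂⟩ := RGCM.pnt 1 one_pos
  refine ⟨min (1 / 2) (ε / 64), by positivity, ?_⟩
  set δ : ℝ := min (1 / 2) (ε / 64) with hδ
  have hδ1 : δ ≤ 1 / 2 := min_le_left _ _
  have hδ2 : δ ≤ ε / 64 := min_le_right _ _
  have hδ0 : 0 < δ := by positivity
  obtain ⟨N, hN⟩ := exists_nat_ge (max (max X₁ X₂) (max (8 / ε) (Real.exp (64 / ε))))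
  refine ⟨max N 3, fun z L hz hzL hLδ => ?_⟩
  have hz3 : 3 ≤ z := (le_max_right _ _).trans hz
  have hzN : (N : ℝ) ≤ z := by exact_mod_cast (le_max_left _ _).trans hz
  have hzb := hN.trans hzN
  have hzX1 : X₁ ≤ z := ((le_max_left _ _).trans (le_max_left _ _)).trans hzb
  have hzX2 : X₂ ≤ z := ((le_max_right _ _).trans (le_max_left _ _)).trans hzb
  have hze : 8 / ε ≤ z := ((le_max_left _ _).trans (le_max_right _ _)).trans hzb
  have hzx : Real.exp (64 / ε) ≤ z := ((le_max_right _ _).trans (le_max_right _ _)).trans hzb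
  have hz0 : (0 : ℝ) < z := by
    have : (3 : ℝ) ≤ z := by exact_mod_cast hz3
    linarith
  have hz1 : (1 : ℝ) < z := by
    have : (3 : ℝ) ≤ z := by exact_mod_cast hz3
    linarith
  have hlz : 64 / ε ≤ Real.log z := by
    rw [Real.le_log_iff_exp_le hz0]; exact hzx
  have hlz0 : 0 < Real.log z := Real.log_pos hz1
  have hlzz : Real.log z ≤ z := (Real.log_le_sub_one_of_pos hz0).trans (by linarith)
  have hzL' : (z : ℝ) ^ 2 ≤ L := by exact_mod_cast hzL
  have hL0 : (0 : ℝ) < L := lt_of_lt_of_le (by positivity) hzL'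
  have hlL : 2 * Real.log z ≤ Real.log L := by
    have := Real.log_le_log (by positivity) hzL'
    rwa [Real.log_pow, Nat.cast_ofNat] at this
  have hlL2 : Real.log L ≤ (2 + δ) * Real.log z := by
    have := Real.log_le_log hL0 hLδ
    rwa [Real.log_rpow hz0] at this
  -- `L < z ^ 3`
  have hL3 : L < z ^ 3 := by
    have h1 : (z : ℝ) ^ (2 + δ) < (z : ℝ) ^ (3 : ℝ) :=
      Real.rpow_lt_rpow_of_exponent_lt hz1 (by linarith)
    have h2 : (z : ℝ) ^ (3 : ℝ) = ((z ^ 3 : ℕ) : ℝ) := by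
      rw [Nat.cast_pow, ← Real.rpow_natCast]; norm_num
    have h3 : (L : ℝ) < ((z ^ 3 : ℕ) : ℝ) := by
      rw [← h2]; exact lt_of_le_of_lt hLδ h1
    exact_mod_cast h3
  set s := Nat.sqrt L with hs
  have hzs : z ≤ s := by
    rw [hs, Nat.le_sqrt']; exact hzL
  have hss : s * s ≤ L := Nat.sqrt_le L
  have hcard := RGCM.card_cover z L hL3
  -- primes up to `L`
  have hLz : (z : ℝ) ≤ L := by nlinarith
  have hpL : ((RGCM.pr L : ℕ) : ℝ) ≤ (1 + ε / 2) * L / (2 * Real.log z) := by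
    have h1 := hX₁ L (hzX1.trans hLz)
    rw [Nat.floor_natCast] at h1
    refine h1.trans ?_
    exact div_le_div_of_nonneg_left (by positivity) (by positivity) hlL
  -- the products
  have hpp : ∀ p ∈ (Icc z s).filter Nat.Prime, ((RGCM.pr (L / p) : ℕ) : ℝ) ≤
      2 * L / Real.log z * (1 / p) := by
    intro p hp
    rw [mem_filter, mem_Icc] at hp
    obtain ⟨⟨hp1, hp2⟩, hp3⟩ := hp
    have hp0 : (0 : ℝ) < p := by exact_mod_cast hp3.pos
    have hsp : (s : ℝ) ≤ L / p := by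
      rw [le_div_iff₀ hp0]
      have : s * p ≤ L := (Nat.mul_le_mul_left s hp2).trans hss
      exact_mod_cast this
    have hzs' : (z : ℝ) ≤ s := by exact_mod_cast hzs
    have hzY : (z : ℝ) ≤ L / p := hzs'.trans hsp
    have h1 := hX₂ (L / p) (hzX2.trans hzY)
    have e : ⌊(L : ℝ) / p⌋₊ = L / p := by
      rw [Nat.floor_div_natCast, Nat.floor_natCast]
    rw [e] at h1
    refine h1.trans ?_
    have h2 : Real.log z ≤ Real.log (L / p) := Real.log_le_log hz0 hzY
    calc (1 + 1) * ((L : ℝ) / p) / Real.log (L / p) ≤ (1 + 1) * ((L : ℝ) / p) / Real.log z :=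
          div_le_div_of_nonneg_left (by positivity) hlz0 h2
      _ = 2 * L / Real.log z * (1 / p) := by ring
  have hprod : ∑ p ∈ (Icc z s).filter Nat.Prime, ((RGCM.pr (L / p) : ℕ) : ℝ) ≤
      2 * L / Real.log z * ∑ p ∈ (Icc z s).filter Nat.Prime, (1 : ℝ) / p := by
    rw [mul_sum]
    exact sum_le_sum hpp
  have hrec := RGCM.recip z s (2 / Real.log z) (by omega) hzs (by
    intro k
    have hge : (z : ℝ) ≤ ((2 ^ (k + 1) * z : ℕ) : ℝ) := by
      have : z ≤ 2 ^ (k + 1) * z := Nat.le_mul_of_pos_left z (by positivity)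
      exact_mod_cast this
    have h1 := hX₂ ((2 ^ (k + 1) * z : ℕ) : ℝ) (hzX2.trans hge)
    rw [Nat.floor_natCast] at h1
    refine h1.trans ?_
    have h2 : Real.log z ≤ Real.log ((2 ^ (k + 1) * z : ℕ) : ℝ) := Real.log_le_log hz0 hge
    calc (1 + 1) * ((2 ^ (k + 1) * z : ℕ) : ℝ) / Real.log ((2 ^ (k + 1) * z : ℕ) : ℝ)
        ≤ (1 + 1) * ((2 ^ (k + 1) * z : ℕ) : ℝ) / Real.log z :=
          div_le_div_of_nonneg_left (by positivity) hlz0 h2
      _ = 2 / Real.log z * (2 ^ (k + 1) * z) := by push_cast; ring)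
  -- the number of dyadic intervals
  have hK : ((Nat.log 2 (s / z) + 1 : ℕ) : ℝ) ≤ 1 + δ * Real.log z := by
    have hne : s / z ≠ 0 := by
      have : 1 ≤ s / z := (Nat.le_div_iff_mul_le (by omega)).2 (by omega)
      omega
    have h1 : 2 ^ Nat.log 2 (s / z) ≤ s / z := Nat.pow_log_le_self 2 hne
    have h2 : 2 ^ Nat.log 2 (s / z) * z ≤ s := (Nat.le_div_iff_mul_le (by omega)).1 h1
    have h3 : (2 ^ Nat.log 2 (s / z) * z) * (2 ^ Nat.log 2 (s / z) * z) ≤ L :=
      (Nat.mul_le_mul h2 h2).trans hss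
    have h4 : ((2 : ℝ) ^ Nat.log 2 (s / z) * z) * (2 ^ Nat.log 2 (s / z) * z) ≤ L := by
      exact_mod_cast h3
    have h5 := Real.log_le_log (by positivity) h4
    rw [Real.log_mul (by positivity) (by positivity), Real.log_mul (by positivity) (by positivity),
      Real.log_pow] at h5
    have h6 : (1 : ℝ) / 2 ≤ Real.log 2 := by
      have := Real.log_two_gt_d9; linarith
    have h7 : (0 : ℝ) ≤ (Nat.log 2 (s / z) : ℝ) := Nat.cast_nonneg _
    push_cast
    nlinarith
  -- total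
  have hrec2 : ∑ p ∈ (Icc z s).filter Nat.Prime, (1 : ℝ) / p ≤ (1 + δ * Real.log z) * (2 * (2 / Real.log z)) :=
    hrec.trans (mul_le_mul_of_nonneg_right hK (by positivity))
  have hprod2 : ∑ p ∈ (Icc z s).filter Nat.Prime, ((RGCM.pr (L / p) : ℕ) : ℝ) ≤
      L / Real.log z * (8 / Real.log z + 8 * δ) := by
    refine hprod.trans ?_
    refine (mul_le_mul_of_nonneg_left hrec2 (by positivity)).trans ?_
    apply le_of_eq
    field_simp
    ring
  have hcard' : (((Icc 1 L).filter (fun j => NoSmall z j)).card : ℝ) ≤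
      1 + ((RGCM.pr L : ℕ) : ℝ) + ∑ p ∈ (Icc z s).filter Nat.Prime, ((RGCM.pr (L / p) : ℕ) : ℝ) := by
    exact_mod_cast hcard
  have h8 : 8 / Real.log z ≤ ε / 8 := by
    rw [div_le_iff₀ hlz0]
    have : ε / 8 * (64 / ε) = 8 := by field_simp; norm_num
    nlinarith
  have hone : (1 : ℝ) ≤ L / Real.log z * (ε / 8) := by
    have h1 : (z : ℝ) ≤ L / Real.log z := by
      rw [le_div_iff₀ hlz0]
      nlinarith
    have h2 : 8 / ε * (ε / 8) = 1 := by field_simp
    nlinarith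
  have hLl : 0 < L / Real.log z := by positivity
  have e1 : (1 + ε / 2) * L / (2 * Real.log z) = L / Real.log z * (1 / 2 + ε / 4) := by
    field_simp; ring
  have e2 : (1 / 2 + ε) * L / Real.log z = L / Real.log z * (1 / 2 + ε) := by ring
  rw [e2]
  rw [e1] at hpL
  have h9 : L / Real.log z * (8 / Real.log z + 8 * δ) ≤ L / Real.log z * (ε / 4) :=
    mul_le_mul_of_nonneg_left (by linarith) hLl.le
  nlinarith

end

end Pool.Agent.Lib.LargeAP
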