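import Pool.Agent.Lib.LargeAP.SpecG

/-!
# LargeAP: RGP, rough numbers with one exceptional prime
-/

set_option autoImplicit false

namespace Pool.Agent.Lib.LargeAP

open Finset Filter Topology
open scoped Classical

open Pool.Agent.Lib.MP_926cc3_nt.RS (V NoSmall)

namespace RGPM

/-- the number of `z`-rough numbers up to `Y` -/
noncomputable def R (z Y : ℕ) : ℕ := ((Icc 1 Y).filter (fun j => NoSmall z j)).card

theorem R_le_one {z Y : ℕ} (h : Y < z) : R z Y ≤ 1 := by
  unfold R
  have : (Icc 1 Y).filter (fun j => NoSmall z j) ⊆ {1} := by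
    intro j hj
    rw [mem_filter, mem_Icc] at hj
    rw [mem_singleton]
    by_contra hne
    obtain ⟨p, hp, hpj⟩ := Nat.exists_prime_and_dvd hne
    have h1 := hj.2 p hp hpj
    have h2 := Nat.le_of_dvd (by omega) hpj
    omega
  exact (card_le_card this).trans (by simp)

theorem card_le (z L p₀ : ℕ) (hp : p₀.Prime) :
    ((Icc 1 L).filter (fun j => ∀ p : ℕ, p.Prime → p ∣ j → p ≠ p₀ → z ≤ p)).card ≤
      ∑ i ∈ range (Nat.log 2 L + 1), R z (L / p₀ ^ i) := by
  have hsub : (Icc 1 L).filter (fun j => ∀ p : ℕ, p.Prime → p ∣ j → p ≠ p₀ → z ≤ p) ⊆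
      (range (Nat.log 2 L + 1)).biUnion (fun i =>
        ((Icc 1 (L / p₀ ^ i)).filter (fun j => NoSmall z j)).image (fun m => p₀ ^ i * m)) := by
    intro j hj
    rw [mem_filter, mem_Icc] at hj
    obtain ⟨⟨h1, h2⟩, h3⟩ := hj
    obtain ⟨e, m, hm, hj⟩ := Nat.exists_eq_pow_mul_and_not_dvd (by omega : j ≠ 0) p₀ hp.ne_one
    have hpe : 0 < p₀ ^ e := pow_pos hp.pos e
    have hm0 : 1 ≤ m := by
      rcases Nat.eq_zero_or_pos m with h | h
      · rw [h, mul_zero] at hj
        omega
      · exact h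
    have hle : p₀ ^ e ≤ L := by
      calc p₀ ^ e ≤ p₀ ^ e * m := Nat.le_mul_of_pos_right _ hm0
        _ ≤ L := by rw [← hj]; exact h2
    have he : e ≤ Nat.log 2 L := by
      apply Nat.le_log_of_pow_le (by norm_num)
      exact (Nat.pow_le_pow_left hp.two_le e).trans hle
    rw [mem_biUnion]
    refine ⟨e, mem_range.2 (by omega), ?_⟩
    rw [mem_image]
    refine ⟨m, ?_, hj.symm⟩
    rw [mem_filter, mem_Icc]
    refine ⟨⟨hm0, ?_⟩, ?_⟩
    · rw [Nat.le_div_iff_mul_le hpe, mul_comm, ← hj]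
      exact h2
    · intro p hpp hpm
      apply h3 p hpp
      · rw [hj]
        exact Dvd.dvd.mul_left hpm _
      · rintro rfl
        exact hm hpm
  refine (card_le_card hsub).trans (card_biUnion_le.trans (sum_le_sum fun i _ => ?_))
  exact card_image_le

theorem log_sq_le {z : ℝ} (hz : 1 ≤ z) : Real.log z ^ 2 ≤ 4 * z := by
  have hz0 : 0 < z := by linarith
  have h1 : Real.log (√z) ≤ √z - 1 := Real.log_le_sub_one_of_pos (Real.sqrt_pos.2 hz0)
  rw [Real.log_sqrt hz0.le] at h1
  have h2 : Real.log z ≤ 2 * √z := by linarith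
  have h3 : 0 ≤ Real.log z := Real.log_nonneg hz
  calc Real.log z ^ 2 ≤ (2 * √z) ^ 2 := pow_le_pow_left₀ h3 h2 2
    _ = 4 * z := by
      rw [mul_pow, Real.sq_sqrt hz0.le]
      norm_num

end RGPM

open RGPM in
theorem specRGP (hRGU : SpecRGU) (hRGC : SpecRGC) : SpecRGP := by
  intro ε hε
  obtain ⟨C, hC, hU⟩ := hRGU
  obtain ⟨δ, hδ, z₀, hR⟩ := hRGC (ε / 2) (by positivity)
  refine ⟨min δ 1, by positivity, ⌈8 * C / ε⌉₊, max z₀ (max 2 ⌈96 / ε⌉₊), ?_⟩
  intro z L p₀ hz hp hP hzL hLz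
  have hz0 : z₀ ≤ z := (le_max_left _ _).trans hz
  have hz2 : 2 ≤ z := ((le_max_left _ _).trans (le_max_right _ _)).trans hz
  have hz96 : 96 / ε ≤ (z : ℝ) := by
    refine (Nat.le_ceil _).trans ?_
    exact_mod_cast ((le_max_right _ _).trans (le_max_right _ _)).trans hz
  have hzr : (2 : ℝ) ≤ z := by exact_mod_cast hz2
  have hz1 : (1 : ℝ) ≤ z := by linarith
  have hlog : 0 < Real.log z := Real.log_pos (by linarith)
  have hL0 : 0 < L := lt_of_lt_of_le (by positivity) hzL
  have hL0r : (0 : ℝ) < L := by exact_mod_cast hL0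
  have hzLr : (z : ℝ) ^ 2 ≤ L := by exact_mod_cast hzL
  have hp2 : (2 : ℝ) ≤ p₀ := by exact_mod_cast hp.two_le
  have hp0 : (0 : ℝ) < p₀ := by linarith
  have hpC : 8 * C / ε ≤ (p₀ : ℝ) := by
    refine (Nat.le_ceil _).trans ?_
    exact_mod_cast hP.le
  -- `R z L`
  have h0 : (R z L : ℝ) ≤ (1 / 2 + ε / 2) * L / Real.log z := by
    apply hR z L hz0 hzL
    refine hLz.trans ?_
    exact Real.rpow_le_rpow_of_exponent_le hz1 (by linarith [min_le_left δ 1])
  -- the others
  have h1 : ∀ Y : ℕ, (R z Y : ℝ) ≤ C * Y / Real.log z + 1 := by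
    intro Y
    by_cases hY : z ≤ Y
    · have := hU z Y hz2 hY
      unfold R
      linarith
    · have h2 : (R z Y : ℝ) ≤ 1 := by exact_mod_cast R_le_one (not_le.1 hY)
      have h3 : 0 ≤ C * Y / Real.log z := by positivity
      linarith
  set k := Nat.log 2 L with hk
  have hsum : ∑ i ∈ range k, (R z (L / p₀ ^ (i + 1)) : ℝ) ≤ C * L / Real.log z * (2 / p₀) + k := by
    calc ∑ i ∈ range k, (R z (L / p₀ ^ (i + 1)) : ℝ)
        ≤ ∑ i ∈ range k, (C * L / Real.log z * (1 / p₀ * (1 / 2) ^ i) + 1) := by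
          refine sum_le_sum fun i _ => (h1 _).trans ?_
          have h4 : ((L / p₀ ^ (i + 1) : ℕ) : ℝ) ≤ L / (p₀ : ℝ) ^ (i + 1) := by
            have := Nat.cast_div_le (α := ℝ) (m := L) (n := p₀ ^ (i + 1))
            push_cast at this
            exact this
          have h5 : (L : ℝ) / (p₀ : ℝ) ^ (i + 1) ≤ L * (1 / p₀ * (1 / 2) ^ i) := by
            rw [div_eq_mul_one_div]
            refine mul_le_mul_of_nonneg_left ?_ hL0r.le
            rw [pow_succ, ← one_div_mul_one_div, mul_comm]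
            refine mul_le_mul_of_nonneg_left ?_ (by positivity)
            rw [← one_div_pow]
            refine pow_le_pow_left₀ (by positivity) ?_ i
            exact one_div_le_one_div_of_le (by norm_num) hp2
          have h6 : C * ((L / p₀ ^ (i + 1) : ℕ) : ℝ) / Real.log z ≤
              C * L / Real.log z * (1 / p₀ * (1 / 2) ^ i) := by
            calc C * ((L / p₀ ^ (i + 1) : ℕ) : ℝ) / Real.log z
                ≤ C * (L * (1 / p₀ * (1 / 2) ^ i)) / Real.log z := by
                  have := h4.trans h5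
                  gcongr
              _ = C * L / Real.log z * (1 / p₀ * (1 / 2) ^ i) := by ring
          linarith
      _ = C * L / Real.log z * (1 / p₀ * ∑ i ∈ range k, (1 / 2 : ℝ) ^ i) + k := by
          rw [sum_add_distrib, ← mul_sum, ← mul_sum]
          simp
      _ ≤ C * L / Real.log z * (2 / p₀) + k := by
          have h7 := sum_geometric_two_le k
          have h8 : 1 / (p₀ : ℝ) * ∑ i ∈ range k, (1 / 2 : ℝ) ^ i ≤ 2 / p₀ := by
            calc 1 / (p₀ : ℝ) * ∑ i ∈ range k, (1 / 2 : ℝ) ^ i ≤ 1 / (p₀ : ℝ) * 2 := by gcongr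
              _ = 2 / p₀ := by ring
          have h9 : 0 ≤ C * L / Real.log z := by positivity
          nlinarith
  -- the size of `k`
  have hlog2 : (1 / 2 : ℝ) ≤ Real.log 2 := by linarith [Real.log_two_gt_d9]
  have hk1 : (k : ℝ) * Real.log 2 ≤ 3 * Real.log z := by
    have h2 : (2 : ℝ) ^ k ≤ L := by exact_mod_cast Nat.pow_log_le_self 2 hL0.ne'
    have h3 : (k : ℝ) * Real.log 2 ≤ Real.log L := by
      rw [← Real.log_pow]
      exact Real.log_le_log (by positivity) h2
    have h4 : Real.log L ≤ (2 + min δ 1) * Real.log z := by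
      rw [← Real.log_rpow (by linarith)]
      exact Real.log_le_log hL0r hLz
    have h5 : (2 + min δ 1) * Real.log z ≤ 3 * Real.log z := by
      have := min_le_right δ 1
      nlinarith
    linarith
  have hk2 : (k : ℝ) ≤ 6 * Real.log z := by
    have : (k : ℝ) * (1 / 2) ≤ k * Real.log 2 :=
      mul_le_mul_of_nonneg_left hlog2 (Nat.cast_nonneg k)
    linarith
  have hk3 : (k : ℝ) ≤ ε / 4 * L / Real.log z := by
    rw [le_div_iff₀ hlog]
    have h2 := log_sq_le hz1
    have h3 : (k : ℝ) * Real.log z ≤ 6 * Real.log z * Real.log z :=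
      mul_le_mul_of_nonneg_right hk2 hlog.le
    have h4 : 96 ≤ ε * z := by
      have := (div_le_iff₀ hε).1 hz96
      linarith
    have h5 : 24 * (z : ℝ) ≤ ε / 4 * (z : ℝ) ^ 2 := by nlinarith
    have h6 : ε / 4 * (z : ℝ) ^ 2 ≤ ε / 4 * L := by
      apply mul_le_mul_of_nonneg_left hzLr
      positivity
    nlinarith
  have hp3 : C * L / Real.log z * (2 / p₀) ≤ ε / 4 * L / Real.log z := by
    have h2 : C * (2 / p₀) ≤ ε / 4 := by
      rw [div_le_iff₀ hε] at hpC
      rw [mul_div_assoc', div_le_iff₀ hp0]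
      linarith
    calc C * L / Real.log z * (2 / p₀) = C * (2 / p₀) * (L / Real.log z) := by ring
      _ ≤ ε / 4 * (L / Real.log z) := by
        apply mul_le_mul_of_nonneg_right h2
        positivity
      _ = ε / 4 * L / Real.log z := by ring
  have hmain : (((Icc 1 L).filter
      (fun j => ∀ p : ℕ, p.Prime → p ∣ j → p ≠ p₀ → z ≤ p)).card : ℝ) ≤
      ∑ i ∈ range (k + 1), (R z (L / p₀ ^ i) : ℝ) := by
    exact_mod_cast card_le z L p₀ hp
  rw [sum_range_succ', pow_zero, Nat.div_one] at hmain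
  have e1 : (1 / 2 + ε) * L / Real.log z = ε / 4 * L / Real.log z + ε / 4 * L / Real.log z +
      (1 / 2 + ε / 2) * L / Real.log z := by ring
  rw [e1]
  linarith

end Pool.Agent.Lib.LargeAP
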