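import Pool.Agent.Lib.LargeAP.SpecG
import Pool.Agent.Lib.MP_391708_nt.QPA.Bt
import Pool.Agent.Lib.MP_391708_nt.QPA.Selb

/-!
# LargeAP, module RGU: the upper bound for rough numbers
-/

set_option autoImplicit false

namespace Pool.Agent.Lib.LargeAP

open Finset Filter Topology
open scoped Classical

open Pool.Agent.Lib.MP_926cc3_nt.RS (V NoSmall)

noncomputable section

theorem specRGU : SpecRGU := by
  obtain ⟨C, hC, hBT⟩ := Pool.Agent.Lib.MP391708.QPA.specBT Pool.Agent.Lib.MP391708.QPA.specSELB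
  refine ⟨6 * C + 3, by positivity, fun z Y hz hzY => ?_⟩
  have hz2 : (2 : ℝ) ≤ z := by exact_mod_cast hz
  have hzY' : (z : ℝ) ≤ Y := by exact_mod_cast hzY
  have hlog : 0 < Real.log z := Real.log_pos (by linarith)
  have hY0 : (0 : ℝ) ≤ Y := Nat.cast_nonneg Y
  rcases lt_or_ge z 17 with h17 | h17
  · have h1 : (((Icc 1 Y).filter (fun j => NoSmall z j)).card : ℝ) ≤ Y := by
      have := Finset.card_filter_le (Icc 1 Y) (fun j => NoSmall z j)
      rw [Nat.card_Icc, Nat.add_sub_cancel] at this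
      exact_mod_cast this
    have h2 : Real.log z ≤ 3 := by
      have h3 : (z : ℝ) ≤ Real.exp 3 := by
        have h4 : (2.7 : ℝ) ≤ Real.exp 1 := by linarith [Real.exp_one_gt_d9]
        have h5 : Real.exp 3 = Real.exp 1 ^ 3 := by
          rw [← Real.exp_nat_mul]; norm_num
        have h6 : (2.7 : ℝ) ^ 3 ≤ Real.exp 1 ^ 3 := pow_le_pow_left₀ (by norm_num) h4 3
        have h7 : (z : ℝ) ≤ 16 := by exact_mod_cast Nat.lt_succ_iff.1 h17
        rw [h5]
        norm_num at h6
        linarith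
      exact (Real.log_le_iff_le_exp (by linarith)).2 h3
    refine h1.trans ?_
    rw [le_div_iff₀ hlog]
    nlinarith [mul_nonneg hC.le hY0, mul_le_mul_of_nonneg_left h2 hY0]
  · have h17' : (17 : ℝ) ≤ z := by exact_mod_cast h17
    set y : ℝ := (z : ℝ) ^ ((1 : ℝ) / 4) with hy
    have hz0 : (0 : ℝ) < z := by linarith
    have hy2 : 2 ≤ y := by
      have h1 : ((2 : ℝ) ^ (4 : ℕ)) ^ ((1 : ℝ) / 4) ≤ (z : ℝ) ^ ((1 : ℝ) / 4) :=
        Real.rpow_le_rpow (by positivity) (by norm_num; linarith) (by norm_num)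
      have h2 : ((2 : ℝ) ^ (4 : ℕ)) ^ ((1 : ℝ) / 4) = 2 := by
        rw [← Real.rpow_natCast, ← Real.rpow_mul (by norm_num)]
        norm_num
      rwa [h2] at h1
    have hyz : y < z := by
      have h1 : (z : ℝ) ^ ((1 : ℝ) / 4) < (z : ℝ) ^ (1 : ℝ) :=
        Real.rpow_lt_rpow_of_exponent_lt (by linarith) (by norm_num)
      rwa [Real.rpow_one] at h1
    have hb := hBT y z 1 0 0 Y hy2 hyz le_rfl
    have hly : Real.log y = Real.log z / 4 := by
      rw [hy, Real.log_rpow hz0]; ring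
    have hy22 : y ^ 2 = √(z : ℝ) := by
      rw [hy, Real.sqrt_eq_rpow, ← Real.rpow_natCast, ← Real.rpow_mul hz0.le]
      norm_num
    have hsub : (Icc 1 Y).filter (fun j => NoSmall z j) ⊆
        (Ioc 0 (0 + Y)).filter (fun u => u % 1 = 0 ∧ Pool.Agent.Lib.MP391708.QPA.Rough z u) := by
      intro j hj
      simp only [Finset.mem_filter, Finset.mem_Icc, Finset.mem_Ioc] at hj ⊢
      exact ⟨⟨by omega, by omega⟩, Nat.mod_one j, fun p hp hpj => by exact_mod_cast hj.2 p hp hpj⟩
    have hcard : (((Icc 1 Y).filter (fun j => NoSmall z j)).card : ℝ) ≤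
        C * Y / (((1 : ℕ).totient : ℝ) * Real.log y) + C * y ^ 2 :=
      le_trans (by exact_mod_cast Finset.card_le_card hsub) hb
    rw [Nat.totient_one, Nat.cast_one, one_mul, hly, hy22] at hcard
    have hsq : √(z : ℝ) ≤ 2 * Y / Real.log z := by
      rw [le_div_iff₀ hlog]
      have h1 : Real.log z ≤ 2 * √(z : ℝ) := by
        have h2 := Real.log_sqrt hz0.le
        have h3 := Real.log_le_sub_one_of_pos (Real.sqrt_pos.2 hz0)
        linarith
      have h4 : √(z : ℝ) * √(z : ℝ) = z := Real.mul_self_sqrt hz0.le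
      have h5 := mul_le_mul_of_nonneg_left h1 (Real.sqrt_nonneg (z : ℝ))
      nlinarith
    refine hcard.trans ?_
    have h6 : C * Y / (Real.log z / 4) = 4 * C * Y / Real.log z := by
      field_simp
    have h7 : C * √(z : ℝ) ≤ C * (2 * Y / Real.log z) := mul_le_mul_of_nonneg_left hsq hC.le
    have h8 : (6 * C + 3) * Y / Real.log z = 4 * C * Y / Real.log z + C * (2 * Y / Real.log z) +
        3 * Y / Real.log z := by
      field_simp
      ring
    rw [h6, h8]
    have h9 : 0 ≤ 3 * (Y : ℝ) / Real.log z := by positivity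
    linarith

end

end Pool.Agent.Lib.LargeAP
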