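import Pool.Agent.Lib.LargeAP.Spec
import Pool.Agent.Lib.LP.REC

/-!
# LargeAP, module SHG: the shift of a vertical line to the abscissa 3/4
-/

set_option autoImplicit false

namespace Pool.Agent.Lib.LargeAP

open MeasureTheory Filter Topology

namespace SHGM

/-- the weight which majorizes everything -/
noncomputable def W (lam : ℝ) (k : ℕ) (t : ℝ) : ℝ := (3 + |t|) ^ k * Real.exp (-(1 / (4 * lam)) * t ^ 2)

lemma W_nonneg (lam : ℝ) (k : ℕ) (t : ℝ) : 0 ≤ W lam k t := by
  unfold W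
  positivity

lemma int_exp (b c : ℝ) (hb : 0 < b) :
    Integrable (fun r : ℝ => Real.exp (-b * r ^ 2 + c * r)) := by
  have hb' : ((-b : ℝ) : ℂ).re < 0 := by
    rw [Complex.ofReal_re]; linarith
  have h := (integrable_cexp_quadratic' hb' (c : ℂ) 0).re
  refine h.congr (Filter.Eventually.of_forall (fun r => ?_))
  have h1 : ((-b : ℝ) : ℂ) * (r : ℂ) ^ 2 + (c : ℂ) * (r : ℂ) + 0 =
      ((-b * r ^ 2 + c * r : ℝ) : ℂ) := by push_cast; ring
  show RCLike.re (Complex.exp (((-b : ℝ) : ℂ) * (r : ℂ) ^ 2 + (c : ℂ) * (r : ℂ) + 0)) = _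
  rw [h1, ← Complex.ofReal_exp]
  exact Complex.ofReal_re _

lemma tend_exp (b c : ℝ) (hb : 0 < b) :
    Tendsto (fun r : ℝ => Real.exp (-b * r ^ 2 + c * r)) atTop (𝓝 0) := by
  have h1 : Tendsto (fun r : ℝ => (b * r - c) * r) atTop atTop := by
    refine Tendsto.atTop_mul_atTop₀ ?_ tendsto_id
    exact tendsto_atTop_add_const_right _ (-c) (tendsto_id.const_mul_atTop hb)
  refine (Real.tendsto_exp_neg_atTop_nhds_zero.comp h1).congr (fun r => ?_)
  simp only [Function.comp]
  congr 1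
  ring

lemma pow_le_exp (k : ℕ) (t : ℝ) : (3 + |t|) ^ k ≤
    (k.factorial : ℝ) * Real.exp 3 * (Real.exp t + Real.exp (-t)) := by
  have h0 : 0 ≤ 3 + |t| := by positivity
  have h1 := Real.pow_div_factorial_le_exp (3 + |t|) h0 k
  have hf : (0 : ℝ) < (k.factorial : ℝ) := by exact_mod_cast Nat.factorial_pos k
  rw [div_le_iff₀ hf] at h1
  have h2 : Real.exp |t| ≤ Real.exp t + Real.exp (-t) := by
    rcases abs_choice t with h | h
    · rw [h]
      have := Real.exp_pos (-t)
      linarith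
    · rw [h]
      have := Real.exp_pos t
      linarith
  calc (3 + |t|) ^ k ≤ Real.exp (3 + |t|) * (k.factorial : ℝ) := h1
    _ = (k.factorial : ℝ) * Real.exp 3 * Real.exp |t| := by rw [Real.exp_add]; ring
    _ ≤ _ := mul_le_mul_of_nonneg_left h2 (by positivity)

lemma W_le (lam : ℝ) (k : ℕ) (t : ℝ) : W lam k t ≤ (k.factorial : ℝ) * Real.exp 3 *
    (Real.exp (-(1 / (4 * lam)) * t ^ 2 + 1 * t) + Real.exp (-(1 / (4 * lam)) * t ^ 2 + (-1) * t)) := by
  unfold W
  have h := mul_le_mul_of_nonneg_right (pow_le_exp k t) (Real.exp_pos (-(1 / (4 * lam)) * t ^ 2)).le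
  refine h.trans (le_of_eq ?_)
  rw [Real.exp_add, Real.exp_add, one_mul, neg_one_mul]
  ring

lemma W_int (lam : ℝ) (k : ℕ) (hl : 0 < lam) : Integrable (W lam k) := by
  have hb : 0 < 1 / (4 * lam) := by positivity
  refine Integrable.mono' (((int_exp _ 1 hb).add (int_exp _ (-1) hb)).const_mul
    ((k.factorial : ℝ) * Real.exp 3)) ?_ ?_
  · have : Continuous (W lam k) := by
      unfold W
      fun_prop
    exact this.aestronglyMeasurable
  · refine Filter.Eventually.of_forall (fun t => ?_)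
    rw [Real.norm_eq_abs, abs_of_nonneg (W_nonneg lam k t)]
    exact W_le lam k t

lemma W_tend (lam : ℝ) (k : ℕ) (hl : 0 < lam) : Tendsto (W lam k) atTop (𝓝 0) := by
  have hb : 0 < 1 / (4 * lam) := by positivity
  have h := ((tend_exp _ 1 hb).add (tend_exp _ (-1) hb)).const_mul ((k.factorial : ℝ) * Real.exp 3)
  rw [add_zero, mul_zero] at h
  exact squeeze_zero (fun t => W_nonneg lam k t) (fun t => W_le lam k t) h

lemma KG_norm (lam u σ t : ℝ) :
    ‖KG lam u ((σ : ℂ) + t * Complex.I)‖ = Real.exp (σ * u + (σ ^ 2 - t ^ 2) / (4 * lam)) := by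
  unfold KG
  rw [Complex.norm_exp]
  congr 1
  have h : ((σ : ℂ) + t * Complex.I) * u + ((σ : ℂ) + t * Complex.I) ^ 2 / (4 * lam) =
      ((σ * u + (σ ^ 2 - t ^ 2) / (4 * lam) : ℝ) : ℂ) +
        ((t * u + 2 * σ * t / (4 * lam) : ℝ) : ℂ) * Complex.I := by
    push_cast
    linear_combination ((t : ℂ) ^ 2 / (4 * lam)) * Complex.I_sq
  rw [h]
  simp only [Complex.add_re, Complex.ofReal_re, Complex.re_ofReal_mul, Complex.I_re, mul_zero,
    add_zero]

lemma bound (lam : ℝ) (k : ℕ) (hl : 0 < lam) (f : ℂ → ℂ) (A u : ℝ) (hA : 0 ≤ A)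
    (hf : ∀ s : ℂ, 3 / 4 ≤ s.re → s.re ≤ 2 → ‖f s‖ ≤ A * (1 + ‖s‖) ^ k) (σ t : ℝ)
    (h1 : 3 / 4 ≤ σ) (h2 : σ ≤ 2) :
    ‖f ((σ : ℂ) + t * Complex.I) * KG lam u ((σ : ℂ) + t * Complex.I)‖ ≤
      A * Real.exp (σ * u) * Real.exp (1 / lam) * W lam k t := by
  rw [norm_mul, KG_norm]
  have hre : ((σ : ℂ) + t * Complex.I).re = σ := by simp
  have h3 := hf ((σ : ℂ) + t * Complex.I) (by rw [hre]; exact h1) (by rw [hre]; exact h2)
  have h4 : ‖(σ : ℂ) + t * Complex.I‖ ≤ 2 + |t| := by
    refine (norm_add_le _ _).trans ?_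
    rw [norm_mul, Complex.norm_I, mul_one, Complex.norm_real, Complex.norm_real,
      Real.norm_eq_abs, Real.norm_eq_abs, abs_of_nonneg (by linarith : 0 ≤ σ)]
    linarith
  have h5 : ‖f ((σ : ℂ) + t * Complex.I)‖ ≤ A * (3 + |t|) ^ k := by
    refine h3.trans (mul_le_mul_of_nonneg_left ?_ hA)
    exact pow_le_pow_left₀ (by positivity) (by linarith) k
  have h6 : Real.exp (σ * u + (σ ^ 2 - t ^ 2) / (4 * lam)) ≤
      Real.exp (σ * u) * Real.exp (1 / lam) * Real.exp (-(1 / (4 * lam)) * t ^ 2) := by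
    rw [← Real.exp_add, ← Real.exp_add]
    apply Real.exp_le_exp.mpr
    have h7 : σ ^ 2 / (4 * lam) ≤ 1 / lam := by
      have h9 : σ ^ 2 ≤ 4 := by nlinarith
      rw [div_le_div_iff₀ (by positivity) hl]
      have h10 := mul_le_mul_of_nonneg_right h9 hl.le
      linarith
    have h8 : (σ ^ 2 - t ^ 2) / (4 * lam) = σ ^ 2 / (4 * lam) + -(1 / (4 * lam)) * t ^ 2 := by ring
    rw [h8]
    linarith
  calc ‖f ((σ : ℂ) + t * Complex.I)‖ * Real.exp (σ * u + (σ ^ 2 - t ^ 2) / (4 * lam)) ≤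
      (A * (3 + |t|) ^ k) *
        (Real.exp (σ * u) * Real.exp (1 / lam) * Real.exp (-(1 / (4 * lam)) * t ^ 2)) :=
        mul_le_mul h5 h6 (Real.exp_pos _).le (by positivity)
    _ = _ := by unfold W; ring

lemma cont_line (lam u σ : ℝ) (f : ℂ → ℂ) (hf : Differentiable ℂ f) :
    Continuous (fun t : ℝ => f ((σ : ℂ) + t * Complex.I) * KG lam u ((σ : ℂ) + t * Complex.I)) := by
  have h1 : Continuous f := hf.continuous
  unfold KG
  fun_prop

lemma diff_F (lam u : ℝ) (f : ℂ → ℂ) (hf : Differentiable ℂ f) :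
    Differentiable ℂ (fun s : ℂ => f s * KG lam u s) := by
  unfold KG
  fun_prop

lemma int_line (lam : ℝ) (k : ℕ) (hl : 0 < lam) (f : ℂ → ℂ) (A u : ℝ) (hA : 0 ≤ A)
    (hd : Differentiable ℂ f)
    (hf : ∀ s : ℂ, 3 / 4 ≤ s.re → s.re ≤ 2 → ‖f s‖ ≤ A * (1 + ‖s‖) ^ k) (σ : ℝ)
    (h1 : 3 / 4 ≤ σ) (h2 : σ ≤ 2) :
    Integrable (fun t : ℝ => f ((σ : ℂ) + t * Complex.I) * KG lam u ((σ : ℂ) + t * Complex.I)) := by
  refine Integrable.mono' ((W_int lam k hl).const_mul (A * Real.exp (σ * u) * Real.exp (1 / lam))) ?_ ?_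
  · exact (cont_line lam u σ f hd).aestronglyMeasurable
  · exact Filter.Eventually.of_forall (fun t => bound lam k hl f A u hA hf σ t h1 h2)

end SHGM

open SHGM in
theorem specSHG : SpecSHG := by
  intro lam k hl
  have hI0 : 0 ≤ ∫ t : ℝ, W lam k t := integral_nonneg (fun t => W_nonneg lam k t)
  refine ⟨Real.exp (1 / lam) * (∫ t : ℝ, W lam k t) + 1, by positivity, ?_⟩
  intro f A u c hA hu hc1 hc2 hd hf
  have hint := int_line lam k hl f A u hA hd hf c (by linarith) hc2
  refine ⟨hint, ?_⟩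
  -- limits as the height tends to infinity
  have hL : Tendsto (fun T : ℝ => ‖∫ t in (-T)..T, f ((c : ℂ) + t * Complex.I) *
      KG lam u ((c : ℂ) + t * Complex.I)‖) atTop
      (𝓝 ‖∫ t : ℝ, f ((c : ℂ) + t * Complex.I) * KG lam u ((c : ℂ) + t * Complex.I)‖) :=
    (intervalIntegral_tendsto_integral hint tendsto_neg_atTop_atBot tendsto_id).norm
  have hR : Tendsto (fun T : ℝ => A * Real.exp (3 * u / 4) * Real.exp (1 / lam) * (∫ t : ℝ, W lam k t) +
      2 * (A * Real.exp (2 * u) * Real.exp (1 / lam) * W lam k T * 2)) atTop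
      (𝓝 (A * Real.exp (3 * u / 4) * Real.exp (1 / lam) * (∫ t : ℝ, W lam k t) +
      2 * (A * Real.exp (2 * u) * Real.exp (1 / lam) * 0 * 2))) :=
    ((((W_tend lam k hl).const_mul _).mul_const 2).const_mul 2).const_add _
  have hle : ∀ᶠ T : ℝ in atTop, ‖∫ t in (-T)..T, f ((c : ℂ) + t * Complex.I) *
      KG lam u ((c : ℂ) + t * Complex.I)‖ ≤
      A * Real.exp (3 * u / 4) * Real.exp (1 / lam) * (∫ t : ℝ, W lam k t) +
      2 * (A * Real.exp (2 * u) * Real.exp (1 / lam) * W lam k T * 2) := by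
    filter_upwards [eventually_ge_atTop (0 : ℝ)] with T hT
    have hrec := LP.specREC (fun s => f s * KG lam u s) (3 / 4) c T (by linarith) hT
      (fun σ t _ _ _ => (diff_F lam u f hd) _)
    refine hrec.trans ?_
    -- the vertical side
    have hv : ‖∫ t in (-T)..T, f (((3 / 4 : ℝ) : ℂ) + t * Complex.I) *
        KG lam u (((3 / 4 : ℝ) : ℂ) + t * Complex.I)‖ ≤
        A * Real.exp (3 * u / 4) * Real.exp (1 / lam) * (∫ t : ℝ, W lam k t) := by
      have hTT : -T ≤ T := by linarith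
      calc ‖∫ t in (-T)..T, f (((3 / 4 : ℝ) : ℂ) + t * Complex.I) *
            KG lam u (((3 / 4 : ℝ) : ℂ) + t * Complex.I)‖ ≤
          ∫ t in (-T)..T, A * Real.exp (3 / 4 * u) * Real.exp (1 / lam) * W lam k t := by
            refine intervalIntegral.norm_integral_le_of_norm_le hTT ?_ ?_
            · exact Filter.Eventually.of_forall (fun t _ =>
                bound lam k hl f A u hA hf (3 / 4) t le_rfl (by norm_num))
            · exact ((W_int lam k hl).const_mul _).intervalIntegrable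
        _ = A * Real.exp (3 / 4 * u) * Real.exp (1 / lam) * ∫ t in (-T)..T, W lam k t :=
            intervalIntegral.integral_const_mul _ _
        _ ≤ A * Real.exp (3 / 4 * u) * Real.exp (1 / lam) * ∫ t : ℝ, W lam k t := by
            refine mul_le_mul_of_nonneg_left ?_ (by positivity)
            rw [intervalIntegral.integral_of_le hTT]
            exact setIntegral_le_integral (W_int lam k hl)
              (Filter.Eventually.of_forall (fun t => W_nonneg lam k t))
        _ = _ := by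
            rw [show 3 / 4 * u = 3 * u / 4 by ring]
    -- the horizontal sides
    have hh : ∀ T' : ℝ, |T'| = T → ‖∫ σ in (3 / 4 : ℝ)..c, f ((σ : ℂ) + T' * Complex.I) *
        KG lam u ((σ : ℂ) + T' * Complex.I)‖ ≤
        A * Real.exp (2 * u) * Real.exp (1 / lam) * W lam k T * 2 := by
      intro T' hT'
      have hW : W lam k T' = W lam k T := by
        unfold W
        rw [hT', abs_of_nonneg hT, ← sq_abs T', hT']
      have h1 : ∀ σ ∈ Set.uIoc (3 / 4 : ℝ) c, ‖f ((σ : ℂ) + T' * Complex.I) *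
          KG lam u ((σ : ℂ) + T' * Complex.I)‖ ≤
          A * Real.exp (2 * u) * Real.exp (1 / lam) * W lam k T := by
        intro σ hσ
        rw [Set.uIoc_of_le (by linarith)] at hσ
        obtain ⟨hσ1, hσ2⟩ := hσ
        have h2 := bound lam k hl f A u hA hf σ T' hσ1.le (by linarith)
        rw [hW] at h2
        refine h2.trans ?_
        have h3 : Real.exp (σ * u) ≤ Real.exp (2 * u) := by
          apply Real.exp_le_exp.mpr
          exact mul_le_mul_of_nonneg_right (by linarith) hu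
        have hWn := W_nonneg lam k T
        gcongr
      have h4 := intervalIntegral.norm_integral_le_of_norm_le_const h1
      refine h4.trans ?_
      have h5 : |c - 3 / 4| ≤ 2 := by
        rw [abs_of_nonneg (by linarith)]
        linarith
      have hWn := W_nonneg lam k T
      exact mul_le_mul_of_nonneg_left h5 (by positivity)
    have hh1 := hh T (abs_of_nonneg hT)
    have hh2 := hh (-T) (by rw [abs_neg, abs_of_nonneg hT])
    have hsum := add_le_add (add_le_add hv hh1) hh2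
    refine hsum.trans (le_of_eq ?_)
    ring
  have hfin := le_of_tendsto_of_tendsto hL hR hle
  refine hfin.trans ?_
  have h9 : 0 ≤ A * Real.exp (3 * u / 4) := by positivity
  calc A * Real.exp (3 * u / 4) * Real.exp (1 / lam) * (∫ t : ℝ, W lam k t) +
      2 * (A * Real.exp (2 * u) * Real.exp (1 / lam) * 0 * 2) =
      (Real.exp (1 / lam) * (∫ t : ℝ, W lam k t)) * (A * Real.exp (3 * u / 4)) := by ring
    _ ≤ (Real.exp (1 / lam) * (∫ t : ℝ, W lam k t) + 1) * (A * Real.exp (3 * u / 4)) :=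
        mul_le_mul_of_nonneg_right (by linarith) h9
    _ = _ := by ring

end Pool.Agent.Lib.LargeAP
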