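import Pool.Agent.Lib.LargeAP.Spec

/-!
# LargeAP, module SUM: all characters
-/

set_option autoImplicit false

namespace Pool.Agent.Lib.LargeAP

open Finset Filter Topology Complex Metric
open scoped Classical ArithmeticFunction

namespace SUMM

lemma card_chars (q : ℕ) [NeZero q] (S : Finset (DirichletCharacter ℂ q)) :
    (S.card : ℝ) ≤ q := by
  have h : Nat.card (DirichletCharacter ℂ q) = q.totient :=
    DirichletCharacter.card_eq_totient_of_hasEnoughRootsOfUnity ℂ q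
  have h1 : S.card ≤ q.totient := by
    rw [← h, Nat.card_eq_fintype_card]
    exact Finset.card_le_univ S
  exact_mod_cast h1.trans (Nat.totient_le q)

lemma cont_Mp {q : ℕ} (χ : DirichletCharacter ℂ q) (Y : ℕ) : Continuous (fun s => Mp χ Y s) := by
  unfold Mp
  refine continuous_finsetSum _ (fun m hm => ?_)
  have hm1 : 1 ≤ m := (Finset.mem_Icc.1 hm).1
  have hm0 : (m : ℂ) ≠ 0 := by
    exact_mod_cast (by omega : m ≠ 0)
  refine continuous_const.mul ?_
  refine Continuous.const_cpow continuous_neg (Or.inl hm0)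

lemma cont_integrand {q : ℕ} [NeZero q] (χ : DirichletCharacter ℂ q) (hχ : χ ≠ 1)
    (lam c B : ℝ) : Continuous (fun t : ℝ =>
      ‖1 - DirichletCharacter.LFunction χ ((1 - c / (2 * B) : ℝ) + t * Complex.I)
      * Mp χ (YB B) ((1 - c / (2 * B) : ℝ) + t * Complex.I)‖ ^ 2
        * Real.exp (-(t ^ 2) / (4 * lam))) := by
  have h1 : Continuous (fun t : ℝ => (((1 - c / (2 * B) : ℝ) : ℂ) + t * Complex.I)) := by
    fun_prop
  have h2 : Continuous (DirichletCharacter.LFunction χ) :=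
    (DirichletCharacter.differentiable_LFunction hχ).continuous
  have h3 := h2.comp h1
  have h4 := (cont_Mp χ (YB B)).comp h1
  have h5 : Continuous (fun t : ℝ => Real.exp (-(t ^ 2) / (4 * lam))) := by fun_prop
  exact (((continuous_const.sub (h3.mul h4)).norm).pow 2).mul h5

lemma gauss_integrable (lam : ℝ) (hlam : 0 < lam) :
    MeasureTheory.Integrable (fun t : ℝ => Real.exp (-(t ^ 2) / (4 * lam))) := by
  have h := integrable_exp_neg_mul_sq (b := 1 / (4 * lam)) (by positivity)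
  refine h.congr (Filter.Eventually.of_forall (fun t => ?_))
  simp only
  congr 1
  ring

lemma sum_IM (C₂ : ℝ) (hC₂ : 0 < C₂)
    (h2 : ∀ (q : ℕ) [NeZero q] (B : ℝ) (s : ℂ), 16 ≤ B → (q : ℝ) ≤ Real.exp B →
      1 - 1 / B ≤ s.re → s.re ≤ 2 → |s.im| ≤ Real.exp B →
      ∑ χ ∈ (univ : Finset (DirichletCharacter ℂ q)).erase 1,
        ‖1 - DirichletCharacter.LFunction χ s * Mp χ (YB B) s‖ ^ 2 ≤ C₂ * B ^ 4)
    (lam c B : ℝ) (hlam : 0 < lam) (hc : 0 < c) (hc1 : c ≤ 1) (hB : 16 ≤ B) (q : ℕ) [NeZero q]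
    (hq : (q : ℝ) ≤ Real.exp B) (S : Finset (DirichletCharacter ℂ q)) (hS : ∀ χ ∈ S, χ ≠ 1) :
    ∑ χ ∈ S, IM χ lam c B ≤ C₂ * B ^ 4 * ∫ t : ℝ, Real.exp (-(t ^ 2) / (4 * lam)) := by
  have hT : -(Real.exp B - 1) ≤ Real.exp B - 1 := by
    have : (1 : ℝ) ≤ Real.exp B := Real.one_le_exp (by linarith)
    linarith
  have hB0 : 0 < B := by linarith
  unfold IM
  rw [← intervalIntegral.integral_finsetSum
    (fun χ hχ => (cont_integrand χ (hS χ hχ) lam c B).intervalIntegrable _ _)]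
  have hmono : ∫ t in (-(Real.exp B - 1))..(Real.exp B - 1), (∑ χ ∈ S,
      ‖1 - DirichletCharacter.LFunction χ ((1 - c / (2 * B) : ℝ) + t * Complex.I)
      * Mp χ (YB B) ((1 - c / (2 * B) : ℝ) + t * Complex.I)‖ ^ 2
        * Real.exp (-(t ^ 2) / (4 * lam))) ≤
      ∫ t in (-(Real.exp B - 1))..(Real.exp B - 1),
        C₂ * B ^ 4 * Real.exp (-(t ^ 2) / (4 * lam)) := by
    refine intervalIntegral.integral_mono_on hT ?_ ?_ (fun t ht => ?_)
    · exact (continuous_finsetSum _ (fun χ hχ =>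
        cont_integrand χ (hS χ hχ) lam c B)).intervalIntegrable _ _
    · exact (by fun_prop : Continuous (fun t : ℝ => C₂ * B ^ 4
        * Real.exp (-(t ^ 2) / (4 * lam)))).intervalIntegrable _ _
    · rw [← Finset.sum_mul]
      refine mul_le_mul_of_nonneg_right ?_ (Real.exp_pos _).le
      have hre : ((((1 - c / (2 * B) : ℝ) : ℂ) + t * Complex.I)).re = 1 - c / (2 * B) := by
        rw [Complex.add_re, Complex.ofReal_re, Complex.re_ofReal_mul, Complex.I_re, mul_zero,
          add_zero]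
      have him : ((((1 - c / (2 * B) : ℝ) : ℂ) + t * Complex.I)).im = t := by
        rw [Complex.add_im, Complex.ofReal_im, Complex.im_ofReal_mul, Complex.I_im, mul_one,
          zero_add]
      have hcB : c / (2 * B) ≤ 1 / B := by
        rw [div_le_div_iff₀ (by positivity) hB0]
        nlinarith
      have hcB0 : 0 ≤ c / (2 * B) := by positivity
      refine le_trans ?_ (h2 q B (((1 - c / (2 * B) : ℝ) : ℂ) + t * Complex.I) hB hq ?_ ?_ ?_)
      · refine Finset.sum_le_sum_of_subset_of_nonneg ?_ (fun _ _ _ => by positivity)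
        intro χ hχ
        exact Finset.mem_erase.2 ⟨hS χ hχ, Finset.mem_univ χ⟩
      · rw [hre]; linarith
      · rw [hre]; linarith
      · rw [him, abs_le]
        constructor
        · linarith [ht.1]
        · linarith [ht.2]
  refine hmono.trans ?_
  rw [intervalIntegral.integral_const_mul]
  refine mul_le_mul_of_nonneg_left ?_ (by positivity)
  rw [intervalIntegral.integral_of_le hT]
  exact MeasureTheory.setIntegral_le_integral (gauss_integrable lam hlam)
    (Filter.Eventually.of_forall (fun t => (Real.exp_pos _).le))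

/-! ### the limits -/

lemma lim1 (θ δ : ℝ) (h1 : θ < 1) (hδ : 0 < δ) :
    ∀ᶠ u : ℝ in atTop, Real.exp (18 * u ^ θ - u / 4) ≤ δ := by
  have ha : ∀ᶠ u : ℝ in atTop, u ^ (-(1 - θ)) ≤ 1 / 144 :=
    (tendsto_rpow_neg_atTop (by linarith : 0 < 1 - θ)).eventually_le_const (by norm_num)
  have hb : Tendsto (fun u : ℝ => Real.exp (-(u / 8))) atTop (𝓝 0) := by
    refine Real.tendsto_exp_neg_atTop_nhds_zero.comp ?_
    exact tendsto_id.atTop_div_const (by norm_num)
  filter_upwards [ha, hb.eventually_le_const hδ, eventually_gt_atTop 0] with u hu1 hu2 hu3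
  refine le_trans (Real.exp_le_exp.2 ?_) hu2
  have h3 : u ^ θ = u * u ^ (-(1 - θ)) := by
    have h4 := Real.rpow_add hu3 1 (-(1 - θ))
    rw [Real.rpow_one] at h4
    rw [← h4]
    congr 1
    ring
  rw [h3]
  nlinarith

lemma lim2 (θ δ : ℝ) (h0 : 0 < θ) (hδ : 0 < δ) :
    ∀ᶠ u : ℝ in atTop, u ^ 3 * Real.exp (-(3 / 2) * u ^ θ) ≤ δ := by
  have h := (tendsto_rpow_mul_exp_neg_mul_atTop_nhds_zero (3 / θ) (3 / 2) (by norm_num)).comp
    (tendsto_rpow_atTop h0)
  filter_upwards [h.eventually_le_const hδ, eventually_gt_atTop 0] with u hu1 hu2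
  have h3 : (u ^ θ) ^ (3 / θ) = u ^ 3 := by
    rw [← Real.rpow_mul hu2.le, mul_div_cancel₀ _ h0.ne']
    norm_cast
  simp only [Function.comp_apply] at hu1
  rw [h3] at hu1
  exact hu1

lemma lim3 (θ δ c K : ℝ) (h1 : θ < 1) (hδ : 0 < δ) (hc : 0 < c) (_hK : 0 ≤ K) :
    ∀ᶠ u : ℝ in atTop, K * ((u ^ θ) ^ 5 * Real.exp (-(c / 4) * u ^ (1 - θ))) ≤ δ := by
  have h2 : 0 < 1 - θ := by linarith
  have h := (tendsto_rpow_mul_exp_neg_mul_atTop_nhds_zero (θ * 5 / (1 - θ)) (c / 4)
    (by positivity)).comp (tendsto_rpow_atTop h2)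
  have h' := h.const_mul K
  rw [mul_zero] at h'
  filter_upwards [h'.eventually_le_const hδ, eventually_gt_atTop 0] with u hu1 hu2
  have h3 : (u ^ (1 - θ)) ^ (θ * 5 / (1 - θ)) = (u ^ θ) ^ 5 := by
    rw [← Real.rpow_mul hu2.le, mul_div_cancel₀ _ h2.ne', Real.rpow_mul hu2.le]
    norm_cast
  simp only [Function.comp_apply] at hu1
  rw [h3] at hu1
  exact hu1

end SUMM

open SUMM in
theorem specSUM (hASM : SpecASM) (hMV : SpecMV) : SpecSUM := by
  intro lam θ c ε hlam hθ hθ1 hc hc1 hε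
  obtain ⟨C₁, hC₁, h1⟩ := hASM lam c hlam hc hc1
  obtain ⟨C₂, hC₂, h2⟩ := hMV
  set K : ℝ := ∫ t : ℝ, Real.exp (-(t ^ 2) / (4 * lam))
  have hK0 : 0 ≤ K := MeasureTheory.integral_nonneg (fun t => (Real.exp_pos _).le)
  have hδ : 0 < ε / (3 * C₁) := by positivity
  have hev := (((lim1 θ _ hθ1 hδ).and (lim2 θ _ hθ hδ)).and
    (lim3 θ _ c (32 * (C₂ * K)) hθ1 hδ hc (by positivity))).and
    ((eventually_ge_atTop (16 : ℝ)).and ((tendsto_rpow_atTop hθ).eventually_ge_atTop 32))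
  obtain ⟨U₀, hU₀⟩ := eventually_atTop.1 hev
  refine ⟨U₀, ?_⟩
  intro u B hu hBl hBu q _ hq S hS
  obtain ⟨⟨⟨l1, l2⟩, l3⟩, hu16, hu32⟩ := hU₀ u hu
  have hB : 16 ≤ B := by linarith
  have hu0 : 0 < u := by linarith
  have hB0 : 0 < B := by linarith
  have hsum : ∑ χ ∈ S, ‖LP.F lam χ u‖ ≤ ∑ χ ∈ S, C₁ * (Real.exp (8 * B + 3 * u / 4)
      + u ^ 3 * Real.exp (u - 4 * B)
      + B * Real.exp (u - c * u / (2 * B)) * IM χ lam c B) :=
    Finset.sum_le_sum (fun χ hχ => h1 q χ B u (hS χ hχ).1 hB hq (hS χ hχ).2 hu16)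
  refine hsum.trans ?_
  rw [← Finset.mul_sum, Finset.sum_add_distrib, Finset.sum_const, nsmul_eq_mul,
    ← Finset.mul_sum]
  have hIM := sum_IM C₂ hC₂ h2 lam c B hlam hc hc1 hB q hq S (fun χ hχ => (hS χ hχ).1)
  have hcard : (S.card : ℝ) ≤ Real.exp B := (card_chars q S).trans hq
  have huθ0 : 0 < u ^ θ := Real.rpow_pos_of_pos hu0 θ
  -- the three terms
  have t1 : (S.card : ℝ) * Real.exp (8 * B + 3 * u / 4) ≤ ε / (3 * C₁) * Real.exp u := by
    calc (S.card : ℝ) * Real.exp (8 * B + 3 * u / 4)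
        ≤ Real.exp B * Real.exp (8 * B + 3 * u / 4) :=
          mul_le_mul_of_nonneg_right hcard (Real.exp_pos _).le
      _ = Real.exp (9 * B - u / 4) * Real.exp u := by
          rw [← Real.exp_add, ← Real.exp_add]; congr 1; ring
      _ ≤ Real.exp (18 * u ^ θ - u / 4) * Real.exp u := by
          refine mul_le_mul_of_nonneg_right (Real.exp_le_exp.2 (by linarith)) (Real.exp_pos _).le
      _ ≤ ε / (3 * C₁) * Real.exp u := mul_le_mul_of_nonneg_right l1 (Real.exp_pos _).le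
  have t2 : (S.card : ℝ) * (u ^ 3 * Real.exp (u - 4 * B)) ≤ ε / (3 * C₁) * Real.exp u := by
    calc (S.card : ℝ) * (u ^ 3 * Real.exp (u - 4 * B))
        ≤ Real.exp B * (u ^ 3 * Real.exp (u - 4 * B)) :=
          mul_le_mul_of_nonneg_right hcard (by positivity)
      _ = u ^ 3 * Real.exp (-3 * B) * Real.exp u := by
          rw [mul_left_comm, ← Real.exp_add, mul_assoc, ← Real.exp_add]; congr 2; ring
      _ ≤ u ^ 3 * Real.exp (-(3 / 2) * u ^ θ) * Real.exp u := by
          refine mul_le_mul_of_nonneg_right (mul_le_mul_of_nonneg_left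
            (Real.exp_le_exp.2 (by linarith)) (by positivity)) (Real.exp_pos _).le
      _ ≤ ε / (3 * C₁) * Real.exp u := mul_le_mul_of_nonneg_right l2 (Real.exp_pos _).le
  have hexp : -(c * u / (2 * B)) ≤ -(c / 4) * u ^ (1 - θ) := by
    have h3 : u ^ (1 - θ) = u / u ^ θ := by
      rw [Real.rpow_sub hu0, Real.rpow_one]
    have h4 : c / 4 * u ^ (1 - θ) ≤ c * u / (2 * B) := by
      rw [h3, div_mul_div_comm, div_le_div_iff₀ (by positivity) (by positivity)]
      have h5 : 0 ≤ c * u := by positivity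
      nlinarith
    linarith
  have t3 : B * Real.exp (u - c * u / (2 * B)) * ∑ χ ∈ S, IM χ lam c B ≤
      ε / (3 * C₁) * Real.exp u := by
    calc B * Real.exp (u - c * u / (2 * B)) * ∑ χ ∈ S, IM χ lam c B
        ≤ B * Real.exp (u - c * u / (2 * B)) * (C₂ * B ^ 4 * K) :=
          mul_le_mul_of_nonneg_left hIM (by positivity)
      _ = (C₂ * K) * (B ^ 5 * Real.exp (-(c * u / (2 * B)))) * Real.exp u := by
          rw [sub_eq_add_neg, Real.exp_add]; ring
      _ ≤ (C₂ * K) * ((2 * u ^ θ) ^ 5 * Real.exp (-(c / 4) * u ^ (1 - θ))) * Real.exp u := by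
          refine mul_le_mul_of_nonneg_right (mul_le_mul_of_nonneg_left ?_ (by positivity))
            (Real.exp_pos _).le
          exact mul_le_mul (pow_le_pow_left₀ hB0.le hBu 5) (Real.exp_le_exp.2 hexp)
            (Real.exp_pos _).le (by positivity)
      _ = (32 * (C₂ * K)) * ((u ^ θ) ^ 5 * Real.exp (-(c / 4) * u ^ (1 - θ))) * Real.exp u := by
          ring
      _ ≤ ε / (3 * C₁) * Real.exp u := mul_le_mul_of_nonneg_right l3 (Real.exp_pos _).le
  have hfin : C₁ * ((S.card : ℝ) * (Real.exp (8 * B + 3 * u / 4)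
      + u ^ 3 * Real.exp (u - 4 * B)) +
      B * Real.exp (u - c * u / (2 * B)) * ∑ χ ∈ S, IM χ lam c B) ≤
      C₁ * (3 * (ε / (3 * C₁) * Real.exp u)) := by
    refine mul_le_mul_of_nonneg_left ?_ hC₁.le
    rw [mul_add]
    linarith
  refine hfin.trans (le_of_eq ?_)
  field_simp

end Pool.Agent.Lib.LargeAP
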