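import Pool.Agent.Lib.LargeAP.Spec

/-!
# LargeAP, module TAI: the tail of the line integral
-/

set_option autoImplicit false

noncomputable section

namespace Pool.Agent.Lib.LargeAP

open MeasureTheory

namespace TAIM

lemma norm_Mp_le {q : ℕ} (χ : DirichletCharacter ℂ q) (B : ℝ) (s : ℂ) (hs : 0 ≤ s.re) :
    ‖Mp χ (YB B) s‖ ≤ Real.exp (3 * B) := by
  have h1 : ∀ m ∈ Finset.Icc 1 (YB B),
      ‖(ArithmeticFunction.moebius m : ℂ) * χ (m : ZMod q) * (m : ℂ) ^ (-s)‖ ≤ 1 := by
    intro m hm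
    have hm1 : 1 ≤ m := (Finset.mem_Icc.1 hm).1
    rw [norm_mul, norm_mul]
    have a1 : ‖((ArithmeticFunction.moebius m : ℤ) : ℂ)‖ ≤ 1 := by
      rw [Complex.norm_intCast]
      exact_mod_cast (ArithmeticFunction.abs_moebius_le_one (n := m))
    have a2 : ‖χ (m : ZMod q)‖ ≤ 1 := DirichletCharacter.norm_le_one χ _
    have a3 : ‖(m : ℂ) ^ (-s)‖ ≤ 1 := by
      rw [Complex.norm_natCast_cpow_of_pos (by omega)]
      refine Real.rpow_le_one_of_one_le_of_nonpos (by exact_mod_cast hm1) ?_
      simp only [Complex.neg_re]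
      linarith
    calc ‖((ArithmeticFunction.moebius m : ℤ) : ℂ)‖ * ‖χ (m : ZMod q)‖ * ‖(m : ℂ) ^ (-s)‖
        ≤ 1 * 1 * 1 := by
          refine mul_le_mul (mul_le_mul a1 a2 (norm_nonneg _) zero_le_one) a3 (norm_nonneg _)
            (by norm_num)
      _ = 1 := by norm_num
  calc ‖Mp χ (YB B) s‖ ≤ ∑ m ∈ Finset.Icc 1 (YB B),
      ‖(ArithmeticFunction.moebius m : ℂ) * χ (m : ZMod q) * (m : ℂ) ^ (-s)‖ := norm_sum_le _ _
    _ ≤ ∑ m ∈ Finset.Icc 1 (YB B), (1 : ℝ) := Finset.sum_le_sum h1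
    _ = (YB B : ℝ) := by simp
    _ ≤ Real.exp (3 * B) := Nat.floor_le (Real.exp_pos _).le

lemma norm_KG (lam u σ t : ℝ) :
    ‖KG lam u ((σ : ℂ) + t * Complex.I)‖ = Real.exp (σ * u + (σ ^ 2 - t ^ 2) / (4 * lam)) := by
  unfold KG
  rw [Complex.norm_exp]
  congr 1
  have e1 : ((σ : ℂ) + t * Complex.I) ^ 2 / (4 * (lam : ℂ)) =
      (((σ ^ 2 - t ^ 2) / (4 * lam) : ℝ) : ℂ) + ((2 * σ * t / (4 * lam) : ℝ) : ℂ) * Complex.I := by
    push_cast
    have hI : Complex.I ^ 2 = -1 := Complex.I_sq
    have : ((σ : ℂ) + t * Complex.I) ^ 2 = (σ : ℂ) ^ 2 - (t : ℂ) ^ 2 + 2 * σ * t * Complex.I := by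
      ring_nf
      rw [hI]
      ring
    rw [this]
    ring
  rw [Complex.add_re, e1, Complex.add_re, Complex.ofReal_re, Complex.re_ofReal_mul,
    Complex.I_re, mul_zero, add_zero]
  simp

/-- `e^(-x) <= 120 / x^5` -/
lemma exp_neg_le {x : ℝ} (hx : 0 < x) : Real.exp (-x) ≤ 120 / x ^ 5 := by
  have h := Real.pow_div_factorial_le_exp x hx.le 5
  have h5 : ((Nat.factorial 5 : ℕ) : ℝ) = 120 := by norm_num [Nat.factorial]
  rw [h5] at h
  rw [Real.exp_neg, le_div_iff₀ (by positivity), inv_mul_le_iff₀ (Real.exp_pos _)]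
  rw [div_le_iff₀ (by norm_num)] at h
  linarith

end TAIM

theorem specTAI (hUP : SpecUP) : SpecTAI := by
  intro lam hlam
  obtain ⟨C, hC, hU⟩ := hUP
  set K : ℝ := (1 + C) * 9 * Real.exp (1 + 1 / lam) * (120 * (32 * lam) ^ 5) *
    Real.sqrt (Real.pi / (1 / (8 * lam))) with hK
  have hK0 : 0 < K := by
    rw [hK]
    positivity
  refine ⟨K, hK0, ?_⟩
  intro q _ χ B u hB hu S hS hST
  have hu0 : (0 : ℝ) < u := by linarith
  have hσ1 : (1 : ℝ) < 1 + 1 / u := by
    have : 0 < 1 / u := by positivity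
    linarith
  have hσ2 : (1 : ℝ) + 1 / u ≤ 2 := by
    have : 1 / u ≤ 1 := by
      rw [div_le_one hu0]; linarith
    linarith
  set A : ℝ := (1 + C) * 9 * u ^ 3 * Real.exp (6 * B) * Real.exp (u + 1 + 1 / lam) *
    (120 * (32 * lam) ^ 5 * Real.exp (-10 * B)) with hA
  have hA0 : 0 < A := by
    rw [hA]
    positivity
  have hpt : ∀ t ∈ S, ‖fB χ B ((1 + 1 / u : ℝ) + t * Complex.I) *
      KG lam u ((1 + 1 / u : ℝ) + t * Complex.I)‖ ≤ A * Real.exp (-(1 / (8 * lam)) * t ^ 2) := by
    intro t ht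
    have hre : (((1 + 1 / u : ℝ) : ℂ) + t * Complex.I).re = 1 + 1 / u := by
      simp
    have h1 := hU q χ (((1 + 1 / u : ℝ) : ℂ) + t * Complex.I) (by rw [hre]; exact hσ1)
      (by rw [hre]; exact hσ2)
    rw [hre] at h1
    have e1 : (1 : ℝ) / (1 + 1 / u - 1) = u := by
      rw [add_sub_cancel_left, one_div_one_div]
    have e2 : (2 : ℝ) / (1 + 1 / u - 1) = 2 * u := by
      rw [add_sub_cancel_left]
      field_simp
    rw [e1, e2] at h1
    have hM := TAIM.norm_Mp_le χ B (((1 + 1 / u : ℝ) : ℂ) + t * Complex.I) (by rw [hre]; linarith)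
    have hfB : ‖fB χ B (((1 + 1 / u : ℝ) : ℂ) + t * Complex.I)‖ ≤
        (1 + C) * 9 * u ^ 3 * Real.exp (6 * B) := by
      unfold fB
      rw [norm_mul, norm_pow]
      have a1 : ‖ldL χ (((1 + 1 / u : ℝ) : ℂ) + t * Complex.I)‖ ≤ (1 + C) * u := by
        have : C ≤ C * u := by nlinarith
        linarith [h1.1]
      have hE1 : 1 ≤ Real.exp (3 * B) := Real.one_le_exp (by linarith)
      have a2 : ‖1 - DirichletCharacter.LFunction χ (((1 + 1 / u : ℝ) : ℂ) + t * Complex.I) *
          Mp χ (YB B) (((1 + 1 / u : ℝ) : ℂ) + t * Complex.I)‖ ≤ 3 * u * Real.exp (3 * B) := by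
        have b1 := norm_sub_le (1 : ℂ)
          (DirichletCharacter.LFunction χ (((1 + 1 / u : ℝ) : ℂ) + t * Complex.I) *
            Mp χ (YB B) (((1 + 1 / u : ℝ) : ℂ) + t * Complex.I))
        rw [norm_one, norm_mul] at b1
        have b2 := mul_le_mul h1.2 hM (norm_nonneg _) (by positivity)
        have b3 : 1 ≤ u * Real.exp (3 * B) := by nlinarith
        nlinarith
      calc _ ≤ ((1 + C) * u) * (3 * u * Real.exp (3 * B)) ^ 2 := by
            refine mul_le_mul a1 (pow_le_pow_left₀ (norm_nonneg _) a2 2) (by positivity)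
              (by positivity)
        _ = (1 + C) * 9 * u ^ 3 * (Real.exp (3 * B) * Real.exp (3 * B)) := by ring
        _ = (1 + C) * 9 * u ^ 3 * Real.exp (6 * B) := by
            rw [← Real.exp_add]; ring_nf
    have hKG : ‖KG lam u (((1 + 1 / u : ℝ) : ℂ) + t * Complex.I)‖ ≤
        Real.exp (u + 1 + 1 / lam) * (120 * (32 * lam) ^ 5 * Real.exp (-10 * B)) *
          Real.exp (-(1 / (8 * lam)) * t ^ 2) := by
      rw [TAIM.norm_KG]
      have hT : Real.exp B / 2 ≤ |t| := by
        have h2 := hST t ht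
        have h3 : 2 ≤ Real.exp B := by
          have := Real.add_one_le_exp B
          linarith
        linarith
      have ht2 : Real.exp (2 * B) / 4 ≤ t ^ 2 := by
        have h4 : (Real.exp B / 2) ^ 2 ≤ |t| ^ 2 := pow_le_pow_left₀ (by positivity) hT 2
        rw [sq_abs, div_pow, ← Real.exp_nat_mul] at h4
        norm_num at h4
        exact h4
      have hx : 0 < Real.exp (2 * B) / (32 * lam) := by positivity
      have h5 := TAIM.exp_neg_le hx
      have h6 : (Real.exp (2 * B) / (32 * lam)) ^ 5 = Real.exp (10 * B) / (32 * lam) ^ 5 := by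
        rw [div_pow, ← Real.exp_nat_mul]
        norm_num
        ring_nf
      rw [h6] at h5
      have h7 : 120 / (Real.exp (10 * B) / (32 * lam) ^ 5) =
          120 * (32 * lam) ^ 5 * Real.exp (-10 * B) := by
        rw [show (-10 * B) = -(10 * B) by ring, Real.exp_neg]
        field_simp
      rw [h7] at h5
      calc Real.exp ((1 + 1 / u) * u + ((1 + 1 / u) ^ 2 - t ^ 2) / (4 * lam))
          ≤ Real.exp ((u + 1 + 1 / lam) + (-(Real.exp (2 * B) / (32 * lam))) +
              (-(1 / (8 * lam)) * t ^ 2)) := by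
            refine Real.exp_le_exp.2 ?_
            have g1 : (1 + 1 / u) * u = u + 1 := by field_simp
            have g2 : (1 + 1 / u) ^ 2 ≤ 4 := by nlinarith
            have g3 : ((1 + 1 / u) ^ 2 - t ^ 2) / (4 * lam) ≤ 1 / lam - t ^ 2 / (4 * lam) := by
              rw [sub_div]
              have : (1 + 1 / u) ^ 2 / (4 * lam) ≤ 4 / (4 * lam) :=
                div_le_div_of_nonneg_right g2 (by positivity)
              have g4 : (4 : ℝ) / (4 * lam) = 1 / lam := by field_simp
              linarith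
            have g5 : Real.exp (2 * B) / (32 * lam) ≤ t ^ 2 / (8 * lam) := by
              have : Real.exp (2 * B) / (32 * lam) = (Real.exp (2 * B) / 4) / (8 * lam) := by
                field_simp
                norm_num
              rw [this]
              exact div_le_div_of_nonneg_right ht2 (by positivity)
            have g6 : t ^ 2 / (4 * lam) = t ^ 2 / (8 * lam) + t ^ 2 / (8 * lam) := by
              rw [← add_div, div_eq_div_iff (by positivity) (by positivity)]
              ring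
            have g7 : -(1 / (8 * lam)) * t ^ 2 = - (t ^ 2 / (8 * lam)) := by ring
            rw [g1, g7]
            linarith
        _ = Real.exp (u + 1 + 1 / lam) * Real.exp (-(Real.exp (2 * B) / (32 * lam))) *
              Real.exp (-(1 / (8 * lam)) * t ^ 2) := by
            rw [Real.exp_add, Real.exp_add]
        _ ≤ _ := by
            refine mul_le_mul_of_nonneg_right (mul_le_mul_of_nonneg_left h5 (Real.exp_pos _).le)
              (Real.exp_pos _).le
    rw [norm_mul]
    calc _ ≤ ((1 + C) * 9 * u ^ 3 * Real.exp (6 * B)) *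
        (Real.exp (u + 1 + 1 / lam) * (120 * (32 * lam) ^ 5 * Real.exp (-10 * B)) *
          Real.exp (-(1 / (8 * lam)) * t ^ 2)) :=
          mul_le_mul hfB hKG (norm_nonneg _) (by positivity)
      _ = A * Real.exp (-(1 / (8 * lam)) * t ^ 2) := by rw [hA]; ring
  have hint : Integrable (fun t : ℝ => A * Real.exp (-(1 / (8 * lam)) * t ^ 2)) :=
    (integrable_exp_neg_mul_sq (by positivity)).const_mul A
  calc _ ≤ ∫ t in S, A * Real.exp (-(1 / (8 * lam)) * t ^ 2) :=
        norm_integral_le_of_norm_le hint.integrableOn ((ae_restrict_iff' hS).2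
          (Filter.Eventually.of_forall hpt))
    _ ≤ ∫ t, A * Real.exp (-(1 / (8 * lam)) * t ^ 2) :=
        setIntegral_le_integral hint (Filter.Eventually.of_forall fun t => by positivity)
    _ = A * Real.sqrt (Real.pi / (1 / (8 * lam))) := by
        rw [integral_const_mul, integral_gaussian]
    _ = K * (u ^ 3 * Real.exp (u - 4 * B)) := by
        rw [hA, hK]
        have e1 : Real.exp (u - 4 * B) * Real.exp (1 + 1 / lam) =
            Real.exp (6 * B) * Real.exp (u + 1 + 1 / lam) * Real.exp (-10 * B) := by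
          rw [← Real.exp_add, ← Real.exp_add, ← Real.exp_add]
          ring_nf
        calc _ = (1 + C) * 9 * u ^ 3 * (120 * (32 * lam) ^ 5) *
              Real.sqrt (Real.pi / (1 / (8 * lam))) *
              (Real.exp (6 * B) * Real.exp (u + 1 + 1 / lam) * Real.exp (-10 * B)) := by ring
          _ = _ := by rw [← e1]; ring

end Pool.Agent.Lib.LargeAP
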