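import Pool.Agent.Lib.LargeAP.Spec

/-!
# LargeAP, module TFO (helper53): positivity
-/

set_option autoImplicit false

namespace Pool.Agent.Lib.LargeAP

open Finset Filter Topology Complex Metric
open scoped Classical ArithmeticFunction

noncomputable section

namespace TFOM

/-- the terms -/
def V (σ : ℝ) (n : ℕ) : ℝ := ArithmeticFunction.vonMangoldt n * (n : ℝ) ^ (-σ)

/-- the twists -/
def U (t : ℝ) (n : ℕ) : ℂ := (n : ℂ) ^ (-(t * Complex.I))

theorem V_nonneg (σ : ℝ) (n : ℕ) : 0 ≤ V σ n :=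
  mul_nonneg ArithmeticFunction.vonMangoldt_nonneg (Real.rpow_nonneg (Nat.cast_nonneg n) _)

theorem V_zero (σ : ℝ) : V σ 0 = 0 := by simp [V]

theorem U_norm (t : ℝ) {n : ℕ} (hn : n ≠ 0) : ‖U t n‖ = 1 := by
  unfold U
  rw [Complex.norm_natCast_cpow_of_pos (Nat.pos_of_ne_zero hn)]
  simp

theorem U_zero {n : ℕ} : U 0 n = 1 := by
  unfold U
  simp

theorem U_two (t : ℝ) {n : ℕ} (hn : n ≠ 0) : U (2 * t) n = U t n ^ 2 := by
  unfold U
  rw [sq, ← Complex.cpow_add _ _ (Nat.cast_ne_zero.2 hn)]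
  congr 1
  push_cast
  ring

theorem hasSum_ldL {q : ℕ} [NeZero q] (χ : DirichletCharacter ℂ q) (σ t : ℝ) (hσ : 1 < σ) (s : ℂ)
    (hs : s = σ + t * Complex.I) :
    HasSum (fun n : ℕ => V σ n * (χ (n : ZMod q) * U t n).re) (ldL χ s).re := by
  have hre : 1 < s.re := by rw [hs]; simpa using hσ
  have h1 := DirichletCharacter.LSeries_twist_vonMangoldt_eq χ hre
  have h2 := (DirichletCharacter.LSeriesSummable_twist_vonMangoldt χ hre).hasSum
  have h3 : ldL χ s = ∑' n, LSeries.term ((fun n : ℕ => χ (n : ZMod q)) *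
      (fun n : ℕ => ((ArithmeticFunction.vonMangoldt n : ℝ) : ℂ))) s n := by
    unfold ldL
    rw [DirichletCharacter.deriv_LFunction_eq_deriv_LSeries χ hre,
      DirichletCharacter.LFunction_eq_LSeries χ hre]
    exact h1.symm
  rw [h3]
  have h4 := Complex.hasSum_re h2
  convert h4 using 1
  funext n
  rcases eq_or_ne n 0 with rfl | hn
  · simp [V]
  · have hn0 : (0 : ℝ) ≤ (n : ℝ) := Nat.cast_nonneg n
    have hnc : (n : ℂ) ≠ 0 := Nat.cast_ne_zero.2 hn
    rw [LSeries.term_of_ne_zero hn, Pi.mul_apply, div_eq_mul_inv, ← Complex.cpow_neg, hs, neg_add,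
      Complex.cpow_add _ _ hnc]
    have e1 : (n : ℂ) ^ (-(σ : ℂ)) = (((n : ℝ) ^ (-σ) : ℝ) : ℂ) := by
      rw [Complex.ofReal_cpow hn0]
      push_cast
      rfl
    rw [e1]
    have e2 : χ (n : ZMod q) * ((ArithmeticFunction.vonMangoldt n : ℝ) : ℂ) *
        ((((n : ℝ) ^ (-σ) : ℝ) : ℂ) * (n : ℂ) ^ (-((t : ℂ) * Complex.I))) =
        ((V σ n : ℝ) : ℂ) * (χ (n : ZMod q) * U t n) := by
      unfold V U
      push_cast
      ring
    rw [e2, Complex.re_ofReal_mul]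

theorem comb (w : ℂ) (hw : ‖w‖ = 1) : 0 ≤ 3 + 4 * w.re + (w ^ 2).re := by
  have h1 : w.re ^ 2 + w.im ^ 2 = 1 := by
    have h2 := Complex.sq_norm w
    rw [hw, Complex.normSq_apply] at h2
    nlinarith
  have h3 : (w ^ 2).re = w.re ^ 2 - w.im ^ 2 := by
    rw [sq, Complex.mul_re]
    ring
  rw [h3]
  nlinarith [sq_nonneg (1 + w.re)]

theorem real_val {q : ℕ} (χ : DirichletCharacter ℂ q) (h : χ ^ 2 = 1) (a : ZMod q) (ha : IsUnit a) :
    χ a = 1 ∨ χ a = -1 := by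
  have h1 : χ a ^ 2 = 1 := by
    rw [← MulChar.pow_apply' χ two_ne_zero a, h, MulChar.one_apply ha]
  have h2 : (χ a - 1) * (χ a + 1) = 0 := by linear_combination h1
  rcases mul_eq_zero.1 h2 with h3 | h3
  · left; linear_combination h3
  · right; linear_combination h3

theorem c_eq {q : ℕ} (χ : DirichletCharacter ℂ q) {a : ZMod q} (ha : ¬ IsUnit a) : χ a = 0 :=
  χ.map_nonunit ha

end TFOM

open TFOM in
/-- **Module TFO**: positivity. -/
theorem specTFO : SpecTFO := by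
  intro q _ σ hσ
  have hz : ((σ : ℝ) : ℂ) = (σ : ℂ) + ((0 : ℝ) : ℂ) * Complex.I := by simp
  refine ⟨?_, ?_, ?_⟩
  · intro χ t
    have h0 := hasSum_ldL (1 : DirichletCharacter ℂ q) σ 0 hσ (σ : ℂ) hz
    have h1 := hasSum_ldL χ σ t hσ (⟨σ, t⟩ : ℂ) (Complex.mk_eq_add_mul_I _ _)
    have h2 := hasSum_ldL (χ ^ 2) σ (2 * t) hσ (⟨σ, 2 * t⟩ : ℂ) (Complex.mk_eq_add_mul_I _ _)
    have h3 := ((h0.mul_left 3).add (h1.mul_left 4)).add h2
    refine h3.nonneg fun n => ?_
    rcases eq_or_ne n 0 with rfl | hn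
    · simp [V_zero]
    by_cases hu : IsUnit (n : ZMod q)
    · have e0 : (1 : DirichletCharacter ℂ q) (n : ZMod q) = 1 := MulChar.one_apply hu
      have e2 : (χ ^ 2) (n : ZMod q) * U (2 * t) n = (χ (n : ZMod q) * U t n) ^ 2 := by
        rw [MulChar.pow_apply' χ two_ne_zero, U_two t hn, mul_pow]
      have e3 : ‖χ (n : ZMod q) * U t n‖ = 1 := by
        rw [norm_mul, U_norm t hn, mul_one]
        obtain ⟨a, ha⟩ := hu
        rw [← ha]
        exact DirichletCharacter.unit_norm_eq_one χ a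
      rw [e0, e2, U_zero, mul_one, Complex.one_re, mul_one]
      have h4 := mul_nonneg (V_nonneg σ n) (comb _ e3)
      linarith
    · rw [c_eq _ hu, c_eq _ hu, c_eq _ hu]
      simp
  · intro χ hχ
    have h0 := hasSum_ldL (1 : DirichletCharacter ℂ q) σ 0 hσ (σ : ℂ) hz
    have h1 := hasSum_ldL χ σ 0 hσ (σ : ℂ) hz
    refine (h0.add h1).nonneg fun n => ?_
    by_cases hu : IsUnit (n : ZMod q)
    · have e0 : (1 : DirichletCharacter ℂ q) (n : ZMod q) = 1 := MulChar.one_apply hu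
      rw [e0, U_zero, mul_one, mul_one]
      have hV := V_nonneg σ n
      rcases real_val χ hχ _ hu with h | h
      · rw [h, Complex.one_re]; linarith
      · rw [h, Complex.neg_re, Complex.one_re]; linarith
    · rw [c_eq _ hu, c_eq _ hu]
      simp
  · intro χ₁ χ₂ hχ₁ hχ₂
    have h0 := hasSum_ldL (1 : DirichletCharacter ℂ q) σ 0 hσ (σ : ℂ) hz
    have h1 := hasSum_ldL χ₁ σ 0 hσ (σ : ℂ) hz
    have h2 := hasSum_ldL χ₂ σ 0 hσ (σ : ℂ) hz
    have h3 := hasSum_ldL (χ₁ * χ₂) σ 0 hσ (σ : ℂ) hz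
    refine (((h0.add h1).add h2).add h3).nonneg fun n => ?_
    by_cases hu : IsUnit (n : ZMod q)
    · have e0 : (1 : DirichletCharacter ℂ q) (n : ZMod q) = 1 := MulChar.one_apply hu
      rw [MulChar.mul_apply, e0, U_zero, mul_one, mul_one, mul_one, mul_one]
      have hV := V_nonneg σ n
      rcases real_val χ₁ hχ₁ _ hu with h | h <;> rcases real_val χ₂ hχ₂ _ hu with h' | h' <;>
        rw [h, h'] <;> simp <;> linarith
    · rw [c_eq _ hu, c_eq _ hu, c_eq _ hu, c_eq _ hu]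
      simp

end

end Pool.Agent.Lib.LargeAP
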