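import Pool.Agent.Lib.LargeAP.Spec
import Pool.Agent.Lib.LP.LDB

/-!
# LargeAP, module UP: upper bounds for `L'/L` and `L` to the right of `1`
-/

set_option autoImplicit false

namespace Pool.Agent.Lib.LargeAP

open Finset Filter Topology Complex Metric
open scoped Classical ArithmeticFunction

noncomputable section

namespace UPM

open DirichletCharacter ArithmeticFunction

/-- the real coefficients of `-ζ'/ζ` -/
def cf (σ : ℝ) (n : ℕ) : ℝ := if n = 0 then 0 else vonMangoldt n / (n : ℝ) ^ σ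

lemma cf_nonneg (σ : ℝ) (n : ℕ) : 0 ≤ cf σ n := by
  unfold cf
  split_ifs
  · exact le_rfl
  · exact div_nonneg vonMangoldt_nonneg (Real.rpow_nonneg (Nat.cast_nonneg _) _)

lemma norm_term_le {q : ℕ} (χ : DirichletCharacter ℂ q) (s : ℂ) (n : ℕ) :
    ‖LSeries.term ((fun n : ℕ => χ n) * (fun n : ℕ => ((vonMangoldt n : ℝ) : ℂ))) s n‖ ≤ cf s.re n := by
  rw [LSeries.norm_term_eq]
  unfold cf
  split_ifs with hn
  · exact le_rfl
  · refine div_le_div_of_nonneg_right ?_ (Real.rpow_nonneg (Nat.cast_nonneg _) _)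
    rw [Pi.mul_apply, norm_mul, Complex.norm_real, Real.norm_of_nonneg vonMangoldt_nonneg]
    calc ‖χ n‖ * vonMangoldt n ≤ 1 * vonMangoldt n :=
          mul_le_mul_of_nonneg_right (DirichletCharacter.norm_le_one χ _) vonMangoldt_nonneg
      _ = vonMangoldt n := one_mul _

lemma term_real (σ : ℝ) (n : ℕ) :
    LSeries.term (fun n : ℕ => ((vonMangoldt n : ℝ) : ℂ)) (σ : ℂ) n = ((cf σ n : ℝ) : ℂ) := by
  unfold cf
  rcases eq_or_ne n 0 with rfl | hn
  · simp
  · rw [LSeries.term_of_ne_zero hn, if_neg hn, Complex.ofReal_div,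
      Complex.ofReal_cpow (Nat.cast_nonneg _), Complex.ofReal_natCast]

lemma summable_cf (σ : ℝ) (hσ : 1 < σ) : Summable (cf σ) := by
  have h := LSeriesSummable_vonMangoldt (s := (σ : ℂ)) (by simpa using hσ)
  have h2 : Summable fun n => ((cf σ n : ℝ) : ℂ) := by
    refine h.congr fun n => ?_
    exact term_real σ n
  exact_mod_cast h2

lemma tsum_cf (σ : ℝ) :
    LSeries (fun n : ℕ => ((vonMangoldt n : ℝ) : ℂ)) (σ : ℂ) = ((∑' n, cf σ n : ℝ) : ℂ) := by
  rw [LSeries, Complex.ofReal_tsum]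
  exact tsum_congr fun n => term_real σ n

lemma norm_ldL_le {q : ℕ} [NeZero q] (χ : DirichletCharacter ℂ q) (s : ℂ) (hs : 1 < s.re) :
    ‖ldL χ s‖ ≤ ∑' n, cf s.re n := by
  have h1 : ldL χ s = LSeries ((fun n : ℕ => χ n) * (fun n : ℕ => ((vonMangoldt n : ℝ) : ℂ))) s := by
    unfold ldL
    rw [deriv_LFunction_eq_deriv_LSeries χ hs, LFunction_eq_LSeries χ hs,
      ← LSeries_twist_vonMangoldt_eq χ hs]
  rw [h1]
  exact tsum_of_norm_bounded (summable_cf _ hs).hasSum fun n => norm_term_le χ s n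

lemma bounded : ∃ C : ℝ, 0 < C ∧ ∀ σ : ℝ, 1 < σ → σ ≤ 2 → ∑' n, cf σ n ≤ 1 / (σ - 1) + C := by
  have hcont := continuousOn_neg_logDeriv_LFunctionTrivChar₁ 1
  have hK : IsCompact ((fun x : ℝ => (x : ℂ)) '' Set.Icc (1 : ℝ) 2) :=
    isCompact_Icc.image Complex.continuous_ofReal
  have hsub : ((fun x : ℝ => (x : ℂ)) '' Set.Icc (1 : ℝ) 2) ⊆
      {s : ℂ | s = 1 ∨ LFunctionTrivChar 1 s ≠ 0} := by
    rintro _ ⟨x, hx, rfl⟩
    rcases eq_or_lt_of_le hx.1 with h | h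
    · left
      simp [← h]
    · right
      refine LFunction_ne_zero_of_one_le_re _ (Or.inr ?_) ?_
      · intro h2
        have : x = 1 := by
          have h3 : (x : ℂ) = 1 := h2
          exact_mod_cast h3
        linarith
      · simpa using hx.1
  obtain ⟨C, hC⟩ := hK.exists_bound_of_continuousOn (hcont.mono hsub)
  refine ⟨max C 1, lt_of_lt_of_le one_pos (le_max_right _ _), fun σ h1 h2 => ?_⟩
  have h3 := hC (σ : ℂ) ⟨σ, ⟨h1.le, h2⟩, rfl⟩
  have hne : (σ : ℂ) ≠ 1 := by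
    intro h
    have : σ = 1 := by exact_mod_cast h
    linarith
  have hre : 1 < (σ : ℂ).re := by simpa using h1
  have hz : riemannZeta (σ : ℂ) ≠ 0 := riemannZeta_ne_zero_of_one_lt_re hre
  have hT : LFunctionTrivChar 1 = riemannZeta := LFunction_modOne_eq
  rw [deriv_LFunctionTrivChar₁_apply_of_ne_one 1 hne, LFunctionTrivChar₁,
    Function.update_of_ne hne, hT] at h3
  have h4 : LSeries (fun n : ℕ => ((vonMangoldt n : ℝ) : ℂ)) (σ : ℂ) =
      -deriv riemannZeta (σ : ℂ) / riemannZeta (σ : ℂ) :=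
    LSeries_vonMangoldt_eq_deriv_riemannZeta_div hre
  have hs1 : (σ : ℂ) - 1 ≠ 0 := sub_ne_zero.2 hne
  have h5 : -((σ - 1) * deriv riemannZeta (σ : ℂ) + riemannZeta (σ : ℂ)) /
      ((σ - 1) * riemannZeta (σ : ℂ)) = ((∑' n, cf σ n : ℝ) : ℂ) - ((1 / (σ - 1) : ℝ) : ℂ) := by
    rw [← tsum_cf, h4]
    push_cast
    field_simp
    ring
  rw [h5, ← Complex.ofReal_sub, Complex.norm_real, Real.norm_eq_abs] at h3
  have h6 := (abs_le.1 h3).2
  have h7 := le_max_left C 1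
  linarith

lemma norm_L_le {q : ℕ} [NeZero q] (χ : DirichletCharacter ℂ q) (s : ℂ) (hs : 1 < s.re)
    (hs2 : s.re ≤ 2) : ‖DirichletCharacter.LFunction χ s‖ ≤ 2 / (s.re - 1) := by
  obtain ⟨x, hx⟩ : ∃ x : ℝ, x = s.re - 1 := ⟨_, rfl⟩
  have hx0 : 0 < x := by rw [hx]; linarith
  have hx1 : x ≤ 1 := by rw [hx]; linarith
  have hre : s.re = 1 + x := by rw [hx]; ring
  rw [LFunction_eq_LSeries χ hs]
  have hb : ‖LSeries (fun n : ℕ => χ n) s‖ ≤ ∑' n : ℕ, (n : ℝ) ^ (-(1 + x)) := by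
    refine tsum_of_norm_bounded (LP.LDBM.summ x hx0).hasSum fun n => ?_
    rw [LSeries.norm_term_eq]
    split_ifs with hn
    · positivity
    · have hn0 : (0 : ℝ) < (n : ℝ) := by exact_mod_cast Nat.pos_of_ne_zero hn
      have e1 : ‖χ n‖ ≤ 1 := DirichletCharacter.norm_le_one χ _
      have hpos : 0 < (n : ℝ) ^ s.re := Real.rpow_pos_of_pos hn0 _
      rw [div_le_iff₀ hpos, hre, ← Real.rpow_add hn0]
      simpa using e1
  refine (hb.trans (LP.LDBM.tsum_le x hx0)).trans ?_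
  rw [← hx, le_div_iff₀ hx0, add_mul, one_div, inv_mul_cancel₀ hx0.ne']
  linarith

end UPM

theorem specUP : SpecUP := by
  obtain ⟨C, hC, hb⟩ := UPM.bounded
  refine ⟨C, hC, fun q _ χ s h1 h2 => ⟨?_, UPM.norm_L_le χ s h1 h2⟩⟩
  exact (UPM.norm_ldL_le χ s h1).trans (hb s.re h1 h2)

end

end Pool.Agent.Lib.LargeAP
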