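import Pool.Agent.Lib.LargeAP.Spec

/-!
# LargeAP: module ZC
-/

set_option autoImplicit false

namespace Pool.Agent.Lib.LargeAP

open Finset Filter Topology Complex Metric
open scoped Classical ArithmeticFunction

noncomputable section

namespace ZCM

theorem re_le (z : ℂ) : z.re ≤ ‖z‖ := Complex.re_le_norm z

/-- final numerical contradiction. -/
theorem fin_ineq {C a c B x : ℝ} (hC : 1 ≤ C) (ha : a = 1 / (40 * C)) (hc : c = a / 10)
    (hB : 16 ≤ B) (hx : B / (a + c) ≤ x)
    (h : 0 ≤ 3 * (B / a + C) + 4 * (C * B - x) + C * B) : False := by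
  have ha0 : 0 < a := by rw [ha]; positivity
  have hCa : C = 1 / (40 * a) := by
    rw [ha]
    field_simp
  have h1 : C * 3 ≤ C * B := by nlinarith
  have h2 : B / (a + c) = (B / a) * (10 / 11) := by
    rw [hc]
    field_simp
    ring
  have h3 : C * B = (B / a) / 40 := by
    rw [hCa]
    field_simp
  have h4 : 0 < B / a := by positivity
  rw [h2] at hx
  nlinarith

end ZCM

open ZCM

theorem specZC (hDRP : SpecDRP) (hUP : SpecUP) (hTFO : SpecTFO) : SpecZC := by
  obtain ⟨C₁, hC₁, hD⟩ := hDRP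
  obtain ⟨C₂, hC₂, hU⟩ := hUP
  set C : ℝ := max (max C₁ C₂) 1 with hC
  have hC1 : 1 ≤ C := le_max_right _ _
  have hCC₁ : C₁ ≤ C := (le_max_left _ _).trans (le_max_left _ _)
  have hCC₂ : C₂ ≤ C := (le_max_right _ _).trans (le_max_left _ _)
  set a : ℝ := 1 / (40 * C) with ha
  have ha0 : 0 < a := by rw [ha]; positivity
  have ha1 : a ≤ 1 / 40 := by
    rw [ha]
    exact one_div_le_one_div_of_le (by norm_num) (by linarith)
  refine ⟨a / 10, by positivity, by linarith, ?_⟩
  intro q _ χ hχ B hB hq ρ hρ hρi hL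
  have hB0 : 0 < B := by linarith
  have hχ1 : χ ≠ 1 := by
    rintro rfl
    exact hχ (one_pow 2)
  have hβ1 : ρ.re < 1 := by
    by_contra hge
    exact DirichletCharacter.LFunction_ne_zero_of_one_le_re χ (Or.inl hχ1) (not_lt.1 hge) hL
  have haB : a / B ≤ 1 / 8 := by
    rw [div_le_div_iff₀ hB0 (by norm_num)]
    linarith
  have haB0 : 0 < a / B := by positivity
  have hcB : a / 10 / B ≤ 1 / 8 := by
    rw [div_le_div_iff₀ hB0 (by norm_num)]
    linarith
  have h1 := (hTFO q (1 + a / B) (by linarith)).1 χ ρ.im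
  -- the three upper bounds
  have h2 : (ldL (1 : DirichletCharacter ℂ q) (((1 + a / B : ℝ)) : ℂ)).re ≤ B / a + C := by
    have h := (hU q (1 : DirichletCharacter ℂ q) (((1 + a / B : ℝ)) : ℂ)
      (by rw [Complex.ofReal_re]; linarith) (by rw [Complex.ofReal_re]; linarith)).1
    rw [Complex.ofReal_re] at h
    have h' : (1 : ℝ) / (1 + a / B - 1) = B / a := by
      rw [add_sub_cancel_left, one_div_div]
    rw [h'] at h
    exact (re_le _).trans (h.trans (by linarith))
  have h3 : (ldL χ (⟨1 + a / B, ρ.im⟩ : ℂ)).re ≤ C * B - 1 / (1 + a / B - ρ.re) := by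
    have h := (hD q χ hχ1 B (⟨1 + a / B, ρ.im⟩ : ℂ) hB hq (by
      have := Real.exp_pos B
      change |ρ.im| ≤ _
      linarith) (by change 1 < 1 + a / B; linarith) (by change 1 + a / B ≤ _; linarith)).2.1 ρ hL
      (by linarith) (by
        change |ρ.im - ρ.im| ≤ _
        rw [sub_self, abs_zero]
        norm_num)
    have h' : ((⟨1 + a / B, ρ.im⟩ : ℂ) - ρ) = ((1 + a / B - ρ.re : ℝ) : ℂ) := by
      apply Complex.ext
      · simp
      · simp
    rw [h', ← Complex.ofReal_inv, Complex.ofReal_re] at h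
    have h4 : C₁ * B ≤ C * B := by nlinarith
    rw [one_div]
    linarith
  have h4 : (ldL (χ ^ 2) (⟨1 + a / B, 2 * ρ.im⟩ : ℂ)).re ≤ C * B := by
    have h := (hD q (χ ^ 2) hχ B (⟨1 + a / B, 2 * ρ.im⟩ : ℂ) hB hq (by
      have := Real.exp_pos B
      change |2 * ρ.im| ≤ _
      rw [abs_mul, abs_of_pos (by norm_num : (0 : ℝ) < 2)]
      linarith) (by change 1 < 1 + a / B; linarith) (by change 1 + a / B ≤ _; linarith)).1
    have h5 : C₁ * B ≤ C * B := by nlinarith
    linarith
  have h5 : B / (a + a / 10) ≤ 1 / (1 + a / B - ρ.re) := by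
    rw [div_le_div_iff₀ (by positivity) (by linarith)]
    have h6 : 1 + a / B - ρ.re < a / B + a / 10 / B := by linarith
    have h7 : B * (a / B + a / 10 / B) = a + a / 10 := by
      field_simp
    nlinarith
  refine fin_ineq hC1 ha rfl hB h5 ?_
  linarith

end

end Pool.Agent.Lib.LargeAP
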