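import Pool.Agent.Lib.LargeAP.Spec

set_option autoImplicit false

/-!
# LargeAP, module ZF (helper30): one exceptional character
-/

namespace Pool.Agent.Lib.LargeAP

open Finset Filter Topology Complex Metric
open scoped Classical ArithmeticFunction

theorem specZF (hZC : SpecZC) (hZR : SpecZR) (hZP : SpecZP) : SpecZF := by
  obtain ⟨c1, hc1, hc1', h1⟩ := hZC
  obtain ⟨c2, hc2, hc2', h2⟩ := hZR
  obtain ⟨c3, hc3, hc3', h3⟩ := hZP
  refine ⟨min c1 (min c2 c3), lt_min hc1 (lt_min hc2 hc3), (min_le_left _ _).trans hc1', ?_⟩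
  intro q _ B hB hq
  have hB0 : (0 : ℝ) < B := by linarith
  have hcomp : ∀ c : ℝ, min c1 (min c2 c3) ≤ c → ∀ x : ℝ, 1 - min c1 (min c2 c3) / B < x →
      1 - c / B < x := by
    intro c hc x hx
    have : min c1 (min c2 c3) / B ≤ c / B := div_le_div_of_nonneg_right hc hB0.le
    linarith
  have m1 : min c1 (min c2 c3) ≤ c1 := min_le_left _ _
  have m2 : min c1 (min c2 c3) ≤ c2 := (min_le_right _ _).trans (min_le_left _ _)
  have m3 : min c1 (min c2 c3) ≤ c3 := (min_le_right _ _).trans (min_le_right _ _)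
  have key : ∀ χ : DirichletCharacter ℂ q, χ ≠ 1 → ∀ s : ℂ, 1 - min c1 (min c2 c3) / B < s.re →
      |s.im| ≤ Real.exp B → DirichletCharacter.LFunction χ s = 0 →
      χ ^ 2 = 1 ∧ s = ((s.re : ℝ) : ℂ) := by
    intro χ hχ s hs him hz
    have hχ2 : χ ^ 2 = 1 := by
      by_contra hne
      exact h1 q χ hne B hB hq s (hcomp c1 m1 _ hs) him hz
    refine ⟨hχ2, ?_⟩
    have him0 : s.im = 0 := by
      by_contra hne
      exact h2 q χ hχ hχ2 B hB hq s (hcomp c2 m2 _ hs) him hne hz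
    apply Complex.ext
    · simp
    · simp [him0]
  by_cases h : ∃ χ : DirichletCharacter ℂ q, χ ≠ 1 ∧ χ ^ 2 = 1 ∧
      ∃ β : ℝ, 1 - min c1 (min c2 c3) / B < β ∧ DirichletCharacter.LFunction χ (β : ℂ) = 0
  · obtain ⟨χe, he1, he2, β, hβ, hβz⟩ := h
    refine ⟨χe, Or.inr ⟨he1, he2, β, hβ, hβz⟩, ?_⟩
    intro χ hχ hχe s hs him hz
    obtain ⟨hχ2, hsr⟩ := key χ hχ s hs him hz
    rw [hsr] at hz
    exact h3 q χ χe hχe hχ he1 hχ2 he2 B hB hq s.re β (hcomp c3 m3 _ hs) (hcomp c3 m3 _ hβ) hz hβz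
  · refine ⟨1, Or.inl rfl, ?_⟩
    intro χ hχ _ s hs him hz
    obtain ⟨hχ2, hsr⟩ := key χ hχ s hs him hz
    rw [hsr] at hz
    exact h ⟨χ, hχ, hχ2, s.re, hs, hz⟩

end Pool.Agent.Lib.LargeAP
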