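import Pool.Agent.Lib.LargeAP.Spec

set_option autoImplicit false

/-!
# LargeAP, module ZP (helper33): Landau-Page
-/

namespace Pool.Agent.Lib.LargeAP

open Finset Filter Topology Complex Metric
open scoped Classical ArithmeticFunction

theorem specZP (hDRP : SpecDRP) (hUP : SpecUP) (hTFO : SpecTFO) : SpecZP := by
  obtain ⟨C1, hC1, h1⟩ := hDRP
  obtain ⟨C2, hC2, h2⟩ := hUP
  obtain ⟨C, hC1C, hC2C, hC⟩ : ∃ C : ℝ, C1 ≤ C ∧ C2 ≤ C ∧ 1 ≤ C :=
    ⟨max C1 (max C2 1), le_max_left _ _, (le_max_left _ _).trans (le_max_right _ _),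
      (le_max_right _ _).trans (le_max_right _ _)⟩
  have hC0 : (0 : ℝ) < C := by linarith
  refine ⟨1 / (1000 * C), by positivity, ?_, ?_⟩
  · rw [div_le_div_iff₀ (by positivity) (by norm_num)]
    linarith
  intro q _ χ₁ χ₂ hne h1n h2n h1s h2s B hB hq β₁ β₂ hβ₁ hβ₂ hz₁ hz₂
  have hB0 : (0 : ℝ) < B := by linarith
  have hCB : (16 : ℝ) ≤ C * B := by nlinarith
  have hcB : 1 / (1000 * C) / B ≤ 1 / 16000 := by
    rw [div_div, div_le_div_iff₀ (by positivity) (by norm_num)]
    nlinarith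
  set σ : ℝ := 1 + 1 / (100 * C) / B with hσ
  have haB : 0 < 1 / (100 * C) / B := by positivity
  have haB' : 1 / (100 * C) / B ≤ 1 / 1600 := by
    rw [div_div, div_le_div_iff₀ (by positivity) (by norm_num)]
    nlinarith
  have hσ1 : 1 < σ := by rw [hσ]; linarith
  have hσ2 : σ ≤ 1 + 1 / 8 := by rw [hσ]; linarith
  have hre : ((σ : ℝ) : ℂ).re = σ := Complex.ofReal_re σ
  have him : ((σ : ℝ) : ℂ).im = 0 := Complex.ofReal_im σ
  -- the zeros are less than one
  have hlt : ∀ (χ : DirichletCharacter ℂ q) (β : ℝ), χ ≠ 1 →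
      DirichletCharacter.LFunction χ (β : ℂ) = 0 → β < 1 := by
    intro χ β hχ hz
    by_contra hge
    exact DirichletCharacter.LFunction_ne_zero_of_one_le_re χ (Or.inl hχ)
      (by rw [Complex.ofReal_re]; linarith) hz
  -- the bound for a character with a zero
  have hb : ∀ (χ : DirichletCharacter ℂ q) (β : ℝ), χ ≠ 1 → 1 - 1 / (1000 * C) / B < β →
      DirichletCharacter.LFunction χ (β : ℂ) = 0 →
      (ldL χ (σ : ℂ)).re ≤ C * B - 90 * (C * B) := by
    intro χ β hχ hβ hz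
    have hβ1 := hlt χ β hχ hz
    have h3 := (h1 q χ hχ B (σ : ℂ) hB hq (by rw [him, abs_zero]; positivity)
      (by rw [hre]; exact hσ1) (by rw [hre]; exact hσ2)).2.1 (β : ℂ) hz
      (by rw [Complex.ofReal_re]; linarith)
      (by rw [Complex.ofReal_im, him, sub_zero, abs_zero]; norm_num)
    have h4 : (((σ : ℂ) - (β : ℂ))⁻¹).re = (σ - β)⁻¹ := by
      rw [← Complex.ofReal_sub, ← Complex.ofReal_inv, Complex.ofReal_re]
    rw [h4] at h3
    have h5 : 0 < σ - β := by linarith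
    have h6 : σ - β ≤ 11 / (1000 * (C * B)) := by
      have e1 : 1 / (100 * C) / B + 1 / (1000 * C) / B = 11 / (1000 * (C * B)) := by
        field_simp
        ring
      rw [← e1, hσ]
      linarith
    have h7 : 90 * (C * B) ≤ (σ - β)⁻¹ := by
      rw [le_inv_comm₀ (by positivity) h5]
      refine h6.trans ?_
      rw [inv_eq_one_div, div_le_div_iff₀ (by positivity) (by positivity)]
      nlinarith
    have h8 : C1 * B ≤ C * B := by nlinarith
    linarith
  have hprod : χ₁ * χ₂ ≠ 1 := by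
    intro h
    apply hne
    have e1 : χ₁ * χ₁ = 1 := by rw [← sq]; exact h1s
    have e2 : χ₁ * χ₂ = χ₁ * χ₁ := by rw [h, e1]
    exact (mul_left_cancel e2).symm
  have k1 := (hTFO q σ hσ1).2.2 χ₁ χ₂ h1s h2s
  have k2 := hb χ₁ β₁ h1n hβ₁ hz₁
  have k3 := hb χ₂ β₂ h2n hβ₂ hz₂
  have k4 := (h1 q (χ₁ * χ₂) hprod B (σ : ℂ) hB hq (by rw [him, abs_zero]; positivity)
      (by rw [hre]; exact hσ1) (by rw [hre]; exact hσ2)).1
  have k5 : (ldL (1 : DirichletCharacter ℂ q) (σ : ℂ)).re ≤ 100 * (C * B) + C := by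
    have h3 := (h2 q 1 (σ : ℂ) (by rw [hre]; exact hσ1) (by rw [hre]; linarith)).1
    rw [hre] at h3
    have h4 : 1 / (σ - 1) = 100 * (C * B) := by
      rw [hσ]
      field_simp
      ring
    rw [h4] at h3
    have h5 := Complex.re_le_norm (ldL (1 : DirichletCharacter ℂ q) (σ : ℂ))
    linarith
  have k6 : C1 * B ≤ C * B := by nlinarith
  have k7 : C ≤ C * B := by nlinarith
  linarith

end Pool.Agent.Lib.LargeAP
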