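import Pool.Agent.Lib.LargeAP.Spec
import Pool.Agent.Lib.MP_50d0fc_nt.Conj

/-!
# LargeAP: module ZR
-/

set_option autoImplicit false

namespace Pool.Agent.Lib.LargeAP

open Finset Filter Topology Complex Metric
open scoped Classical ArithmeticFunction

noncomputable section

namespace ZRM

/-- the conjugate zero. -/
theorem conj_zero {q : ℕ} [NeZero q] {χ : DirichletCharacter ℂ q} (hχ : χ ≠ 1) (h2 : χ ^ 2 = 1)
    {ρ : ℂ} (h : DirichletCharacter.LFunction χ ρ = 0) :
    DirichletCharacter.LFunction χ ((starRingEnd ℂ) ρ) = 0 := by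
  have h1 := Pool.Agent.Lib.MP_50d0fc_nt.LFunction_inv_conj χ hχ ρ
  have h3 : χ⁻¹ = χ := by
    rw [inv_eq_iff_mul_eq_one, ← sq]
    exact h2
  rw [h3, h, map_zero] at h1
  exact h1

/-- numerical contradiction, first case. -/
theorem fin1 {C a c B x y : ℝ} (hC : 1 ≤ C) (ha : a = 1 / (100 * C)) (hc : c = a / 100)
    (hB : 16 ≤ B) (hx : B / (a + c) ≤ x) (hy : y ≤ B / (5 * a))
    (h : 0 ≤ 3 * (B / a + C) + 4 * (C * B - x) + (y + C * B)) : False := by
  have ha0 : 0 < a := by rw [ha]; positivity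
  have hCa : C = 1 / (100 * a) := by
    rw [ha]
    field_simp
  have h1 : C * 3 ≤ C * B := by nlinarith
  have h2 : B / (a + c) = (B / a) * (100 / 101) := by
    rw [hc]
    field_simp
    ring
  have h3 : C * B = (B / a) / 100 := by
    rw [hCa]
    field_simp
  have h4 : 0 < B / a := by positivity
  have h5 : B / (5 * a) = (B / a) / 5 := by
    field_simp
  rw [h2] at hx
  rw [h5] at hy
  nlinarith

/-- numerical contradiction, second case. -/
theorem fin2 {C a B x : ℝ} (hC : 1 ≤ C) (ha : a = 1 / (100 * C))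
    (hB : 16 ≤ B) (hx : 7 / 20 * (B / a) ≤ x)
    (h : 0 ≤ (B / (2 * a) + C) + (C * B - x - x)) : False := by
  have ha0 : 0 < a := by rw [ha]; positivity
  have hCa : C = 1 / (100 * a) := by
    rw [ha]
    field_simp
  have h1 : C ≤ C * B := by nlinarith
  have h3 : C * B = (B / a) / 100 := by
    rw [hCa]
    field_simp
  have h4 : 0 < B / a := by positivity
  have h5 : B / (2 * a) = (B / a) / 2 := by
    field_simp
  rw [h5] at h
  nlinarith

/-- the term of a zero close to the real axis. -/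
theorem term {a B s y : ℝ} (ha : 0 < a) (hB : 0 < B) (h1 : 2 * a / B < s)
    (h2 : s < 2 * a / B + a / 100 / B) (hy : |y| < a / B) :
    7 / 20 * (B / a) ≤ s / (s ^ 2 + y ^ 2) := by
  have hs : 0 < s := lt_trans (by positivity) h1
  set u : ℝ := a / B with hu
  have hu0 : 0 < u := by positivity
  have e1 : 2 * a / B = 2 * u := by rw [hu]; ring
  have e2 : a / 100 / B = u / 100 := by rw [hu]; ring
  have e3 : B / a = 1 / u := by rw [hu, one_div_div]
  rw [e1] at h1 h2
  rw [e2] at h2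
  rw [e3]
  have hy2 : y ^ 2 < u ^ 2 := by
    rw [← sq_abs y]
    have := abs_nonneg y
    nlinarith
  have hpos : 0 < s ^ 2 + y ^ 2 := by positivity
  rw [le_div_iff₀ hpos]
  have h3 : s ^ 2 + y ^ 2 ≤ 51 / 10 * u ^ 2 := by nlinarith
  have h4 : 7 / 20 * (1 / u) * (s ^ 2 + y ^ 2) ≤ 7 / 20 * (1 / u) * (51 / 10 * u ^ 2) :=
    mul_le_mul_of_nonneg_left h3 (by positivity)
  have h5 : 7 / 20 * (1 / u) * (51 / 10 * u ^ 2) = 357 / 200 * u := by
    field_simp
    norm_num
  rw [h5] at h4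
  linarith

theorem inv_re_eq (z : ℂ) : (z⁻¹).re = z.re / (z.re ^ 2 + z.im ^ 2) := by
  rw [Complex.inv_re, Complex.normSq_apply]
  congr 1
  ring

end ZRM

open ZRM

theorem specZR (hDRP : SpecDRP) (hEXO : SpecEXO) (hUP : SpecUP) (hTFO : SpecTFO) : SpecZR := by
  obtain ⟨C₁, hC₁, hD⟩ := hDRP
  obtain ⟨C₂, hC₂, hU⟩ := hUP
  obtain ⟨C₃, hC₃, hX⟩ := hEXO
  set C : ℝ := max (max C₁ C₂) (max C₃ 1) with hC
  have hC1 : 1 ≤ C := (le_max_right _ _).trans (le_max_right _ _)
  have hCC₁ : C₁ ≤ C := (le_max_left _ _).trans (le_max_left _ _)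
  have hCC₂ : C₂ ≤ C := (le_max_right _ _).trans (le_max_left _ _)
  have hCC₃ : C₃ ≤ C := (le_max_left _ _).trans (le_max_right _ _)
  set a : ℝ := 1 / (100 * C) with ha
  have ha0 : 0 < a := by rw [ha]; positivity
  have ha1 : a ≤ 1 / 100 := by
    rw [ha]
    exact one_div_le_one_div_of_le (by norm_num) (by linarith)
  refine ⟨a / 100, by positivity, by linarith, ?_⟩
  intro q _ χ hχ1 hχ2 B hB hq ρ hρ hρi hγ hL
  have hB0 : 0 < B := by linarith
  have hβ1 : ρ.re < 1 := by
    by_contra hge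
    exact DirichletCharacter.LFunction_ne_zero_of_one_le_re χ (Or.inl hχ1) (not_lt.1 hge) hL
  have hexp := Real.exp_pos B
  have haB : a / B ≤ 1 / 100 := by
    rw [div_le_div_iff₀ hB0 (by norm_num)]
    linarith
  have haB0 : 0 < a / B := by positivity
  have hcB : a / 100 / B ≤ 1 / 100 := by
    rw [div_le_div_iff₀ hB0 (by norm_num)]
    linarith
  have hC1B : C₁ * B ≤ C * B := by nlinarith
  have hC3B : C₃ * B ≤ C * B := by nlinarith
  by_cases hcase : a / B ≤ |ρ.im|
  · -- the zero is not close to the real axis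
    have h1 := (hTFO q (1 + a / B) (by linarith)).1 χ ρ.im
    rw [hχ2] at h1
    have h2 : (ldL (1 : DirichletCharacter ℂ q) (((1 + a / B : ℝ)) : ℂ)).re ≤ B / a + C := by
      have h := (hU q (1 : DirichletCharacter ℂ q) (((1 + a / B : ℝ)) : ℂ)
        (by rw [Complex.ofReal_re]; linarith) (by rw [Complex.ofReal_re]; linarith)).1
      rw [Complex.ofReal_re] at h
      have h' : (1 : ℝ) / (1 + a / B - 1) = B / a := by
        rw [add_sub_cancel_left, one_div_div]
      rw [h'] at h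
      exact (Complex.re_le_norm _).trans (h.trans (by linarith))
    have h3 : (ldL χ (⟨1 + a / B, ρ.im⟩ : ℂ)).re ≤ C * B - 1 / (1 + a / B - ρ.re) := by
      have h := (hD q χ hχ1 B (⟨1 + a / B, ρ.im⟩ : ℂ) hB hq (by
        change |ρ.im| ≤ _
        linarith) (by change 1 < 1 + a / B; linarith) (by change 1 + a / B ≤ _; linarith)).2.1 ρ
        hL (by linarith) (by
          change |ρ.im - ρ.im| ≤ _
          rw [sub_self, abs_zero]
          norm_num)
      have h' : ((⟨1 + a / B, ρ.im⟩ : ℂ) - ρ) = ((1 + a / B - ρ.re : ℝ) : ℂ) := by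
        apply Complex.ext
        · simp
        · simp
      rw [h', ← Complex.ofReal_inv, Complex.ofReal_re] at h
      rw [one_div]
      linarith
    have h4 := hX q B (⟨1 + a / B, 2 * ρ.im⟩ : ℂ) hB hq (by
      change |2 * ρ.im| ≤ _
      rw [abs_mul, abs_of_pos (by norm_num : (0 : ℝ) < 2)]
      linarith) (by change 1 < 1 + a / B; linarith) (by change 1 + a / B ≤ _; linarith)
    have h6 : (((⟨1 + a / B, 2 * ρ.im⟩ : ℂ) - 1)⁻¹).re ≤ B / (5 * a) := by
      rw [inv_re_eq]
      have e1 : ((⟨1 + a / B, 2 * ρ.im⟩ : ℂ) - 1).re = a / B := by simp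
      have e2 : ((⟨1 + a / B, 2 * ρ.im⟩ : ℂ) - 1).im = 2 * ρ.im := by simp
      rw [e1, e2]
      have h7 : (a / B) ^ 2 ≤ ρ.im ^ 2 := by
        rw [← sq_abs ρ.im]
        exact pow_le_pow_left₀ haB0.le hcase 2
      have h8 : 5 * (a / B) ^ 2 ≤ (a / B) ^ 2 + (2 * ρ.im) ^ 2 := by nlinarith
      have h9 : 0 < 5 * (a / B) ^ 2 := by positivity
      calc a / B / ((a / B) ^ 2 + (2 * ρ.im) ^ 2) ≤ a / B / (5 * (a / B) ^ 2) :=
            div_le_div_of_nonneg_left haB0.le h9 h8
        _ = B / (5 * a) := by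
            field_simp
    have h5 : B / (a + a / 100) ≤ 1 / (1 + a / B - ρ.re) := by
      rw [div_le_div_iff₀ (by positivity) (by linarith)]
      have h7 : B * (a / B + a / 100 / B) = a + a / 100 := by
        field_simp
      nlinarith
    refine fin1 hC1 ha rfl hB h5 h6 ?_
    linarith
  · -- the zero is close to the real axis
    push Not at hcase
    have h2a : 2 * a / B = 2 * (a / B) := by ring
    have h1 := (hTFO q (1 + 2 * a / B) (by rw [h2a]; linarith)).2.1 χ hχ2
    have h2 : (ldL (1 : DirichletCharacter ℂ q) (((1 + 2 * a / B : ℝ)) : ℂ)).re ≤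
        B / (2 * a) + C := by
      have h := (hU q (1 : DirichletCharacter ℂ q) (((1 + 2 * a / B : ℝ)) : ℂ)
        (by rw [Complex.ofReal_re, h2a]; linarith) (by rw [Complex.ofReal_re, h2a]; linarith)).1
      rw [Complex.ofReal_re] at h
      have h' : (1 : ℝ) / (1 + 2 * a / B - 1) = B / (2 * a) := by
        rw [add_sub_cancel_left, one_div_div]
      rw [h'] at h
      exact (Complex.re_le_norm _).trans (h.trans (by linarith))
    have hne : ρ ≠ (starRingEnd ℂ) ρ := by
      intro h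
      have := congrArg Complex.im h
      rw [Complex.conj_im] at this
      apply hγ
      linarith
    have him : |ρ.im - ((1 + 2 * a / B : ℝ) : ℂ).im| ≤ 1 / 8 := by
      rw [Complex.ofReal_im, sub_zero]
      linarith
    have him' : |((starRingEnd ℂ) ρ).im - ((1 + 2 * a / B : ℝ) : ℂ).im| ≤ 1 / 8 := by
      rw [Complex.ofReal_im, sub_zero, Complex.conj_im, abs_neg]
      linarith
    have h3 := (hD q χ hχ1 B ((1 + 2 * a / B : ℝ) : ℂ) hB hq (by
      rw [Complex.ofReal_im, abs_zero]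
      positivity) (by rw [Complex.ofReal_re, h2a]; linarith)
      (by rw [Complex.ofReal_re, h2a]; linarith)).2.2 ρ ((starRingEnd ℂ) ρ) hne hL
      (by linarith) him (conj_zero hχ1 hχ2 hL) (by rw [Complex.conj_re]; linarith) him'
    have h4 : (((((1 + 2 * a / B : ℝ) : ℂ)) - ρ)⁻¹).re =
        (1 + 2 * a / B - ρ.re) / ((1 + 2 * a / B - ρ.re) ^ 2 + ρ.im ^ 2) := by
      rw [inv_re_eq, Complex.sub_re, Complex.sub_im, Complex.ofReal_re, Complex.ofReal_im, zero_sub,
        neg_sq]
    have h5 : (((((1 + 2 * a / B : ℝ) : ℂ)) - (starRingEnd ℂ) ρ)⁻¹).re =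
        (1 + 2 * a / B - ρ.re) / ((1 + 2 * a / B - ρ.re) ^ 2 + ρ.im ^ 2) := by
      rw [inv_re_eq, Complex.sub_re, Complex.sub_im, Complex.ofReal_re, Complex.ofReal_im, zero_sub,
        neg_sq, Complex.conj_re, Complex.conj_im, neg_sq]
    rw [h4, h5] at h3
    have h6 := term ha0 hB0 (s := 1 + 2 * a / B - ρ.re) (y := ρ.im) (by linarith) (by linarith)
      hcase
    refine fin2 hC1 ha hB h6 ?_
    linarith

end

end Pool.Agent.Lib.LargeAP
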