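import Pool.Agent.Lib.LP.Main
import Pool.Agent.Lib.LargeAP.LAN
import Pool.Agent.Lib.LargeAP.LB
import Pool.Agent.Lib.LargeAP.LBD
import Pool.Agent.Lib.LargeAP.LBO
import Pool.Agent.Lib.LargeAP.UP
import Pool.Agent.Lib.LargeAP.EXL
import Pool.Agent.Lib.LargeAP.DRP
import Pool.Agent.Lib.LargeAP.EXO
import Pool.Agent.Lib.LargeAP.TFO
import Pool.Agent.Lib.LargeAP.ZC
import Pool.Agent.Lib.LargeAP.ZR
import Pool.Agent.Lib.LargeAP.ZP
import Pool.Agent.Lib.LargeAP.ZF
import Pool.Agent.Lib.LargeAP.EXD
import Pool.Agent.Lib.LargeAP.LD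
import Pool.Agent.Lib.LargeAP.SHG
import Pool.Agent.Lib.LargeAP.DAP
import Pool.Agent.Lib.LargeAP.HEA
import Pool.Agent.Lib.LargeAP.MVA
import Pool.Agent.Lib.LargeAP.MVB
import Pool.Agent.Lib.LargeAP.MV
import Pool.Agent.Lib.LargeAP.FAB
import Pool.Agent.Lib.LargeAP.TAI
import Pool.Agent.Lib.LargeAP.RCT
import Pool.Agent.Lib.LargeAP.ASM
import Pool.Agent.Lib.LargeAP.SUM
import Pool.Agent.Lib.LargeAP.ORT
import Pool.Agent.Lib.LargeAP.LPT
import Pool.Agent.Lib.LargeAP.LPY
import Pool.Agent.Lib.LargeAP.GLE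
import Pool.Agent.Lib.LargeAP.EUL
import Pool.Agent.Lib.LargeAP.MEA
import Pool.Agent.Lib.LargeAP.MEB
import Pool.Agent.Lib.LargeAP.MER
import Pool.Agent.Lib.LargeAP.RGU
import Pool.Agent.Lib.LargeAP.RGC
import Pool.Agent.Lib.LargeAP.RGP
import Pool.Agent.Lib.LargeAP.GRV
import Pool.Agent.Lib.LargeAP.GRR

/-!
# LargeAP: the theorems without hypotheses

`thLPT`: for every `θ < 1` and `ε > 0`, all large `x` and squarefree `Q ≤ exp((log x)^θ)` there is a prime `p₀ > P` such that
every reduced class of every modulus `q ∣ Q` prime to `p₀` has at most `(1+ε) x/φ(q)` (weight `log p`) primes in `(x, 2x]`.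
`thMER`: Mertens' third theorem.  `thGRV`: the sieve constant `e^γ/2`.
-/

set_option autoImplicit false

namespace Pool.Agent.Lib.LargeAP

theorem thPER : LP.SpecPER := LP.specPER
theorem thCON : LP.SpecCON := LP.specCON thPER
theorem thUB : LP.SpecUB := LP.specUB thPER thCON
theorem thDB : LP.SpecDB := LP.specDB thUB
theorem thEXP : LP.SpecEXP := LP.specEXP LP.specGAU

theorem thLAN : SpecLAN := specLAN
theorem thLB : SpecLB := specLB thPER thCON
theorem thLBD : SpecLBD := specLBD thLB
theorem thEXL : SpecEXL := specEXL thLAN thLBD LP.specINV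
theorem thDRP : SpecDRP := specDRP thEXL
theorem thEXO : SpecEXO := specEXO thLAN specLBO LP.specINV
theorem thZC : SpecZC := specZC thDRP specUP specTFO
theorem thZR : SpecZR := specZR thDRP thEXO specUP specTFO
theorem thZP : SpecZP := specZP thDRP specUP specTFO
/-- The classical zero free region with at most one exceptional character. -/
theorem thZF : SpecZF := specZF thZC thZR thZP
theorem thEXD : SpecEXD := specEXD thZF thDB LP.specFIN
theorem thLD : SpecLD := specLD thEXL specUP
theorem thMVB : SpecMVB := specMVB specDAP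
theorem thMV : SpecMV := specMV specHEA (specMVA thLB) thMVB
theorem thFAB : SpecFAB := specFAB thLBD
theorem thTAI : SpecTAI := specTAI specUP
theorem thRCT : SpecRCT := specRCT thLBD thLD LP.specREC
theorem thASM : SpecASM := specASM thEXP specSHG thFAB thTAI thRCT
theorem thSUM : SpecSUM := specSUM thASM thMV
theorem thORT : SpecORT := specORT thEXP thSUM
theorem thLPT : SpecLPT := specLPT thEXD thEXP thORT (LP.specPNG thEXP) LP.specGMS
theorem thLPY : SpecLPY := specLPY thLPT

theorem thMER : SpecMER := specMER specGLE specEUL specMEA specMEB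
theorem thRGP : SpecRGP := specRGP specRGU specRGC
theorem thGRV : SpecGRV := specGRV thMER thRGP
theorem thNNT : SpecNNT := specNNT thLPY

end Pool.Agent.Lib.LargeAP
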