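import Pool.Agent.Lib.MP_926cc3_nt.RS.Gra

/-!
# LargeAP, group G: the sieve constant `e^γ/2` (rough numbers in `[1, z^(2+δ)]`) and Mertens' product

`V z = ∏_{p < z} (1 - 1/p)` and `NoSmall z j` (no prime factor `< z`) are those of
`Pool/Agent/Lib/MP_926cc3_nt/RS/Defs.lean`.  Module files `LargeAP/X.lean`, theorem `specX`, auxiliary lemmas in the
namespace `XM`, as in `Spec.lean`.
-/

set_option autoImplicit false

namespace Pool.Agent.Lib.LargeAP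

open Finset Filter Topology
open scoped Classical

open Pool.Agent.Lib.MP_926cc3_nt.RS (V NoSmall)

noncomputable section

/-- GLE (no hypotheses). Proof. `Complex.hasDerivAt_GammaIntegral` at `s = 1` and `Complex.hasDerivAt_Gamma_one` (or the real
`Real.hasDerivAt_Gamma_one`): `Γ'(1) = ∫ log v e^(-v) dv = -γ`. Integrable: `|log v| ≤ 2 v^(-1/2) + v`. -/
def SpecGLE : Prop :=
  MeasureTheory.IntegrableOn (fun v : ℝ => Real.exp (-v) * Real.log v) (Set.Ioi 0) ∧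
  ∫ v in Set.Ioi (0 : ℝ), Real.exp (-v) * Real.log v = -Real.eulerMascheroniConstant

/-- EUL (no hypotheses). Proof. For `s = 1 + δ` the sum is `log ζ(s)` (Mathlib: `riemannZeta_eulerProduct_exp_log` or
`riemannZeta_eulerProduct_tprod`, real part), and `ζ(s) (s-1) → 1` (`riemannZeta_residue_one`; see also
`log_riemannZeta_add_log_sub_isBigO_ofReal` in `NumberTheory/Harmonic/ZetaAsymp`). -/
def SpecEUL : Prop := Tendsto (fun δ : ℝ =>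
  (∑' p : Nat.Primes, -Real.log (1 - ((p : ℕ) : ℝ) ^ (-(1 + δ)))) + Real.log δ) (𝓝[>] 0) (𝓝 0)

/-- MEA (no hypotheses). Proof. With `y = p^(-δ) ∈ (0,1)`: `-log(1 - y/p) - y (-log(1 - 1/p)) = ∑_{k ≥ 2} (y^k - y)/(k p^k)`, at most
`∑_{k ≥ 2} 1/(2 p^k) ≤ 1/p²` in absolute value, and `→ 0` for every `p` as `δ → 0`: `tendsto_tsum_of_dominated_convergence`.
Both series converge for `δ > 0` (`-log(1 - 1/p) ≤ 2/p`, `∑ p^(-1-δ) < ∞`), so the difference of the sums is the sum of the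
differences. -/
def SpecMEA : Prop := Tendsto (fun δ : ℝ =>
  (∑' p : Nat.Primes, -Real.log (1 - ((p : ℕ) : ℝ) ^ (-(1 + δ))))
    - ∑' p : Nat.Primes, -Real.log (1 - 1 / ((p : ℕ) : ℝ)) * ((p : ℕ) : ℝ) ^ (-δ)) (𝓝[>] 0) (𝓝 0)

/-- MEB (no hypotheses). Proof. `A(x) = ∑_{p ≤ x} -log(1 - 1/p) = -log V(⌊x⌋ + 1)`. `p^(-δ) = ∫_{v ≥ δ log p} e^(-v) dv`, so by Tonelli
the sum is `∫_0^∞ A(e^(v/δ)) e^(-v) dv`, and adding `log δ = ∫ log δ e^(-v) dv` gives `∫_0^∞ (A(e^(v/δ)) + log δ) e^(-v) dv`. By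
hypothesis `A(e^u) - log u → -log c` as `u → ∞`, so the integrand tends to `(log v - log c) e^(-v)` for `v > 0`. Domination:
`|A(e^u) - log(1+u)| ≤ C` for all `u ≥ 0` (limit at infinity, bounded on compact sets), so
`|A(e^(v/δ)) + log δ| ≤ C + |log(δ + v)| ≤ C + |log v| + log(2 + v)` for `0 < δ ≤ 1` (`log(1 + v/δ) + log δ = log(δ + v)`). -/
def SpecMEB : Prop := ∀ c : ℝ, 0 < c → Tendsto (fun z : ℕ => V z * Real.log z) atTop (𝓝 c) →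
  Tendsto (fun δ : ℝ => (∑' p : Nat.Primes, -Real.log (1 - 1 / ((p : ℕ) : ℝ)) * ((p : ℕ) : ℝ) ^ (-δ)) + Real.log δ)
    (𝓝[>] 0) (𝓝 (-Real.log c + ∫ v in Set.Ioi (0 : ℝ), Real.exp (-v) * Real.log v))

/-- MER (from GLE, EUL, MEA, MEB; Mertens' third theorem). Proof. `Pool/Agent/Lib/MP_926cc3_nt/TH/All.lean`: `All.hLIM` and
`specDDE` give some `c > 0` with `V(z) log z → c`. EUL, MEA, MEB and GLE: `0 = -log c - γ`. -/
def SpecMER : Prop := Tendsto (fun z : ℕ => V z * Real.log z) atTop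
  (𝓝 (Real.exp (-Real.eulerMascheroniConstant)))

/-- RGU (no hypotheses). Proof. `Pool.Agent.Lib.MP391708.QPA.specBT specSELB` with `q = 1`, `y = z^(1/4)` (`z ≥ 17`), `x = 0`, `H = Y`:
`C Y/log y + C y² = 4 C Y/log z + C √z`, `√z ≤ 4 Y/log z`. Small `z`: trivial bound `Y`. -/
def SpecRGU : Prop := ∃ C : ℝ, 0 < C ∧ ∀ z Y : ℕ, 2 ≤ z → z ≤ Y →
  (((Icc 1 Y).filter (fun j => NoSmall z j)).card : ℝ) ≤ C * Y / Real.log z

/-- RGC (no hypotheses): rough numbers up to `z^(2+δ)`. Proof. Prime number theorem (`QPA.specPNT`, or `Lib/PntAP/Main.lean`):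
`π(Y) ≤ (1+η) Y/log Y` for `Y ≥ Y₀`. Let `δ < 1`, so `L < z³`: a `z`-rough `j ≤ L` is `1`, a prime, or `p p'` with
`z ≤ p ≤ p'`, `p ≤ √L`. Primes: `≤ (1+η) L/log L ≤ (1+η) L/(2 log z)`. Products: `≤ ∑_{z ≤ p ≤ √L} π(L/p)`, `L/p ≥ √L ≥ z`, so
`≤ (2L/log z) ∑_{z ≤ p ≤ √L} 1/p`; dyadic intervals `[2^k z, 2^(k+1) z)`: each contributes at most
`4/log z`, their number is `≤ 1 + log(√L/z)/log 2 ≤ 1 + δ log z`. Total `≤ L/log z (1/2 + η/2 + 8 δ + 8/log z) + 1`. -/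
def SpecRGC : Prop := ∀ ε : ℝ, 0 < ε → ∃ δ : ℝ, 0 < δ ∧ ∃ z₀ : ℕ, ∀ z L : ℕ, z₀ ≤ z → z ^ 2 ≤ L →
  (L : ℝ) ≤ (z : ℝ) ^ (2 + δ) →
  (((Icc 1 L).filter (fun j => NoSmall z j)).card : ℝ) ≤ (1 / 2 + ε) * L / Real.log z

/-- RGP (from RGU, RGC): the prime `p₀ > P` is allowed. Proof. `R(Y) = #{j ≤ Y : NoSmall z j}`. Every `j` in the set is `p₀^i m` with
`NoSmall z m` (`i = v_{p₀}(j)`; `m` is not divisible by `p₀`), so the count is at most `∑_{i ≥ 0, p₀^i ≤ L} R(L/p₀^i)` (natural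
division). `i = 0`: RGC with `ε/2`. For `i ≥ 1`: `R(Y) ≤ C Y/log z` if `Y ≥ z` (RGU), `R(Y) ≤ 1` if `1 ≤ Y < z`: together
`≤ (C L/log z) 2/p₀ + (1 + log L/log 2)`, which is `≤ (ε/2) L/log z` for `P`, `z₀` large. -/
def SpecRGP : Prop := ∀ ε : ℝ, 0 < ε → ∃ δ : ℝ, 0 < δ ∧ ∃ P z₀ : ℕ, ∀ z L p₀ : ℕ, z₀ ≤ z → p₀.Prime → P < p₀ →
  z ^ 2 ≤ L → (L : ℝ) ≤ (z : ℝ) ^ (2 + δ) →
  (((Icc 1 L).filter (fun j => ∀ p : ℕ, p.Prime → p ∣ j → p ≠ p₀ → z ≤ p)).card : ℝ)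
    ≤ (1 / 2 + ε) * L / Real.log z

/-- GRV (from MER, RGP): Granville's constant. Proof. `j` is coprime to `M` iff no prime `p < z`, `p ≠ p₀` divides `j`
(`j ≥ 1`). `φ(M)/M = ∏_{p < z, p ≠ p₀} (1 - 1/p) ≥ V(z) ≥ (e^(-γ) - η)/log z` for `z ≥ z₀` (MER). So RGP gives
`≤ (1/2 + ε') L/log z ≤ (1/2 + ε')/(e^(-γ) - η) L φ(M)/M`. -/
def SpecGRV : Prop := ∀ ε : ℝ, 0 < ε → ∃ δ : ℝ, 0 < δ ∧ ∃ P z₀ : ℕ, ∀ z L p₀ : ℕ, z₀ ≤ z → p₀.Prime → P < p₀ →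
  z ^ 2 ≤ L → (L : ℝ) ≤ (z : ℝ) ^ (2 + δ) →
  ∀ M : ℕ, M = ∏ p ∈ (Finset.range z).filter (fun p => p.Prime ∧ p ≠ p₀), p →
    (((Icc 1 L).filter (fun j => j.Coprime M)).card : ℝ)
      ≤ (Real.exp Real.eulerMascheroniConstant / 2 + ε) * L * ((M.totient : ℝ) / M)

end

end Pool.Agent.Lib.LargeAP
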