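import Pool.Agent.Lib.LargeAP.SpecG
import Pool.Agent.Lib.MP_926cc3_nt.PP.Spec

/-!
# LargeAP, group H: Maier's constants `e^γ ω(t)` (`ω` = Buchstab's function)

`IsG g` (TH/Spec.lean): `g = 1` on `(-∞,1]`, `g'(t) = g(t-1)/t` for `t > 1`; Buchstab's function is `ω(t) = g(t-1)/t`
(`ω(t) = 1/t` on `[1,2]`, `ω(t) = (1 + log(t-1))/t` on `[2,3]`).
-/

set_option autoImplicit false

namespace Pool.Agent.Lib.LargeAP

open Finset Filter Topology
open scoped Classical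

open Pool.Agent.Lib.MP_926cc3_nt.RS (V NoSmall)
open Pool.Agent.Lib.MP_926cc3_nt.TH (IsG r)

noncomputable section

/-- DFW (from MER): windows of every length `≤ z^U`, `U < t`, with at most `kap V(z) H` rough numbers, for every
`kap > e^γ ω(t)`. Proof as the landed `TH.specDEF` (TH/DEF.lean): `g` is differentiable at `t` with derivative `g(t-1)/t`, so for
some `t < t2` close to `t`: `g t2 - g t < kap0 e^(-γ) (t2 - t)`, `kap0 < kap`. `TH.All.hCNV` (`G z t → g t`) and MER: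
`G z t2 - G z t < kap1 V (t2 - t) log z` for large `z`, `kap1 < kap`. If every window `(a, a+H]` with
`x1 = ⌊z^t⌋ ≤ a ≤ x2 = ⌊z^(t2)⌋` had more than `kap V H` rough numbers, `TH.specWLG` would give
`G z t2 - G z t ≥ kap V log(x2/(x1+H)) ≥ kap V ((t2-t) log z - o(1))` (`H ≤ z^U = o(x1)`), a contradiction, as
`V log z → e^(-γ) > 0`. Take `T` with `t2 ≤ T`. -/
def SpecDFW : Prop := ∀ (g : ℝ → ℝ) (t U kap : ℝ), IsG g → 1 < t → 0 < U → U < t →
  Real.exp Real.eulerMascheroniConstant * (g (t - 1) / t) < kap →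
  ∃ T z₀ : ℕ, ∀ z : ℕ, z₀ ≤ z → ∀ H : ℕ, 1 ≤ H → (H : ℝ) ≤ (z : ℝ) ^ U →
    ∃ a : ℕ, a ≤ z ^ T ∧ ∑ n ∈ Finset.Ioc a (a + H), r z n ≤ kap * V z * H

/-- DRQ (no hypotheses): dropping one prime, windows of length `L ≥ z²`. Proof. If `p₀ ≥ z` the left side is the sum. Let
`p₀ < z`. The extra `n` are the ones divisible by `p₀` with no other prime factor `< z`: `n = p₀^i m`, `i ≥ 1`, `m` rough. Let
`i₀` be the least `i` with `L/p₀^i < z`. The `n` divisible by `p₀^(i₀)`: at most `L/p₀^(i₀) + 1 ≤ z + 1`. For `1 ≤ i < i₀` the `m` lie in a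
window of length `≤ L/p₀^i + 1`, `L/p₀^i ≥ z`: `QPA.specBT specSELB` (`q = 1`, `y = z^(1/4)`, as in `RGU`) gives `≤ C L/(p₀^i log z)`; sum of
the geometric series `≤ 2 C L/(p₀ log z)`. Small `z`: increase `C`. -/
def SpecDRQ : Prop := ∃ C : ℝ, 0 < C ∧ ∀ z p₀ a L : ℕ, 2 ≤ z → p₀.Prime → z ^ 2 ≤ L →
  (((Finset.Ioc a (a + L)).filter (fun n => n.Coprime (Pool.Agent.Lib.MP_926cc3_nt.PP.Mz z p₀))).card : ℝ) ≤
    ∑ n ∈ Finset.Ioc a (a + L), r z n + C * L / (p₀ * Real.log z) + 2 * z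

/-- RGG (from DFW, DRQ, MER, PP.SpecPRL, PP.SpecTOT). -/
def SpecRGG : Prop := ∀ (g : ℝ → ℝ) (t A kap : ℝ), IsG g → 1 < A → A < t →
  Real.exp Real.eulerMascheroniConstant * (g (t - 1) / t) < kap →
  ∃ θ a : ℝ, 0 < θ ∧ θ < 1 ∧ a < 2 ∧ Pool.Agent.Lib.MP_926cc3_nt.PP.Rough θ a A kap

end

end Pool.Agent.Lib.LargeAP
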